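import Pool.Agent.Lib.MP_3c9215_al.SpecCore

set_option autoImplicit false

/-!
# MP_3c9215_al: elementary consequences of the core data
-/

namespace Pool.Agent.Klein

namespace CBasicaux

variable (C : Core)

lemma act_mul (k l : C.Λ) (m : C.M) : C.act (k * l) m = C.act k (C.act l m) := by
  rw [map_mul]; rfl

lemma act_one (m : C.M) : C.act 1 m = m := by
  rw [map_one]; rfl

lemma act_inv_act (k : C.Λ) (m : C.M) : C.act k⁻¹ (C.act k m) = m := by
  rw [← act_mul, inv_mul_cancel, act_one]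

lemma act_act_inv (k : C.Λ) (m : C.M) : C.act k (C.act k⁻¹ m) = m := by
  rw [← act_mul, mul_inv_cancel, act_one]

lemma act_inj (k : C.Λ) {m m' : C.M} (h : C.act k m = C.act k m') : m = m' := by
  rw [← act_inv_act C k m, h, act_inv_act]

lemma b_ne_c : C.b ≠ C.c := fun e => C.ty_c (e ▸ C.ty_b)

lemma j_rinv (α : C.A) : C.j * (C.r α)⁻¹ = C.r α * C.j := by
  have := C.j_r α⁻¹
  rwa [map_inv, inv_inv] at this

lemma fix_c (m : C.M) (hm : m ∈ C.Mp C.c) : C.act C.j m = m := by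
  have h1 := C.act_jb m
  have h2 : C.act C.j m ∈ C.Mp C.c := by
    have := C.mp_sm C.j C.c m hm
    rwa [C.j_c] at this
  exact sub_eq_zero.1 (C.disj C.b C.c _ (b_ne_c C) h1 ((C.Mp C.c).sub_mem h2 hm))

lemma fix_b (m : C.M) (hm : m ∈ C.Mp C.b) : C.act C.j m = -m := by
  have h1 := C.act_jc m
  have h2 : C.act C.j m ∈ C.Mp C.b := by
    have := C.mp_sm C.j C.b m hm
    rwa [C.j_b] at this
  exact eq_neg_of_add_eq_zero_left
    (C.disj C.b C.c _ (b_ne_c C) ((C.Mp C.b).add_mem h2 hm) h1)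

lemma two_mem_b (m : C.M) (hm : C.act C.j m = -m) : m + m ∈ C.Mp C.b := by
  have h1 := (C.Mp C.b).neg_mem (C.act_jb m)
  rw [hm] at h1
  have e : -(-m - m) = m + m := by abel
  rwa [e] at h1

lemma fix_δ (m : C.M) (hm : C.act C.j m = -m) : C.act C.δ m = m := by
  have h1 := two_mem_b C m hm
  have h2 : C.act C.δ (m + m) ∈ C.Mp C.b := by
    have := C.mp_sm C.δ C.b (m + m) h1
    rwa [C.δ_b] at this
  have h3 := C.disj C.b C.c _ (b_ne_c C) ((C.Mp C.b).sub_mem h2 h1) (C.act_δ (m + m))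
  rw [map_add] at h3
  have h4 : (C.act C.δ m - m) + (C.act C.δ m - m) = 0 := by
    rw [← h3]; abel
  exact sub_eq_zero.1 (C.no2 _ h4)

lemma j_n (α : C.A) (m : C.M) :
    C.act C.j (C.act (C.r α) m - C.act (C.r α)⁻¹ m) =
      C.act (C.r α)⁻¹ (C.act C.j m) - C.act (C.r α) (C.act C.j m) := by
  rw [map_sub, ← act_mul, ← act_mul, C.j_r, j_rinv, act_mul, act_mul]

lemma n_fix (α : C.A) (m : C.M) (hm : C.act C.j m = m) :
    C.act C.j (C.act (C.r α) m - C.act (C.r α)⁻¹ m) =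
      -(C.act (C.r α) m - C.act (C.r α)⁻¹ m) := by
  rw [j_n, hm, neg_sub]

lemma n_neg (α : C.A) (m : C.M) (hm : C.act C.j m = -m) :
    C.act C.j (C.act (C.r α) m - C.act (C.r α)⁻¹ m) =
      C.act (C.r α) m - C.act (C.r α)⁻¹ m := by
  rw [j_n, hm, map_neg, map_neg]
  abel

lemma s_q (α : C.A) (m : C.M) :
    C.act (C.s α) (C.act (C.r α) m + C.act (C.r α)⁻¹ m) = m + m := by
  rw [map_add, ← act_mul, ← act_mul, C.s_rel]

lemma q_comm (α : C.A) (k : C.Λ) (m : C.M) (hk : C.s α * k = k * C.s α) :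
    C.act (C.r α) (C.act k m) + C.act (C.r α)⁻¹ (C.act k m) =
      C.act k (C.act (C.r α) m + C.act (C.r α)⁻¹ m) := by
  apply act_inj C (C.s α)
  rw [s_q, ← act_mul, hk, act_mul, s_q, map_add]

lemma n_n (α : C.A) (m : C.M) :
    C.act (C.r α) (C.act (C.r α) m - C.act (C.r α)⁻¹ m) -
      C.act (C.r α)⁻¹ (C.act (C.r α) m - C.act (C.r α)⁻¹ m) =
    C.act (C.r α) (C.act (C.r α) m + C.act (C.r α)⁻¹ m) +
      C.act (C.r α)⁻¹ (C.act (C.r α) m + C.act (C.r α)⁻¹ m) - (4 : ℕ) • m := by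
  rw [map_sub, map_sub, map_add, map_add, act_act_inv, act_inv_act]
  have e : (4 : ℕ) • m = m + m + m + m := by
    simp only [succ_nsmul, zero_nsmul, zero_add]
  rw [e]
  abel

lemma sq_ne (α : C.A) (hα : α ≠ 1) : α * α ≠ 1 := by
  intro e
  obtain ⟨k, ⟨l, rfl⟩, h⟩ := C.A_odd α
  rw [pow_succ, pow_mul, pow_two, e, one_pow, one_mul] at h
  exact hα h

/-- if `R α (R α m) = m` and `m` lies in `Mp p` with `p` moved by `r (α α)` then `m = 0` -/
lemma zero_of_sq (α : C.A) (p : C.L) (m : C.M) (hp : C.sm (C.r (α * α)) p ≠ p)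
    (hm : m ∈ C.Mp p) (h : C.act (C.r α) m = C.act (C.r α)⁻¹ m) : m = 0 := by
  have h1 : C.act (C.r (α * α)) m = m := by
    rw [map_mul C.r, act_mul, h, act_act_inv]
  have h2 := C.mp_sm (C.r (α * α)) p m hm
  rw [h1] at h2
  exact C.disj _ _ m hp h2 hm

end CBasicaux

open CBasicaux in
theorem cBasic : S_CBasic := by
  intro C
  refine ⟨fix_c C, fix_b C, fix_δ C, n_fix C, n_neg C, s_q C, q_comm C, ?_, n_n C, ?_⟩
  · intro α x hx
    have h1 := fix_δ C _ (n_fix C α x hx)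
    rw [map_sub] at h1
    have h2 := q_comm C α C.δ x (C.s_δ α)
    rw [map_sub, map_sub, two_nsmul]
    rw [map_add] at h2
    have h3 : C.act (C.r α) (C.act C.δ x) + C.act (C.r α)⁻¹ (C.act C.δ x) =
        C.act C.δ (C.act (C.r α) x) + C.act C.δ (C.act (C.r α) x) -
          (C.act (C.r α) x - C.act (C.r α)⁻¹ x) := by
      rw [h2, ← h1]; abel
    have h4 : C.act (C.r α) (C.act C.δ x) - C.act (C.r α) x +
        (C.act (C.r α)⁻¹ (C.act C.δ x) - C.act (C.r α)⁻¹ x) =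
        (C.act (C.r α) (C.act C.δ x) + C.act (C.r α)⁻¹ (C.act C.δ x)) -
          (C.act (C.r α) x + C.act (C.r α)⁻¹ x) := by abel
    rw [h4, h3]
    abel
  · intro α hα m hm hs
    have hj := fix_c C m hm
    have e1 : C.act (C.s α) (C.act (C.s α) (C.act (C.r α) (C.act (C.r α) m + C.act (C.r α)⁻¹ m) +
        C.act (C.r α)⁻¹ (C.act (C.r α) m + C.act (C.r α)⁻¹ m))) = (4 : ℕ) • m := by
      rw [s_q, map_add, s_q]
      simp only [succ_nsmul, zero_nsmul, zero_add]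
      abel
    have e2 : C.act (C.s α) (C.act (C.s α) ((4 : ℕ) • m)) = (4 : ℕ) • m := by
      rw [map_nsmul, map_nsmul, hs]
    have e3 := act_inj C _ (act_inj C _ (e1.trans e2.symm))
    have e4 := n_n C α m
    rw [e3, sub_self] at e4
    obtain ⟨v, hv⟩ : ∃ v, v = C.act (C.r α) m - C.act (C.r α)⁻¹ m := ⟨_, rfl⟩
    rw [← hv] at e4
    have jv : C.act C.j v = -v := by rw [hv]; exact n_fix C α m hj
    have hv2 := two_mem_b C v jv
    have nb : C.sm (C.r (α * α)) C.b ≠ C.b := fun e => sq_ne C α hα (C.r_b _ e)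
    have nc : C.sm (C.r (α * α)) C.c ≠ C.c := fun e => sq_ne C α hα (C.r_c _ e)
    have e5 : v + v = 0 := by
      apply zero_of_sq C α C.b _ nb hv2
      rw [map_add, map_add, sub_eq_zero.1 e4]
    have e6 : v = 0 := C.no2 v e5
    apply zero_of_sq C α C.c m nc hm
    rw [hv] at e6
    exact sub_eq_zero.1 e6

end Pool.Agent.Klein
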