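import Pool.Agent.Lib.MP_3c9215_al.SpecCore

set_option autoImplicit false

/-!
# MP_3c9215_al, CFin: finite invariant subgroups in the torsion case
-/

namespace Pool.Agent.Klein

/-- an element killed by an odd prime `ℓ` is in a subgroup as soon as `2 ^ k` times it is -/
theorem cFin_half {M : Type} [AddCommGroup M] (H : AddSubgroup M) (ℓ : ℕ) (hℓ : ℓ.Prime)
    (h2 : ℓ ≠ 2) (k : ℕ) (m : M) (hm : ℓ • m = 0) (h : (2 ^ k : ℕ) • m ∈ H) : m ∈ H := by
  have hc : Nat.Coprime (2 ^ k) ℓ := by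
    apply Nat.Coprime.pow_left
    rw [Nat.coprime_primes Nat.prime_two hℓ]
    exact fun h => h2 h.symm
  have hb : ((Nat.gcdA (2 ^ k) ℓ : ℤ) * (2 ^ k : ℕ) + (Nat.gcdB (2 ^ k) ℓ : ℤ) * (ℓ : ℕ)) = 1 := by
    have := Nat.gcd_eq_gcd_ab (2 ^ k) ℓ
    rw [hc.gcd_eq_one] at this
    push_cast at this ⊢
    linarith
  have e : m = (Nat.gcdA (2 ^ k) ℓ : ℤ) • ((2 ^ k : ℕ) • m)
      + (Nat.gcdB (2 ^ k) ℓ : ℤ) • ((ℓ : ℕ) • m) := by
    rw [← natCast_zsmul, ← natCast_zsmul, smul_smul, smul_smul, ← add_smul, hb, one_smul]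
  rw [e, hm, smul_zero, add_zero]
  exact H.zsmul_mem h _

/-- the subgroup generated by `w, d w, …, d^(k-1) w` -/
def cFinF {M : Type} [AddCommGroup M] (d : M → M) (w : M) (k : ℕ) : AddSubgroup M :=
  AddSubgroup.closure {x | ∃ i, i < k ∧ x = d^[i] w}

theorem cFinF_mono {M : Type} [AddCommGroup M] (d : M → M) (w : M) {k l : ℕ} (h : k ≤ l) :
    cFinF d w k ≤ cFinF d w l := by
  apply AddSubgroup.closure_mono
  rintro x ⟨i, hi, rfl⟩
  exact ⟨i, lt_of_lt_of_le hi h, rfl⟩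

theorem cFinF_gen {M : Type} [AddCommGroup M] (d : M → M) (w : M) {i k : ℕ} (h : i < k) :
    d^[i] w ∈ cFinF d w k := AddSubgroup.subset_closure ⟨i, h, rfl⟩

theorem cFinF_map {M : Type} [AddCommGroup M] (d : M →+ M) (w : M) (k : ℕ) (x : M)
    (hx : x ∈ cFinF d w k) : d x ∈ cFinF d w (k + 1) := by
  have h : cFinF d w k ≤ (cFinF d w (k + 1)).comap d := by
    rw [cFinF, AddSubgroup.closure_le]
    rintro y ⟨i, hi, rfl⟩
    show d (d^[i] w) ∈ cFinF d w (k + 1)
    rw [← Function.iterate_succ_apply' d i w]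
    exact cFinF_gen d w (by omega)
  exact h hx

theorem cFin_cheb {M : Type} [AddCommGroup M] (d : M →+ M) (w : M) (k : ℕ) :
    (cheb d k w ∈ cFinF d w (k + 1)) ∧
    (cheb d (k + 1) w - (2 ^ (k + 1) : ℕ) • (d^[k + 1] w) ∈ cFinF d w (k + 1)) ∧
    (cheb d (k + 1) w ∈ cFinF d w (k + 2)) := by
  have key : ∀ k, (cheb d k w ∈ cFinF d w (k + 1)) →
      (cheb d (k + 1) w - (2 ^ (k + 1) : ℕ) • (d^[k + 1] w) ∈ cFinF d w (k + 1)) →
      (cheb d (k + 1) w ∈ cFinF d w (k + 2)) := by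
    intro k h1 h2
    have h3 : d^[k + 1] w ∈ cFinF d w (k + 2) := cFinF_gen d w (by omega)
    have h4 := cFinF_mono d w (show k + 1 ≤ k + 2 by omega) h2
    have e : cheb d (k + 1) w = (cheb d (k + 1) w - (2 ^ (k + 1) : ℕ) • (d^[k + 1] w))
        + (2 ^ (k + 1) : ℕ) • (d^[k + 1] w) := by abel
    rw [e]
    exact (cFinF d w (k + 2)).add_mem h4 ((cFinF d w (k + 2)).nsmul_mem h3 _)
  induction k with
  | zero =>
      have h1 : cheb d 0 w ∈ cFinF d w (0 + 1) := by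
        have h : w ∈ cFinF d w (0 + 1) := cFinF_gen (i := 0) d w (by omega)
        exact (cFinF d w (0 + 1)).add_mem h h
      have h2 : cheb d (0 + 1) w - (2 ^ (0 + 1) : ℕ) • (d^[0 + 1] w) ∈ cFinF d w (0 + 1) := by
        have e : cheb d (0 + 1) w - (2 ^ (0 + 1) : ℕ) • (d^[0 + 1] w) = 0 := by
          show (d w + d w) - (2 ^ (0 + 1) : ℕ) • (d w) = 0
          rw [zero_add, pow_one, two_nsmul, sub_self]
        rw [e]
        exact (cFinF d w (0 + 1)).zero_mem
      exact ⟨h1, h2, key 0 h1 h2⟩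
  | succ k ih =>
      obtain ⟨i1, i2, i3⟩ := ih
      have h2 : cheb d (k + 1 + 1) w - (2 ^ (k + 1 + 1) : ℕ) • (d^[k + 1 + 1] w) ∈
          cFinF d w (k + 1 + 1) := by
        have e : cheb d (k + 1 + 1) w - (2 ^ (k + 1 + 1) : ℕ) • (d^[k + 1 + 1] w) =
            (2 : ℕ) • d (cheb d (k + 1) w - (2 ^ (k + 1) : ℕ) • (d^[k + 1] w)) - cheb d k w := by
          have e1 : cheb d (k + 1 + 1) w =
              d (cheb d (k + 1) w) + d (cheb d (k + 1) w) - cheb d k w := rfl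
          rw [e1, map_sub, map_nsmul, ← Function.iterate_succ_apply' d (k + 1) w, smul_sub,
            two_nsmul (d (cheb d (k + 1) w)), smul_smul, pow_succ' 2 (k + 1)]
          abel
        rw [e]
        exact (cFinF d w (k + 1 + 1)).sub_mem
          ((cFinF d w (k + 1 + 1)).nsmul_mem (cFinF_map d w _ _ i2) _)
          (cFinF_mono d w (by omega) i1)
      exact ⟨i3, h2, key (k + 1) i3 h2⟩

theorem cFin_top {M : Type} [AddCommGroup M] (d : M →+ M) (w : M) (ℓ : ℕ) (hℓ : ℓ.Prime)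
    (h2 : ℓ ≠ 2) (hw : ℓ • w = 0) (n : ℕ) (hn : 1 ≤ n) (h : cheb d n w = w + w) :
    ∀ x ∈ cFinF d w n, d x ∈ cFinF d w n := by
  have hi : ∀ i, ℓ • (d^[i] w) = 0 := by
    intro i
    induction i with
    | zero => exact hw
    | succ i ih => rw [Function.iterate_succ_apply', ← map_nsmul, ih, map_zero]
  have htop : d^[n] w ∈ cFinF d w n := by
    apply cFin_half _ ℓ hℓ h2 n _ (hi n)
    obtain ⟨m, rfl⟩ : ∃ m, n = m + 1 := ⟨n - 1, by omega⟩
    have h1 := (cFin_cheb d w m).2.1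
    rw [h] at h1
    have h3 : w + w ∈ cFinF d w (m + 1) := by
      have h : w ∈ cFinF d w (m + 1) := cFinF_gen (i := 0) d w (by omega)
      exact (cFinF d w (m + 1)).add_mem h h
    have e : (2 ^ (m + 1) : ℕ) • (d^[m + 1] w) =
        (w + w) - ((w + w) - (2 ^ (m + 1) : ℕ) • (d^[m + 1] w)) := by abel
    rw [e]
    exact (cFinF d w (m + 1)).sub_mem h3 h1
  have hle : cFinF d w n ≤ (cFinF d w n).comap d := by
    rw [cFinF, AddSubgroup.closure_le]
    rintro y ⟨i, hi, rfl⟩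
    show d (d^[i] w) ∈ cFinF d w n
    rw [← Function.iterate_succ_apply' d i w]
    rcases Nat.lt_or_ge (i + 1) n with h | h
    · exact cFinF_gen d w h
    · have : i.succ = n := by omega
      rw [this]
      exact htop
  exact fun x hx => hle hx

/-- a finitely generated additive subgroup of an abelian group killed by `ℓ ≥ 1` is finite -/
theorem cFin_finite {M : Type} [AddCommGroup M] (S : Set M) (hS : S.Finite) (ℓ : ℕ) (hℓ : 0 < ℓ)
    (h : ∀ m ∈ AddSubgroup.closure S, ℓ • m = 0) : Finite (AddSubgroup.closure S) := by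
  have hfg : AddGroup.FG (AddSubgroup.closure S) := by
    rw [AddGroup.fg_iff_addSubgroup_fg]
    exact ⟨hS.toFinset, by rw [hS.coe_toFinset]⟩
  have hM : Module.Finite ℤ (AddSubgroup.closure S) := by
    rw [Module.Finite.iff_addGroup_fg]
    exact hfg
  refine AddCommGroup.finite_of_fg_isAddTorsion _ ?_
  intro x
  rw [isOfFinAddOrder_iff_nsmul_eq_zero]
  exact ⟨ℓ, hℓ, Subtype.ext (by simpa using h x.1 x.2)⟩

theorem cFin (h1 : S_CBasic) : S_CFin := by
  intro C w₀ ℓ hw₀ hℓ h2 hk A₀ hA₀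
  obtain ⟨b1, -, -, -, -, -, -, b7, -, -⟩ := h1 C
  obtain ⟨n, hn, hint⟩ := C.W_int
  let d : C.M →+ C.M := C.act C.δ
  have hd : ∀ x, d x = C.act C.δ x := fun _ => rfl
  have hch : cheb d n w₀ = w₀ + w₀ := hint w₀ hw₀
  have hX := cFin_top d w₀ ℓ hℓ h2 hk n hn hch
  have hiW : ∀ i, d^[i] w₀ ∈ C.W := by
    intro i
    induction i with
    | zero => exact hw₀
    | succ i ih =>
        rw [Function.iterate_succ_apply']
        exact C.W_sm C.δ C.δ_c _ ih
  have hik : ∀ i, ℓ • (d^[i] w₀) = 0 := by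
    intro i
    induction i with
    | zero => exact hk
    | succ i ih => rw [Function.iterate_succ_apply', ← map_nsmul, ih, map_zero]
  let S : Set C.M := Set.range (fun p : A₀ × Fin n => C.act (C.r p.1.1) (d^[(p.2 : ℕ)] w₀))
  have hS : S.Finite := Set.finite_range _
  have hkS : ∀ m ∈ AddSubgroup.closure S, ℓ • m = 0 := by
    intro m hm
    induction hm using AddSubgroup.closure_induction with
    | mem x hx =>
        obtain ⟨p, rfl⟩ := hx
        show ℓ • (C.act (C.r p.1.1) (d^[(p.2 : ℕ)] w₀)) = 0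
        rw [← map_nsmul, hik, map_zero]
    | zero => exact smul_zero _
    | add x y _ _ hx hy => rw [smul_add, hx, hy, add_zero]
    | neg x _ hx => rw [smul_neg, hx, neg_zero]
  have hfin : Finite (AddSubgroup.closure S) := cFin_finite S hS ℓ hℓ.pos hkS
  -- `R α` maps the subgroup `X₀` to `M₀`
  have hRX : ∀ α ∈ A₀, ∀ x ∈ cFinF d w₀ n, C.act (C.r α) x ∈ AddSubgroup.closure S := by
    intro α hα x hx
    have hle : cFinF d w₀ n ≤
        (AddSubgroup.closure S).comap (C.act (C.r α) : C.M →+ C.M) := by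
      rw [cFinF, AddSubgroup.closure_le]
      rintro y ⟨i, hi, rfl⟩
      exact AddSubgroup.subset_closure ⟨(⟨α, hα⟩, ⟨i, hi⟩), rfl⟩
    exact hle hx
  have hR : ∀ α ∈ A₀, ∀ m ∈ AddSubgroup.closure S, C.act (C.r α) m ∈ AddSubgroup.closure S := by
    intro α hα m hm
    have hle : AddSubgroup.closure S ≤
        (AddSubgroup.closure S).comap (C.act (C.r α) : C.M →+ C.M) := by
      rw [AddSubgroup.closure_le]
      rintro y ⟨p, rfl⟩
      show C.act (C.r α) (C.act (C.r p.1.1) (d^[(p.2 : ℕ)] w₀)) ∈ AddSubgroup.closure S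
      have e : C.act (C.r α) (C.act (C.r p.1.1) (d^[(p.2 : ℕ)] w₀)) =
          C.act (C.r (α * p.1.1)) (d^[(p.2 : ℕ)] w₀) := by
        rw [map_mul, map_mul]
        rfl
      rw [e]
      exact AddSubgroup.subset_closure
        ⟨(⟨α * p.1.1, A₀.mul_mem hα p.1.2⟩, p.2), rfl⟩
    exact hle hm
  have hδ : ∀ m ∈ AddSubgroup.closure S, C.act C.δ m ∈ AddSubgroup.closure S := by
    intro m hm
    have hle : AddSubgroup.closure S ≤ (AddSubgroup.closure S).comap d := by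
      rw [AddSubgroup.closure_le]
      rintro y ⟨p, rfl⟩
      show C.act C.δ (C.act (C.r p.1.1) (d^[(p.2 : ℕ)] w₀)) ∈ AddSubgroup.closure S
      have hx : d^[(p.2 : ℕ)] w₀ ∈ cFinF d w₀ n := cFinF_gen d w₀ p.2.2
      have hy : C.act C.δ (d^[(p.2 : ℕ)] w₀) - d^[(p.2 : ℕ)] w₀ ∈ cFinF d w₀ n :=
        (cFinF d w₀ n).sub_mem (hX _ hx) hx
      have hj : C.act C.j (d^[(p.2 : ℕ)] w₀) = d^[(p.2 : ℕ)] w₀ := b1 _ (C.W_le (hiW _))
      have e7 := b7 p.1.1 _ hj
      have hinv : (C.r p.1.1)⁻¹ = C.r (p.1.1)⁻¹ := (map_inv C.r _).symm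
      rw [hinv] at e7
      have h3 : (2 : ℕ) • (C.act C.δ (C.act (C.r p.1.1) (d^[(p.2 : ℕ)] w₀))
          - C.act (C.r p.1.1) (d^[(p.2 : ℕ)] w₀)) ∈ AddSubgroup.closure S := by
        rw [e7]
        exact AddSubgroup.add_mem _ (hRX _ p.1.2 _ hy) (hRX _ (A₀.inv_mem p.1.2) _ hy)
      have h4 : C.act (C.r p.1.1) (d^[(p.2 : ℕ)] w₀) ∈ AddSubgroup.closure S :=
        hRX _ p.1.2 _ hx
      apply cFin_half _ ℓ hℓ h2 1
      · rw [← map_nsmul, ← map_nsmul, hik, map_zero, map_zero]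
      · have e : (2 ^ 1 : ℕ) • (C.act C.δ (C.act (C.r p.1.1) (d^[(p.2 : ℕ)] w₀))) =
            (2 : ℕ) • (C.act C.δ (C.act (C.r p.1.1) (d^[(p.2 : ℕ)] w₀))
              - C.act (C.r p.1.1) (d^[(p.2 : ℕ)] w₀))
            + (2 : ℕ) • (C.act (C.r p.1.1) (d^[(p.2 : ℕ)] w₀)) := by
          rw [smul_sub, pow_one, sub_add_cancel]
        rw [e]
        exact AddSubgroup.add_mem _ h3 (AddSubgroup.nsmul_mem _ h4 _)
    exact hle hm
  refine ⟨AddSubgroup.closure S, hfin, ?_, hkS, hR, hδ, ?_⟩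
  · apply AddSubgroup.subset_closure
    refine ⟨(⟨1, A₀.one_mem⟩, ⟨0, hn⟩), ?_⟩
    show C.act (C.r 1) (d^[0] w₀) = w₀
    rw [map_one, map_one]
    rfl
  · intro m hm
    let f : AddSubgroup.closure S → AddSubgroup.closure S :=
      fun x => ⟨C.act C.δ x.1, hδ x.1 x.2⟩
    have hcancel : ∀ x, C.act C.δ⁻¹ (C.act C.δ x) = x := by
      intro x
      have e : C.act C.δ⁻¹ (C.act C.δ x) = C.act (C.δ⁻¹ * C.δ) x := by
        rw [map_mul]
        rfl
      rw [e, inv_mul_cancel, map_one]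
      rfl
    have hinj : Function.Injective f := by
      intro x y hxy
      have h := congrArg Subtype.val hxy
      have h' : C.act C.δ x.1 = C.act C.δ y.1 := h
      apply Subtype.ext
      rw [← hcancel x.1, h', hcancel]
    obtain ⟨x, hx⟩ := (Finite.injective_iff_surjective.mp hinj) ⟨m, hm⟩
    have hx' : C.act C.δ x.1 = m := congrArg Subtype.val hx
    rw [← hx', hcancel]
    exact x.2

end Pool.Agent.Klein
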