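import Pool.Agent.Lib.MP_3c9215_al.SpecCore

set_option autoImplicit false

/-!
# MP_3c9215_al: the torsion-free case of the core is impossible
-/

namespace Pool.Agent.Klein

/-! ### pure algebra -/

lemma nt_chebF_map {R K : Type} [CommRing R] [CommRing K] (f : R →+* K) (u : R) (n : ℕ) :
    f (chebF u n) = chebF (f u) n := by
  induction n using Nat.strong_induction_on with
  | _ n ih =>
    match n, ih with
    | 0, _ => exact map_ofNat f 2
    | 1, _ => rfl
    | (k + 2), ih =>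
      have a := ih k (by omega)
      have b := ih (k + 1) (by omega)
      simp only [chebF, map_sub, map_mul, a, b]

lemma nt_field (h3 : S_TF) (R : Type) [CommRing R] (t ti : R) (ht : t * ti = 1) (σ σi : ℕ → R)
    (hσ : ∀ k, σ k * σi k = 1) (hrel : ∀ k, σ k ^ 2 - 1 = t ^ (2 * k) * (σ 0 ^ 2 - 1))
    (hD : ∃ m : ℕ, 1 ≤ m ∧ chebF (2 * t) m = 2)
    (hDk : ∀ k, ∃ n : ℕ, 1 ≤ n ∧ chebF (2 * σi k) n = 2)
    (hz : ∀ m : ℕ, 1 ≤ m → ∀ k : ℕ, (m : R) * ((t ^ 2 - 1) * (σ 0 ^ 2 - 1)) ^ k ≠ 0) : False := by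
  obtain ⟨z, hzdef⟩ : ∃ z, z = (t ^ 2 - 1) * (σ 0 ^ 2 - 1) := ⟨_, rfl⟩
  rw [← hzdef] at hz
  let S : Submonoid R :=
    { carrier := {x | ∃ m : ℕ, 1 ≤ m ∧ ∃ k : ℕ, x = (m : R) * z ^ k}
      one_mem' := ⟨1, le_rfl, 0, by simp⟩
      mul_mem' := by
        rintro x y ⟨m, hm, k, rfl⟩ ⟨n, hn, l, rfl⟩
        exact ⟨m * n, Nat.mul_pos hm hn, k + l, by push_cast; ring⟩ }
  have hdis : Disjoint ((⊥ : Ideal R) : Set R) (S : Set R) := by
    rw [Set.disjoint_left]
    rintro x hx ⟨m, hm, k, e⟩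
    have hx0 : x = 0 := by simpa using hx
    exact hz m hm k (e.symm.trans hx0)
  obtain ⟨p, hp, _, hpS⟩ := Ideal.exists_le_prime_disjoint ⊥ S hdis
  have hnot : ∀ m : ℕ, 1 ≤ m → ∀ k : ℕ, (m : R) * z ^ k ∉ p := by
    intro m hm k hmem
    exact (Set.disjoint_left.1 hpS) hmem ⟨m, hm, k, rfl⟩
  let K := FractionRing (R ⧸ p)
  let f : R →+* K := (algebraMap (R ⧸ p) K).comp (Ideal.Quotient.mk p)
  have hf : ∀ x, f x = 0 → x ∈ p := by
    intro x hx
    have h0 : Ideal.Quotient.mk p x = 0 := by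
      apply IsFractionRing.injective (R ⧸ p) K
      rw [map_zero]
      exact hx
    exact Ideal.Quotient.eq_zero_iff_mem.1 h0
  have : CharZero K := by
    apply charZero_of_inj_zero
    intro n hn
    by_contra hne
    apply hnot n (Nat.pos_of_ne_zero hne) 0
    apply hf
    rw [pow_zero, mul_one, map_natCast]
    exact hn
  have hz1 : z ∉ p := by
    have := hnot 1 le_rfl 1
    simpa using this
  have ht0 : f t ≠ 0 := by
    intro h0
    have := congrArg f ht
    rw [map_mul, h0, zero_mul, map_one] at this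
    exact zero_ne_one this
  have ht1 : f t ^ 2 ≠ 1 := by
    intro h0
    apply hz1
    rw [hzdef]
    apply p.mul_mem_right
    apply hf
    rw [map_sub, map_pow, h0, map_one, sub_self]
  have hx0 : f (σ 0 ^ 2 - 1) ≠ 0 := by
    intro h0
    apply hz1
    rw [hzdef]
    apply p.mul_mem_left
    exact hf _ h0
  refine h3 K (f t) (f (σ 0 ^ 2 - 1)) ht0 ht1 hx0 ?_ ?_
  · obtain ⟨m, hm, e⟩ := hD
    refine ⟨m, hm, ?_⟩
    have := congrArg f e
    rw [nt_chebF_map, map_mul, map_ofNat] at this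
    exact this
  · intro k
    obtain ⟨n, hn, e⟩ := hDk k
    refine ⟨n, hn, f (2 * σi k), ?_, ?_⟩
    · have e2 : (2 * σi k) ^ 2 * (1 + t ^ (2 * k) * (σ 0 ^ 2 - 1)) = 4 := by
        rw [← hrel k]
        calc (2 * σi k) ^ 2 * (1 + (σ k ^ 2 - 1)) = 4 * (σ k * σi k) ^ 2 := by ring
          _ = 4 := by rw [hσ k]; ring
      have := congrArg f e2
      simp only [map_mul, map_pow, map_add, map_one, map_ofNat] at this
      rw [map_mul, map_ofNat]
      exact this
    · have := congrArg f e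
      rw [nt_chebF_map, map_ofNat] at this
      exact this

lemma nt_comm_ring {E : Type} [Ring E] (s : Set E) (hs : ∀ x ∈ s, ∀ y ∈ s, x * y = y * x) :
    ∃ (R : Type) (_ : CommRing R) (ψ : R →+* E), Function.Injective ψ ∧
      ∀ x ∈ s, ∃ y, ψ y = x := by
  refine ⟨Subring.closure s, Subring.closureCommRingOfComm hs, ?_⟩
  exact ⟨(Subring.closure s).subtype, Subtype.val_injective,
    fun x hx => ⟨⟨x, Subring.subset_closure hx⟩, rfl⟩⟩

/-! ### the action -/

lemma nt_act_mul (C : Core) (k l : C.Λ) (m : C.M) : C.act (k * l) m = C.act k (C.act l m) := by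
  rw [map_mul]
  rfl

lemma nt_act_one (C : Core) (m : C.M) : C.act 1 m = m := by
  rw [map_one]
  rfl

lemma nt_inv_act (C : Core) (k : C.Λ) (m : C.M) : C.act k⁻¹ (C.act k m) = m := by
  rw [← nt_act_mul, inv_mul_cancel, nt_act_one]

lemma nt_act_inv (C : Core) (k : C.Λ) (m : C.M) : C.act k (C.act k⁻¹ m) = m := by
  rw [← nt_act_mul, mul_inv_cancel, nt_act_one]

/-- elements whose action commutes with the action of `b` -/
def ntCent (C : Core) (b : C.Λ) : Subgroup C.Λ where
  carrier := {a | ∀ m, C.act a (C.act b m) = C.act b (C.act a m)}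
  mul_mem' := by
    intro a a' ha ha' m
    rw [nt_act_mul, nt_act_mul, ha', ha]
  one_mem' := by
    intro m
    rw [nt_act_one, nt_act_one]
  inv_mem' := by
    intro a ha m
    have h1 := ha (C.act a⁻¹ m)
    rw [nt_act_inv] at h1
    have h2 := congrArg (fun x => C.act a⁻¹ x) h1
    simp only [nt_inv_act] at h2
    exact h2.symm

lemma nt_comm (C : Core) (X : Set C.Λ)
    (hX : ∀ a ∈ X, ∀ b ∈ X, ∀ m, C.act a (C.act b m) = C.act b (C.act a m)) :
    ∀ a ∈ Subgroup.closure X, ∀ b ∈ Subgroup.closure X, ∀ m,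
      C.act a (C.act b m) = C.act b (C.act a m) := by
  have h1 : ∀ b ∈ X, Subgroup.closure X ≤ ntCent C b := fun b hb =>
    (Subgroup.closure_le _).2 fun a ha => hX a ha b hb
  intro a ha b hb m
  have h2 : Subgroup.closure X ≤ ntCent C a := by
    rw [Subgroup.closure_le]
    intro b hb m
    exact (h1 b hb ha m).symm
  exact (h2 hb m).symm

/-- the stabilizer of the point `c` -/
def ntStab (C : Core) : Subgroup C.Λ where
  carrier := {k | C.sm k C.c = C.c}
  mul_mem' := by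
    intro a b ha hb
    show C.sm (a * b) C.c = C.c
    rw [C.mul_sm, show C.sm b C.c = C.c from hb, show C.sm a C.c = C.c from ha]
  one_mem' := C.one_sm _
  inv_mem' := by
    intro a ha
    show C.sm a⁻¹ C.c = C.c
    have h0 : C.sm a C.c = C.c := ha
    calc C.sm a⁻¹ C.c = C.sm a⁻¹ (C.sm a C.c) := by rw [h0]
      _ = C.c := by rw [← C.mul_sm, inv_mul_cancel, C.one_sm]

/-- the restriction to `W` -/
def ntRes (C : Core) (k : C.Λ) (hk : C.sm k C.c = C.c) : AddMonoid.End C.W where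
  toFun w := ⟨C.act k w, C.W_sm k hk w w.2⟩
  map_zero' := by
    apply Subtype.ext
    show C.act k ((0 : C.W) : C.M) = 0
    rw [AddSubgroup.coe_zero, map_zero]
  map_add' := by
    intro x y
    apply Subtype.ext
    show C.act k ((x + y : C.W) : C.M) = C.act k x + C.act k y
    rw [AddSubgroup.coe_add, map_add]

theorem cNoTor (h1 : S_CBasic) (h2 : S_CRel) (h3 : S_TF) : S_CNoTor := by
  rintro C ⟨ρ, hρ⟩ htf
  obtain ⟨_, _, _, _, _, c5, c6, _, _, c9⟩ := h1 C
  -- `2 S_α⁻¹ = q α`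
  have hq : ∀ α m, C.act (C.s α)⁻¹ m + C.act (C.s α)⁻¹ m = C.act (C.r α) m + C.act (C.r α)⁻¹ m := by
    intro α m
    rw [← map_add, ← c5 α m, nt_inv_act]
  -- the `q α` commute
  have hqq : ∀ α β m, C.act (C.r α) (C.act (C.r β) m + C.act (C.r β)⁻¹ m) +
      C.act (C.r α)⁻¹ (C.act (C.r β) m + C.act (C.r β)⁻¹ m) =
      C.act (C.r β) (C.act (C.r α) m + C.act (C.r α)⁻¹ m) +
      C.act (C.r β)⁻¹ (C.act (C.r α) m + C.act (C.r α)⁻¹ m) := by
    intro α β m
    have hk : C.s α * (C.r β)⁻¹ = (C.r β)⁻¹ * C.s α := by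
      have hc : Commute (C.s α) (C.r β) := C.s_r α β
      exact hc.inv_right
    have e1 := c6 α (C.r β) m (C.s_r α β)
    have e2 := c6 α (C.r β)⁻¹ m hk
    rw [← e1, ← e2, map_add, map_add]
    abel
  -- the inverse homologies commute
  have hss : ∀ α β m, C.act (C.s α)⁻¹ (C.act (C.s β)⁻¹ m) = C.act (C.s β)⁻¹ (C.act (C.s α)⁻¹ m) := by
    intro α β m
    have key : ∀ α β m, C.act (C.s α)⁻¹ (C.act (C.s β)⁻¹ m) + C.act (C.s α)⁻¹ (C.act (C.s β)⁻¹ m) +
        (C.act (C.s α)⁻¹ (C.act (C.s β)⁻¹ m) + C.act (C.s α)⁻¹ (C.act (C.s β)⁻¹ m)) =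
        C.act (C.r α) (C.act (C.r β) m + C.act (C.r β)⁻¹ m) +
        C.act (C.r α)⁻¹ (C.act (C.r β) m + C.act (C.r β)⁻¹ m) := by
      intro α β m
      rw [← hq β m, ← hq α, map_add]
    have e : (C.act (C.s α)⁻¹ (C.act (C.s β)⁻¹ m) - C.act (C.s β)⁻¹ (C.act (C.s α)⁻¹ m)) +
        (C.act (C.s α)⁻¹ (C.act (C.s β)⁻¹ m) - C.act (C.s β)⁻¹ (C.act (C.s α)⁻¹ m)) = 0 := by
      apply C.no2
      have k1 := key α β m
      have k2 := key β α m
      rw [hqq α β m, ← k2] at k1
      have k3 := sub_eq_zero.2 k1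
      rw [← k3]
      abel
    exact sub_eq_zero.1 (C.no2 _ e)
  -- the commuting set of group elements
  obtain ⟨X, hXdef⟩ : ∃ X : Set C.Λ, X = Set.range (fun α => (C.s α)⁻¹) ∪ {C.δ} := ⟨_, rfl⟩
  have hX : ∀ a ∈ X, ∀ b ∈ X, ∀ m, C.act a (C.act b m) = C.act b (C.act a m) := by
    have hd : ∀ α m, C.act (C.s α)⁻¹ (C.act C.δ m) = C.act C.δ (C.act (C.s α)⁻¹ m) := by
      intro α m
      have hc : Commute (C.s α) C.δ := C.s_δ α
      have hc2 : (C.s α)⁻¹ * C.δ = C.δ * (C.s α)⁻¹ := hc.inv_left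
      rw [← nt_act_mul, hc2, nt_act_mul]
    intro a ha b hb m
    rw [hXdef] at ha hb
    rcases ha with ⟨α, rfl⟩ | ha
    · rcases hb with ⟨β, rfl⟩ | hb
      · exact hss α β m
      · rw [Set.mem_singleton_iff] at hb
        rw [hb]
        exact hd α m
    · rw [Set.mem_singleton_iff] at ha
      rw [ha]
      rcases hb with ⟨β, rfl⟩ | hb
      · exact (hd β m).symm
      · rw [Set.mem_singleton_iff] at hb
        rw [hb]
  have hcomm := nt_comm C X hX
  have hstab : Subgroup.closure X ≤ ntStab C := by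
    rw [Subgroup.closure_le, hXdef]
    rintro a (⟨α, rfl⟩ | ha)
    · exact (ntStab C).inv_mem (C.s_sm α C.c)
    · rw [Set.mem_singleton_iff] at ha
      rw [ha]
      exact C.δ_c
  have hδX : C.δ ∈ Subgroup.closure X :=
    Subgroup.subset_closure (by rw [hXdef]; exact Or.inr rfl)
  have hsiX : ∀ α, (C.s α)⁻¹ ∈ Subgroup.closure X := fun α =>
    Subgroup.subset_closure (by rw [hXdef]; exact Or.inl ⟨α, rfl⟩)
  have hsX : ∀ α, C.s α ∈ Subgroup.closure X := fun α => by
    have := (Subgroup.closure X).inv_mem (hsiX α)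
    rwa [inv_inv] at this
  -- the commutative ring
  obtain ⟨R, iR, ψ, hψ, hsurj⟩ := nt_comm_ring
    {e : AddMonoid.End C.W | ∃ k ∈ Subgroup.closure X, ∀ w, ((e w : C.W) : C.M) = C.act k w}
    (by
      rintro e ⟨k, hk, he⟩ e' ⟨k', hk', he'⟩
      apply AddMonoidHom.ext
      intro w
      apply Subtype.ext
      show ((e (e' w) : C.W) : C.M) = ((e' (e w) : C.W) : C.M)
      rw [he, he', he', he, hcomm k hk k' hk'])
  have hex : ∀ k ∈ Subgroup.closure X, ∃ y : R, ∀ w, ((ψ y w : C.W) : C.M) = C.act k w := by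
    intro k hk
    obtain ⟨y, hy⟩ := hsurj (ntRes C k (hstab hk)) ⟨k, hk, fun w => rfl⟩
    refine ⟨y, fun w => ?_⟩
    rw [hy]
    rfl
  have hext : ∀ x y : R, (∀ w, ((ψ x w : C.W) : C.M) = ((ψ y w : C.W) : C.M)) → x = y := by
    intro x y hxy
    apply hψ
    apply AddMonoidHom.ext
    intro w
    exact Subtype.ext (hxy w)
  have hmul : ∀ (x y : R) (w : C.W), ψ (x * y) w = ψ x (ψ y w) := by
    intro x y w
    rw [map_mul]
    rfl
  have hadd : ∀ (x y : R) (w : C.W), ψ (x + y) w = ψ x w + ψ y w := by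
    intro x y w
    rw [map_add]
    rfl
  have hsub : ∀ (x y : R) (w : C.W), ψ (x - y) w = ψ x w - ψ y w := by
    intro x y w
    rw [map_sub]
    rfl
  have hone : ∀ w : C.W, ψ 1 w = w := by
    intro w
    rw [map_one]
    rfl
  have htwo : ∀ w : C.W, ψ 2 w = w + w := by
    intro w
    rw [← one_add_one_eq_two, hadd, hone]
  obtain ⟨t, ht⟩ := hex C.δ hδX
  obtain ⟨ti, hti⟩ := hex C.δ⁻¹ ((Subgroup.closure X).inv_mem hδX)
  choose g hg1 hg2 using C.lemT
  obtain ⟨rr, hrr0, hrrs⟩ : ∃ rr : ℕ → C.A, rr 0 = ρ ∧ ∀ k, rr (k + 1) = g (rr k) :=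
    ⟨fun k => g^[k] ρ, rfl, fun k => Function.iterate_succ_apply' g k ρ⟩
  choose σ hσ using fun k => hex (C.s (rr k)) (hsX _)
  choose σi hσi using fun k => hex (C.s (rr k))⁻¹ (hsiX _)
  have hWc : ∀ w : C.W, (w : C.M) ∈ C.Mp C.c := fun w => C.W_le w.2
  refine nt_field h3 R t ti ?_ σ σi ?_ ?_ ?_ ?_ ?_
  · apply hext
    intro w
    rw [hmul, ht, hti, nt_act_inv, hone]
  · intro k
    apply hext
    intro w
    rw [hmul, hσ, hσi, nt_act_inv, hone]
  · -- the relation
    have step : ∀ k, σ (k + 1) ^ 2 - 1 = t ^ 2 * (σ k ^ 2 - 1) := by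
      intro k
      apply hext
      intro w
      have e := h2 C (rr k) (rr (k + 1)) (by rw [hrrs]; exact hg1 _) (by rw [hrrs]; exact hg2 _)
        w (hWc w)
      rw [hsub, AddSubgroup.coe_sub, pow_two, hmul, hσ, hσ, hone, e, pow_two, hmul, hmul, ht, ht,
        hsub, AddSubgroup.coe_sub, pow_two, hmul, hσ, hσ, hone]
    intro k
    induction k with
    | zero => simp
    | succ k ih =>
      rw [step k, ih]
      ring
  · -- `D_m (2 t) = 2`
    obtain ⟨n, hn, hW⟩ := C.W_int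
    refine ⟨n, hn, ?_⟩
    have key : ∀ n, ∀ w : C.W, ((ψ (chebF (2 * t) n) w : C.W) : C.M) =
        cheb (fun x => C.act C.δ x) n (w : C.M) := by
      intro n
      induction n using Nat.strong_induction_on with
      | _ n ih =>
        match n, ih with
        | 0, _ =>
          intro w
          show ((ψ 2 w : C.W) : C.M) = (w : C.M) + w
          rw [htwo]
          rfl
        | 1, _ =>
          intro w
          show ((ψ (2 * t) w : C.W) : C.M) = C.act C.δ w + C.act C.δ w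
          rw [hmul, htwo, AddSubgroup.coe_add, ht]
        | (k + 2), ih =>
          intro w
          have a := ih k (by omega) w
          have b := ih (k + 1) (by omega) w
          show ((ψ (2 * t * chebF (2 * t) (k + 1) - chebF (2 * t) k) w : C.W) : C.M) =
            C.act C.δ (cheb (fun x => C.act C.δ x) (k + 1) w) +
              C.act C.δ (cheb (fun x => C.act C.δ x) (k + 1) w) -
              cheb (fun x => C.act C.δ x) k w
          rw [hsub, AddSubgroup.coe_sub, hmul, hmul, htwo, AddSubgroup.coe_add, ht, a, b]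
    apply hext
    intro w
    rw [key, htwo, AddSubgroup.coe_add]
    exact hW w w.2
  · -- `D_n (2 σi) = 2`
    intro k
    obtain ⟨n, hn, hpow⟩ := C.A_odd (rr k)
    refine ⟨n, hn.pos, ?_⟩
    have key : ∀ n, ∀ w : C.W, ((ψ (chebF (2 * σi k) n) w : C.W) : C.M) =
        C.act (C.r (rr k) ^ n) (w : C.M) + C.act ((C.r (rr k))⁻¹ ^ n) (w : C.M) := by
      intro n
      induction n using Nat.strong_induction_on with
      | _ n ih =>
        match n, ih with
        | 0, _ =>
          intro w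
          show ((ψ 2 w : C.W) : C.M) = _
          rw [htwo, pow_zero, pow_zero, nt_act_one]
          rfl
        | 1, _ =>
          intro w
          show ((ψ (2 * σi k) w : C.W) : C.M) = _
          rw [hmul, htwo, AddSubgroup.coe_add, hσi, hq, pow_one, pow_one]
        | (l + 2), ih =>
          intro w
          have a := ih l (by omega) w
          have b := ih (l + 1) (by omega) w
          show ((ψ (2 * σi k * chebF (2 * σi k) (l + 1) - chebF (2 * σi k) l) w : C.W) : C.M) = _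
          rw [hsub, AddSubgroup.coe_sub, hmul, hmul, htwo, AddSubgroup.coe_add, hσi, hq, a, b,
            map_add, map_add, ← nt_act_mul, ← nt_act_mul, ← nt_act_mul, ← nt_act_mul]
          have e1 : C.r (rr k) * C.r (rr k) ^ (l + 1) = C.r (rr k) ^ (l + 2) := by
            rw [← pow_succ']
          have e2 : C.r (rr k) * (C.r (rr k))⁻¹ ^ (l + 1) = (C.r (rr k))⁻¹ ^ l := by
            rw [pow_succ', ← mul_assoc, mul_inv_cancel, one_mul]
          have e3 : (C.r (rr k))⁻¹ * C.r (rr k) ^ (l + 1) = C.r (rr k) ^ l := by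
            rw [pow_succ', ← mul_assoc, inv_mul_cancel, one_mul]
          have e4 : (C.r (rr k))⁻¹ * (C.r (rr k))⁻¹ ^ (l + 1) = (C.r (rr k))⁻¹ ^ (l + 2) := by
            rw [← pow_succ']
          rw [e1, e2, e3, e4]
          abel
    apply hext
    intro w
    rw [key, htwo, AddSubgroup.coe_add, inv_pow, ← map_pow, hpow, map_one, inv_one, nt_act_one]
  · -- `m z ^ k ≠ 0`
    intro m hm k h0
    obtain ⟨z, hz⟩ : ∃ z, z = (t ^ 2 - 1) * (σ 0 ^ 2 - 1) := ⟨_, rfl⟩
    rw [← hz] at h0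
    have hzinj : ∀ w : C.W, ψ z w = 0 → w = 0 := by
      intro w hw
      rw [hz, hmul] at hw
      have e1 : ψ (σ 0 ^ 2 - 1) w = 0 := by
        obtain ⟨v, hv⟩ : ∃ v, v = ψ (σ 0 ^ 2 - 1) w := ⟨_, rfl⟩
        rw [← hv] at hw ⊢
        have e2 := congrArg (fun x : C.W => (x : C.M)) hw
        rw [hsub, AddSubgroup.coe_sub, pow_two, hmul, ht, ht, hone] at e2
        have e3 := C.δ_sq v (hWc v) (sub_eq_zero.1 e2)
        exact Subtype.ext e3
      have e2 := congrArg (fun x : C.W => (x : C.M)) e1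
      rw [hsub, AddSubgroup.coe_sub, pow_two, hmul, hσ, hσ, hone, hrr0] at e2
      have e3 := c9 ρ hρ w (hWc w) (sub_eq_zero.1 e2)
      exact Subtype.ext e3
    have hzk : ∀ k, ∀ w : C.W, ψ (z ^ k) w = 0 → w = 0 := by
      intro k
      induction k with
      | zero =>
        intro w hw
        rwa [pow_zero, hone] at hw
      | succ k ih =>
        intro w hw
        rw [pow_succ', hmul] at hw
        exact ih w (hzinj _ hw)
    obtain ⟨w₀, hw₀, hne⟩ := C.W_ne
    apply hne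
    have e1 : ψ ((m : R) * z ^ k) ⟨w₀, hw₀⟩ = 0 := by
      rw [h0, map_zero]
      rfl
    rw [hmul, map_natCast] at e1
    have e2 : m • (ψ (z ^ k) ⟨w₀, hw₀⟩ : C.W) = 0 := by
      rw [← AddMonoid.End.natCast_apply]
      exact e1
    have e3 : m • ((ψ (z ^ k) ⟨w₀, hw₀⟩ : C.W) : C.M) = 0 := by
      have := congrArg (fun x : C.W => (x : C.M)) e2
      simpa using this
    have e4 := htf _ (ψ (z ^ k) ⟨w₀, hw₀⟩ : C.W).2 m hm e3
    have e5 := hzk k ⟨w₀, hw₀⟩ (Subtype.ext e4)
    exact congrArg (fun x : C.W => (x : C.M)) e5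

end Pool.Agent.Klein
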