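import Pool.Agent.Lib.MP_3c9215_al.SpecCore

set_option autoImplicit false

/-!
# MP_3c9215_al: the relation between `S_ρ` and `S_ρ'`
-/

namespace Pool.Agent.Klein

namespace CRelAux

variable (C : Core)

/-- `q α` -/
def qq (α : C.A) (m : C.M) : C.M := C.act (C.r α) m + C.act (C.r α)⁻¹ m

/-- `n α` -/
def nn (α : C.A) (m : C.M) : C.M := C.act (C.r α) m - C.act (C.r α)⁻¹ m

lemma act_mul (k l : C.Λ) (m : C.M) : C.act (k * l) m = C.act k (C.act l m) := by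
  rw [map_mul]; rfl

lemma act_inv_act (k : C.Λ) (m : C.M) : C.act k⁻¹ (C.act k m) = m := by
  rw [← act_mul, inv_mul_cancel, map_one]; rfl

lemma act_act_inv (k : C.Λ) (m : C.M) : C.act k (C.act k⁻¹ m) = m := by
  rw [← act_mul, mul_inv_cancel, map_one]; rfl

lemma act_comm {k l : C.Λ} (h : k * l = l * k) (m : C.M) : C.act k (C.act l m) = C.act l (C.act k m) := by
  rw [← act_mul, h, act_mul]

lemma inv_comm {k l : C.Λ} (h : k * l = l * k) : k * l⁻¹ = l⁻¹ * k := by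
  have : Commute k l := h
  exact this.inv_right

lemma qq_add (α : C.A) (x y : C.M) : qq C α (x + y) = qq C α x + qq C α y := by
  simp only [qq, map_add]; abel

lemma qq_sub (α : C.A) (x y : C.M) : qq C α (x - y) = qq C α x - qq C α y := by
  simp only [qq, map_sub]; abel

lemma nn_add (α : C.A) (x y : C.M) : nn C α (x + y) = nn C α x + nn C α y := by
  simp only [nn, map_add]; abel

lemma nn_sub (α : C.A) (x y : C.M) : nn C α (x - y) = nn C α x - nn C α y := by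
  simp only [nn, map_sub]; abel

lemma qq_neg (α : C.A) (x : C.M) : qq C α (-x) = -qq C α x := by
  simp only [qq, map_neg]; abel

lemma no4 {m : C.M} (h : (4 : ℕ) • m = 0) : m = 0 := by
  apply C.no2
  apply C.no2
  have e : m + m + (m + m) = (4 : ℕ) • m := by module
  rw [e, h]

lemma no16 {m : C.M} (h : (16 : ℕ) • m = 0) : m = 0 := by
  apply no4 C
  apply no4 C
  have e : (4 : ℕ) • ((4 : ℕ) • m) = (16 : ℕ) • m := by module
  rw [e, h]

end CRelAux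

open CRelAux

theorem cRel (h1 : S_CBasic) : S_CRel := by
  intro C ρ ρ' hb hc x hx
  obtain ⟨b1, b2, b3, b4, b5, b6, b7, _, b9, _⟩ := h1 C
  -- commutation of `q`
  have qact : ∀ (α : C.A) (k : C.Λ) (m : C.M), C.s α * k = k * C.s α →
      qq C α (C.act k m) = C.act k (qq C α m) := fun α k m h => b7 α k m h
  have qr : ∀ (α β : C.A) (m : C.M), qq C α (C.act (C.r β) m) = C.act (C.r β) (qq C α m) :=
    fun α β m => qact α _ m (C.s_r α β)
  have qri : ∀ (α β : C.A) (m : C.M), qq C α (C.act (C.r β)⁻¹ m) = C.act (C.r β)⁻¹ (qq C α m) :=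
    fun α β m => qact α _ m (inv_comm C (C.s_r α β))
  have qd : ∀ (α : C.A) (m : C.M), qq C α (C.act C.δ m) = C.act C.δ (qq C α m) :=
    fun α m => qact α _ m (C.s_δ α)
  have qdi : ∀ (α : C.A) (m : C.M), qq C α (C.act C.δ⁻¹ m) = C.act C.δ⁻¹ (qq C α m) :=
    fun α m => qact α _ m (inv_comm C (C.s_δ α))
  have qj : ∀ (α : C.A) (m : C.M), qq C α (C.act C.j m) = C.act C.j (qq C α m) :=
    fun α m => qact α _ m (C.s_j α)
  have qn : ∀ (α β : C.A) (m : C.M), qq C α (nn C β m) = nn C β (qq C α m) := by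
    intro α β m
    rw [nn, qq_sub, qr, qri]; rfl
  have qqc : ∀ (α β : C.A) (m : C.M), qq C α (qq C β m) = qq C β (qq C α m) := by
    intro α β m
    conv_lhs => rw [qq.eq_1 C β m]
    rw [qq_add, qr, qri]; rfl
  have sq : ∀ (α β : C.A) (m : C.M), C.act (C.s β) (qq C α m) = qq C α (C.act (C.s β) m) := by
    intro α β m
    rw [qq, map_add, act_comm C (C.s_r β α), act_comm C (inv_comm C (C.s_r β α))]; rfl
  have s2 : ∀ (α : C.A) (m : C.M), C.act (C.s α) (qq C α m) = m + m := fun α m => b6 α m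
  have jd : ∀ m : C.M, C.act C.j (C.act C.δ m) = C.act C.δ (C.act C.j m) :=
    fun m => act_comm C C.δ_j.symm m
  have jdi : ∀ m : C.M, C.act C.j (C.act C.δ⁻¹ m) = C.act C.δ⁻¹ (C.act C.j m) :=
    fun m => act_comm C (inv_comm C C.δ_j.symm) m
  have sd : ∀ (α : C.A) (m : C.M), C.act (C.s α) (C.act C.δ m) = C.act C.δ (C.act (C.s α) m) :=
    fun α m => act_comm C (C.s_δ α) m
  have n4 : ∀ (α : C.A) (m : C.M), C.act C.j m = m → C.act C.j (nn C α m) = -nn C α m :=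
    fun α m h => b4 α m h
  have n5 : ∀ (α : C.A) (m : C.M), C.act C.j m = -m → C.act C.j (nn C α m) = nn C α m :=
    fun α m h => b5 α m h
  have nsq : ∀ (α : C.A) (m : C.M), nn C α (nn C α m) = qq C α (qq C α m) - (4 : ℕ) • m :=
    fun α m => b9 α m
  have twoR : ∀ (α : C.A) (m : C.M), (2 : ℕ) • C.act (C.r α) m = qq C α m + nn C α m := by
    intro α m; simp only [qq, nn]; module
  have twoRi : ∀ (α : C.A) (m : C.M), (2 : ℕ) • C.act (C.r α)⁻¹ m = qq C α m - nn C α m := by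
    intro α m; simp only [qq, nn]; module
  -- (i)
  have i0 : ∀ v ∈ C.Mp C.b, qq C ρ' (C.act C.δ (nn C ρ v)) = nn C ρ' (qq C ρ v) := by
    intro v hv
    have jv : C.act C.j v = -v := b2 v hv
    have dv : C.act C.δ v = v := b3 v jv
    have hk : C.sm ((C.r ρ')⁻¹ * (C.δ * C.r ρ)) C.b = C.b := by
      rw [C.mul_sm, hb, ← C.mul_sm, inv_mul_cancel, C.one_sm]
    have hQ : C.act ((C.r ρ')⁻¹ * (C.δ * C.r ρ)) v ∈ C.Mp C.b := by
      have := C.mp_sm ((C.r ρ')⁻¹ * (C.δ * C.r ρ)) C.b v hv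
      rwa [hk] at this
    have jQ := b2 _ hQ
    rw [act_mul, act_mul] at jQ
    have e4 : (4 : ℕ) • C.act (C.r ρ')⁻¹ (C.act C.δ (C.act (C.r ρ) v)) =
        (qq C ρ' (qq C ρ v) - nn C ρ' (C.act C.δ (nn C ρ v))) +
        (qq C ρ' (C.act C.δ (nn C ρ v)) - nn C ρ' (qq C ρ v)) := by
      have e1 : (4 : ℕ) • C.act (C.r ρ')⁻¹ (C.act C.δ (C.act (C.r ρ) v)) =
          (2 : ℕ) • C.act (C.r ρ')⁻¹ (C.act C.δ ((2 : ℕ) • C.act (C.r ρ) v)) := by
        rw [map_nsmul, map_nsmul, ← mul_nsmul]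
      rw [e1, twoRi, twoR, map_add, ← qd, dv, qq_add, nn_add]
      abel
    have jB1 : C.act C.j (qq C ρ' (qq C ρ v) - nn C ρ' (C.act C.δ (nn C ρ v))) =
        -(qq C ρ' (qq C ρ v) - nn C ρ' (C.act C.δ (nn C ρ v))) := by
      rw [map_sub, n4 ρ' (C.act C.δ (nn C ρ v)) (by rw [jd, n5 ρ v jv]), ← qj, ← qj, jv, qq_neg,
        qq_neg]
      abel
    have jB2 : C.act C.j (qq C ρ' (C.act C.δ (nn C ρ v)) - nn C ρ' (qq C ρ v)) =
        qq C ρ' (C.act C.δ (nn C ρ v)) - nn C ρ' (qq C ρ v) := by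
      rw [map_sub, n5 ρ' (qq C ρ v) (by rw [← qj, jv, qq_neg]), ← qj, jd, n5 ρ v jv]
    have e5 := congrArg (fun m => (4 : ℕ) • m) jQ
    simp only [smul_neg] at e5
    rw [← map_nsmul, e4, map_add, jB1, jB2] at e5
    have e6 : (qq C ρ' (C.act C.δ (nn C ρ v)) - nn C ρ' (qq C ρ v)) +
        (qq C ρ' (C.act C.δ (nn C ρ v)) - nn C ρ' (qq C ρ v)) = 0 := by
      have e7 := congrArg (fun m => m + (qq C ρ' (qq C ρ v) - nn C ρ' (C.act C.δ (nn C ρ v))) +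
        (qq C ρ' (C.act C.δ (nn C ρ v)) - nn C ρ' (qq C ρ v))) e5
      calc _ = -(qq C ρ' (qq C ρ v) - nn C ρ' (C.act C.δ (nn C ρ v))) +
          (qq C ρ' (C.act C.δ (nn C ρ v)) - nn C ρ' (qq C ρ v)) +
          (qq C ρ' (qq C ρ v) - nn C ρ' (C.act C.δ (nn C ρ v))) +
          (qq C ρ' (C.act C.δ (nn C ρ v)) - nn C ρ' (qq C ρ v)) := by abel
        _ = _ := e7
        _ = 0 := by abel
    exact sub_eq_zero.1 (C.no2 _ e6)
  have i1 : ∀ v, C.act C.j v = -v → qq C ρ' (C.act C.δ (nn C ρ v)) = nn C ρ' (qq C ρ v) := by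
    intro v jv
    have hv2 : v + v ∈ C.Mp C.b := by
      have h3 := (C.Mp C.b).neg_mem (C.act_jb v)
      have e : -(C.act C.j v - v) = v + v := by rw [jv]; abel
      rwa [e] at h3
    have h4 := i0 _ hv2
    rw [nn_add, map_add, qq_add, qq_add, nn_add] at h4
    apply sub_eq_zero.1
    apply C.no2
    calc _ = (qq C ρ' (C.act C.δ (nn C ρ v)) + qq C ρ' (C.act C.δ (nn C ρ v))) -
        (nn C ρ' (qq C ρ v) + nn C ρ' (qq C ρ v)) := by abel
      _ = 0 := by rw [h4]; abel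
  -- (ii)
  have i2 : ∀ y ∈ C.Mp C.c, qq C ρ' (nn C ρ y) = nn C ρ' (C.act C.δ⁻¹ (qq C ρ y)) := by
    intro v hv
    have jv : C.act C.j v = v := b1 v hv
    have hn1 : C.act C.j (nn C ρ v) = -nn C ρ v := n4 ρ v jv
    have hn2 : C.act C.δ⁻¹ (nn C ρ v) = nn C ρ v := by
      have := b3 _ hn1
      conv_lhs => rw [← this]
      rw [act_inv_act]
    have hk : C.sm ((C.r ρ')⁻¹ * (C.δ⁻¹ * C.r ρ)) C.c = C.c := by
      rw [C.mul_sm, hc, ← C.mul_sm, inv_mul_cancel, C.one_sm]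
    have hQ : C.act ((C.r ρ')⁻¹ * (C.δ⁻¹ * C.r ρ)) v ∈ C.Mp C.c := by
      have := C.mp_sm ((C.r ρ')⁻¹ * (C.δ⁻¹ * C.r ρ)) C.c v hv
      rwa [hk] at this
    have jQ := b1 _ hQ
    rw [act_mul, act_mul] at jQ
    have e4 : (4 : ℕ) • C.act (C.r ρ')⁻¹ (C.act C.δ⁻¹ (C.act (C.r ρ) v)) =
        (qq C ρ' (C.act C.δ⁻¹ (qq C ρ v)) - nn C ρ' (nn C ρ v)) +
        (qq C ρ' (nn C ρ v) - nn C ρ' (C.act C.δ⁻¹ (qq C ρ v))) := by
      have e1 : (4 : ℕ) • C.act (C.r ρ')⁻¹ (C.act C.δ⁻¹ (C.act (C.r ρ) v)) =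
          (2 : ℕ) • C.act (C.r ρ')⁻¹ (C.act C.δ⁻¹ ((2 : ℕ) • C.act (C.r ρ) v)) := by
        rw [map_nsmul, map_nsmul, ← mul_nsmul]
      rw [e1, twoRi, twoR, map_add, hn2, qq_add, nn_add]
      abel
    have jB1 : C.act C.j (qq C ρ' (C.act C.δ⁻¹ (qq C ρ v)) - nn C ρ' (nn C ρ v)) =
        qq C ρ' (C.act C.δ⁻¹ (qq C ρ v)) - nn C ρ' (nn C ρ v) := by
      rw [map_sub, n5 ρ' (nn C ρ v) hn1, ← qj, jdi, ← qj, jv]
    have jB2 : C.act C.j (qq C ρ' (nn C ρ v) - nn C ρ' (C.act C.δ⁻¹ (qq C ρ v))) =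
        -(qq C ρ' (nn C ρ v) - nn C ρ' (C.act C.δ⁻¹ (qq C ρ v))) := by
      rw [map_sub, n4 ρ' (C.act C.δ⁻¹ (qq C ρ v)) (by rw [jdi, ← qj, jv]), ← qj, hn1, qq_neg]
      abel
    have e5 := congrArg (fun m => (4 : ℕ) • m) jQ
    beta_reduce at e5
    rw [← map_nsmul, e4, map_add, jB1, jB2] at e5
    have e6 : (qq C ρ' (nn C ρ v) - nn C ρ' (C.act C.δ⁻¹ (qq C ρ v))) +
        (qq C ρ' (nn C ρ v) - nn C ρ' (C.act C.δ⁻¹ (qq C ρ v))) = 0 := by
      have e7 := congrArg (fun m => m - (qq C ρ' (C.act C.δ⁻¹ (qq C ρ v)) - nn C ρ' (nn C ρ v)) +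
        (qq C ρ' (nn C ρ v) - nn C ρ' (C.act C.δ⁻¹ (qq C ρ v)))) e5
      calc _ = (qq C ρ' (C.act C.δ⁻¹ (qq C ρ v)) - nn C ρ' (nn C ρ v)) +
          (qq C ρ' (nn C ρ v) - nn C ρ' (C.act C.δ⁻¹ (qq C ρ v))) -
          (qq C ρ' (C.act C.δ⁻¹ (qq C ρ v)) - nn C ρ' (nn C ρ v)) +
          (qq C ρ' (nn C ρ v) - nn C ρ' (C.act C.δ⁻¹ (qq C ρ v))) := by abel
        _ = _ := e7.symm
        _ = 0 := by abel
    exact sub_eq_zero.1 (C.no2 _ e6)
  -- the final computation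
  have hdx : C.act C.δ x ∈ C.Mp C.c := by
    have := C.mp_sm C.δ C.c x hx
    rwa [C.δ_c] at this
  have jx : C.act C.j (C.act C.δ x) = C.act C.δ x := b1 _ hdx
  have k1 : nn C ρ' (qq C ρ x) = qq C ρ' (nn C ρ (C.act C.δ x)) := by
    have := i2 _ hdx
    rw [qd, act_inv_act] at this
    exact this.symm
  have jn : C.act C.j (nn C ρ (C.act C.δ x)) = -nn C ρ (C.act C.δ x) := n4 ρ _ jx
  have k2 := i1 _ jn
  have k3 : nn C ρ' (nn C ρ' (qq C ρ (qq C ρ x))) =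
      qq C ρ' (qq C ρ' (C.act C.δ (nn C ρ (nn C ρ (C.act C.δ x))))) := by
    calc nn C ρ' (nn C ρ' (qq C ρ (qq C ρ x)))
        = nn C ρ' (qq C ρ (nn C ρ' (qq C ρ x))) := by rw [qn ρ ρ' (qq C ρ x)]
      _ = nn C ρ' (qq C ρ (qq C ρ' (nn C ρ (C.act C.δ x)))) := by rw [k1]
      _ = nn C ρ' (qq C ρ' (qq C ρ (nn C ρ (C.act C.δ x)))) := by rw [qqc ρ ρ']
      _ = qq C ρ' (nn C ρ' (qq C ρ (nn C ρ (C.act C.δ x)))) := by
          rw [qn ρ' ρ' (qq C ρ (nn C ρ (C.act C.δ x)))]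
      _ = _ := by rw [← k2]
  rw [nsq, nsq] at k3
  have ss : ∀ (α : C.A) (m : C.M), C.act (C.s α) (C.act (C.s α) (qq C α (qq C α m))) =
      (4 : ℕ) • m := by
    intro α m
    rw [s2, map_add, s2]; module
  have qsmul : ∀ (α : C.A) (k : ℕ) (m : C.M), qq C α (k • m) = k • qq C α m := by
    intro α k m
    simp only [qq, map_nsmul, smul_add]
  have k5 := congrArg (fun m => C.act (C.s ρ) (C.act (C.s ρ) m)) k3
  beta_reduce at k5
  rw [map_sub, map_sub, sq, sq, sq, sq, map_nsmul, map_nsmul, ss, sq, sq, sq, sq, sd, sd, map_sub,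
    map_sub, ss, map_nsmul, map_nsmul, sd, sd] at k5
  have k6 := congrArg (fun m => C.act (C.s ρ') (C.act (C.s ρ') m)) k5
  beta_reduce at k6
  rw [map_sub, map_sub, ss, ss, map_nsmul, map_nsmul, map_nsmul, map_nsmul] at k6
  have k7 : (16 : ℕ) • ((C.act (C.s ρ') (C.act (C.s ρ') x) - x) -
      C.act C.δ (C.act C.δ (C.act (C.s ρ) (C.act (C.s ρ) x) - x))) = 0 := by
    simp only [map_sub, map_nsmul] at k6 ⊢
    rw [← sub_eq_zero] at k6
    rw [← neg_eq_zero, ← k6]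
    module
  exact sub_eq_zero.1 (no16 C k7)

end Pool.Agent.Klein
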