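import Pool.Agent.Lib.MP_3c9215_al.SpecCore

set_option autoImplicit false

namespace Pool.Agent.Klein

namespace CUniAux

variable (C : Core)

theorem amul (k l : C.Λ) (m : C.M) : C.act (k * l) m = C.act k (C.act l m) := by
  rw [map_mul]; rfl

theorem aone (m : C.M) : C.act 1 m = m := by
  rw [map_one]; rfl

theorem ainv (k : C.Λ) (m : C.M) : C.act k (C.act k⁻¹ m) = m := by
  rw [← amul, mul_inv_cancel, aone]

theorem inva (k : C.Λ) (m : C.M) : C.act k⁻¹ (C.act k m) = m := by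
  rw [← amul, inv_mul_cancel, aone]

theorem sm_inv (k : C.Λ) (p : C.L) (h : C.sm k p = p) : C.sm k⁻¹ p = p := by
  have h1 := C.mul_sm k⁻¹ k p
  rw [inv_mul_cancel, C.one_sm, h] at h1
  exact h1.symm

theorem odd_mem (ℓ : ℕ) (hℓ : Odd ℓ) (S : AddSubgroup C.M) (m : C.M) (h0 : ℓ • m = 0)
    (h2 : (2 : ℕ) • m ∈ S) : m ∈ S := by
  obtain ⟨k, rfl⟩ := hℓ
  have h1 : m = -(k • ((2 : ℕ) • m)) := by
    have h : (2 * k + 1) • m = k • ((2 : ℕ) • m) + m := by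
      rw [add_smul, one_smul, mul_comm, mul_smul]
    rw [h] at h0
    exact eq_neg_of_add_eq_zero_right h0
  rw [h1]
  exact S.neg_mem (S.nsmul_mem h2 k)

/-- the sum of a rotation and its inverse -/
def q (α : C.A) (m : C.M) : C.M := C.act (C.r α) m + C.act (C.r α)⁻¹ m

theorem q_sub (α : C.A) (m m' : C.M) : q C α (m - m') = q C α m - q C α m' := by
  simp only [q, map_sub]; abel

variable {C}

theorem q_comm (h1 : S_CBasic) (α : C.A) (k : C.Λ) (m : C.M) (hk : C.s α * k = k * C.s α) :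
    q C α (C.act k m) = C.act k (q C α m) :=
  (h1 C).2.2.2.2.2.2.1 α k m hk

theorem j_q (h1 : S_CBasic) (α : C.A) (m : C.M) (hm : C.act C.j m = m) :
    C.act C.j (q C α m) = q C α m := by
  rw [← q_comm h1 α C.j m (C.s_j α), hm]

/-- modulo the elements with centre `b`, `4 R` is `2 q` on the elements fixed by `j` -/
theorem four_R (h1 : S_CBasic) (α : C.A) (z : C.M) (hz : C.act C.j z = z) :
    (4 : ℕ) • C.act (C.r α) z - (2 : ℕ) • q C α z ∈ C.Mp C.b := by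
  have h4 := (h1 C).2.2.2.1 α z hz
  have hb := C.act_jb (C.act (C.r α) z - C.act (C.r α)⁻¹ z)
  rw [h4] at hb
  have e : (4 : ℕ) • C.act (C.r α) z - (2 : ℕ) • q C α z =
      -(-(C.act (C.r α) z - C.act (C.r α)⁻¹ z) - (C.act (C.r α) z - C.act (C.r α)⁻¹ z)) := by
    simp only [q]; abel
  rw [e]
  exact (C.Mp C.b).neg_mem hb

theorem j_δi (x : C.M) (hx : C.act C.j x = x) : C.act C.j (C.act C.δ⁻¹ x) = C.act C.δ⁻¹ x := by
  have h : C.j * C.δ⁻¹ = C.δ⁻¹ * C.j := by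
    have h0 := C.δ_j
    rw [eq_inv_mul_iff_mul_eq, ← mul_assoc, h0, mul_assoc, mul_inv_cancel, mul_one]
  rw [← amul, h, amul, hx]

theorem j_δ (x : C.M) (hx : C.act C.j x = x) : C.act C.j (C.act C.δ x) = C.act C.δ x := by
  rw [← amul, ← C.δ_j, amul, hx]

variable (C)

/-- the map `Y` which commutes with `δ` -/
def Y (ρ₁ ρ : C.A) (x : C.M) : C.M :=
  (2 : ℕ) • q C (ρ₁ * ρ) (C.act C.δ⁻¹ x) + q C ρ₁ (q C ρ (x - C.act C.δ⁻¹ x))

variable {C}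

theorem Y_δ (h1 : S_CBasic) (ρ₁ ρ : C.A) (x : C.M) :
    Y C ρ₁ ρ (C.act C.δ x) = C.act C.δ (Y C ρ₁ ρ x) := by
  have hc : ∀ α, C.s α * C.δ = C.δ * C.s α := C.s_δ
  have e : C.act C.δ⁻¹ (C.act C.δ x) = C.act C.δ (C.act C.δ⁻¹ x) := by
    rw [inva, ainv]
  unfold Y
  rw [e, ← map_sub, q_comm h1 ρ C.δ _ (hc ρ), q_comm h1 ρ₁ C.δ _ (hc ρ₁),
    q_comm h1 (ρ₁ * ρ) C.δ _ (hc _), map_add, map_nsmul]

theorem j_Y (h1 : S_CBasic) (ρ₁ ρ : C.A) (x : C.M) (hx : C.act C.j x = x) :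
    C.act C.j (Y C ρ₁ ρ x) = Y C ρ₁ ρ x := by
  unfold Y
  have h2 : C.act C.j (x - C.act C.δ⁻¹ x) = x - C.act C.δ⁻¹ x := by
    rw [map_sub, hx, j_δi x hx]
  rw [map_add, map_nsmul, j_q h1 _ _ (j_δi x hx), j_q h1 _ _ (j_q h1 _ _ h2)]

theorem key (h1 : S_CBasic) (ρ₁ ρ : C.A) (P : C.Λ) (hP : P = C.r ρ₁ * C.δ * C.r ρ * C.δ⁻¹)
    (x : C.M) (hx : C.act C.j x = x) :
    (8 : ℕ) • C.act P x - (2 : ℕ) • Y C ρ₁ ρ x ∈ C.Mp C.b := by
  have hx1 := j_δi x hx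
  have h2 : C.act C.j (x - C.act C.δ⁻¹ x) = x - C.act C.δ⁻¹ x := by
    rw [map_sub, hx, hx1]
  have h7 := (h1 C).2.2.2.2.2.2.2.1 ρ (C.act C.δ⁻¹ x) hx1
  rw [ainv] at h7
  have hz := j_q h1 ρ _ h2
  have A1 := four_R h1 (ρ₁ * ρ) _ hx1
  have A2 := four_R h1 ρ₁ _ hz
  have hPx : C.act P x = C.act (C.r ρ₁) (C.act C.δ (C.act (C.r ρ) (C.act C.δ⁻¹ x))) := by
    rw [hP, amul, amul, amul]
  have e1 : (2 : ℕ) • C.act P x = (2 : ℕ) • C.act (C.r (ρ₁ * ρ)) (C.act C.δ⁻¹ x) +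
      C.act (C.r ρ₁) (q C ρ (x - C.act C.δ⁻¹ x)) := by
    have e2 : (2 : ℕ) • C.act C.δ (C.act (C.r ρ) (C.act C.δ⁻¹ x)) =
        (2 : ℕ) • C.act (C.r ρ) (C.act C.δ⁻¹ x) + q C ρ (x - C.act C.δ⁻¹ x) := by
      rw [q, ← h7, smul_sub]; abel
    rw [hPx, ← map_nsmul, e2, map_add, map_nsmul, map_mul, amul]
  have e3 : (8 : ℕ) • C.act P x - (2 : ℕ) • Y C ρ₁ ρ x =
      (2 : ℕ) • ((4 : ℕ) • C.act (C.r (ρ₁ * ρ)) (C.act C.δ⁻¹ x) -
        (2 : ℕ) • q C (ρ₁ * ρ) (C.act C.δ⁻¹ x)) +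
      ((4 : ℕ) • C.act (C.r ρ₁) (q C ρ (x - C.act C.δ⁻¹ x)) -
        (2 : ℕ) • q C ρ₁ (q C ρ (x - C.act C.δ⁻¹ x))) := by
    have e4 : (8 : ℕ) • C.act P x = (4 : ℕ) • ((2 : ℕ) • C.act P x) := by
      rw [← mul_smul]
      norm_num
    rw [e4, e1]
    unfold Y
    generalize C.act (C.r (ρ₁ * ρ)) (C.act C.δ⁻¹ x) = a
    generalize C.act (C.r ρ₁) (q C ρ (x - C.act C.δ⁻¹ x)) = b
    generalize q C (ρ₁ * ρ) (C.act C.δ⁻¹ x) = c
    generalize q C ρ₁ (q C ρ (x - C.act C.δ⁻¹ x)) = d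
    abel
  rw [e3]
  exact (C.Mp C.b).add_mem ((C.Mp C.b).nsmul_mem A1 2) A2

/-- the final step: from the commutator to the commutator element -/
theorem last (P u : C.Λ) (hu : u = P * C.δ * P⁻¹ * C.δ⁻¹) (ℓ : ℕ) (p : C.L)
    (hp : C.sm P p = p) (hδ : C.sm C.δ p = p)
    (hD : ∀ m : C.M, ℓ • m = 0 → C.act P (C.act C.δ m) - C.act C.δ (C.act P m) ∈ C.Mp p)
    (hD0 : ∀ m ∈ C.Mp p, C.act P (C.act C.δ m) = C.act C.δ (C.act P m)) (m : C.M)
    (hm : ℓ • m = 0) : C.act u m - m ∈ C.Mp p ∧ (m ∈ C.Mp p → C.act u m = m) := by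
  have e1 : C.act P (C.act C.δ (C.act P⁻¹ (C.act C.δ⁻¹ m))) = C.act u m := by
    rw [hu, amul, amul, amul]
  have e2 : C.act C.δ (C.act P (C.act P⁻¹ (C.act C.δ⁻¹ m))) = m := by
    rw [ainv, ainv]
  refine ⟨?_, ?_⟩
  · have h := hD (C.act P⁻¹ (C.act C.δ⁻¹ m)) (by rw [← map_nsmul, ← map_nsmul, hm, map_zero, map_zero])
    rwa [e1, e2] at h
  · intro hmp
    have h3 : C.act C.δ⁻¹ m ∈ C.Mp p := by
      have h := C.mp_sm C.δ⁻¹ p m hmp
      rwa [sm_inv C _ _ hδ] at h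
    have h4 : C.act P⁻¹ (C.act C.δ⁻¹ m) ∈ C.Mp p := by
      have h := C.mp_sm P⁻¹ p _ h3
      rwa [sm_inv C _ _ hp] at h
    have h := hD0 _ h4
    rwa [e1, e2] at h

theorem zero_of_eight (m : C.M) (h : (8 : ℕ) • m = 0) : m = 0 := by
  have h1 : (m + m + (m + m)) + (m + m + (m + m)) = 0 := by
    rw [← h]; abel
  exact C.no2 _ (C.no2 _ (C.no2 _ h1))

end CUniAux

open CUniAux in
/-- **CUni.** -/
theorem cUni (h1 : S_CBasic) : S_CUni := by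
  intro C ρ₁ ρ ℓ P u hℓ hP hu
  have H1 := (h1 C).1
  have H2 := (h1 C).2.1
  have H3 := (h1 C).2.2.1
  -- the splitting of `2 m`
  have split : ∀ m : C.M, (2 : ℕ) • (C.act P (C.act C.δ m) - C.act C.δ (C.act P m)) =
      (C.act P (C.act C.δ (m - C.act C.j m)) - C.act C.δ (C.act P (m - C.act C.j m))) +
      (C.act P (C.act C.δ (C.act C.j m + m)) - C.act C.δ (C.act P (C.act C.j m + m))) := by
    intro m
    simp only [map_add, map_sub]
    abel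
  have mb : ∀ m : C.M, m - C.act C.j m ∈ C.Mp C.b := by
    intro m
    have h := (C.Mp C.b).neg_mem (C.act_jb m)
    rwa [neg_sub] at h
  have mc : ∀ m : C.M, C.act C.j m + m ∈ C.Mp C.c := C.act_jc
  have tor : ∀ m : C.M, ℓ • m = 0 → ℓ • (C.act P (C.act C.δ m) - C.act C.δ (C.act P m)) = 0 := by
    intro m hm
    rw [smul_sub, ← map_nsmul, ← map_nsmul, ← map_nsmul, ← map_nsmul, hm]
    simp only [map_zero, sub_zero]
  refine ⟨?_, ?_⟩
  · intro hPb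
    have D0 : ∀ m ∈ C.Mp C.b, C.act P (C.act C.δ m) = C.act C.δ (C.act P m) := by
      intro m hm
      have h2 : C.act P m ∈ C.Mp C.b := by
        have h := C.mp_sm P C.b m hm
        rwa [hPb] at h
      rw [H3 m (H2 m hm), H3 _ (H2 _ h2)]
    refine last P u hu ℓ C.b hPb C.δ_b ?_ D0
    intro m hm
    have D8 : (8 : ℕ) • (C.act P (C.act C.δ (C.act C.j m + m)) -
        C.act C.δ (C.act P (C.act C.j m + m))) ∈ C.Mp C.b := by
      have hx := H1 _ (mc m)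
      generalize C.act C.j m + m = x at hx
      have k1 := key h1 ρ₁ ρ P hP (C.act C.δ x) (j_δ x hx)
      have k2 := C.mp_sm C.δ C.b _ (key h1 ρ₁ ρ P hP x hx)
      rw [C.δ_b] at k2
      rw [Y_δ h1] at k1
      rw [map_sub, map_nsmul, map_nsmul] at k2
      have k3 := (C.Mp C.b).sub_mem k1 k2
      rwa [sub_sub_sub_cancel_right, ← smul_sub] at k3
    have t := tor m hm
    have D2 : (8 : ℕ) • ((2 : ℕ) • (C.act P (C.act C.δ m) - C.act C.δ (C.act P m))) ∈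
        C.Mp C.b := by
      rw [split m, D0 _ (mb m), sub_self, zero_add]
      exact D8
    generalize C.act P (C.act C.δ m) - C.act C.δ (C.act P m) = d at t D2
    have t2 : ∀ (k : ℕ) (e : C.M), ℓ • e = 0 → ℓ • (k • e) = 0 := by
      intro k e he
      rw [smul_comm, he, smul_zero]
    have e8 : (8 : ℕ) • ((2 : ℕ) • d) = (2 : ℕ) • ((2 : ℕ) • ((2 : ℕ) • ((2 : ℕ) • d))) := by
      simp only [← mul_smul]
      norm_num
    rw [e8] at D2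
    exact odd_mem C ℓ hℓ _ _ t (odd_mem C ℓ hℓ _ _ (t2 2 _ t) (odd_mem C ℓ hℓ _ _
      (t2 2 _ (t2 2 _ t)) (odd_mem C ℓ hℓ _ _ (t2 2 _ (t2 2 _ (t2 2 _ t))) D2)))
  · intro hPc
    have D0 : ∀ m ∈ C.Mp C.c, C.act P (C.act C.δ m) = C.act C.δ (C.act P m) := by
      have e0 : ∀ x ∈ C.Mp C.c, (8 : ℕ) • C.act P x = (2 : ℕ) • Y C ρ₁ ρ x := by
        intro x hx
        have h2 : C.act P x ∈ C.Mp C.c := by
          have h := C.mp_sm P C.c x hx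
          rwa [hPc] at h
        have k1 := key h1 ρ₁ ρ P hP x (H1 x hx)
        have k2 := H2 _ k1
        rw [map_sub, map_nsmul, map_nsmul, H1 _ h2, j_Y h1 ρ₁ ρ x (H1 x hx)] at k2
        have k3 := C.no2 _ (eq_neg_iff_add_eq_zero.1 k2)
        exact sub_eq_zero.1 k3
      intro x hx
      have hx2 : C.act C.δ x ∈ C.Mp C.c := by
        have h := C.mp_sm C.δ C.c x hx
        rwa [C.δ_c] at h
      have e1 := e0 _ hx2
      rw [Y_δ h1, ← map_nsmul (C.act C.δ), ← e0 x hx, map_nsmul] at e1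
      have e2 : (8 : ℕ) • (C.act P (C.act C.δ x) - C.act C.δ (C.act P x)) = 0 := by
        rw [smul_sub, e1, sub_self]
      exact sub_eq_zero.1 (zero_of_eight _ e2)
    refine last P u hu ℓ C.c hPc C.δ_c ?_ D0
    intro m hm
    refine odd_mem C ℓ hℓ _ _ (tor m hm) ?_
    rw [split m, D0 _ (mc m), sub_self, add_zero, H3 _ (H2 _ (mb m))]
    have h := (C.Mp C.c).neg_mem (C.act_δ (C.act P (m - C.act C.j m)))
    rwa [neg_sub] at h

end Pool.Agent.Klein
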