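import Pool.Agent.Lib.MP_3c9215_al.SpecCore

set_option autoImplicit false

/-!
# MP_3c9215_al: `S_CoreEx`, the geometry of involutions gives a `Core`
-/

namespace Pool.Agent.Klein

section
variable {G : Type} [Group G] {τ : G →* K4}

@[reducible] def mmCG (O : Pt τ) (h : ∀ m ∈ MM O, ∀ n ∈ MM O, m * n = n * m) : CommGroup (MM O) :=
  { (inferInstance : Group (MM O)) with
    mul_comm := fun a b => Subtype.ext (h a a.2 b b.2) }

@[reducible] def aCG (hG : Geo τ) (O : Pt τ) : CommGroup (A τ (O : G)) :=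
  { (inferInstance : Group (A τ (O : G))) with
    mul_comm := fun a b => Subtype.ext (A_comm hG O.2 a.2 b.2) }

/-- the group of translations, written additively -/
abbrev MA (O : Pt τ) : Type := Additive (MM O)

/-- underlying collineation -/
def MA.v {O : Pt τ} (m : MA O) : PP τ := ((Additive.toMul m : MM O) : PP τ)

lemma MA.ext {O : Pt τ} {m n : MA O} (h : m.v = n.v) : m = n :=
  Additive.toMul.injective (Subtype.ext h)

lemma MA.v_mem {O : Pt τ} (m : MA O) : m.v ∈ MM O := (Additive.toMul m : MM O).2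

/-- constructor -/
def MA.mk {O : Pt τ} (m : PP τ) (h : m ∈ MM O) : MA O := Additive.ofMul ⟨m, h⟩

lemma MA.v_mk {O : Pt τ} (m : PP τ) (h : m ∈ MM O) : (MA.mk m h).v = m := rfl

lemma MA.v_add {O : Pt τ} (m n : MA O) : (m + n).v = m.v * n.v := rfl

lemma MA.v_neg {O : Pt τ} (m : MA O) : (-m).v = (m.v)⁻¹ := rfl

lemma MA.v_zero {O : Pt τ} : (0 : MA O).v = 1 := rfl

lemma MA.v_sub {O : Pt τ} (m n : MA O) : (m - n).v = m.v * (n.v)⁻¹ := by
  rw [sub_eq_add_neg]; rfl

/-- the action by conjugation -/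
def actC (O : Pt τ) (h : ∀ k ∈ Stb O, ∀ m ∈ MM O, k * m * k⁻¹ ∈ MM O) :
    Stb O →* AddMonoid.End (MA O) where
  toFun k :=
    { toFun := fun m => MA.mk ((k : PP τ) * m.v * (k : PP τ)⁻¹) (h k k.2 _ m.v_mem)
      map_zero' := by
        apply MA.ext
        rw [MA.v_mk, MA.v_zero]
        group
      map_add' := fun m n => by
        apply MA.ext
        rw [MA.v_mk, MA.v_add, MA.v_add, MA.v_mk, MA.v_mk]
        group }
  map_one' := by
    apply AddMonoidHom.ext
    intro m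
    apply MA.ext
    show ((1 : Stb O) : PP τ) * m.v * ((1 : Stb O) : PP τ)⁻¹ = m.v
    rw [OneMemClass.coe_one]
    group
  map_mul' k l := by
    apply AddMonoidHom.ext
    intro m
    apply MA.ext
    show ((k * l : Stb O) : PP τ) * m.v * ((k * l : Stb O) : PP τ)⁻¹ =
      (k : PP τ) * ((l : PP τ) * m.v * (l : PP τ)⁻¹) * (k : PP τ)⁻¹
    rw [Subgroup.coe_mul]
    group

lemma actC_v (O : Pt τ) (h : ∀ k ∈ Stb O, ∀ m ∈ MM O, k * m * k⁻¹ ∈ MM O) (k : Stb O) (m : MA O) :
    (actC O h k m).v = (k : PP τ) * m.v * (k : PP τ)⁻¹ := rfl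

/-- the subgroup of translations lying in a given subgroup -/
def subA (O : Pt τ) (S : Subgroup (PP τ)) : AddSubgroup (MA O) where
  carrier := {m | m.v ∈ S}
  add_mem' := fun {a b} ha hb => by
    show (a + b).v ∈ S
    rw [MA.v_add]
    exact S.mul_mem ha hb
  zero_mem' := by
    show (0 : MA O).v ∈ S
    rw [MA.v_zero]
    exact S.one_mem
  neg_mem' := fun {a} ha => by
    show (-a).v ∈ S
    rw [MA.v_neg]
    exact S.inv_mem ha

lemma mem_subA {O : Pt τ} {S : Subgroup (PP τ)} {m : MA O} : m ∈ subA O S ↔ m.v ∈ S := Iff.rfl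

/-- comparison of the two recursions -/
lemma cheb_v (O : Pt τ) (h : ∀ k ∈ Stb O, ∀ m ∈ MM O, k * m * k⁻¹ ∈ MM O)
    (hc : ∀ m ∈ MM O, ∀ n ∈ MM O, m * n = n * m) (k : Stb O) (w : MA O) (n : ℕ) :
    letI := mmCG O hc
    (cheb (fun x : MA O => actC O h k x) n w).v =
      chebG (fun x => (k : PP τ) * x * (k : PP τ)⁻¹) n w.v ∧
    (cheb (fun x : MA O => actC O h k x) (n + 1) w).v =
      chebG (fun x => (k : PP τ) * x * (k : PP τ)⁻¹) (n + 1) w.v := by
  let _ := mmCG O hc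
  induction n with
  | zero => exact ⟨rfl, rfl⟩
  | succ n ih =>
    obtain ⟨ih1, ih2⟩ := ih
    refine ⟨ih2, ?_⟩
    rw [cheb, chebG, ← ih2, ← ih1]
    rfl

/-- permutation pairs: value of a product -/
lemma fst_mul_apply (h k : PP τ) (x : Pt τ) : (h * k).1 x = h.1 (k.1 x) := rfl

lemma snd_mul_apply (h k : PP τ) (x : Pt τ) : (h * k).2 x = h.2 (k.2 x) := rfl

lemma cj_fix_fst {g : G} {x : Pt τ} (h : g * (x : G) = x * g) : (cj τ g).1 x = x := by
  apply Pt.ext
  rw [cj_fst, h]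
  group

lemma cj_fix_snd {g : G} {x : Pt τ} (h : g * (x : G) = x * g) : (cj τ g).2 x = x := by
  apply Pt.ext
  rw [cj_snd, h]
  group

lemma cj_stb {g : G} {O : Pt τ} (h : g * (O : G) = O * g) : cj τ g ∈ Stb O :=
  ⟨cj_mem τ g, cj_fix_snd h⟩

end

theorem coreEx (h1 : S_Fix1) (h2 : S_HmlEx) (h3 : S_HmlBasic) (h4 : S_HmlFix) (h5 : S_HmlComm)
    (h6 : S_LemP) (h7 : S_LemT) (h8 : S_EConj) (h9 : S_EComm) (h10 : S_E124) (h11 : S_WEx)
    (h12 : S_MBasic) (h13 : S_MRel) (h14 : S_MInt) : S_CoreEx := by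
  intro G _ τ hG hND hNT
  obtain ⟨x, y, hx, hy, hxy, hx1, hy1, hne⟩ := hG.ex
  have px : IsPt τ x := ⟨hx, hx1⟩
  have py : IsPt τ y := ⟨hy, hy1⟩
  have pxy : Perp x y := perp_of_comm_of_tau_ne hxy hne
  have pz : IsPt τ (x * y) := pxy.mul_isPt hG px py
  let O : Pt τ := ⟨x, px⟩
  let b : Pt τ := ⟨y, py⟩
  let c : Pt τ := ⟨x * y, pz⟩
  have hO : (O : G) = x := rfl
  have hb : (b : G) = y := rfl
  have hc : (c : G) = x * y := rfl
  have hObP : Perp (O : G) (b : G) := pxy
  have hOcP : Perp (O : G) (c : G) := pxy.mul_right hG px py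
  have hbcP : Perp (b : G) (c : G) := pxy.mul_right' hG px py
  have tOb : τ (O : G) ≠ τ (b : G) := hObP.tau_ne hG O.2 b.2
  have tOc : τ (O : G) ≠ τ (c : G) := hOcP.tau_ne hG O.2 c.2
  have tbc : τ (b : G) ≠ τ (c : G) := hbcP.tau_ne hG b.2 c.2
  obtain ⟨σ, hσ, hσ1⟩ := hNT (c : G) c.2
  obtain ⟨s, hs⟩ := h2 G τ hG (c : G) σ c.2 hσ
  obtain ⟨B1, B2, B3, B4, B5⟩ := h3 G τ hG
  obtain ⟨⟨sc1, sc2⟩, sp⟩ := B2 c σ s hσ hs
  have sO1 : s.1 O = O := (sp O hOcP).1
  have sO2 : s.2 O = O := (sp O hOcP).2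
  have sb1 : s.1 b = b := (sp b hbcP).1
  obtain ⟨C1, C2, C3, C4, C5, C6⟩ := h8 G τ hG O
  obtain ⟨M1, M2, M3, M4⟩ := h12 G τ hG hND hNT O
  have hEx : ∀ α : A τ (O : G), ∃ t : PP τ, IsHml (α : G) t := fun α => h2 G τ hG (O : G) α O.2 α.2
  choose S hS using hEx
  have S2 : ∀ α, (S α).2 O = O := fun α => (B2 O α (S α) α.2 (hS α)).1.2
  -- the data
  let L : Type := {p : Pt τ // Perp (p : G) (O : G)}
  let bL : L := ⟨b, hObP.symm⟩
  let cL : L := ⟨c, hOcP.symm⟩
  let sm : Stb O → L → L := fun k p => ⟨(k : PP τ).1 p.1, C1 k k.2 p.1 p.2⟩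
  let Mp : L → AddSubgroup (MA O) := fun p => subA O (E O p.1)
  let r : A τ (O : G) →* Stb O :=
    { toFun := fun α => ⟨cj τ (α : G), cj_stb α.2.2⟩
      map_one' := by
        apply Subtype.ext
        show cj τ ((1 : A τ (O : G)) : G) = 1
        rw [OneMemClass.coe_one, map_one]
      map_mul' := fun α β => by
        apply Subtype.ext
        show cj τ ((α * β : A τ (O : G)) : G) = cj τ (α : G) * cj τ (β : G)
        rw [Subgroup.coe_mul, map_mul] }
  let j : Stb O := ⟨cj τ (b : G), cj_stb hObP.1.symm⟩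
  let sS : A τ (O : G) → Stb O := fun α => ⟨S α, (hS α).1, S2 α⟩
  let δ : Stb O := ⟨s, hs.1, sO2⟩
  have key1 : ∀ m : MA O, actC O C4 j m - m ∈ Mp bL := by
    intro m
    show (actC O C4 j m - m).v ∈ E O b
    rw [MA.v_sub, actC_v]
    exact h9 G τ hG O b (cj τ (b : G)) m.v hObP.symm (cj_stb hObP.1.symm)
      (fun z hz => cj_fix_snd hz.1.symm) (M2 _ m.v_mem)
  have key2 : ∀ m : MA O, actC O C4 j m + m ∈ Mp cL := by
    intro m
    show (actC O C4 j m + m).v ∈ E O c
    have e1 := h9 G τ hG O c (cj τ (c : G)) m.v hOcP.symm (cj_stb hOcP.1.symm)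
      (fun z hz => cj_fix_snd hz.1.symm) (M2 _ m.v_mem)
    have e2 : cj τ (c : G) = cj τ (O : G) * cj τ (b : G) := by rw [← map_mul]
    have e3 := M4 (actC O C4 j m).v (actC O C4 j m).v_mem
    have e4 : cj τ (c : G) * m.v * (cj τ (c : G))⁻¹ * m.v⁻¹ = ((actC O C4 j m).v)⁻¹ * m.v⁻¹ := by
      rw [← e3, e2, actC_v]
      show cj τ (O : G) * cj τ (b : G) * m.v * (cj τ (O : G) * cj τ (b : G))⁻¹ * m.v⁻¹ =
        cj τ (O : G) * (cj τ (b : G) * m.v * (cj τ (b : G))⁻¹) * (cj τ (O : G))⁻¹ * m.v⁻¹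
      group
    rw [e4] at e1
    have e5 := (E O c).inv_mem e1
    rw [mul_inv_rev, inv_inv, inv_inv] at e5
    rw [MA.v_add, M1 _ (actC O C4 j m).v_mem _ m.v_mem]
    exact e5
  have key3 : ∀ α : A τ (O : G), j * r α = (r α)⁻¹ * j := by
    intro α
    apply Subtype.ext
    show cj τ (b : G) * cj τ (α : G) = (cj τ (α : G))⁻¹ * cj τ (b : G)
    rw [← map_inv, ← map_mul, ← map_mul, pt_mul_A hG O.2 b.2 hObP α.2]
  have key4 : ∀ α β : A τ (O : G), sS α * r β = r β * sS α := by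
    intro α β
    apply Subtype.ext
    show S α * cj τ (β : G) = cj τ (β : G) * S α
    have e1 := B3 (β : G) (α : G) (S α) (hS α)
    have e2 : (β : G) * (α : G) * (β : G)⁻¹ = α := by
      rw [A_comm hG O.2 β.2 α.2]; group
    rw [e2] at e1
    have e3 := B1 _ _ _ e1 (hS α)
    calc S α * cj τ (β : G) = cj τ (β : G) * S α * (cj τ (β : G))⁻¹ * cj τ (β : G) := by rw [e3]
      _ = cj τ (β : G) * S α := by group
  have key5 : ∀ α : A τ (O : G), sS α * j = j * sS α := by
    intro α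
    apply Subtype.ext
    show S α * cj τ (b : G) = cj τ (b : G) * S α
    have e1 := B3 (b : G) (α : G) (S α) (hS α)
    have e2 : (b : G) * (α : G) * (b : G)⁻¹ = (α : G)⁻¹ := A_inverted hG O.2 b.2 hObP α.2
    rw [e2] at e1
    have e3 := B1 _ _ _ e1 (B4 _ _ (hS α))
    calc S α * cj τ (b : G) = cj τ (b : G) * S α * (cj τ (b : G))⁻¹ * cj τ (b : G) := by rw [e3]
      _ = cj τ (b : G) * S α := by group
  have key6 : δ * j = j * δ := by
    apply Subtype.ext
    show s * cj τ (b : G) = cj τ (b : G) * s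
    have e1 := B3 (b : G) σ s hs
    have e2 : (b : G) * σ * (b : G)⁻¹ = σ⁻¹ := A_inverted hG c.2 b.2 hbcP.symm hσ
    rw [e2] at e1
    have e3 := B1 _ _ _ e1 (B4 _ _ hs)
    calc s * cj τ (b : G) = cj τ (b : G) * s * (cj τ (b : G))⁻¹ * cj τ (b : G) := by rw [e3]
      _ = cj τ (b : G) * s := by group
  have key7 : ∀ (α : A τ (O : G)) (m : MA O),
      actC O C4 (sS α * r α) m + actC O C4 (sS α * (r α)⁻¹) m = m + m := by
    intro α m
    apply MA.ext
    rw [MA.v_add, MA.v_add, actC_v, actC_v]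
    exact h13 G τ hG hND hNT O (α : G) (S α) α.2 (hS α) m.v m.v_mem
  have key8 : ∀ α : A τ (O : G), sS α * δ = δ * sS α := by
    intro α
    apply Subtype.ext
    exact h5 G τ hG hND hNT O c (α : G) σ (S α) s hOcP α.2 hσ (hS α) hs
  have key9 : ∀ m : MA O, actC O C4 δ m - m ∈ Mp cL := by
    intro m
    show (actC O C4 δ m - m).v ∈ E O c
    rw [MA.v_sub, actC_v]
    exact h9 G τ hG O c s m.v hOcP.symm ⟨hs.1, sO2⟩ (fun z hz => (sp z hz).2) (M2 _ m.v_mem)
  have hbD : (b : G) = D ((O : G) * c) :=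
    wedge_unique hG O.2 c.2 b.2 tOc hObP.symm hbcP
  have hOD : (O : G) = D ((b : G) * c) :=
    wedge_unique hG b.2 c.2 O.2 tbc hObP hOcP
  have key10 : ∀ p : L, sm δ p = p → p = bL ∨ p = cL := by
    intro p hp
    have e1 : s.1 p.1 = p.1 := congrArg Subtype.val hp
    have e2 : s.1 (s.1 p.1) = p.1 := by rw [e1, e1]
    rcases h4 G τ hG hND c σ s hσ hσ1 hs p.1 e2 with h | h
    · right
      exact Subtype.ext h
    · left
      apply Subtype.ext
      apply Pt.ext
      rw [hbD]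
      exact wedge_unique hG O.2 c.2 p.1.2 tOc p.2 h
  have key11 : ∀ m ∈ Mp cL, actC O C4 δ (actC O C4 δ m) = m → m = 0 := by
    intro m hm e
    have hm' : m.v ∈ E O c := hm
    have e1 : s * (s * m.v * s⁻¹) * s⁻¹ = m.v := congrArg MA.v e
    have e2 : s * s * m.v = m.v * (s * s) := by
      calc s * s * m.v = (s * (s * m.v * s⁻¹) * s⁻¹) * (s * s) := by group
        _ = m.v * (s * s) := by rw [e1]
    have e3 : s.1 (s.1 (m.v.1 O)) = m.v.1 O := by
      have := congrArg (fun z : PP τ => z.1 O) e2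
      simp only [fst_mul_apply] at this
      rw [this, sO1, sO1]
    have tx : τ ((m.v.1 O : Pt τ) : G) = τ (O : G) := hm'.1.1 O
    have px : Perp ((m.v.1 O : Pt τ) : G) (c : G) := by
      rcases h4 G τ hG hND c σ s hσ hσ1 hs _ e3 with h | h
      · exact absurd (by rw [← tx, h]) tOc
      · exact h
    have mb : m.v.2 b = b := hm'.2.2 b hbcP
    have pxb : Perp ((m.v.1 O : Pt τ) : G) (b : G) := by
      have := (hm'.1.2.2 O b).1 hObP
      rwa [mb] at this
    have e4 : m.v.1 O = O := by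
      apply Pt.ext
      rw [hOD]
      exact wedge_unique hG b.2 c.2 (m.v.1 O).2 tbc pxb px
    apply MA.ext
    rw [M3 m.v m.v_mem e4, MA.v_zero]
  obtain ⟨F1, -, -, -⟩ := h10 G τ hG hND hNT O
  have key12 : ∀ (p q : L) (m : MA O), p ≠ q → m ∈ Mp p → m ∈ Mp q → m = 0 := by
    intro p q m hpq hp hq
    apply MA.ext
    rw [MA.v_zero]
    exact F1 p.1 q.1 m.v p.2 q.2 (fun e => hpq (Subtype.ext e)) hp hq
  have key13 : ∀ m : MA O, m + m = 0 → m = 0 := by
    intro m hm
    have e1 : m.v * m.v = 1 := congrArg MA.v hm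
    have e2 : (m.v)⁻¹ = m.v := inv_eq_of_mul_eq_one_left e1
    have e3 := M4 m.v m.v_mem
    rw [e2] at e3
    have e4 : cj τ (O : G) * m.v = m.v * cj τ (O : G) := by
      calc cj τ (O : G) * m.v = (cj τ (O : G) * m.v * (cj τ (O : G))⁻¹) * cj τ (O : G) := by group
        _ = m.v * cj τ (O : G) := by rw [e3]
    have e5 : (cj τ (O : G)).1 (m.v.1 O) = m.v.1 O := by
      have := congrArg (fun z : PP τ => z.1 O) e4
      simp only [fst_mul_apply] at this
      rw [this, cj_fix_fst rfl]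
    have e6 : (O : G) * ((m.v.1 O : Pt τ) : G) * (O : G)⁻¹ = ((m.v.1 O : Pt τ) : G) :=
      congrArg Subtype.val e5
    have e7 : (O : G) * ((m.v.1 O : Pt τ) : G) = ((m.v.1 O : Pt τ) : G) * (O : G) := by
      calc (O : G) * ((m.v.1 O : Pt τ) : G) =
          ((O : G) * ((m.v.1 O : Pt τ) : G) * (O : G)⁻¹) * (O : G) := by group
        _ = _ := by rw [e6]
    have tx : τ ((m.v.1 O : Pt τ) : G) = τ (O : G) := (M2 _ m.v_mem).1.1 O
    have e8 : m.v.1 O = O := by
      by_contra hne'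
      have pp : Perp (O : G) ((m.v.1 O : Pt τ) : G) := ⟨e7, fun e => hne' (Pt.ext e.symm)⟩
      exact pp.tau_ne hG O.2 (m.v.1 O).2 tx.symm
    apply MA.ext
    rw [M3 m.v m.v_mem e8, MA.v_zero]
  have key14 : ∀ α : A τ (O : G), sm (r α) bL = bL → α = 1 := by
    intro α h
    have e1 : (α : G) * (b : G) * (α : G)⁻¹ = b := congrArg (fun z : L => (z.1 : G)) h
    apply Subtype.ext
    apply ker_fix hG O.2 b.2 hObP α.2
    calc (α : G) * (b : G) = ((α : G) * (b : G) * (α : G)⁻¹) * α := by group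
      _ = _ := by rw [e1]
  have key15 : ∀ α : A τ (O : G), sm (r α) cL = cL → α = 1 := by
    intro α h
    have e1 : (α : G) * (c : G) * (α : G)⁻¹ = c := congrArg (fun z : L => (z.1 : G)) h
    apply Subtype.ext
    apply ker_fix hG O.2 c.2 hOcP α.2
    calc (α : G) * (c : G) = ((α : G) * (c : G) * (α : G)⁻¹) * α := by group
      _ = _ := by rw [e1]
  have key16 : ∀ p : L, τ (p.1 : G) = τ (b : G) → ∃ α : A τ (O : G), sm (r α) bL = p := by
    intro p hp
    obtain ⟨α, hα, e⟩ := conj_of_perp hG b.2 p.1.2 hObP p.2.symm hp.symm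
    exact ⟨⟨α, hα⟩, Subtype.ext (Pt.ext e)⟩
  have key17 : ∀ p : L, ¬ (τ (p.1 : G) = τ (b : G)) → ∃ α : A τ (O : G), sm (r α) cL = p := by
    intro p hp
    have t1 : τ (p.1 : G) ≠ τ (O : G) := p.2.tau_ne hG p.1.2 O.2
    have t2 : τ (p.1 : G) = τ (O : G) * τ (b : G) :=
      k4_third _ _ _ O.2.2 b.2.2 p.1.2.2 tOb t1 hp
    have t3 : τ (c : G) = τ (O : G) * τ (b : G) := map_mul τ _ _
    obtain ⟨α, hα, e⟩ := conj_of_perp hG c.2 p.1.2 hOcP p.2.symm (t3.trans t2.symm)
    exact ⟨⟨α, hα⟩, Subtype.ext (Pt.ext e)⟩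
  have key18 : ∀ (α : A τ (O : G)) (p : L), sm (sS α) p = p := by
    intro α p
    apply Subtype.ext
    exact ((B2 O α (S α) α.2 (hS α)).2 p.1 p.2).1
  have key19 : ∀ ρ : A τ (O : G), ρ ≠ 1 →
      (∃ ρ₁, sm (r ρ₁ * δ * r ρ * δ⁻¹) bL = bL ∧ sm (r ρ₁ * δ * r ρ * δ⁻¹) cL ≠ cL) ∧
      (∃ ρ₁, sm (r ρ₁ * δ * r ρ * δ⁻¹) cL = cL ∧ sm (r ρ₁ * δ * r ρ * δ⁻¹) bL ≠ bL) := by
    intro ρ hρ
    obtain ⟨⟨ρ₁, hρ₁, e1, e2⟩, ⟨ρ₂, hρ₂, e3, e4⟩⟩ := h6 G τ hG hND O b c (ρ : G) σ s hObP rfl ρ.2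
      (fun e => hρ (Subtype.ext e)) hσ hσ1 hs
    refine ⟨⟨⟨ρ₁, hρ₁⟩, Subtype.ext e1, fun e => e2 (congrArg Subtype.val e)⟩,
      ⟨⟨ρ₂, hρ₂⟩, Subtype.ext e3, fun e => e4 (congrArg Subtype.val e)⟩⟩
  have key20 : ∀ ρ : A τ (O : G), ∃ ρ' : A τ (O : G),
      sm (δ * r ρ) bL = sm (r ρ') bL ∧ sm (δ⁻¹ * r ρ) cL = sm (r ρ') cL := by
    intro ρ
    obtain ⟨ρ', hρ', e1, e2⟩ := h7 G τ hG O b c (ρ : G) σ s hObP rfl ρ.2 hσ hs
    exact ⟨⟨ρ', hρ'⟩, Subtype.ext e1, Subtype.ext e2⟩
  let W : AddSubgroup (MA O) := subA O (Wc O c)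
  have key21 : W ≤ Mp cL := fun m hm => hm.1
  have key22 : ∃ w ∈ W, w ≠ 0 := by
    obtain ⟨w, hw, hw1⟩ := h11 G τ hG hND hNT O c hOcP.symm
    have hwM : w ∈ MM O := Subgroup.subset_closure ⟨c, hOcP.symm, hw⟩
    refine ⟨MA.mk w hwM, hw, fun e => hw1 ?_⟩
    have := congrArg MA.v e
    rwa [MA.v_mk, MA.v_zero] at this
  have key23 : ∀ k : Stb O, sm k cL = cL → ∀ w ∈ W, actC O C4 k w ∈ W := by
    intro k hk w hw
    have e1 : (k : PP τ).1 c = c := congrArg Subtype.val hk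
    have := C3 k k.2 c w.v hw
    rw [e1] at this
    exact this
  have key24 : letI := mmCG O M1
      ∃ n : ℕ, 1 ≤ n ∧ ∀ w ∈ W, cheb (fun x : MA O => actC O C4 δ x) n w = w + w := by
    obtain ⟨n, hn, h⟩ := h14 G τ hG hND hNT O c σ s hOcP.symm hσ hs
    refine ⟨n, hn, fun w hw => ?_⟩
    apply MA.ext
    rw [(cheb_v O C4 M1 δ w n).1]
    exact h w.v hw
  have key25 : ∀ (k : Stb O) (p : L) (m : MA O), m ∈ Mp p → actC O C4 k m ∈ Mp (sm k p) := by
    intro k p m hm
    exact C2 k k.2 p.1 m.v hm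
  obtain ⟨ρ, hρ, hρ1⟩ := hNT (O : G) O.2
  refine ⟨{ M := MA O
            iM := @Additive.addCommGroup _ (mmCG O M1)
            Λ := Stb O
            iΛ := inferInstance
            act := actC O C4
            L := L
            sm := sm
            one_sm := fun p => rfl
            mul_sm := fun k l p => rfl
            ty := fun p => τ (p.1 : G) = τ (b : G)
            ty_sm := fun k p => by
              show τ (((k : PP τ).1 p.1 : Pt τ) : G) = τ (b : G) ↔ _
              rw [k.2.1.1 p.1]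
            Mp := Mp
            mp_sm := key25
            disj := key12
            no2 := key13
            b := bL
            c := cL
            ty_b := rfl
            ty_c := fun e => tbc e.symm
            A := A τ (O : G)
            iA := aCG hG O
            A_odd := fun α => by
              obtain ⟨k, hk, e⟩ := hG.odd (α : G) α.2.1
              exact ⟨k, hk, Subtype.ext e⟩
            r := r
            r_b := key14
            r_c := key15
            tr_b := key16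
            tr_c := key17
            j := j
            j_b := Subtype.ext (cj_fix_fst rfl)
            j_c := Subtype.ext (cj_fix_fst hbcP.1)
            jj := by
              apply Subtype.ext
              show cj τ (b : G) * cj τ (b : G) = 1
              rw [← map_mul, b.2.1, map_one]
            act_jb := key1
            act_jc := key2
            j_r := key3
            s := sS
            s_sm := key18
            s_r := key4
            s_j := key5
            s_rel := key7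
            δ := δ
            s_δ := key8
            δ_b := Subtype.ext sb1
            δ_c := Subtype.ext sc1
            δ_j := key6
            act_δ := key9
            δ_fix := key10
            δ_sq := key11
            lemP := key19
            lemT := key20
            W := W
            W_le := key21
            W_ne := key22
            W_sm := key23
            W_int := key24 }, (⟨ρ, hρ⟩ : A τ (O : G)), fun e => hρ1 (congrArg Subtype.val e)⟩

end Pool.Agent.Klein
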