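import Pool.Agent.Lib.MP_3c9215_al.Spec2

set_option autoImplicit false

/-!
# MP_3c9215_al: elementary facts on elations
-/

namespace Pool.Agent.Klein

namespace E124aux

variable {G : Type} [Group G] {τ : G →* K4}

lemma wedge (hG : Geo τ) (x y : Pt τ) (ht : τ (x : G) ≠ τ (y : G)) :
    ∃ w : Pt τ, Perp (w : G) (x : G) ∧ Perp (w : G) (y : G) ∧
      τ (w : G) = τ (x : G) * τ (y : G) :=
  ⟨⟨D ((x : G) * (y : G)), wedge_isPt hG x.2 y.2 ht⟩, wedge_perp_left hG x.2 y.2 ht,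
    wedge_perp_right hG x.2 y.2 ht, wedge_tau hG _ _⟩

lemma third (hG : Geo τ) (z O : Pt τ) (hz : Perp (z : G) (O : G)) :
    ∃ y : Pt τ, Perp (y : G) (O : G) ∧ Perp (z : G) (y : G) ∧ O ≠ y := by
  have h1 := hz.mul_right' hG z.2 O.2
  refine ⟨⟨(z : G) * (O : G), hz.mul_isPt hG z.2 O.2⟩, h1.symm, hz.mul_right hG z.2 O.2, ?_⟩
  intro e
  exact h1.2 (congrArg Subtype.val e)

lemma fix2 (hG : Geo τ) (hND : ND τ) (h2 : S_Rule) (O : Pt τ) {h : PP τ} (hh : h ∈ HH O)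
    (hO : h.1 O = O) (z : Pt τ) (hz : Perp (z : G) (O : G)) : h.2 z = z := by
  obtain ⟨y, hy1, hy2, hy3⟩ := third hG z O hz
  exact (h2 G τ hG hND h O y z hh.1 hy3 hz hy2).1 hO (hh.2 y hy1)

end E124aux

open E124aux in
theorem e124 (h1 : S_Fix1) (h2 : S_Rule) (h3 : S_Det) (h4 : S_EConj) : S_E124 := by
  intro G _ τ hG hND hNT O
  have F3 := (h1 G τ hG hND).2.2
  have R := h2 G τ hG hND
  have Dt := h3 G τ hG hND hNT
  obtain ⟨_, EC2, _, _, _, EC6⟩ := h4 G τ hG O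
  have P1 : ∀ (p p' : Pt τ) (h : PP τ), Perp (p : G) (O : G) → Perp (p' : G) (O : G) → p ≠ p' →
      h ∈ E O p → h ∈ E O p' → h = 1 := by
    intro p p' h hp hp' hne hE hE'
    apply Dt h (τ (O : G)) hE.1 O.2.2
    intro g hg
    have t1 := hp.tau_ne hG p.2 O.2
    have t1' := hp'.tau_ne hG p'.2 O.2
    obtain ⟨z, z1, z2, _⟩ := wedge hG g p (by rw [hg]; exact t1.symm)
    obtain ⟨z', z1', z2', _⟩ := wedge hG g p' (by rw [hg]; exact t1'.symm)
    have hzz : z ≠ z' := by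
      intro e
      rw [← e] at z2'
      have e2 : (z : G) = (O : G) := F3 p p' z O p.2 p'.2 z.2 O.2
        (fun e => hne (Pt.ext e)) z2 z2' hp.symm hp'.symm
      rw [e2] at z1
      exact z1.tau_ne hG O.2 g.2 hg.symm
    exact (R h z z' g hE.1 hzz z1.symm z1'.symm).2 (hE.2.2 z z2) (hE'.2.2 z' z2')
  refine ⟨P1, ?_, ?_, ?_⟩
  · intro p h hp hE hO
    have hHH : h ∈ HH O := ⟨hE.1, hE.2.1⟩
    have t1 := hp.tau_ne hG p.2 O.2
    obtain ⟨k1, k2, k3⟩ := k4_mul (τ (O : G)) (τ (p : G)) O.2.2 p.2.2 t1.symm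
    apply Dt h (τ (O : G) * τ (p : G)) hE.1 k1
    intro g hg
    obtain ⟨z, z1, z2, z3⟩ := wedge hG g O (by rw [hg]; exact k2)
    obtain ⟨z', z1', z2', z3'⟩ := wedge hG g p (by rw [hg]; exact k3)
    have hzz : z ≠ z' := by
      intro e
      rw [e, z3'] at z3
      exact t1 (mul_left_cancel z3)
    exact (R h z z' g hE.1 hzz z1.symm z1'.symm).2 (fix2 hG hND h2 O hHH hO z z2)
      (hE.2.2 z' z2')
  · intro p p' h h' hp hp' hne hE hE'
    have hHH : h ∈ HH O := ⟨hE.1, hE.2.1⟩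
    have hHH' : h' ∈ HH O := ⟨hE'.1, hE'.2.1⟩
    have a1 : h' * h⁻¹ * h'⁻¹ ∈ E O p := by
      have := EC2 h' (EC6 h' hHH') p h⁻¹ ((E O p).inv_mem hE)
      rwa [hE'.2.1 p hp] at this
    have a2 : h * h' * h⁻¹ ∈ E O p' := by
      have := EC2 h (EC6 h hHH) p' h' hE'
      rwa [hE.2.1 p' hp'] at this
    have b1 : h * h' * h⁻¹ * h'⁻¹ ∈ E O p := by
      have := (E O p).mul_mem hE a1
      have e : h * (h' * h⁻¹ * h'⁻¹) = h * h' * h⁻¹ * h'⁻¹ := by group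
      rwa [e] at this
    have b2 : h * h' * h⁻¹ * h'⁻¹ ∈ E O p' := (E O p').mul_mem a2 ((E O p').inv_mem hE')
    have c := P1 p p' _ hp hp' hne b1 b2
    calc h * h' = (h * h' * h⁻¹ * h'⁻¹) * (h' * h) := by group
      _ = h' * h := by rw [c, one_mul]
  · intro g q h hHH hO hgO hne hg hqO hqg
    have tq := hqO.tau_ne hG q.2 O.2
    obtain ⟨k1, k2, k3⟩ := k4_mul (τ (q : G)) (τ (O : G)) q.2.2 O.2.2 tq
    apply Dt h (τ (q : G)) hHH.1 q.2.2
    intro p hp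
    obtain ⟨z, z1, z2, z3⟩ := wedge hG p O (by rw [hp]; exact tq)
    obtain ⟨z', z1', z2', z3'⟩ := wedge hG p g (by rw [hp, hgO]; exact tq)
    rw [hp] at z3
    rw [hp, hgO] at z3'
    obtain ⟨y, y1, y2, y3⟩ := wedge hG z' O (by rw [z3']; exact k3)
    have ty : τ (y : G) = τ (q : G) := by rw [y3, z3', mul_assoc, k4_sq, mul_one]
    have hyg : y ≠ g := by
      intro e
      rw [e, hgO] at ty
      exact tq ty.symm
    have hz' : h.2 z' = z' := (R h y g z' hHH.1 hyg y1.symm z2').1 (hHH.2 y y2) hg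
    have hzz : z ≠ z' := by
      intro e
      have e2 : (z : G) = (q : G) := F3 O g z q O.2 g.2 z.2 q.2
        (fun e => hne (Pt.ext e.symm)) z2 (by rw [e]; exact z2') hqO hqg
      rw [e2] at z3
      exact k2 z3.symm
    exact (R h z z' p hHH.1 hzz z1.symm z1'.symm).2 (fix2 hG hND h2 O hHH hO z z2) hz'

end Pool.Agent.Klein
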