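import Pool.Agent.Lib.MP_3c9215_al.Spec2

set_option autoImplicit false

/-!
# MP_3c9215_al: EConj, EComm
-/

namespace Pool.Agent.Klein

section
variable {G : Type} [Group G] {τ : G →* K4}

lemma EConjaux.fst_mul_apply (h k : PP τ) (x : Pt τ) : (h * k).1 x = h.1 (k.1 x) := rfl

lemma EConjaux.snd_mul_apply (h k : PP τ) (x : Pt τ) : (h * k).2 x = h.2 (k.2 x) := rfl

lemma EConjaux.fst_inv_apply_eq {h : PP τ} {x y : Pt τ} (e : h.1 x = y) : (h⁻¹).1 y = x := by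
  rw [← e]; exact perm_inv_apply _ _

lemma EConjaux.snd_inv_apply_eq {h : PP τ} {x y : Pt τ} (e : h.2 x = y) : (h⁻¹).2 y = x := by
  rw [← e]; exact perm_inv_apply _ _

lemma EConjaux.fst_apply_inv (h : PP τ) (x : Pt τ) : h.1 ((h⁻¹).1 x) = x := perm_apply_inv _ _

lemma EConjaux.snd_apply_inv (h : PP τ) (x : Pt τ) : h.2 ((h⁻¹).2 x) = x := perm_apply_inv _ _

lemma EConjaux.fst_inv_apply (h : PP τ) (x : Pt τ) : (h⁻¹).1 (h.1 x) = x := perm_inv_apply _ _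

lemma EConjaux.snd_inv_apply (h : PP τ) (x : Pt τ) : (h⁻¹).2 (h.2 x) = x := perm_inv_apply _ _

open EConjaux

lemma EConjaux.perp1 {k : PP τ} {O p : Pt τ} (hk : k ∈ Stb O) (hp : Perp (p : G) (O : G)) :
    Perp (k.1 p : G) (O : G) := by
  have h := (hk.1.2.2 p O).1 hp
  rwa [hk.2] at h

lemma EConjaux.econj2 {k : PP τ} {O p : Pt τ} {h : PP τ} (hk : k ∈ Stb O) (hh : h ∈ E O p) :
    k * h * k⁻¹ ∈ E O (k.1 p) := by
  obtain ⟨h1, h2, h3⟩ := hh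
  refine ⟨(Coll τ).mul_mem ((Coll τ).mul_mem hk.1 h1) ((Coll τ).inv_mem hk.1), fun x hx => ?_,
    fun z hz => ?_⟩
  · have e := h2 _ (perp1 ((Stb O).inv_mem hk) hx)
    rw [fst_mul_apply, fst_mul_apply, e, fst_apply_inv]
  · have hz2 : Perp ((k⁻¹).2 z : G) (p : G) := by
      have h4 := ((((Coll τ).inv_mem hk.1).2.2 (k.1 p) z).1 hz.symm).symm
      rwa [fst_inv_apply] at h4
    rw [snd_mul_apply, snd_mul_apply, h3 _ hz2, snd_apply_inv]

lemma EConjaux.econj3 {k : PP τ} {O p : Pt τ} {h : PP τ} (hk : k ∈ Stb O) (hh : h ∈ Wc O p) :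
    k * h * k⁻¹ ∈ Wc O (k.1 p) := by
  obtain ⟨h1, h2⟩ := hh
  refine ⟨econj2 hk h1, fun l hl => ?_⟩
  have h3 := econj2 ((Stb O).inv_mem hk) hl
  rw [fst_inv_apply, inv_inv] at h3
  have h4 := h2 _ h3
  calc k * h * k⁻¹ * l = k * (h * (k⁻¹ * l * k)) * k⁻¹ := by group
    _ = k * ((k⁻¹ * l * k) * h) * k⁻¹ := by rw [h4]
    _ = l * (k * h * k⁻¹) := by group

lemma EConjaux.econj4 {k : PP τ} {O : Pt τ} {h : PP τ} (hk : k ∈ Stb O) (hh : h ∈ MM O) :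
    k * h * k⁻¹ ∈ MM O := by
  have hle : MM O ≤ (MM O).comap (MulAut.conj k).toMonoidHom := by
    rw [MM, Subgroup.closure_le]
    rintro g ⟨p, hp, hg⟩
    exact Subgroup.subset_closure ⟨k.1 p, perp1 hk hp, econj3 hk hg⟩
  exact hle hh

lemma EConjaux.econj5 {k : PP τ} {O : Pt τ} {h : PP τ} (hk : k ∈ Stb O) (hh : h ∈ HH O) :
    k * h * k⁻¹ ∈ HH O := by
  obtain ⟨h1, h2⟩ := hh
  refine ⟨(Coll τ).mul_mem ((Coll τ).mul_mem hk.1 h1) ((Coll τ).inv_mem hk.1), fun x hx => ?_⟩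
  have e := h2 _ (perp1 ((Stb O).inv_mem hk) hx)
  rw [fst_mul_apply, fst_mul_apply, e, fst_apply_inv]

lemma EConjaux.econj6 (hg : Geo τ) {O : Pt τ} {h : PP τ} (hh : h ∈ HH O) : h ∈ Stb O := by
  obtain ⟨h1, h2⟩ := hh
  refine ⟨h1, ?_⟩
  obtain ⟨x, hx, hp⟩ := exists_perp' hg O.2
  have hpt : IsPt τ ((O : G) * x) := hp.mul_isPt hg O.2 hx
  set X : Pt τ := ⟨x, hx⟩ with hX
  set Z : Pt τ := ⟨(O : G) * x, hpt⟩ with hZ
  have hXO : Perp (X : G) (O : G) := hp.symm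
  have hZO : Perp (Z : G) (O : G) := (hp.mul_right hg O.2 hx).symm
  have e1 := (h1.2.2 X O).1 hXO
  have e2 := (h1.2.2 Z O).1 hZO
  rw [h2 X hXO] at e1
  rw [h2 Z hZO] at e2
  have hne : τ (X : G) ≠ τ (Z : G) := by
    have := (hp.mul_right' hg O.2 hx).tau_ne hg hx hpt
    exact this
  apply Pt.ext
  rw [wedge_unique hg X.2 Z.2 (h.2 O).2 hne e1.symm e2.symm]
  exact (wedge_unique hg X.2 Z.2 O.2 hne hXO.symm hZO.symm).symm

theorem eConj : S_EConj := by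
  intro G _ τ hg O
  exact ⟨fun k hk p hp => perp1 hk hp, fun k hk p h hh => econj2 hk hh,
    fun k hk p h hh => econj3 hk hh, fun k hk h hh => econj4 hk hh,
    fun k hk h hh => econj5 hk hh, fun h hh => econj6 hg hh⟩

theorem eComm : S_EComm := by
  intro G _ τ hg O p δ k hp hδ hδ2 hk
  have hkS : k ∈ Stb O := econj6 hg hk
  refine ⟨(Coll τ).mul_mem ((Coll τ).mul_mem ((Coll τ).mul_mem hδ.1 hk.1) ((Coll τ).inv_mem hδ.1))
    ((Coll τ).inv_mem hk.1), fun x hx => ?_, fun z hz => ?_⟩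
  · have e1 : (k⁻¹).1 x = x := fst_inv_apply_eq (hk.2 x hx)
    have e2 := hk.2 _ (perp1 ((Stb O).inv_mem hδ) hx)
    rw [fst_mul_apply, fst_mul_apply, fst_mul_apply, e1, e2, fst_apply_inv]
  · have hkp : k.1 p = p := hk.2 p hp
    have h1 : Perp ((k⁻¹).2 z : G) (p : G) := by
      have h4 := ((((Coll τ).inv_mem hk.1).2.2 (k.1 p) z).1 (by rw [hkp]; exact hz.symm)).symm
      rwa [fst_inv_apply] at h4
    have h2 : (δ⁻¹).2 ((k⁻¹).2 z) = (k⁻¹).2 z := snd_inv_apply_eq (hδ2 _ h1)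
    rw [snd_mul_apply, snd_mul_apply, snd_mul_apply, h2, snd_apply_inv, hδ2 z hz]

end

end Pool.Agent.Klein
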