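import Pool.Agent.Lib.MP_3c9215_al.Spec2

set_option autoImplicit false

/-!
# MP_3c9215_al: nontrivial elations exist
-/

namespace Pool.Agent.Klein

theorem eEx (h1 : S_HmlEx) (h2 : S_HmlBasic) (h3 : S_HmlFix) (h4 : S_LemP) (h5 : S_EConj)
    (h6 : S_EComm) : S_EEx := by
  intro G _ τ h nd nt O p hp
  -- the third point of the frame
  have hq0 : IsPt τ ((O : G) * (p : G)) := hp.symm.mul_isPt h O.2 p.2
  obtain ⟨q, hqe⟩ : ∃ q : Pt τ, (q : G) = (O : G) * (p : G) := ⟨⟨_, hq0⟩, rfl⟩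
  have hOq : Perp (O : G) (q : G) := by rw [hqe]; exact hp.symm.mul_right h O.2 p.2
  have hpq : Perp (p : G) (q : G) := by rw [hqe]; exact hp.symm.mul_right' h O.2 p.2
  have hpe : (p : G) = (q : G) * (O : G) := by
    rw [hqe, mul_assoc, hp.1, ← mul_assoc, O.2.1, one_mul]
  have tpO : τ (p : G) ≠ τ (O : G) := hp.tau_ne h p.2 O.2
  have tpq : τ (p : G) ≠ τ (q : G) := hpq.tau_ne h p.2 q.2
  -- uniqueness of the common perpendicular of `p` and `q`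
  have huniq : ∀ z : Pt τ, Perp (z : G) (p : G) → Perp (z : G) (q : G) → z = O := by
    intro z hz1 hz2
    apply Pt.ext
    rw [wedge_unique h p.2 q.2 z.2 tpq hz1 hz2]
    exact (wedge_unique h p.2 q.2 O.2 tpq hp.symm hOq).symm
  obtain ⟨σ, hσ, hσ1⟩ := nt p p.2
  obtain ⟨s, hs⟩ := h1 G τ h p σ p.2 hσ
  obtain ⟨ρ, hρ, hρ1⟩ := nt q q.2
  obtain ⟨-, b2, -, -, -⟩ := h2 G τ h
  obtain ⟨-, hsfix⟩ := b2 p σ s hσ hs
  obtain ⟨-, ρ₁, hρ₁, hP1, hP2⟩ := h4 G τ h nd q O p ρ σ s hOq.symm hpe hρ hρ1 hσ hσ1 hs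
  have hcj : ∀ a ∈ A τ (q : G), (cj τ a).1 q = q ∧ (cj τ a).2 q = q := by
    intro a ha
    have e : a * (q : G) * a⁻¹ = q := by rw [ha.2]; group
    exact ⟨Pt.ext (by rw [cj_fst]; exact e), Pt.ext (by rw [cj_snd]; exact e)⟩
  set P : PP τ := cj τ ρ₁ * s * cj τ ρ * s⁻¹ with hP
  have hPC : P ∈ Coll τ := (Coll τ).mul_mem ((Coll τ).mul_mem ((Coll τ).mul_mem (cj_mem τ ρ₁) hs.1)
    (cj_mem τ ρ)) ((Coll τ).inv_mem hs.1)
  have hsq := hsfix q hpq.symm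
  have hPq1 : P.1 q = q := by
    have e : s.1⁻¹ q = q := by rw [Equiv.Perm.inv_eq_iff_eq, hsq.1]
    rw [hP]
    simp only [Prod.fst_mul, Prod.fst_inv, Equiv.Perm.mul_apply]
    rw [e, (hcj ρ hρ).1, hsq.1, (hcj ρ₁ hρ₁).1]
  have hPq2 : P.2 q = q := by
    have e : s.2⁻¹ q = q := by rw [Equiv.Perm.inv_eq_iff_eq, hsq.2]
    rw [hP]
    simp only [Prod.snd_mul, Prod.snd_inv, Equiv.Perm.mul_apply]
    rw [e, (hcj ρ hρ).2, hsq.2, (hcj ρ₁ hρ₁).2]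
  have hPO : P.2 O = O := by
    apply huniq
    · have := (hPC.2.2 p O).1 hp
      rw [hP1] at this
      exact this.symm
    · have := (hPC.2.2 q O).1 hOq.symm
      rw [hPq1] at this
      exact this.symm
  have hPS : P ∈ Stb O := ⟨hPC, hPO⟩
  have hx0q : Perp ((P.1 O : Pt τ) : G) (q : G) := by
    have := (hPC.2.2 O q).1 hOq
    rwa [hPq2] at this
  obtain ⟨ρ₀, hρ₀, hρ₀1⟩ := nt O O.2
  obtain ⟨u, hu⟩ := h1 G τ h O ρ₀ O.2 hρ₀
  obtain ⟨⟨huO, -⟩, hufix⟩ := b2 O ρ₀ u hρ₀ hu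
  have huH : u ∈ HH O := ⟨hu.1, fun x hx => (hufix x hx).1⟩
  obtain ⟨-, -, -, -, c5, -⟩ := h5 G τ h O
  have hkH : P * u * P⁻¹ ∈ HH O := c5 P hPS u huH
  set k : PP τ := P * u * P⁻¹ with hk
  have hsS : s ∈ Stb O := ⟨hs.1, (hsfix O hp.symm).2⟩
  have he := h6 G τ h O p s k hp hsS (fun z hz => (hsfix z hz).2) hkH
  refine ⟨_, he, fun he1 => ?_⟩
  have hcomm : s * k = k * s := by
    have := congrArg (fun w => w * k * s) he1
    simpa [mul_assoc] using this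
  set x₀ : Pt τ := P.1 O with hx₀
  have hk1 : ∀ x : Pt τ, k.1 x = P.1 (u.1 (P.1⁻¹ x)) := fun x => rfl
  have hkx : k.1 x₀ = x₀ := by
    rw [hk1, hx₀, perm_inv_apply, huO]
  have hksx : k.1 (s.1 x₀) = s.1 x₀ := by
    have e : (s * k).1 x₀ = (k * s).1 x₀ := by rw [hcomm]
    have e1 : (s * k).1 x₀ = s.1 (k.1 x₀) := rfl
    have e2 : (k * s).1 x₀ = k.1 (s.1 x₀) := rfl
    rw [e1, e2, hkx] at e
    exact e.symm
  set w : Pt τ := P.1⁻¹ (s.1 x₀) with hw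
  have huw : u.1 w = w := by
    have e : P.1 (u.1 w) = s.1 x₀ := (hk1 (s.1 x₀)).symm.trans hksx
    have e2 := congrArg (fun x => P.1⁻¹ x) e
    simp only [perm_inv_apply] at e2
    rw [e2]
  have htx0 : τ (x₀ : G) = τ (O : G) := hPC.1 O
  have htw : τ (w : G) = τ (O : G) := by
    have e := ((Coll τ).inv_mem hPC).1 (s.1 x₀)
    have e2 : (P⁻¹).1 (s.1 x₀) = w := rfl
    rw [e2, hs.1.1, htx0] at e
    exact e
  have hwO : w = O := by
    rcases h3 G τ h nd O ρ₀ u hρ₀ hρ₀1 hu w (by rw [huw, huw]) with e | e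
    · exact e
    · exact absurd htw (e.tau_ne h w.2 O.2)
  have hsx : s.1 x₀ = x₀ := by
    have e := congrArg (fun x => P.1 x) hwO
    simp only [hw, perm_apply_inv] at e
    exact e
  rcases h3 G τ h nd p σ s hσ hσ1 hs x₀ (by rw [hsx, hsx]) with e | e
  · apply tpO
    rw [← e, htx0]
  · exact hP2 (huniq x₀ e hx0q)

end Pool.Agent.Klein
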