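import Pool.Agent.Lib.MP_3c9215_al.Spec2

set_option autoImplicit false

/-!
# MP_3c9215_al: basic properties of homologies
-/

namespace Pool.Agent.Klein

theorem hmlBasic : S_HmlBasic := by
  intro G _ τ h
  refine ⟨?_, ?_, ?_, ?_, ?_⟩
  · intro σ s s' hs hs'
    have h1 : s.1 = s'.1 := by
      apply Equiv.ext
      intro x
      apply Pt.ext
      rw [hs.2.1 x, hs'.2.1 x]
    apply Prod.ext h1
    rw [hs.2.2, hs'.2.2, h1]
  · intro O σ s hσ hs
    have key : ∀ x : Pt τ, s.1 x = x → s.1 x = x ∧ s.2 x = x := by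
      intro x hx
      refine ⟨hx, ?_⟩
      rw [hs.2.2, Equiv.Perm.inv_eq_iff_eq, hx]
    refine ⟨?_, ?_⟩
    · apply key
      apply Pt.ext
      rw [hs.2.1 O]
      have e : σ * (O : G) * σ = (O : G) * (σ * σ) := by
        rw [hσ.2, mul_assoc]
      rw [e]
      apply D_eq h O.2.1
      · rw [map_mul, hσ.1, one_mul]
      · rw [mul_assoc, hσ.2, ← mul_assoc, hσ.2, mul_assoc]
    · intro x hx
      apply key
      apply Pt.ext
      rw [hs.2.1 x]
      have e : σ * (x : G) * σ = (x : G) := by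
        rw [A_mul_pt h O.2 x.2 hx.symm hσ, mul_assoc, inv_mul_cancel, mul_one]
      rw [e]
      exact D_self h x.2.1
  · intro g σ s hs
    refine ⟨?_, ?_, ?_⟩
    · exact (Coll τ).mul_mem ((Coll τ).mul_mem (cj_mem τ g) hs.1) ((Coll τ).inv_mem (cj_mem τ g))
    · intro x
      have e1 : ((cj τ g * s * (cj τ g)⁻¹).1 x : Pt τ) = (cj τ g).1 (s.1 ((cj τ g)⁻¹.1 x)) := by
        rw [Prod.fst_mul, Prod.fst_mul, Equiv.Perm.mul_apply, Equiv.Perm.mul_apply]
      rw [e1, cj_fst, hs.2.1, D_conj, ← map_inv, cj_fst]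
      congr 1
      group
    · rw [Prod.snd_mul, Prod.snd_mul, Prod.fst_mul, Prod.fst_mul, hs.2.2, Prod.snd_inv, Prod.fst_inv,
        mul_inv_rev, mul_inv_rev, inv_inv]
      have : (cj τ g).2 = (cj τ g).1 := rfl
      rw [this, mul_assoc]
  · intro σ s hs
    refine ⟨hs.1, ?_, hs.2.2⟩
    intro x
    rw [hs.2.1 x]
    have e : σ⁻¹ * (x : G) * σ⁻¹ = (σ * (x : G) * σ)⁻¹ := by
      rw [mul_inv_rev, mul_inv_rev, x.2.inv_eq, mul_assoc]
    rw [e, D_inv]
  · intro σ s hs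
    apply Prod.ext
    · show s.2 = (s⁻¹).1
      rw [Prod.fst_inv, hs.2.2]
    · show s.1 = (s⁻¹).2
      rw [Prod.snd_inv, hs.2.2, inv_inv]

end Pool.Agent.Klein
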