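import Pool.Agent.Lib.MP_3c9215_al.Spec2

set_option autoImplicit false

/-!
# MP_3c9215_al: homologies with perpendicular centres commute
-/

namespace Pool.Agent.Klein

/-- if the second component of `s` fixes all points perpendicular to `O`, and `s'.1 O = O`, then the
second component of the commutator of `s`, `s'` fixes all points perpendicular to `O` -/
lemma hc_fix {G : Type} [Group G] {τ : G →* K4} {O z : Pt τ} {s s' : PP τ} (hs' : s' ∈ Coll τ)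
    (h1 : ∀ x : Pt τ, Perp (x : G) (O : G) → s.2 x = x) (h2 : s'.1 O = O)
    (hz : Perp (z : G) (O : G)) : (s * s' * s⁻¹ * s'⁻¹).2 z = z := by
  have hu : Perp ((s'.2⁻¹ z : Pt τ) : G) (O : G) := by
    have := (hs'.2.2 O (s'.2⁻¹ z)).2 (by rw [h2, perm_apply_inv]; exact hz.symm)
    exact this.symm
  have e1 : s.2⁻¹ (s'.2⁻¹ z) = s'.2⁻¹ z := by
    rw [Equiv.Perm.inv_eq_iff_eq, h1 _ hu]
  show s.2 (s'.2 (s.2⁻¹ (s'.2⁻¹ z))) = z
  rw [e1, perm_apply_inv, h1 z hz]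

lemma hc_fix' {G : Type} [Group G] {τ : G →* K4} {O z : Pt τ} {s s' : PP τ} (hs : s ∈ Coll τ)
    (h1 : ∀ x : Pt τ, Perp (x : G) (O : G) → s'.2 x = x) (h2 : s.1 O = O)
    (hz : Perp (z : G) (O : G)) : (s * s' * s⁻¹ * s'⁻¹).2 z = z := by
  have hv : Perp ((s.2⁻¹ z : Pt τ) : G) (O : G) := by
    have := (hs.2.2 O (s.2⁻¹ z)).2 (by rw [h2, perm_apply_inv]; exact hz.symm)
    exact this.symm
  have e1 : s'.2⁻¹ z = z := by
    rw [Equiv.Perm.inv_eq_iff_eq, h1 z hz]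
  show s.2 (s'.2 (s.2⁻¹ (s'.2⁻¹ z))) = z
  rw [e1, h1 _ hv, perm_apply_inv]

theorem hmlComm (h1 : S_HmlBasic) (h2 : S_Rule) (h3 : S_Det) : S_HmlComm := by
  intro G _ τ h hnd hnt O O' σ σ' s s' hO hσ hσ' hs hs'
  obtain ⟨_, hb, _⟩ := h1 G τ h
  obtain ⟨⟨b1, b2⟩, b3⟩ := hb O σ s hσ hs
  obtain ⟨⟨b1', b2'⟩, b3'⟩ := hb O' σ' s' hσ' hs'
  have htO : τ (O : G) ≠ τ (O' : G) := hO.tau_ne h O.2 O'.2
  have ht := k4_mul _ _ O.2.2 O'.2.2 htO
  have hκ : s * s' * s⁻¹ * s'⁻¹ ∈ Coll τ :=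
    (Coll τ).mul_mem ((Coll τ).mul_mem ((Coll τ).mul_mem hs.1 hs'.1) ((Coll τ).inv_mem hs.1))
      ((Coll τ).inv_mem hs'.1)
  have key : s * s' * s⁻¹ * s'⁻¹ = 1 := by
    apply h3 G τ h hnd hnt _ (τ (O : G) * τ (O' : G)) hκ ht.1
    intro p hp
    have hpO : τ (p : G) ≠ τ (O : G) := by rw [hp]; exact ht.2.1
    have hpO' : τ (p : G) ≠ τ (O' : G) := by rw [hp]; exact ht.2.2
    have w1 := wedge_isPt h p.2 O.2 hpO
    have w1p := wedge_perp_left h p.2 O.2 hpO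
    have w1O := wedge_perp_right h p.2 O.2 hpO
    have w1t : τ (D ((p : G) * (O : G))) = τ (O' : G) := by
      rw [wedge_tau h, hp, mul_comm, ← mul_assoc, k4_sq, one_mul]
    have w2 := wedge_isPt h p.2 O'.2 hpO'
    have w2p := wedge_perp_left h p.2 O'.2 hpO'
    have w2O := wedge_perp_right h p.2 O'.2 hpO'
    have w2t : τ (D ((p : G) * (O' : G))) = τ (O : G) := by
      rw [wedge_tau h, hp, mul_assoc, k4_sq, mul_one]
    have hne : (⟨D ((p : G) * (O : G)), w1⟩ : Pt τ) ≠ ⟨D ((p : G) * (O' : G)), w2⟩ := by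
      intro e
      have e2 : D ((p : G) * (O : G)) = D ((p : G) * (O' : G)) := congrArg Subtype.val e
      apply htO
      rw [← w1t, ← w2t, e2]
    refine (h2 G τ h hnd _ ⟨D ((p : G) * (O : G)), w1⟩ ⟨D ((p : G) * (O' : G)), w2⟩ p hκ hne
      w1p.symm w2p.symm).2 ?_ ?_
    · exact hc_fix hs'.1 (fun x hx => (b3 x hx).2) (b3' O hO).1 w1O
    · exact hc_fix' hs.1 (fun x hx => (b3' x hx).2) (b3 O' hO.symm).1 w2O
  have := mul_inv_eq_one.1 key
  rw [mul_inv_eq_iff_eq_mul] at this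
  exact this

end Pool.Agent.Klein
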