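import Pool.Agent.Lib.MP_3c9215_al.Spec2

set_option autoImplicit false

/-!
# MP_3c9215_al: existence of homologies
-/

namespace Pool.Agent.Klein

section
variable {G : Type} [Group G] {τ : G →* K4}

lemma hml_tau {σ : G} (hσ : τ σ = 1) (x : G) : τ (σ * x * σ) = τ x := by
  rw [map_mul, map_mul, hσ, one_mul, mul_one]

lemma hml_isPt (h : Geo τ) {σ x : G} (hσ : τ σ = 1) (hx : IsPt τ x) : IsPt τ (D (σ * x * σ)) := by
  apply D_isPt h
  rw [hml_tau hσ]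
  exact hx.2

/-- the candidate for the inverse of `x ↦ D (σ x σ)` -/
noncomputable def hmlInv (σ z : G) : G := σ⁻¹ * (z * comp z (σ * σ)) * σ⁻¹

lemma hmlInv_isPt (h : Geo τ) {σ z : G} (hσ : τ σ = 1) (hz : IsPt τ z) :
    IsPt τ (hmlInv σ z) := by
  have h2 : τ (σ * σ) = 1 := by rw [map_mul, hσ, one_mul]
  have hε := comp_mem h hz h2
  obtain ⟨i, hi, hzi, e⟩ := comp_factor h hz h2
  unfold hmlInv
  set ε := comp z (σ * σ) with hεd
  have h3 : z * i⁻¹ * z⁻¹ = (i⁻¹)⁻¹ := by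
    have := congrArg (fun w => w⁻¹) hzi
    simpa [mul_assoc] using this
  have h4 := inverted_conj_A hε h3
  rw [hz.inv_eq] at h4
  refine ⟨?_, ?_⟩
  · calc σ⁻¹ * (z * ε) * σ⁻¹ * (σ⁻¹ * (z * ε) * σ⁻¹)
        = σ⁻¹ * (z * (ε * (σ * σ)⁻¹) * z) * ε * σ⁻¹ := by group
      _ = σ⁻¹ * (z * (ε * (ε * i)⁻¹) * z) * ε * σ⁻¹ := by rw [e]
      _ = σ⁻¹ * (z * (ε * i⁻¹ * ε⁻¹) * z) * ε * σ⁻¹ := by group
      _ = σ⁻¹ * (ε * i⁻¹ * ε⁻¹)⁻¹ * ε * σ⁻¹ := by rw [h4]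
      _ = σ⁻¹ * (ε * i) * σ⁻¹ := by group
      _ = σ⁻¹ * (σ * σ) * σ⁻¹ := by rw [← e]
      _ = 1 := by group
  · rw [map_mul, map_mul, map_mul, map_inv, hσ, hε.1]
    simpa using hz.2

lemma hml_right (h : Geo τ) {σ z : G} (hσ : τ σ = 1) (hz : IsPt τ z) :
    D (σ * hmlInv σ z * σ) = z := by
  have h2 : τ (σ * σ) = 1 := by rw [map_mul, hσ, one_mul]
  have hε := comp_mem h hz h2
  have e : σ * hmlInv σ z * σ = z * comp z (σ * σ) := by
    unfold hmlInv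
    group
  rw [e]
  exact D_eq h hz.1 hε.1 hε.2

lemma hml_left (h : Geo τ) {σ y : G} (hσ : τ σ = 1) (hy : IsPt τ y) :
    hmlInv σ (D (σ * y * σ)) = y := by
  have hz := hml_isPt h hσ hy
  have ht : τ (σ * y * σ) ≠ 1 := by rw [hml_tau hσ]; exact hy.2
  obtain ⟨ε, hε, e⟩ := D_factor h ht
  unfold hmlInv
  set z := D (σ * y * σ) with hzd
  have h2 : τ (σ * σ) = 1 := by rw [map_mul, hσ, one_mul]
  have hj : τ (ε * (σ * σ)⁻¹)⁻¹ = 1 := by
    rw [map_inv, map_mul, map_inv, h2, hε.1]; simp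
  have hyy : y = σ⁻¹ * (z * ε) * σ⁻¹ := by
    rw [← e]; group
  have h3 : z * (ε * (σ * σ)⁻¹) * z = (ε * (σ * σ)⁻¹)⁻¹ := by
    have h1 := hy.1
    rw [hyy] at h1
    calc z * (ε * (σ * σ)⁻¹) * z
        = σ * (σ⁻¹ * (z * ε) * σ⁻¹ * (σ⁻¹ * (z * ε) * σ⁻¹)) * σ * ε⁻¹ := by group
      _ = σ * 1 * σ * ε⁻¹ := by rw [h1]
      _ = (ε * (σ * σ)⁻¹)⁻¹ := by rw [mul_inv_rev, inv_inv, mul_one]
  have h4 : z * (ε * (σ * σ)⁻¹)⁻¹ * z⁻¹ = ((ε * (σ * σ)⁻¹)⁻¹)⁻¹ := by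
    have := congrArg (fun w => w⁻¹) h3
    rw [hz.inv_eq]
    rw [mul_inv_rev, mul_inv_rev, hz.inv_eq] at this
    rw [← this, mul_assoc]
  have h5 : σ * σ = (ε * (σ * σ)⁻¹)⁻¹ * ε := by
    rw [mul_inv_rev, inv_inv, inv_mul_cancel_right]
  have h6 : comp z (σ * σ) = ε := by
    conv_lhs => rw [h5]
    rw [comp_mul_right h hz hε hj, comp_of_inverted h hz hj h4, one_mul]
  rw [h6, ← hyy]

/-- the homology as a permutation of the points -/
noncomputable def hmlPerm (h : Geo τ) (σ : G) (hσ : τ σ = 1) : Equiv.Perm (Pt τ) where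
  toFun x := ⟨D (σ * x.1 * σ), hml_isPt h hσ x.2⟩
  invFun x := ⟨hmlInv σ x.1, hmlInv_isPt h hσ x.2⟩
  left_inv x := Subtype.ext (hml_left h hσ x.2)
  right_inv x := Subtype.ext (hml_right h hσ x.2)

lemma hmlPerm_apply (h : Geo τ) (σ : G) (hσ : τ σ = 1) (x : Pt τ) :
    ((hmlPerm h σ hσ x : Pt τ) : G) = D (σ * (x : G) * σ) := rfl

lemma hml_perp_iff (h : Geo τ) {σ x y : G} (hσ : τ σ = 1) (hx : IsPt τ x) (hy : IsPt τ y)
    (ht : τ x ≠ τ y) : Perp x (D (σ * y * σ)) ↔ (x * (σ * y * σ)) * (x * (σ * y * σ)) = 1 := by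
  have hz := hml_isPt h hσ hy
  have ht' : τ (σ * y * σ) ≠ 1 := by rw [hml_tau hσ]; exact hy.2
  constructor
  · intro hp
    obtain ⟨ε, hε, e⟩ := D_factor h ht'
    set z := D (σ * y * σ) with hzd
    have h1 : ε * x = x * ε⁻¹ := A_mul_pt h hz hx hp.symm hε
    have h2 : ε⁻¹ * z = z * ε⁻¹ := ((A τ z).inv_mem hε).2
    rw [e]
    calc x * (z * ε) * (x * (z * ε)) = x * z * (ε * x) * z * ε := by group
      _ = x * z * (x * ε⁻¹) * z * ε := by rw [h1]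
      _ = x * z * x * (ε⁻¹ * z) * ε := by group
      _ = x * z * x * (z * ε⁻¹) * ε := by rw [h2]
      _ = (x * z) * x * z := by group
      _ = (z * x) * x * z := by rw [hp.1]
      _ = z * (x * x) * z := by group
      _ = 1 := by rw [hx.1, mul_one, hz.1]
  · intro hq
    have h1 : x * (σ * y * σ) * x⁻¹ = (σ * y * σ)⁻¹ := by
      rw [hx.inv_eq]
      have := congrArg (fun w => w * (σ * y * σ)⁻¹) hq
      simp only [one_mul] at this
      rw [← this]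
      group
    apply perp_of_comm_of_tau_ne (τ := τ) (D_comm_of_inverts h1)
    rw [D_tau h, hml_tau hσ]
    exact ht

lemma hml_adj (h : Geo τ) {σ x y : G} (hσ : τ σ = 1) (hx : IsPt τ x) (hy : IsPt τ y) :
    Perp x (D (σ * y * σ)) ↔ Perp (D (σ * x * σ)) y := by
  by_cases ht : τ x = τ y
  · constructor
    · intro hp
      exfalso
      apply hp.tau_ne h hx (hml_isPt h hσ hy)
      rw [D_tau h, hml_tau hσ, ht]
    · intro hp
      exfalso
      apply hp.tau_ne h (hml_isPt h hσ hx) hy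
      rw [D_tau h, hml_tau hσ, ht]
  · have e1 := hml_perp_iff h hσ hx hy ht
    have e2 := hml_perp_iff h hσ hy hx (fun e => ht e.symm)
    have e3 : Perp (D (σ * x * σ)) y ↔ Perp y (D (σ * x * σ)) :=
      ⟨fun hp => hp.symm, fun hp => hp.symm⟩
    rw [e1, e3, e2]
    constructor
    · intro hq
      calc (y * (σ * x * σ)) * (y * (σ * x * σ))
          = (y * σ) * ((x * (σ * y * σ)) * (x * (σ * y * σ))) * (y * σ)⁻¹ := by group
        _ = 1 := by rw [hq]; group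
    · intro hq
      calc (x * (σ * y * σ)) * (x * (σ * y * σ))
          = (x * σ) * ((y * (σ * x * σ)) * (y * (σ * x * σ))) * (x * σ)⁻¹ := by group
        _ = 1 := by rw [hq]; group

end

theorem hmlEx : S_HmlEx := by
  intro G _ τ h O σ _ hσ
  have hs : τ σ = 1 := hσ.1
  refine ⟨(hmlPerm h σ hs, (hmlPerm h σ hs)⁻¹), ?_, fun x => rfl, rfl⟩
  refine ⟨fun x => ?_, fun x => ?_, fun x y => ?_⟩
  · change τ (D (σ * (x : G) * σ)) = τ (x : G)
    rw [D_tau h, hml_tau hs]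
  · have e : τ ((hmlPerm h σ hs ((hmlPerm h σ hs)⁻¹ x) : Pt τ) : G) =
        τ (((hmlPerm h σ hs)⁻¹ x : Pt τ) : G) := by
      change τ (D (σ * (((hmlPerm h σ hs)⁻¹ x : Pt τ) : G) * σ)) = _
      rw [D_tau h, hml_tau hs]
    rw [perm_apply_inv] at e
    exact e.symm
  · change Perp (x : G) (y : G) ↔
      Perp ((hmlPerm h σ hs x : Pt τ) : G) (((hmlPerm h σ hs)⁻¹ y : Pt τ) : G)
    have e := hml_adj h hs x.2 ((hmlPerm h σ hs)⁻¹ y).2
    have e2 : D (σ * ((hmlPerm h σ hs)⁻¹ y).1 * σ) = (y : G) := by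
      have := congrArg (fun w : Pt τ => (w : G)) (perm_apply_inv (hmlPerm h σ hs) y)
      exact this
    rw [e2] at e
    exact e

end Pool.Agent.Klein
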