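import Pool.Agent.Lib.MP_3c9215_al.Spec2

set_option autoImplicit false

/-!
# MP_3c9215_al: the points fixed by the square of a homology
-/

namespace Pool.Agent.Klein

theorem hmlFix (h1 : S_Fix1) : S_HmlFix := by
  intro G _ τ hG hND O σ s hσ hσ1 hs x hx
  obtain ⟨hf1, hf2, hf3⟩ := h1 G τ hG hND
  have hO := O.2
  by_cases hxO : x = O
  · exact Or.inl hxO
  -- it is enough that `x` and `O` commute
  suffices hcomm : (x : G) * (O : G) = (O : G) * (x : G) from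
    Or.inr ⟨hcomm, fun e => hxO (Pt.ext e)⟩
  -- the points `g` and `k`
  obtain ⟨g, hg⟩ : ∃ g : G, g = (x : G) := ⟨_, rfl⟩
  obtain ⟨k, hk⟩ : ∃ k : G, k = ((s.1 x : Pt τ) : G) := ⟨_, rfl⟩
  have hgp : IsPt τ g := by rw [hg]; exact x.2
  have hkp : IsPt τ k := by rw [hk]; exact (s.1 x).2
  have hk1 : k = D (σ * g * σ) := by rw [hk, hg]; exact hs.2.1 x
  have hg1 : g = D (σ * k * σ) := by
    have := hs.2.1 (s.1 x)
    rw [hx] at this
    rw [hk, hg]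
    exact this
  rw [← hg]
  have hgO : g ≠ (O : G) := fun e => hxO (Pt.ext (hg ▸ e))
  clear hk hg
  have hτσ : τ σ = 1 := hσ.1
  have hgk : τ (σ * g * σ) ≠ 1 := by
    rw [map_mul, map_mul, hτσ, one_mul, mul_one]; exact hgp.2
  have hkg : τ (σ * k * σ) ≠ 1 := by
    rw [map_mul, map_mul, hτσ, one_mul, mul_one]; exact hkp.2
  obtain ⟨ε, hε, e1⟩ := D_factor hG hgk
  obtain ⟨ε', hε', e2⟩ := D_factor hG hkg
  rw [← hk1] at hε e1
  rw [← hg1] at hε' e2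
  -- `ε' = σ⁻¹ ε σ`
  have hee : ε' = σ⁻¹ * ε * σ := by
    have a1 : σ * g * σ * k = ε := by
      rw [e1, mul_assoc, hε.2, ← mul_assoc, hkp.1, one_mul]
    have a2 : g * (σ * k * σ) = ε' := by
      rw [e2, ← mul_assoc, hgp.1, one_mul]
    calc ε' = g * (σ * k * σ) := a2.symm
      _ = σ⁻¹ * (σ * g * σ * k) * σ := by group
      _ = σ⁻¹ * ε * σ := by rw [a1]
  have hσ2A : σ * σ ∈ A τ (O : G) := (A τ (O : G)).mul_mem hσ hσ
  have hσ2 : σ * σ ≠ 1 := fun h => hσ1 (ker_eq_one_of_sq hG hτσ h)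
  by_cases hε1 : ε = 1
  · -- `σ g σ = k`, so `g` inverts `σ²`
    rw [hε1, mul_one] at e1
    have b1 : (σ * g * σ) * (σ * g * σ) = 1 := by rw [e1]; exact hkp.1
    have b2 : g * (σ * σ) * g⁻¹ = (σ * σ)⁻¹ := by
      rw [hgp.inv_eq]
      calc g * (σ * σ) * g = σ⁻¹ * ((σ * g * σ) * (σ * g * σ)) * σ⁻¹ := by group
        _ = σ⁻¹ * 1 * σ⁻¹ := by rw [b1]
        _ = (σ * σ)⁻¹ := by group
    have hO' : IsPt τ (g * (O : G) * g⁻¹) := hO.conj g
    have b4 : σ * σ = g * (σ * σ)⁻¹ * g⁻¹ := by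
      calc σ * σ = ((σ * σ)⁻¹)⁻¹ := by rw [inv_inv]
        _ = (g * (σ * σ) * g⁻¹)⁻¹ := by rw [b2]
        _ = g * (σ * σ)⁻¹ * g⁻¹ := by group
    have b5 : (O : G) * (σ * σ)⁻¹ = (σ * σ)⁻¹ * (O : G) :=
      (((A τ (O : G)).inv_mem hσ2A).2).symm
    have b3 : (g * (O : G) * g⁻¹) * (σ * σ) = (σ * σ) * (g * (O : G) * g⁻¹) := by
      calc (g * (O : G) * g⁻¹) * (σ * σ) = (g * (O : G) * g⁻¹) * (g * (σ * σ)⁻¹ * g⁻¹) := by
            rw [← b4]
        _ = g * ((O : G) * (σ * σ)⁻¹) * g⁻¹ := by group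
        _ = g * ((σ * σ)⁻¹ * (O : G)) * g⁻¹ := by rw [b5]
        _ = (g * (σ * σ)⁻¹ * g⁻¹) * (g * (O : G) * g⁻¹) := by group
        _ = (σ * σ) * (g * (O : G) * g⁻¹) := by rw [← b4]
    have b6 := hf2 (O : G) (σ * σ) _ hO hO' hσ2A hσ2 b3
    calc g * (O : G) = (g * (O : G) * g⁻¹) * g := by group
      _ = (O : G) * g := by rw [b6]
  · -- `σ⁻¹ k σ = g`
    exfalso
    have hε'1 : ε' ≠ 1 := by
      intro h
      apply hε1
      rw [h] at hee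
      calc ε = σ * (σ⁻¹ * ε * σ) * σ⁻¹ := by group
        _ = σ * 1 * σ⁻¹ := by rw [← hee]
        _ = 1 := by group
    have hkp' : IsPt τ (σ⁻¹ * k * σ) := by
      have := hkp.conj σ⁻¹
      rwa [inv_inv] at this
    have c1 : (σ⁻¹ * k * σ) * ε' = ε' * (σ⁻¹ * k * σ) := by
      rw [hee]
      calc (σ⁻¹ * k * σ) * (σ⁻¹ * ε * σ) = σ⁻¹ * (k * ε) * σ := by group
        _ = σ⁻¹ * (ε * k) * σ := by rw [hε.2]
        _ = (σ⁻¹ * ε * σ) * (σ⁻¹ * k * σ) := by group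
    have c2 := hf2 g ε' _ hgp hkp' hε' hε'1 c1
    have c3 : k = σ * g * σ⁻¹ := by rw [← c2]; group
    -- `k` commutes with `σ²`
    have c4 : σ * g * σ = k * (σ * σ) := by rw [c3]; group
    have c5 : ε = σ * σ := by
      have : k * ε = k * (σ * σ) := by rw [← e1, c4]
      exact mul_left_cancel this
    have c6 : k * (σ * σ) = (σ * σ) * k := by rw [← c5]; exact hε.2.symm
    have c7 := hf2 (O : G) (σ * σ) k hO hkp hσ2A hσ2 c6
    apply hgO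
    rw [← c2, c7, mul_assoc, ← hσ.2]
    group

end Pool.Agent.Klein
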