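import Pool.Agent.Lib.MP_3c9215_al.Spec1

set_option autoImplicit false

/-!
# MP_3c9215_al: commutative normal subgroups in the just infinite case
-/

namespace Pool.Agent.Klein

namespace JIAbM

variable {G : Type} [Group G] {τ : G →* K4}

theorem finite_of_card_ne {H : Subgroup G} (h : Nat.card H ≠ 0) : Finite H :=
  Nat.finite_of_card_ne_zero h

theorem part1 (h : Geo τ) (hJ : JI τ) (K : Subgroup G) (hn : K.Normal) (hK : K ≤ τ.ker)
    (hc : ∀ x ∈ K, ∀ y ∈ K, x * y = y * x) : K = ⊥ := by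
  by_contra hne
  have hidx := hJ.just K hn hK hne
  set K' : Subgroup τ.ker := K.subgroupOf τ.ker with hK'
  have hi : K'.index ≠ 0 := hidx
  have : K'.FiniteIndex := ⟨hi⟩
  have hfg : Group.FG τ.ker := (Group.fg_iff_subgroup_fg τ.ker).mpr hJ.fg
  have hfgK : Group.FG K' := inferInstance
  let _ : CommGroup K' :=
    { (inferInstance : Group K') with
      mul_comm := by
        rintro ⟨⟨x, hx⟩, hx'⟩ ⟨⟨y, hy⟩, hy'⟩
        apply Subtype.ext
        apply Subtype.ext
        exact hc x hx' y hy' }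
  have htor : Monoid.IsTorsion K' := by
    rintro ⟨⟨x, hx⟩, hx'⟩
    obtain ⟨k, hk, hk2⟩ := h.odd x hx
    rw [isOfFinOrder_iff_pow_eq_one]
    refine ⟨k, hk.pos, ?_⟩
    apply Subtype.ext
    apply Subtype.ext
    exact hk2
  have hfin : Finite K' := CommGroup.finite_of_fg_torsion K' htor
  apply hJ.inf
  have h1 := K'.card_mul_index
  have h2 : Nat.card K' ≠ 0 := Nat.card_pos.ne'
  exact Nat.finite_of_card_ne_zero (by rw [← h1]; exact mul_ne_zero h2 hi)

end JIAbM

open JIAbM in
theorem jiAb : S_JIAb := by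
  intro G _ τ h hJ
  refine ⟨fun K hn hK hc => part1 h hJ K hn hK hc, ?_⟩
  intro K L hKn hLn hK hL hc
  by_contra hne
  push Not at hne
  have h1 := hJ.just K hKn hK hne.1
  have h2 := hJ.just L hLn hL hne.2
  have h3 := Subgroup.relIndex_inf_ne_zero h1 h2
  have h4 : K ⊓ L = ⊥ := part1 h hJ (K ⊓ L) (Subgroup.normal_inf_normal K L)
    (inf_le_left.trans hK) fun x hx y hy => hc x hx.1 y hy.2
  rw [h4, Subgroup.relIndex_bot_left] at h3
  exact hJ.inf (Nat.finite_of_card_ne_zero h3)

end Pool.Agent.Klein
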