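import Pool.Agent.Lib.MP_3c9215_al.Spec1

set_option autoImplicit false

/-!
# MP_3c9215_al: existence of a just infinite example
-/

namespace Pool.Agent.Klein

section
variable {G : Type} [Group G] {τ : G →* K4}

/-- Step 3, lifting of points. -/
lemma jiEx_lift (h : Geo τ) (K : Subgroup G) [K.Normal] {g : G}
    (h2 : (QuotientGroup.mk' K g) * (QuotientGroup.mk' K g) = 1) :
    QuotientGroup.mk' K (D g) = QuotientGroup.mk' K g := by
  obtain ⟨m, hm⟩ := ker_orderOf_odd h (tau_sq (τ := τ) g)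
  rw [D, map_pow, hm, pow_succ, pow_mul, pow_two, h2, one_pow, one_mul]

/-- Step 3: `Geo` passes to quotients by normal subgroups inside the kernel. -/
lemma jiEx_geo (h : Geo τ) (K : Subgroup G) [K.Normal] (hK : K ≤ τ.ker) :
    Geo (QuotientGroup.lift K τ (fun _ hx => MonoidHom.mem_ker.1 (hK hx))) := by
  set τ' := QuotientGroup.lift K τ (fun x hx => MonoidHom.mem_ker.1 (hK hx)) with hτ'
  let π := QuotientGroup.mk' K
  have hπ : ∀ g, τ' (π g) = τ g := fun g => rfl
  have hsurj : Function.Surjective π := QuotientGroup.mk'_surjective K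
  have hodd : ∀ n' : G ⧸ K, τ' n' = 1 → ∃ k : ℕ, Odd k ∧ n' ^ k = 1 := by
    intro n' hn'
    obtain ⟨n, rfl⟩ := hsurj n'
    rw [hπ] at hn'
    obtain ⟨k, hk, hk2⟩ := h.odd n hn'
    exact ⟨k, hk, by rw [← map_pow, hk2, map_one]⟩
  refine ⟨hodd, ?_, ?_⟩
  · intro x' y' n' hx' hy' hxy' htx hty htxy hn' hnx hny
    obtain ⟨x₀, rfl⟩ := hsurj x'
    obtain ⟨y₀, rfl⟩ := hsurj y'
    obtain ⟨n, rfl⟩ := hsurj n'
    rw [hπ] at htx hty htxy hn'
    rw [hπ] at htxy
    have ex : π (D x₀) = π x₀ := jiEx_lift h K hx'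
    have ey : π (D y₀) = π y₀ := jiEx_lift h K hy'
    have hx : IsPt τ (D x₀) := D_isPt h htx
    have hy : IsPt τ (D y₀) := D_isPt h hty
    have ht : τ (D x₀) ≠ τ (D y₀) := by rw [D_tau h, D_tau h]; exact htxy
    have hz : IsPt τ (D (D x₀ * D y₀)) := wedge_isPt h hx hy ht
    have hp : Perp (D (D x₀ * D y₀)) (D x₀) := wedge_perp_left h hx hy ht
    have ez : π (D (D x₀ * D y₀)) = π x₀ * π y₀ := by
      have h1 : π (D x₀ * D y₀) = π x₀ * π y₀ := by rw [map_mul, ex, ey]
      have h2 : π (D x₀ * D y₀) * π (D x₀ * D y₀) = 1 := by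
        rw [h1]
        calc π x₀ * π y₀ * (π x₀ * π y₀) = π x₀ * (π y₀ * π x₀) * π y₀ := by group
          _ = π x₀ * (π x₀ * π y₀) * π y₀ := by rw [hxy']
          _ = (π x₀ * π x₀) * (π y₀ * π y₀) := by group
          _ = 1 := by rw [hx', hy', one_mul]
      rw [← h1]
      exact jiEx_lift h K h2
    have hmem := comp_mem h hx hn'
    -- the component maps to `n'`
    have hk : π (D x₀ * (n⁻¹ * D x₀ * n)) = 1 := by
      rw [map_mul, map_mul, map_mul, map_inv, ex]
      calc π x₀ * ((π n)⁻¹ * π x₀ * π n) = π x₀ * ((π n)⁻¹ * (π x₀ * π n)) := by group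
        _ = π x₀ * ((π n)⁻¹ * (π n * π x₀)) := by rw [hnx]
        _ = π x₀ * π x₀ := by group
        _ = 1 := hx'
    have hc : π (comp (D x₀) n) = π n := by
      rw [comp, map_mul, map_inv, sqr, map_pow, hk, one_pow, inv_one, mul_one]
    have hinv := A_inverted h hx hz hp.symm hmem
    have hinv' := congrArg π hinv
    rw [map_mul, map_mul, map_inv, map_inv, ez, hc] at hinv'
    have h5 : π x₀ * π y₀ * π n * (π x₀ * π y₀)⁻¹ = π n := by
      calc π x₀ * π y₀ * π n * (π x₀ * π y₀)⁻¹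
          = π x₀ * (π y₀ * π n) * (π x₀ * π y₀)⁻¹ := by group
        _ = π x₀ * (π n * π y₀) * (π x₀ * π y₀)⁻¹ := by rw [hny]
        _ = (π x₀ * π n) * π y₀ * (π x₀ * π y₀)⁻¹ := by group
        _ = (π n * π x₀) * π y₀ * (π x₀ * π y₀)⁻¹ := by rw [hnx]
        _ = π n := by group
    rw [h5] at hinv'
    have h6 : π n * π n = 1 := by
      nth_rewrite 1 [hinv']
      exact inv_mul_cancel _
    obtain ⟨k, ⟨m, rfl⟩, hk2⟩ := hodd (π n) hn'
    rw [pow_succ, pow_mul, pow_two, h6, one_pow, one_mul] at hk2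
    exact hk2
  · obtain ⟨x, y, hx, hy, hc, h1, h2, h3⟩ := h.ex
    refine ⟨π x, π y, ?_, ?_, ?_, ?_, ?_, ?_⟩
    · rw [← map_mul, hx, map_one]
    · rw [← map_mul, hy, map_one]
    · rw [← map_mul, hc, map_mul]
    · rw [hπ]; exact h1
    · rw [hπ]; exact h2
    · rw [hπ, hπ]; exact h3

/-- A finitely generated subgroup inside the union of a chain. -/
lemma jiEx_chain {c : Set (Subgroup G)} (hne : c.Nonempty) (hc : IsChain (· ≤ ·) c)
    (T : Finset G) (hT : (T : Set G) ⊆ (sSup c : Subgroup G)) : ∃ L ∈ c, (T : Set G) ⊆ L := by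
  classical
  induction T using Finset.induction_on with
  | empty =>
    obtain ⟨L, hL⟩ := hne
    exact ⟨L, hL, by simp⟩
  | insert a T ha ih =>
    obtain ⟨L, hL, hL2⟩ := ih fun x hx => hT (Finset.mem_insert_of_mem hx)
    have ha2 : a ∈ (sSup c : Subgroup G) := hT (Finset.mem_insert_self a T)
    obtain ⟨M, hM, hM2⟩ := (Subgroup.mem_sSup_of_directedOn hne hc.directedOn).1 ha2
    rcases hc.total hL hM with h | h
    · refine ⟨M, hM, fun x hx => ?_⟩
      rcases Finset.mem_insert.1 hx with rfl | hx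
      · exact hM2
      · exact h (hL2 hx)
    · refine ⟨L, hL, fun x hx => ?_⟩
      rcases Finset.mem_insert.1 hx with rfl | hx
      · exact h hM2
      · exact hL2 hx

/-- Step 2: the just infinite quotient of a group with finitely generated infinite kernel. -/
lemma jiEx_zorn (h : Geo τ) (hfg : τ.ker.FG) (hinf : ¬ Finite τ.ker) :
    ∃ (G' : Type) (_ : Group G') (τ' : G' →* K4), Geo τ' ∧ JI τ' := by
  classical
  let S : Set (Subgroup G) := {K | K.Normal ∧ K ≤ τ.ker ∧ K.relIndex τ.ker = 0}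
  have hbot : (⊥ : Subgroup G) ∈ S := by
    refine ⟨inferInstance, bot_le, ?_⟩
    rw [Subgroup.relIndex_bot_left]
    rw [Nat.card_eq_zero]
    exact Or.inr (not_finite_iff_infinite.1 hinf)
  have hFGker : Group.FG τ.ker := (Group.fg_iff_subgroup_fg _).2 hfg
  obtain ⟨K, -, hKmax⟩ := zorn_le_nonempty₀ S (by
    intro c hcS hc K₀ hK₀
    have hne : c.Nonempty := ⟨K₀, hK₀⟩
    have hle : sSup c ≤ τ.ker := sSup_le fun L hL => (hcS hL).2.1
    have hnorm : (sSup c : Subgroup G).Normal := by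
      constructor
      intro n hn g
      obtain ⟨L, hL, hL2⟩ := (Subgroup.mem_sSup_of_directedOn hne hc.directedOn).1 hn
      have := (hcS hL).1
      exact (le_sSup hL) (this.conj_mem n hL2 g)
    refine ⟨sSup c, ⟨hnorm, hle, ?_⟩, fun L hL => le_sSup hL⟩
    by_contra h0
    have hfi : ((sSup c : Subgroup G).subgroupOf τ.ker).FiniteIndex := ⟨h0⟩
    have h1 : Group.FG ((sSup c : Subgroup G).subgroupOf τ.ker) :=
      Subgroup.fg_of_index_ne_zero _
    have h2 : Group.FG (sSup c : Subgroup G) :=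
      Group.fg_of_surjective (f := (Subgroup.subgroupOfEquivOfLe hle).toMonoidHom)
        (Subgroup.subgroupOfEquivOfLe hle).surjective
    obtain ⟨T, hT⟩ := (Group.fg_iff_subgroup_fg _).1 h2
    obtain ⟨L, hL, hL2⟩ := jiEx_chain hne hc T (by rw [← hT]; exact Subgroup.subset_closure)
    have h3 : (sSup c : Subgroup G) ≤ L := by
      rw [← hT]
      exact (Subgroup.closure_le _).2 hL2
    have h4 : (sSup c : Subgroup G) = L := le_antisymm h3 (le_sSup hL)
    apply h0
    rw [h4]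
    exact (hcS hL).2.2) ⊥ hbot
  have hKS : K ∈ S := hKmax.prop
  have hKn : K.Normal := hKS.1
  have hKle : K ≤ τ.ker := hKS.2.1
  let π := QuotientGroup.mk' K
  have hsurj : Function.Surjective π := QuotientGroup.mk'_surjective K
  let τ' : (G ⧸ K) →* K4 := QuotientGroup.lift K τ (fun x hx => MonoidHom.mem_ker.1 (hKle hx))
  have hπ : ∀ g, τ' (π g) = τ g := fun g => rfl
  have hker : τ'.ker = τ.ker.map π := by
    ext z
    constructor
    · intro hz
      obtain ⟨g, rfl⟩ := hsurj z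
      exact ⟨g, by rw [SetLike.mem_coe, MonoidHom.mem_ker, ← hπ]; exact hz, rfl⟩
    · rintro ⟨g, hg, rfl⟩
      rw [MonoidHom.mem_ker, hπ]
      exact hg
  refine ⟨G ⧸ K, inferInstance, τ', jiEx_geo h K hKle, ?_, ?_, ?_⟩
  · -- finitely generated
    rw [hker]
    obtain ⟨T, hT⟩ := hfg
    refine ⟨T.image π, ?_⟩
    rw [Finset.coe_image, ← MonoidHom.map_closure, hT]
  · -- infinite
    intro hfin
    let f : τ.ker →* (G ⧸ K) := π.comp τ.ker.subtype
    have hrange : f.range = τ'.ker := by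
      rw [hker]
      ext z
      constructor
      · rintro ⟨g, rfl⟩
        exact ⟨g.1, g.2, rfl⟩
      · rintro ⟨g, hg, rfl⟩
        exact ⟨⟨g, hg⟩, rfl⟩
    have hfr : Finite f.range := by rw [hrange]; exact hfin
    have h1 : f.ker.FiniteIndex := Subgroup.finiteIndex_ker f
    have h2 : f.ker = K.subgroupOf τ.ker := by
      ext z
      rw [MonoidHom.mem_ker, Subgroup.mem_subgroupOf]
      exact QuotientGroup.eq_one_iff _
    apply h1.index_ne_zero
    rw [h2]
    exact hKS.2.2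
  · -- just infinite
    intro L hLn hLle hLbot h0
    have hcomap : L.comap π ∈ S := by
      refine ⟨hLn.comap π, ?_, ?_⟩
      · intro g hg
        have := hLle (Subgroup.mem_comap.1 hg)
        rw [MonoidHom.mem_ker, hπ] at this
        exact this
      · rw [Subgroup.relIndex_comap, ← hker]
        exact h0
    have hKL : K ≤ L.comap π := by
      intro g hg
      rw [Subgroup.mem_comap]
      have : π g = 1 := (QuotientGroup.eq_one_iff g).2 hg
      rw [this]
      exact one_mem L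
    have hle := hKmax.le_of_ge hcomap hKL
    apply hLbot
    rw [eq_bot_iff]
    intro z hz
    obtain ⟨g, rfl⟩ := hsurj z
    have hg : g ∈ K := hle (Subgroup.mem_comap.2 hz)
    rw [Subgroup.mem_bot]
    exact (QuotientGroup.eq_one_iff g).2 hg

end

theorem jiEx : S_JIEx := by
  classical
  intro G _ τ h hH
  obtain ⟨H, hHle, ⟨S, hS⟩, hHinf⟩ := hH
  obtain ⟨x, y, hx, hy, hxy, htx, hty, htxy⟩ := h.ex
  let T : Finset G := S ∪ {x, y}
  let G₁ : Subgroup G := Subgroup.closure (T : Set G)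
  have hxG : x ∈ G₁ := Subgroup.subset_closure (by simp [T])
  have hyG : y ∈ G₁ := Subgroup.subset_closure (by simp [T])
  have hHG : H ≤ G₁ := by
    rw [← hS]
    apply Subgroup.closure_mono
    intro z hz
    simp only [T, Finset.coe_union]
    exact Or.inl hz
  have hfgG : Group.FG G₁ := (Group.fg_iff_subgroup_fg _).2 ⟨T, rfl⟩
  let τ₁ : G₁ →* K4 := τ.comp G₁.subtype
  have hgeo : Geo τ₁ := by
    refine ⟨?_, ?_, ?_⟩
    · intro n hn
      obtain ⟨k, hk, hk2⟩ := h.odd n.1 hn
      exact ⟨k, hk, Subtype.ext (by simpa using hk2)⟩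
    · intro a b n ha hb hab h1 h2 h3 hn hna hnb
      apply Subtype.ext
      exact h.fix a.1 b.1 n.1 (congrArg Subtype.val ha) (congrArg Subtype.val hb)
        (congrArg Subtype.val hab) h1 h2 h3 hn (congrArg Subtype.val hna)
        (congrArg Subtype.val hnb)
    · exact ⟨⟨x, hxG⟩, ⟨y, hyG⟩, Subtype.ext hx, Subtype.ext hy, Subtype.ext hxy, htx, hty, htxy⟩
  have hfin : Finite τ₁.range := inferInstance
  have hfi : τ₁.ker.FiniteIndex := Subgroup.finiteIndex_ker τ₁
  have hkfg : τ₁.ker.FG := (Group.fg_iff_subgroup_fg _).1 (Subgroup.fg_of_index_ne_zero _)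
  apply jiEx_zorn hgeo hkfg
  intro hkfin
  apply hHinf
  have f : ∀ z : H, (⟨z.1, hHG z.2⟩ : G₁) ∈ τ₁.ker := fun z => hHle z.2
  exact Finite.of_injective (fun z : H => (⟨⟨z.1, hHG z.2⟩, f z⟩ : τ₁.ker)) (by
    intro a b hab
    apply Subtype.ext
    exact congrArg (fun w : τ₁.ker => w.1.1) hab)

end Pool.Agent.Klein
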