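import Pool.Agent.Lib.MP_3c9215_al.SpecCore

set_option autoImplicit false

/-!
# MP_3c9215_al: local finiteness
-/

namespace Pool.Agent.Klein

lemma LFaux.kernel (h1 : S_NDRed) (h2 : S_JIEx) (h3 : S_CoreEx) (h4 : S_CTor) (h5 : S_CNoTor)
    (G : Type) [Group G] (τ : G →* K4) (hg : Geo τ) (H : Subgroup G) (hH : H ≤ τ.ker)
    (hfg : H.FG) : Finite H := by
  by_contra hinf
  obtain ⟨G', _, τ', hg', hji⟩ := h2 G τ hg ⟨H, hH, hfg, hinf⟩
  obtain ⟨hnd, hnt⟩ := h1 G' τ' hg' hji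
  obtain ⟨C, hρ⟩ := h3 G' τ' hg' hnd hnt
  by_cases hw : ∃ w ∈ C.W, w ≠ 0 ∧ ∃ n : ℕ, 1 ≤ n ∧ n • w = 0
  · exact h4 C hρ hw
  · push Not at hw
    refine h5 C hρ fun w hwW n hn hnw => ?_
    by_contra hne
    exact hw w hwW hne n hn hnw

theorem lf (h1 : S_NDRed) (h2 : S_JIEx) (h3 : S_CoreEx) (h4 : S_CTor) (h5 : S_CNoTor) : S_LF := by
  intro G _ τ hg H hfg
  have : Group.FG H := (Group.fg_iff_subgroup_fg H).2 hfg
  set K : Subgroup H := (τ.comp H.subtype).ker with hK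
  have hfinK4 : Finite K4 := inferInstanceAs (Finite (Multiplicative (ZMod 2 × ZMod 2)))
  have hidx : K.FiniteIndex := by
    refine ⟨?_⟩
    rw [hK, Subgroup.index_ker]
    exact Nat.card_pos.ne'
  have hKfg : Group.FG K := Subgroup.fg_of_index_ne_zero K
  have hKfg2 : K.FG := (Group.fg_iff_subgroup_fg K).1 hKfg
  have hmap : (K.map H.subtype).FG := by
    obtain ⟨S, hS⟩ := hKfg2
    classical
    refine ⟨S.image H.subtype, ?_⟩
    rw [Finset.coe_image, ← MonoidHom.map_closure, hS]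
  have hle : K.map H.subtype ≤ τ.ker := by
    rintro x ⟨y, hy, rfl⟩
    exact hy
  have hfin := LFaux.kernel h1 h2 h3 h4 h5 G τ hg _ hle hmap
  have hKfin : Finite K := by
    refine Finite.of_injective (fun x : K => (⟨H.subtype x, ⟨x, x.2, rfl⟩⟩ : K.map H.subtype)) ?_
    intro x y hxy
    have h := congrArg Subtype.val hxy
    exact Subtype.ext (Subtype.ext h)
  have : Finite (H ⧸ K) := K.finite_quotient_of_finiteIndex
  exact Finite.of_equiv _ (Subgroup.groupEquivQuotientProdSubgroup (s := K)).symm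

end Pool.Agent.Klein
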