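import Pool.Agent.Lib.MP_3c9215_al.Spec2

set_option autoImplicit false

/-!
# MP_3c9215_al: the lemmas LemP and LemT
-/

namespace Pool.Agent.Klein

section
variable {G : Type} [Group G] {τ : G →* K4}

private lemma fix_conj {O ρ : G} (hρ : ρ ∈ A τ O) : ρ * O * ρ⁻¹ = O := by
  rw [hρ.2]; group

private lemma hml_setup (h1 : S_HmlBasic) (h : Geo τ) (O x y : Pt τ) (σ : G) (s : PP τ)
    (hOx : Perp (O : G) (x : G)) (hy : (y : G) = O * x) (hσ : σ ∈ A τ (y : G))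
    (hs : IsHml σ s) :
    Perp (O : G) (y : G) ∧ Perp (x : G) (y : G) ∧ s.2 x = x ∧ s.2 y = y ∧ s.2 O = O ∧ s.1 O = O := by
  obtain ⟨_, b2, _, _, _⟩ := h1 G τ h
  have p1 : Perp (O : G) (y : G) := by rw [hy]; exact hOx.mul_right h O.2 x.2
  have p2 : Perp (x : G) (y : G) := by rw [hy]; exact hOx.mul_right' h O.2 x.2
  obtain ⟨⟨c1, c2⟩, c3⟩ := b2 y σ s hσ hs
  exact ⟨p1, p2, (c3 x p2).2, c2, (c3 O p1).2, (c3 O p1).1⟩

private lemma prod_apply {ρ ρ₁ : G} {s : PP τ} (hs : s.2 = s.1⁻¹) {z : Pt τ} (hz : s.2 z = z) :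
    (cj τ ρ₁ * s * cj τ ρ * s⁻¹).1 z = (cj τ ρ₁).1 (s.1 ((cj τ ρ).1 z)) := by
  have e : s.1⁻¹ z = z := by rw [← hs]; exact hz
  rw [Prod.fst_mul, Prod.fst_mul, Prod.fst_mul, Prod.fst_inv, Equiv.Perm.mul_apply,
    Equiv.Perm.mul_apply, Equiv.Perm.mul_apply, e]

end

theorem lemP (h1 : S_HmlBasic) (h2 : S_HmlFix) : S_LemP := by
  intro G _ τ h nd O x y ρ σ s hOx hy hρ hρ1 hσ hσ1 hs
  obtain ⟨pOy, pxy, sx, sy, sO, _⟩ := hml_setup h1 h O x y σ s hOx hy hσ hs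
  have hcoll := hs.1
  have hinv : s.2 = s.1⁻¹ := hs.2.2
  obtain ⟨m1, m2, m3⟩ := mem_Coll.1 hcoll
  have hOfix := fix_conj (τ := τ) hρ
  -- the rotated points
  have q1 : Perp (((cj τ ρ).1 x : Pt τ) : G) (O : G) := by
    have := hOx.symm.conj ρ
    rw [hOfix] at this
    rwa [cj_fst]
  have q2 : Perp (((cj τ ρ).1 y : Pt τ) : G) (O : G) := by
    have := pOy.symm.conj ρ
    rw [hOfix] at this
    rwa [cj_fst]
  have q3 : Perp (((cj τ ρ).1 x : Pt τ) : G) (((cj τ ρ).1 y : Pt τ) : G) := by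
    rw [cj_fst, cj_fst]; exact pxy.conj ρ
  have t1 : τ (((cj τ ρ).1 x : Pt τ) : G) = τ (x : G) := by rw [cj_fst, tau_conj]
  have t2 : τ (((cj τ ρ).1 y : Pt τ) : G) = τ (y : G) := by rw [cj_fst, tau_conj]
  set x' : Pt τ := (cj τ ρ).1 x with hx'
  set y' : Pt τ := (cj τ ρ).1 y with hy'
  have r1 : Perp (s.1 x' : G) (O : G) := by
    have := (m3 x' O).1 q1
    rwa [sO] at this
  have r2 : Perp (s.1 y' : G) (O : G) := by
    have := (m3 y' O).1 q2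
    rwa [sO] at this
  have u1 : τ (s.1 x' : G) = τ (x : G) := by rw [m1, t1]
  have u2 : τ (s.1 y' : G) = τ (y : G) := by rw [m1, t2]
  -- the claim
  have claim : ¬ Perp (s.1 x' : G) (s.1 y' : G) := by
    intro hp
    have e1 : s.2 (s.1 (s.1 y')) = s.1 y' := by rw [hinv, perm_inv_apply]
    have p1 : Perp (x' : G) (s.1 (s.1 y') : G) := by
      apply (m3 x' (s.1 (s.1 y'))).2
      rw [e1]; exact hp
    have p2 : Perp (s.1 (s.1 y') : G) (O : G) := by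
      have := (m3 (s.1 y') O).1 r2
      rwa [sO] at this
    have tn : τ (x' : G) ≠ τ (O : G) := q1.tau_ne h x'.2 O.2
    have e2 := wedge_unique h x'.2 O.2 (s.1 (s.1 y')).2 tn p1.symm p2
    have e3 := wedge_unique h x'.2 O.2 y'.2 tn q3.symm q2
    have e4 : s.1 (s.1 y') = y' := Pt.ext (e2.trans e3.symm)
    rcases h2 G τ h nd y σ s hσ hσ1 hs y' e4 with e5 | e5
    · apply hρ1
      have e6 : ρ * (y : G) * ρ⁻¹ = y := by
        have := congrArg (fun w : Pt τ => (w : G)) e5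
        exact this
      apply ker_fix h O.2 y.2 pOy hρ
      calc ρ * (y : G) = (ρ * (y : G) * ρ⁻¹) * ρ := by group
        _ = (y : G) * ρ := by rw [e6]
    · exact e5.tau_ne h y'.2 y.2 t2
  refine ⟨?_, ?_⟩
  · obtain ⟨ρ₁, hρ₁, e1⟩ := conj_of_perp h (s.1 x').2 x.2 r1.symm hOx u1
    have ex : (cj τ ρ₁ * s * cj τ ρ * s⁻¹).1 x = x := by
      rw [prod_apply hinv sx]
      apply Pt.ext
      rw [cj_fst]
      exact e1
    refine ⟨ρ₁, hρ₁, ex, ?_⟩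
    intro ey
    rw [prod_apply hinv sy] at ey
    have e2 : ρ₁ * (s.1 y' : G) * ρ₁⁻¹ = y := by
      have := congrArg (fun w : Pt τ => (w : G)) ey
      exact this
    apply claim
    rw [Perp.conj_iff ρ₁]
    rw [e1, e2]
    exact pxy
  · obtain ⟨ρ₁, hρ₁, e1⟩ := conj_of_perp h (s.1 y').2 y.2 r2.symm pOy u2
    have ey : (cj τ ρ₁ * s * cj τ ρ * s⁻¹).1 y = y := by
      rw [prod_apply hinv sy]
      apply Pt.ext
      rw [cj_fst]
      exact e1
    refine ⟨ρ₁, hρ₁, ey, ?_⟩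
    intro ex
    rw [prod_apply hinv sx] at ex
    have e2 : ρ₁ * (s.1 x' : G) * ρ₁⁻¹ = x := by
      have := congrArg (fun w : Pt τ => (w : G)) ex
      exact this
    apply claim
    rw [Perp.conj_iff ρ₁]
    rw [e1, e2]
    exact pxy

theorem lemT (h1 : S_HmlBasic) : S_LemT := by
  intro G _ τ h O x y ρ σ s hOx hy hρ hσ hs
  obtain ⟨pOy, pxy, sx, sy, sO, sO1⟩ := hml_setup h1 h O x y σ s hOx hy hσ hs
  have hcoll := hs.1
  have hinv : s.2 = s.1⁻¹ := hs.2.2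
  obtain ⟨m1, m2, m3⟩ := mem_Coll.1 hcoll
  have hOfix := fix_conj (τ := τ) hρ
  have q1 : Perp (((cj τ ρ).1 x : Pt τ) : G) (O : G) := by
    have := hOx.symm.conj ρ
    rw [hOfix] at this
    rwa [cj_fst]
  have q2 : Perp (((cj τ ρ).1 y : Pt τ) : G) (O : G) := by
    have := pOy.symm.conj ρ
    rw [hOfix] at this
    rwa [cj_fst]
  have q3 : Perp (((cj τ ρ).1 x : Pt τ) : G) (((cj τ ρ).1 y : Pt τ) : G) := by
    rw [cj_fst, cj_fst]; exact pxy.conj ρ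
  have t1 : τ (((cj τ ρ).1 x : Pt τ) : G) = τ (x : G) := by rw [cj_fst, tau_conj]
  have t2 : τ (((cj τ ρ).1 y : Pt τ) : G) = τ (y : G) := by rw [cj_fst, tau_conj]
  set x' : Pt τ := (cj τ ρ).1 x with hx'
  set y' : Pt τ := (cj τ ρ).1 y with hy'
  have r1 : Perp (s.1 x' : G) (O : G) := by
    have := (m3 x' O).1 q1
    rwa [sO] at this
  have u1 : τ (s.1 x' : G) = τ (x : G) := by rw [m1, t1]
  obtain ⟨ρ', hρ', e1⟩ := conj_of_perp h x.2 (s.1 x').2 hOx r1.symm u1.symm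
  have r2 : Perp (s.2 y' : G) (O : G) := by
    have := (m3 O y').1 q2.symm
    rw [sO1] at this
    exact this.symm
  have r3 : Perp (s.2 y' : G) (s.1 x' : G) := ((m3 x' y').1 q3).symm
  have hOfix' := fix_conj (τ := τ) hρ'
  have w1 : Perp (ρ' * (y : G) * ρ'⁻¹) (O : G) := by
    have := pOy.symm.conj ρ'
    rwa [hOfix'] at this
  have w2 : Perp (ρ' * (y : G) * ρ'⁻¹) (s.1 x' : G) := by
    have := pxy.symm.conj ρ'
    rwa [e1] at this
  have tn : τ (s.1 x' : G) ≠ τ (O : G) := r1.tau_ne h (s.1 x').2 O.2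
  have e2 := wedge_unique h (s.1 x').2 O.2 (s.2 y').2 tn r3 r2
  have e3 := wedge_unique h (s.1 x').2 O.2 (y.2.conj ρ') tn w2 w1
  refine ⟨ρ', hρ', ?_, ?_⟩
  · rw [Prod.fst_mul, Equiv.Perm.mul_apply]
    apply Pt.ext
    rw [cj_fst]
    exact e1.symm
  · rw [Prod.fst_mul, Equiv.Perm.mul_apply, Prod.fst_inv, ← hinv]
    apply Pt.ext
    rw [cj_fst]
    exact e2.trans e3.symm

end Pool.Agent.Klein
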