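import Pool.Agent.Lib.MP_3c9215_al.Spec1

set_option autoImplicit false

/-!
# MP_3c9215_al: the Lotensatz
-/

namespace Pool.Agent.Klein

private lemma lot_cancel : ∀ s t : K4, s * (s * t) = t := by
  intro s t
  rw [← mul_assoc, k4_sq, one_mul]

theorem lot : S_Lot := by
  intro G _ τ h a₀ a₁ a₂ b v ha₀ ha₁ ha₂ hb hv p₀ p₁ p₂ t₁ t₂ hva _
  have hne : τ a₀ ≠ τ v := (hva.tau_ne h hv ha₀).symm
  have hne₁ : τ a₁ ≠ τ v := by rw [t₁]; exact hne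
  have hne₂ : τ a₂ ≠ τ v := by rw [t₂]; exact hne
  -- the common perpendiculars
  obtain ⟨w₁, hw₁⟩ : ∃ w, w = D (a₁ * v) := ⟨_, rfl⟩
  obtain ⟨w₂, hw₂⟩ : ∃ w, w = D (a₂ * v) := ⟨_, rfl⟩
  have pw₁ : IsPt τ w₁ := by rw [hw₁]; exact wedge_isPt h ha₁ hv hne₁
  have pw₂ : IsPt τ w₂ := by rw [hw₂]; exact wedge_isPt h ha₂ hv hne₂
  have l₁ : Perp w₁ a₁ := by rw [hw₁]; exact wedge_perp_left h ha₁ hv hne₁
  have l₂ : Perp w₂ a₂ := by rw [hw₂]; exact wedge_perp_left h ha₂ hv hne₂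
  have r₁ : Perp w₁ v := by rw [hw₁]; exact wedge_perp_right h ha₁ hv hne₁
  have r₂ : Perp w₂ v := by rw [hw₂]; exact wedge_perp_right h ha₂ hv hne₂
  have tw₁ : τ w₁ = τ a₀ * τ v := by rw [hw₁, wedge_tau h, t₁]
  have tw₂ : τ w₂ = τ a₀ * τ v := by rw [hw₂, wedge_tau h, t₂]
  rw [← hw₁, ← hw₂]
  -- the point `a₃`
  have hmem : a₀ * a₂ ∈ A τ b := perp_mul_mem_A p₀.symm p₂.symm t₂.symm
  have pa₃ : IsPt τ (a₁ * (a₀ * a₂)) := mul_A_isPt h hb ha₁ p₁.symm hmem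
  have e₃ : a₁ * a₀ * a₂ = a₂ * a₀ * a₁ := by
    have h1 := pa₃.inv_eq
    rw [mul_inv_rev, mul_inv_rev, ha₀.inv_eq, ha₁.inv_eq, ha₂.inv_eq] at h1
    rw [mul_assoc a₁, ← h1]
  have ta₃ : τ (a₁ * (a₀ * a₂)) = τ a₀ := by
    rw [map_mul, map_mul, t₁, t₂, k4_sq, mul_one]
  -- the points `v₁`, `v₂`
  have pv₁ : IsPt τ (a₁ * w₁) := l₁.symm.mul_isPt h ha₁ pw₁
  have pv₂ : IsPt τ (a₂ * w₂) := l₂.symm.mul_isPt h ha₂ pw₂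
  have tv₁ : τ (a₁ * w₁) = τ v := by rw [map_mul, t₁, tw₁, lot_cancel]
  have tv₂ : τ (a₂ * w₂) = τ v := by rw [map_mul, t₂, tw₂, lot_cancel]
  -- the point `q`
  have hμ : w₂ * w₁ ∈ A τ v := perp_mul_mem_A r₂.symm r₁.symm (by rw [tw₁, tw₂])
  have pμ : IsPt τ (w₂ * w₁ * a₀) := A_mul_isPt h hv ha₀ hva hμ
  have pq : IsPt τ (w₁ * a₀ * w₂) := by
    have h1 := pμ.conj w₂
    have h2 : w₂ * (w₂ * w₁ * a₀) * w₂⁻¹ = w₁ * a₀ * w₂ := by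
      rw [pw₂.inv_eq]
      calc w₂ * (w₂ * w₁ * a₀) * w₂ = (w₂ * w₂) * w₁ * a₀ * w₂ := by group
        _ = w₁ * a₀ * w₂ := by rw [pw₂.1, one_mul]
    rwa [h2] at h1
  obtain ⟨q, hq⟩ : ∃ q, q = w₁ * a₀ * w₂ := ⟨_, rfl⟩
  rw [← hq] at pq
  obtain ⟨a₃, ha₃⟩ : ∃ x, x = a₁ * a₀ * a₂ := ⟨_, rfl⟩
  rw [← mul_assoc, ← ha₃] at pa₃ ta₃
  rw [← ha₃]
  have key : a₃ * (a₁ * w₁) * q = a₂ * w₂ := by
    rw [ha₃, e₃, hq]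
    calc a₂ * a₀ * a₁ * (a₁ * w₁) * (w₁ * a₀ * w₂)
        = a₂ * a₀ * (a₁ * a₁) * (w₁ * w₁) * a₀ * w₂ := by group
      _ = a₂ * (a₀ * a₀) * w₂ := by rw [ha₁.1, pw₁.1]; group
      _ = a₂ * w₂ := by rw [ha₀.1, mul_one]
  have key2 : a₃ * (a₁ * w₁) = a₂ * w₂ * q := by
    rw [← key, mul_assoc, pq.1, mul_one]
  have hinv : q * (a₃ * (a₁ * w₁)) * q⁻¹ = (a₃ * (a₁ * w₁))⁻¹ := by
    rw [key2, mul_inv_rev, pv₂.inv_eq, pq.inv_eq]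
    calc q * (a₂ * w₂ * q) * q = q * (a₂ * w₂) * (q * q) := by group
      _ = q * (a₂ * w₂) := by rw [pq.1, mul_one]
  have hqm := D_comm_of_inverts hinv
  obtain ⟨m, hm⟩ : ∃ m, m = D (a₃ * (a₁ * w₁)) := ⟨_, rfl⟩
  have hne₃ : τ a₃ ≠ τ (a₁ * w₁) := by rw [ta₃, tv₁]; exact hne
  have pm : IsPt τ m := by rw [hm]; exact wedge_isPt h pa₃ pv₁ hne₃
  have m₁ : Perp m a₃ := by rw [hm]; exact wedge_perp_left h pa₃ pv₁ hne₃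
  have m₂ : Perp m (a₁ * w₁) := by rw [hm]; exact wedge_perp_right h pa₃ pv₁ hne₃
  have tm : τ m = τ a₀ * τ v := by rw [hm, wedge_tau h, ta₃, tv₁]
  rw [← hm] at hqm ⊢
  have hmv : m * (a₂ * w₂) = (a₂ * w₂) * m := by
    rw [← key]
    calc m * (a₃ * (a₁ * w₁) * q) = (m * a₃) * (a₁ * w₁) * q := by group
      _ = a₃ * (m * (a₁ * w₁)) * q := by rw [m₁.1]; group
      _ = a₃ * (a₁ * w₁) * (m * q) := by rw [m₂.1]; group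
      _ = a₃ * (a₁ * w₁) * q * m := by rw [← hqm]; group
  have m₃ : Perp m (a₂ * w₂) := by
    apply perp_of_comm_of_tau_ne (τ := τ) hmv
    rw [tm, tv₂]
    exact (k4_mul _ _ ha₀.2 hv.2 hne).2.2
  exact wedge_unique h pa₃ pv₂ pm (by rw [ta₃, tv₂]; exact hne) m₁ m₃

end Pool.Agent.Klein
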