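import Pool.Agent.Lib.MP_3c9215_al.Spec2

set_option autoImplicit false

/-!
# MP_3c9215_al: basic facts on the groups `MM O`
-/

namespace Pool.Agent.Klein

section
variable {G : Type} [Group G] {τ : G →* K4}

lemma MBasic_gen_HH {O p : Pt τ} {h : PP τ} (hh : h ∈ Wc O p) : h ∈ HH O :=
  ⟨hh.1.1, hh.1.2.1⟩

lemma MBasic_le_HH {O : Pt τ} {m : PP τ} (hm : m ∈ MM O) : m ∈ HH O := by
  have : MM O ≤ HH O := by
    unfold MM
    rw [Subgroup.closure_le]
    rintro h ⟨p, _, hh⟩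
    exact MBasic_gen_HH hh
  exact this hm

/-- a set of pairwise commuting elements generates a commutative group -/
lemma MBasic_closure_comm {X : Type*} [Group X] {S : Set X}
    (hS : ∀ x ∈ S, ∀ y ∈ S, x * y = y * x) {m n : X} (hm : m ∈ Subgroup.closure S)
    (hn : n ∈ Subgroup.closure S) : m * n = n * m := by
  have h1 : ∀ y ∈ S, ∀ x ∈ Subgroup.closure S, x * y = y * x := by
    intro y hy x hx
    have : Subgroup.closure S ≤ Subgroup.centralizer {y} := by
      rw [Subgroup.closure_le]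
      intro z hz
      rw [SetLike.mem_coe, Subgroup.mem_centralizer_iff]
      intro w hw
      rw [Set.mem_singleton_iff] at hw
      rw [hw]
      exact hS y hy z hz
    have h2 := this hx
    rw [Subgroup.mem_centralizer_iff] at h2
    exact (h2 y rfl).symm
  have : Subgroup.closure S ≤ Subgroup.centralizer {m} := by
    rw [Subgroup.closure_le]
    intro z hz
    rw [SetLike.mem_coe, Subgroup.mem_centralizer_iff]
    intro w hw
    rw [Set.mem_singleton_iff] at hw
    rw [hw]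
    exact h1 z hz m hm
  have h2 := this hn
  rw [Subgroup.mem_centralizer_iff] at h2
  exact h2 m rfl

/-- a point commuting with `O` of the same type is `O` -/
lemma MBasic_eq_of_comm (hG : Geo τ) {x O : Pt τ} (hc : (x : G) * (O : G) = (O : G) * x)
    (ht : τ (x : G) = τ (O : G)) : x = O := by
  by_contra hne
  have hp : Perp (x : G) (O : G) := ⟨hc, fun e => hne (Pt.ext e)⟩
  exact hp.tau_ne hG x.2 O.2 ht

lemma MBasic_cj_self (O : Pt τ) : (cj τ (O : G)).1 O = O ∧ (cj τ (O : G)).2 O = O := by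
  constructor
  · apply Pt.ext
    rw [cj_fst]
    group
  · apply Pt.ext
    rw [cj_snd]
    group

lemma MBasic_cj_Stb (O : Pt τ) : cj τ (O : G) ∈ Stb O :=
  ⟨cj_mem τ _, (MBasic_cj_self O).2⟩

lemma MBasic_cj_sq (O : Pt τ) : cj τ (O : G) * cj τ (O : G) = 1 := by
  rw [← map_mul, O.2.1, map_one]

/-- a collineation commuting with `cj O` fixes `O` -/
lemma MBasic_fix_of_comm (hG : Geo τ) {O : Pt τ} {x : PP τ} (hx : x ∈ Coll τ)
    (hc : cj τ (O : G) * x = x * cj τ (O : G)) : x.1 O = O := by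
  apply MBasic_eq_of_comm hG _ (hx.1 O)
  have h5 : (cj τ (O : G) * x).1 O = (x * cj τ (O : G)).1 O := by rw [hc]
  rw [Prod.fst_mul, Prod.fst_mul, Equiv.Perm.mul_apply, Equiv.Perm.mul_apply,
    (MBasic_cj_self O).1] at h5
  have h6 : (((cj τ (O : G)).1 (x.1 O) : Pt τ) : G) = (O : G) * (x.1 O : G) * (O : G)⁻¹ := rfl
  rw [h5] at h6
  calc (x.1 O : G) * (O : G) = ((O : G) * (x.1 O : G) * (O : G)⁻¹) * (O : G) := by rw [← h6]
    _ = (O : G) * (x.1 O : G) := by group

end

theorem mBasic (h1 : S_EConj) (h2 : S_E124) (h3 : S_WEx) : S_MBasic := by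
  intro G _ τ hG hND hNT O
  obtain ⟨c1, c2, c3, c4, c5, c6⟩ := h1 G τ hG O
  obtain ⟨e1, e2, e3, e4⟩ := h2 G τ hG hND hNT O
  -- (i)
  have hcomm : ∀ m ∈ MM O, ∀ n ∈ MM O, m * n = n * m := by
    intro m hm n hn
    unfold MM at hm hn
    refine MBasic_closure_comm ?_ hm hn
    rintro x ⟨p, hp, hx⟩ y ⟨p', hp', hy⟩
    by_cases hpp : p = p'
    · subst hpp
      exact hx.2 y hy.1
    · exact e3 p p' x y hp hp' hpp hx.1 hy.1
  -- (ii)
  have hle : ∀ m ∈ MM O, m ∈ HH O := fun m hm => MBasic_le_HH hm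
  -- (iii)
  have hfix : ∀ m ∈ MM O, (m : PP τ).1 O = O → m = 1 := by
    intro m hm hmO
    obtain ⟨p₀, hp₀, hpO⟩ := exists_perp' hG O.2
    set p : Pt τ := ⟨p₀, hp₀⟩ with hpdef
    have hpc : (p : G) = p₀ := rfl
    have hpp : Perp (p : G) (O : G) := hpO.symm
    obtain ⟨w, hw, hw1⟩ := h3 G τ hG hND hNT O p hpp
    have hwE : w ∈ E O p := hw.1
    have hgne : w.1 O ≠ O := fun e => hw1 (e2 p w hpp hwE e)
    set q : Pt τ := ⟨(O : G) * p, hpO.mul_isPt hG O.2 hp₀⟩ with hqdef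
    have hqc : (q : G) = (O : G) * p := rfl
    have hqO : Perp (q : G) (O : G) := (hpO.mul_right hG O.2 hp₀).symm
    have hqp : Perp (q : G) (p : G) := (hpO.mul_right' hG O.2 hp₀).symm
    have hw2q : w.2 q = q := hwE.2.2 q hqp
    have hgq : Perp (w.1 O : G) (q : G) := by
      have := (hwE.1.2.2 O q).1 hqO.symm
      rwa [hw2q] at this
    have hwM : w ∈ MM O := Subgroup.subset_closure ⟨p, hpp, hw⟩
    have hmw : m * w = w * m := hcomm m hm w hwM
    have hmg : m.1 (w.1 O) = w.1 O := by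
      have : (m * w).1 O = (w * m).1 O := by rw [hmw]
      rw [Prod.fst_mul, Prod.fst_mul, Equiv.Perm.mul_apply, Equiv.Perm.mul_apply, hmO] at this
      exact this
    exact e4 (w.1 O) q m (hle m hm) hmO (hwE.1.1 O) hgne hmg hqO hgq.symm
  refine ⟨hcomm, hle, hfix, ?_⟩
  -- (iv)
  intro m hm
  set j := cj τ (O : G) with hj
  have hj2 : j * j = 1 := MBasic_cj_sq O
  have hm' : j * m * j⁻¹ ∈ MM O := c4 j (MBasic_cj_Stb O) m hm
  have hji : j⁻¹ = j := inv_eq_of_mul_eq_one_left hj2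
  have hx : j * m * j⁻¹ * m ∈ MM O := (MM O).mul_mem hm' hm
  have hxj : j * (j * m * j⁻¹ * m) = (j * m * j⁻¹ * m) * j := by
    have e := hcomm _ hm' _ hm
    calc j * (j * m * j⁻¹ * m) = (j * j) * m * (j⁻¹ * m) := by group
      _ = m * (j⁻¹ * m) := by rw [hj2, one_mul]
      _ = m * (j * m) := by rw [hji]
      _ = (m * (j * m * j⁻¹)) * j := by group
      _ = (j * m * j⁻¹ * m) * j := by rw [e]
  have hxO : (j * m * j⁻¹ * m).1 O = O := MBasic_fix_of_comm hG (hle _ hx).1 hxj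
  have hx1 := hfix _ hx hxO
  exact eq_inv_of_mul_eq_one_left hx1

end Pool.Agent.Klein
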