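import Pool.Agent.Lib.MP_3c9215_al.Spec2

set_option autoImplicit false

/-!
# MP_3c9215_al, L14: the recursion satisfied by the homologies on the groups `Wc O p`
-/

namespace Pool.Agent.Klein

/-- the recursion in a commutative group normalized by `c` -/
lemma mInt_cheb {X : Type} [Group X] (M : Subgroup X) (hM : ∀ m ∈ M, ∀ n ∈ M, m * n = n * m)
    (c : X) (hc : ∀ m ∈ M, c * m * c⁻¹ ∈ M) (hc' : ∀ m ∈ M, c⁻¹ * m * c ∈ M) (d : X → X)
    (hd : ∀ m ∈ M, d m * d m = (c * m * c⁻¹) * (c⁻¹ * m * c)) (m : X) (hm : m ∈ M) (k : ℕ) :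
    chebG d k m = (c ^ k * m * (c ^ k)⁻¹) * ((c ^ k)⁻¹ * m * c ^ k) ∧
    chebG d (k + 1) m =
      (c ^ (k + 1) * m * (c ^ (k + 1))⁻¹) * ((c ^ (k + 1))⁻¹ * m * c ^ (k + 1)) := by
  have hp : ∀ j : ℕ, c ^ j * m * (c ^ j)⁻¹ ∈ M := by
    intro j
    induction j with
    | zero => simpa using hm
    | succ j ih =>
      have e : c ^ (j + 1) * m * (c ^ (j + 1))⁻¹ = c * (c ^ j * m * (c ^ j)⁻¹) * c⁻¹ := by
        rw [pow_succ']; group
      rw [e]
      exact hc _ ih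
  have hq : ∀ j : ℕ, (c ^ j)⁻¹ * m * c ^ j ∈ M := by
    intro j
    induction j with
    | zero => simpa using hm
    | succ j ih =>
      have e : (c ^ (j + 1))⁻¹ * m * c ^ (j + 1) = c⁻¹ * ((c ^ j)⁻¹ * m * c ^ j) * c := by
        rw [pow_succ]; group
      rw [e]
      exact hc' _ ih
  induction k with
  | zero =>
    refine ⟨by simp [chebG], ?_⟩
    simp only [zero_add, pow_one]
    exact hd m hm
  | succ k ih =>
    refine ⟨ih.2, ?_⟩
    have hx : chebG d (k + 1) m ∈ M := by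
      rw [ih.2]
      exact M.mul_mem (hp _) (hq _)
    have h1 := hd _ hx
    show d (chebG d (k + 1) m) * d (chebG d (k + 1) m) * (chebG d k m)⁻¹ = _
    rw [h1, ih.1, ih.2]
    have e1 : c * (c ^ (k + 1) * m * (c ^ (k + 1))⁻¹ * ((c ^ (k + 1))⁻¹ * m * c ^ (k + 1))) * c⁻¹ =
        (c ^ (k + 1 + 1) * m * (c ^ (k + 1 + 1))⁻¹) * ((c ^ k)⁻¹ * m * c ^ k) := by
      rw [pow_succ' c (k + 1)]
      have e2 : c ^ (k + 1) * c⁻¹ = c ^ k := by rw [pow_succ, mul_inv_cancel_right]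
      have e3 : c * (c ^ (k + 1))⁻¹ = (c ^ k)⁻¹ := by
        rw [pow_succ' c k, mul_inv_rev, ← mul_assoc]
        have : Commute c (c ^ k)⁻¹ := (Commute.pow_right rfl k).inv_right
        rw [this.eq, mul_assoc, mul_inv_cancel, mul_one]
      calc c * (c ^ (k + 1) * m * (c ^ (k + 1))⁻¹ * ((c ^ (k + 1))⁻¹ * m * c ^ (k + 1))) * c⁻¹
          = c * c ^ (k + 1) * m * (c * c ^ (k + 1))⁻¹ *
              ((c * (c ^ (k + 1))⁻¹) * m * (c ^ (k + 1) * c⁻¹)) := by group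
        _ = _ := by rw [e2, e3]
    have e4 : c⁻¹ * (c ^ (k + 1) * m * (c ^ (k + 1))⁻¹ * ((c ^ (k + 1))⁻¹ * m * c ^ (k + 1))) * c =
        (c ^ k * m * (c ^ k)⁻¹) * ((c ^ (k + 1 + 1))⁻¹ * m * c ^ (k + 1 + 1)) := by
      have e5 : c⁻¹ * c ^ (k + 1) = c ^ k := by rw [pow_succ', inv_mul_cancel_left]
      have e6 : (c ^ (k + 1))⁻¹ * c = (c ^ k)⁻¹ := by
        rw [pow_succ c k, mul_inv_rev]
        have : Commute (c ^ k)⁻¹ c := ((Commute.pow_right rfl k).inv_right).symm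
        rw [mul_assoc, this.eq, inv_mul_cancel_left]
      calc c⁻¹ * (c ^ (k + 1) * m * (c ^ (k + 1))⁻¹ * ((c ^ (k + 1))⁻¹ * m * c ^ (k + 1))) * c
          = ((c⁻¹ * c ^ (k + 1)) * m * ((c ^ (k + 1))⁻¹ * c)) *
              ((c ^ (k + 1) * c)⁻¹ * m * (c ^ (k + 1) * c)) := by group
        _ = _ := by rw [e5, e6, ← pow_succ]
    rw [e1, e4]
    have ha := hp (k + 1 + 1)
    have hb := hq k
    have he := hp k
    have hf := hq (k + 1 + 1)
    set a := c ^ (k + 1 + 1) * m * (c ^ (k + 1 + 1))⁻¹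
    set b := (c ^ k)⁻¹ * m * c ^ k
    set e := c ^ k * m * (c ^ k)⁻¹
    set f := (c ^ (k + 1 + 1))⁻¹ * m * c ^ (k + 1 + 1)
    have h2 : b * (e * f) = f * (e * b) := by
      rw [hM b hb (e * f) (M.mul_mem he hf), hM e he f hf, mul_assoc]
    calc a * b * (e * f) * (e * b)⁻¹ = a * (b * (e * f)) * (e * b)⁻¹ := by group
      _ = a * (f * (e * b)) * (e * b)⁻¹ := by rw [h2]
      _ = a * f := by group

/-- **MInt** -/
theorem mInt (h1 : S_HmlBasic) (h2 : S_EConj) (h3 : S_MBasic) (h4 : S_MRel) : S_MInt := by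
  intro G _ τ hG hND hNT O p σ s hp hσ hs
  obtain ⟨n, hn, hσn⟩ := hG.odd σ hσ.1
  refine ⟨n, hn.pos, fun w hw => ?_⟩
  obtain ⟨-, -, -, -, hstar⟩ := h1 G τ hG
  have hss : star s = s⁻¹ := hstar σ s hs
  obtain ⟨-, -, -, hMM, -, -⟩ := h2 G τ hG p
  obtain ⟨hcomm, -, -, -⟩ := h3 G τ hG hND hNT p
  have hrel := h4 G τ hG hND hNT p σ s hσ hs
  -- `cj σ` stabilizes `p`
  have hstb : cj τ σ ∈ Stb p := by
    refine ⟨cj_mem τ σ, ?_⟩
    apply Pt.ext
    rw [cj_snd, hσ.2, mul_inv_cancel_right]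
  have hc : ∀ m ∈ MM p, cj τ σ * m * (cj τ σ)⁻¹ ∈ MM p := fun m hm => hMM _ hstb m hm
  have hc' : ∀ m ∈ MM p, (cj τ σ)⁻¹ * m * cj τ σ ∈ MM p := by
    intro m hm
    have := hMM _ ((Stb p).inv_mem hstb) m hm
    rwa [inv_inv] at this
  have hd : ∀ m ∈ MM p, (fun y => s⁻¹ * y * s) m * (fun y => s⁻¹ * y * s) m =
      (cj τ σ * m * (cj τ σ)⁻¹) * ((cj τ σ)⁻¹ * m * cj τ σ) := by
    intro m hm
    show (s⁻¹ * m * s) * (s⁻¹ * m * s) = _
    have e := hrel m hm
    calc (s⁻¹ * m * s) * (s⁻¹ * m * s) = s⁻¹ * (m * m) * s := by group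
      _ = s⁻¹ * ((s * cj τ σ) * m * (s * cj τ σ)⁻¹ *
          ((s * (cj τ σ)⁻¹) * m * (s * (cj τ σ)⁻¹)⁻¹)) * s := by rw [e]
      _ = _ := by group
  -- `star` exchanges the two recursions
  have hst : ∀ (k : ℕ) (x : PP τ), star (chebG (fun x => s * x * s⁻¹) k x) =
      chebG (fun y => s⁻¹ * y * s) k (star x) := by
    have hdd : ∀ x : PP τ, star (s * x * s⁻¹) = s⁻¹ * star x * s := by
      intro x
      rw [star_mul, star_mul, star_inv, hss, inv_inv]
    intro k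
    have key : ∀ k : ℕ, (∀ x : PP τ, star (chebG (fun x => s * x * s⁻¹) k x) =
        chebG (fun y => s⁻¹ * y * s) k (star x)) ∧
        (∀ x : PP τ, star (chebG (fun x => s * x * s⁻¹) (k + 1) x) =
        chebG (fun y => s⁻¹ * y * s) (k + 1) (star x)) := by
      intro k
      induction k with
      | zero =>
        refine ⟨fun x => ?_, fun x => ?_⟩
        · simp only [chebG, star_mul]
        · simp only [chebG, star_mul]
          rw [star_inv, hss, inv_inv]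
      | succ k ih =>
        refine ⟨ih.2, fun x => ?_⟩
        simp only [chebG]
        rw [star_mul, star_mul, hdd, ih.2 x, star_inv, ih.1 x]
    exact (key k).1
  -- `star w ∈ MM p`
  have hE : ∀ k : PP τ, k ∈ E O p → star k ∈ E p O := by
    rintro k ⟨k1, k2, k3⟩
    exact ⟨star_mem k1, k3, k2⟩
  have hE' : ∀ k : PP τ, k ∈ E p O → star k ∈ E O p := by
    rintro k ⟨k1, k2, k3⟩
    exact ⟨star_mem k1, k3, k2⟩
  have hw' : star w ∈ Wc p O := by
    refine ⟨hE w hw.1, fun k hk => ?_⟩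
    have := hw.2 (star k) (hE' k hk)
    have := congrArg star this
    rwa [star_mul, star_mul, star_star] at this
  have hwM : star w ∈ MM p := Subgroup.subset_closure ⟨O, hp.symm, hw'⟩
  have key := (mInt_cheb (MM p) hcomm (cj τ σ) hc hc' (fun y => s⁻¹ * y * s) hd (star w) hwM n).1
  have hcn : (cj τ σ) ^ n = 1 := by rw [← map_pow, hσn, map_one]
  rw [hcn] at key
  simp only [one_mul, inv_one, mul_one] at key
  rw [← hst] at key
  have := congrArg star key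
  rwa [star_mul, star_star, star_star] at this

end Pool.Agent.Klein
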