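import Pool.Agent.Lib.MP_3c9215_al.Spec1

set_option autoImplicit false

/-!
# MP_3c9215_al: the reduction to the nondegenerate case
-/

namespace Pool.Agent.Klein

section
variable {G : Type} [Group G] {τ : G →* K4}

lemma NDRed_closure_normal (S : Set G) (hS : ∀ s ∈ S, ∀ g : G, g * s * g⁻¹ ∈ S) :
    (Subgroup.closure S).Normal := by
  refine ⟨fun n hn g => ?_⟩
  induction hn using Subgroup.closure_induction with
  | mem x hx => exact Subgroup.subset_closure (hS x hx g)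
  | one =>
    rw [mul_one, mul_inv_cancel]
    exact one_mem _
  | mul x y _ _ hx hy =>
    have e : g * (x * y) * g⁻¹ = (g * x * g⁻¹) * (g * y * g⁻¹) := by group
    rw [e]
    exact mul_mem hx hy
  | inv x _ hx =>
    have e : g * x⁻¹ * g⁻¹ = (g * x * g⁻¹)⁻¹ := by group
    rw [e]
    exact inv_mem hx

lemma NDRed_closure_comm (S T : Set G) (h : ∀ s ∈ S, ∀ t ∈ T, s * t = t * s) :
    ∀ x ∈ Subgroup.closure S, ∀ y ∈ Subgroup.closure T, x * y = y * x := by
  have h1 : ∀ s ∈ S, Subgroup.closure T ≤ Subgroup.centralizer {s} := by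
    intro s hs
    rw [Subgroup.closure_le]
    intro t ht
    rw [SetLike.mem_coe, Subgroup.mem_centralizer_iff]
    intro s' hs'
    rw [Set.mem_singleton_iff] at hs'
    rw [hs']
    exact h s hs t ht
  intro x hx y hy
  have h2 : Subgroup.closure S ≤ Subgroup.centralizer {y} := by
    rw [Subgroup.closure_le]
    intro s hs
    rw [SetLike.mem_coe, Subgroup.mem_centralizer_iff]
    intro y' hy'
    rw [Set.mem_singleton_iff] at hy'
    rw [hy']
    exact (Subgroup.mem_centralizer_iff.1 (h1 s hs hy) s rfl).symm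
  exact (Subgroup.mem_centralizer_iff.1 (h2 hx) y rfl).symm

/-- conjugates of `f` and `f⁻¹` under the kernel -/
def NDRed_cj (τ : G →* K4) (f : G) : Set G :=
  {g | ∃ n, τ n = 1 ∧ (g = n⁻¹ * f * n ∨ g = n⁻¹ * f⁻¹ * n)}

lemma NDRed_dec (h : Geo τ) {a b f : G} (ha : IsPt τ a) (hb : IsPt τ b) (hp : Perp a b)
    (hf : f ∈ A τ a) (p : G) :
    ∃ m, τ m = 1 ∧ (p⁻¹ * f * p = m⁻¹ * f * m ∨ p⁻¹ * f * p = m⁻¹ * f⁻¹ * m) := by
  have hfa : a⁻¹ * f * a = f := by rw [mul_assoc, hf.2, inv_mul_cancel_left]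
  have hfb : b⁻¹ * f * b = f⁻¹ := by
    have := A_inverted h ha hb hp hf
    rwa [hb.inv_eq] at this ⊢
  by_cases h1 : τ p = 1
  · exact ⟨p, h1, Or.inl rfl⟩
  rcases k4_cases (τ a) (τ b) (τ p) ha.2 hb.2 (hp.tau_ne h ha hb) h1 with h2 | h2 | h2
  · refine ⟨a⁻¹ * p, by rw [map_mul, map_inv, h2, inv_mul_cancel], Or.inl ?_⟩
    calc p⁻¹ * f * p = (a⁻¹ * p)⁻¹ * (a⁻¹ * f * a) * (a⁻¹ * p) := by group
      _ = (a⁻¹ * p)⁻¹ * f * (a⁻¹ * p) := by rw [hfa]
  · refine ⟨b⁻¹ * p, by rw [map_mul, map_inv, h2, inv_mul_cancel], Or.inr ?_⟩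
    calc p⁻¹ * f * p = (b⁻¹ * p)⁻¹ * (b⁻¹ * f * b) * (b⁻¹ * p) := by group
      _ = (b⁻¹ * p)⁻¹ * f⁻¹ * (b⁻¹ * p) := by rw [hfb]
  · refine ⟨(a * b)⁻¹ * p, by rw [map_mul, map_inv, map_mul, h2, inv_mul_cancel], Or.inr ?_⟩
    calc p⁻¹ * f * p = ((a * b)⁻¹ * p)⁻¹ * (b⁻¹ * (a⁻¹ * f * a) * b) * ((a * b)⁻¹ * p) := by
          group
      _ = ((a * b)⁻¹ * p)⁻¹ * f⁻¹ * ((a * b)⁻¹ * p) := by rw [hfa, hfb]

lemma NDRed_cj_conj (h : Geo τ) {a b f : G} (ha : IsPt τ a) (hb : IsPt τ b) (hp : Perp a b)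
    (hf : f ∈ A τ a) : ∀ s ∈ NDRed_cj τ f, ∀ g : G, g * s * g⁻¹ ∈ NDRed_cj τ f := by
  rintro s ⟨n, hn, hs⟩ g
  obtain ⟨m, hm, e⟩ := NDRed_dec h ha hb hp hf (n * g⁻¹)
  have e0 : (n * g⁻¹)⁻¹ * f * (n * g⁻¹) = g * (n⁻¹ * f * n) * g⁻¹ := by group
  rw [e0] at e
  refine ⟨m, hm, ?_⟩
  rcases hs with rfl | rfl
  · exact e
  · have e1 : g * (n⁻¹ * f⁻¹ * n) * g⁻¹ = (g * (n⁻¹ * f * n) * g⁻¹)⁻¹ := by group
    rw [e1]
    rcases e with e | e
    · right
      rw [e]
      group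
    · left
      rw [e]
      group

lemma NDRed_cj_tau {f : G} (hf : τ f = 1) : ∀ s ∈ NDRed_cj τ f, τ s = 1 := by
  rintro s ⟨n, hn, rfl | rfl⟩
  · rw [tau_conj', hf]
  · rw [tau_conj', map_inv, hf, inv_one]

lemma NDRed_mem (f : G) : f ∈ Subgroup.closure (NDRed_cj τ f) :=
  Subgroup.subset_closure ⟨1, map_one τ, Or.inl (by group)⟩

end

theorem ndRed (h1 : S_JIAb) (h2 : S_Strong) : S_NDRed := by
  intro G _ τ hg hj
  obtain ⟨hab1, hab2⟩ := h1 G τ hg hj
  have hkne : τ.ker ≠ ⊥ := by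
    intro e
    apply hj.inf
    rw [e]
    infer_instance
  refine ⟨?_, ?_⟩
  · -- ND
    intro a b f β ha hb hp hf hβ hcomm
    by_contra hne
    rw [not_or] at hne
    obtain ⟨hf1, hβ1⟩ := hne
    have hS : ∀ e : G, τ e = 1 → (∀ w : G, IsPt τ w → τ w = τ a → w * e * w⁻¹ = e⁻¹) →
        e = 1 := by
      intro e he hinv
      set S : Set G := {g | ∃ w w' : G, (IsPt τ w ∧ τ w = τ a) ∧ (IsPt τ w' ∧ τ w' = τ a) ∧
        g = w * w'} with hSdef
      set T : Set G := {c | τ c = 1 ∧ ∀ w : G, IsPt τ w → τ w = τ a → w * c * w⁻¹ = c⁻¹} with hT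
      have hQ : (Subgroup.closure S).Normal := by
        apply NDRed_closure_normal
        rintro s ⟨w, w', ⟨hw, htw⟩, ⟨hw', htw'⟩, rfl⟩ g
        refine ⟨g * w * g⁻¹, g * w' * g⁻¹, ⟨hw.conj g, by rw [tau_conj, htw]⟩,
          ⟨hw'.conj g, by rw [tau_conj, htw']⟩, by group⟩
      have hC : (Subgroup.closure T).Normal := by
        apply NDRed_closure_normal
        rintro c ⟨hc, hci⟩ g
        refine ⟨by rw [tau_conj, hc], fun w hw htw => ?_⟩
        have h3 := hci (g⁻¹ * w * g) (by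
          have := hw.conj g⁻¹
          rwa [inv_inv] at this) (by rw [tau_conj', htw])
        calc w * (g * c * g⁻¹) * w⁻¹ =
              g * ((g⁻¹ * w * g) * c * (g⁻¹ * w * g)⁻¹) * g⁻¹ := by group
          _ = g * c⁻¹ * g⁻¹ := by rw [h3]
          _ = (g * c * g⁻¹)⁻¹ := by group
      have hQk : Subgroup.closure S ≤ τ.ker := by
        rw [Subgroup.closure_le]
        rintro s ⟨w, w', ⟨hw, htw⟩, ⟨hw', htw'⟩, rfl⟩
        rw [SetLike.mem_coe, MonoidHom.mem_ker, map_mul, htw, htw', k4_sq]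
      have hCk : Subgroup.closure T ≤ τ.ker := by
        rw [Subgroup.closure_le]
        rintro c ⟨hc, -⟩
        exact hc
      have hcm := NDRed_closure_comm S T (by
        rintro s ⟨w, w', ⟨hw, htw⟩, ⟨hw', htw'⟩, rfl⟩ c ⟨hc, hci⟩
        have h3 := hci w hw htw
        have h4 := hci w' hw' htw'
        have h5 : w * c⁻¹ = c * w := by
          have := congrArg (fun z => z⁻¹ * w) h3
          simp only [inv_inv] at this
          rw [← this]
          group
        have h6 : w' * c = c⁻¹ * w' := by rw [← h4]; group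
        calc w * w' * c = w * (w' * c) := by group
          _ = w * (c⁻¹ * w') := by rw [h6]
          _ = (w * c⁻¹) * w' := by group
          _ = c * (w * w') := by rw [h5]; group)
      rcases hab2 _ _ hQ hC hQk hCk hcm with h3 | h3
      · exfalso
        apply hβ1
        have h4 : β ∈ Subgroup.closure S := by
          refine Subgroup.subset_closure ⟨a, a * β, ⟨ha, rfl⟩,
            ⟨mul_A_isPt hg hb ha hp.symm hβ, by rw [map_mul, hβ.1, mul_one]⟩, ?_⟩
          rw [← mul_assoc, ha.1, one_mul]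
        rw [h3] at h4
        exact Subgroup.mem_bot.1 h4
      · have h4 : e ∈ Subgroup.closure T := Subgroup.subset_closure ⟨he, hinv⟩
        rw [h3] at h4
        exact Subgroup.mem_bot.1 h4
    have hst := h2 G τ hg a b f β ha hb hp hf hβ hcomm hS
    have hc : ∀ n m : G, τ n = 1 → τ m = 1 → Commute (n⁻¹ * f * n) (m⁻¹ * β * m) := by
      intro n m hn hm
      have h3 := hst (n * m⁻¹) (by rw [map_mul, map_inv, hn, hm, inv_one, one_mul])
      show (n⁻¹ * f * n) * (m⁻¹ * β * m) = (m⁻¹ * β * m) * (n⁻¹ * f * n)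
      calc (n⁻¹ * f * n) * (m⁻¹ * β * m)
          = m⁻¹ * (((n * m⁻¹)⁻¹ * f * (n * m⁻¹)) * β) * m := by group
        _ = m⁻¹ * (β * ((n * m⁻¹)⁻¹ * f * (n * m⁻¹))) * m := by rw [h3]
        _ = (m⁻¹ * β * m) * (n⁻¹ * f * n) := by group
    have hinv : ∀ n g : G, n⁻¹ * g⁻¹ * n = (n⁻¹ * g * n)⁻¹ := fun n g => by group
    have hcm := NDRed_closure_comm (NDRed_cj τ f) (NDRed_cj τ β) (by
      rintro s ⟨n, hn, hs⟩ t ⟨m, hm, ht⟩
      have h3 := hc n m hn hm
      rcases hs with rfl | rfl <;> rcases ht with rfl | rfl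
      · exact h3
      · rw [hinv m]
        exact h3.inv_right
      · rw [hinv n]
        exact h3.inv_left
      · rw [hinv n, hinv m]
        exact h3.inv_inv)
    have hK := NDRed_closure_normal (NDRed_cj τ f) (NDRed_cj_conj hg ha hb hp hf)
    have hL := NDRed_closure_normal (NDRed_cj τ β) (NDRed_cj_conj hg hb ha hp.symm hβ)
    have hKk : Subgroup.closure (NDRed_cj τ f) ≤ τ.ker := by
      rw [Subgroup.closure_le]
      exact fun s hs => NDRed_cj_tau hf.1 s hs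
    have hLk : Subgroup.closure (NDRed_cj τ β) ≤ τ.ker := by
      rw [Subgroup.closure_le]
      exact fun s hs => NDRed_cj_tau hβ.1 s hs
    rcases hab2 _ _ hK hL hKk hLk hcm with h3 | h3
    · apply hf1
      have := NDRed_mem (τ := τ) f
      rw [h3] at this
      exact Subgroup.mem_bot.1 this
    · apply hβ1
      have := NDRed_mem (τ := τ) β
      rw [h3] at this
      exact Subgroup.mem_bot.1 this
  · -- NT
    intro x hx
    by_contra hno
    have hA : ∀ f ∈ A τ x, f = 1 := by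
      intro f hf
      by_contra hf1
      exact hno ⟨f, hf, hf1⟩
    have hinv : ∀ g : G, τ g = 1 → x * g * x⁻¹ = g⁻¹ := by
      intro g hgk
      obtain ⟨h3, -, h5⟩ := comp_spec hg hx hgk
      rw [hA _ h3, inv_one, one_mul] at h5
      exact h5
    apply hkne
    refine hab1 τ.ker inferInstance le_rfl ?_
    intro g hgk k hkk
    have h3 := hinv g hgk
    have h4 := hinv k hkk
    have h5 := hinv (g * k) (by rw [map_mul, hgk, hkk, one_mul])
    have h6 : (k * g)⁻¹ = (g * k)⁻¹ := by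
      rw [← h5, mul_inv_rev, ← h3, ← h4]
      group
    exact (inv_injective h6).symm

end Pool.Agent.Klein
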