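import Pool.Agent.Lib.MP_3c9215_al.Spec2

set_option autoImplicit false

/-!
# MP_3c9215_al: the modules `Rule` and `Det`
-/

namespace Pool.Agent.Klein

section ruleDet

private lemma rule_aux (h1 : S_Fix1) {G : Type} [Group G] {τ : G →* K4} (hG : Geo τ) (hN : ND τ)
    (h : PP τ) (x y z : Pt τ) (hh : h ∈ Coll τ) (hxy : x ≠ y) (hzx : Perp (z : G) (x : G))
    (hzy : Perp (z : G) (y : G)) (hx : h.1 x = x) (hy : h.1 y = y) : h.2 z = z := by
  obtain ⟨-, -, hp⟩ := hh
  have e1 : Perp ((h.2 z : Pt τ) : G) (x : G) := by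
    have := (hp x z).1 hzx.symm
    rw [hx] at this
    exact this.symm
  have e2 : Perp ((h.2 z : Pt τ) : G) (y : G) := by
    have := (hp y z).1 hzy.symm
    rw [hy] at this
    exact this.symm
  have hne : (x : G) ≠ (y : G) := fun e => hxy (Pt.ext e)
  have := (h1 G τ hG hN).2.2 (x : G) (y : G) (h.2 z : Pt τ) (z : G) x.2 y.2 (h.2 z).2 z.2 hne
    e1 e2 hzx hzy
  exact Pt.ext this

end ruleDet

theorem rule (h1 : S_Fix1) : S_Rule := by
  intro G _ τ hG hN h x y z hh hxy hzx hzy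
  refine ⟨fun hx hy => rule_aux h1 hG hN h x y z hh hxy hzx hzy hx hy, fun hx hy => ?_⟩
  exact rule_aux h1 hG hN (star h) x y z (star_mem hh) hxy hzx hzy hx hy

section det

variable {G : Type} [Group G] {τ : G →* K4}

/-- every point is perpendicular to two different points of any other type -/
private lemma det_two (hG : Geo τ) (hT : NT τ) (z : Pt τ) {t : K4} (ht : t ≠ 1)
    (hz : τ (z : G) ≠ t) : ∃ y y' : Pt τ, y ≠ y' ∧ Perp (z : G) (y : G) ∧
      Perp (z : G) (y' : G) ∧ τ (y : G) = t ∧ τ (y' : G) = t := by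
  obtain ⟨y, hy, hp, hyt⟩ := exists_perp hG z.2 ht hz
  obtain ⟨f, hf, hf1⟩ := hT z z.2
  refine ⟨⟨y, hy⟩, ⟨y * f, mul_A_isPt hG z.2 hy hp hf⟩, ?_, hp, mul_A_perp hG z.2 hy hp hf,
    hyt, ?_⟩
  · intro e
    have e2 : y = y * f := congrArg Subtype.val e
    apply hf1
    have := congrArg (fun w => y⁻¹ * w) e2
    simpa using this.symm
  · change τ (y * f) = t
    rw [map_mul, hf.1, mul_one, hyt]

end det

theorem det (h1 : S_Rule) : S_Det := by
  intro G _ τ hG hN hT h t hh ht hfix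
  -- the second component fixes all points of the other types
  have hA : ∀ z : Pt τ, τ (z : G) ≠ t → h.2 z = z := by
    intro z hz
    obtain ⟨y, y', hne, p1, p2, t1, t2⟩ := det_two hG hT z ht hz
    exact (h1 G τ hG hN h y y' z hh hne p1 p2).1 (hfix y t1) (hfix y' t2)
  -- the first component is the identity
  have hB : ∀ x : Pt τ, h.1 x = x := by
    intro x
    by_cases hx : τ (x : G) = t
    · exact hfix x hx
    · obtain ⟨k1, k2, k3⟩ := k4_mul (τ (x : G)) t x.2.2 ht hx
      obtain ⟨y, y', hne, p1, p2, t1, t2⟩ := det_two hG hT x k1 (Ne.symm k2)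
      refine (h1 G τ hG hN h y y' x hh hne p1 p2).2 (hA y ?_) (hA y' ?_)
      · rw [t1]; exact k3
      · rw [t2]; exact k3
  have hC : ∀ z : Pt τ, h.2 z = z := by
    intro z
    obtain ⟨u, hu, hzu⟩ := k4_exists_ne _ z.2.2
    obtain ⟨y, y', hne, p1, p2, -, -⟩ := det_two hG hT z hu hzu
    exact (h1 G τ hG hN h y y' z hh hne p1 p2).1 (hB y) (hB y')
  exact Prod.ext (Equiv.ext hB) (Equiv.ext hC)

end Pool.Agent.Klein
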