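import Pool.Agent.Lib.MP_3c9215_al.Spec1

set_option autoImplicit false

/-!
# MP_3c9215_al: the module `Strong`
-/

namespace Pool.Agent.Klein

section strong

variable {G : Type} [Group G] {τ : G →* K4}

/-- Step 1: `β` commutes with `T a z f`. -/
private lemma strong_step1 (h1 : S_TOps) (h3 : S_TComm) (h4 : S_Sep) (h : Geo τ) {a b f β : G}
    (ha : IsPt τ a) (hf : f ∈ A τ a) (hβ : β ∈ A τ b) (hc : f * β = β * f)
    (hE : ∀ e : G, τ e = 1 → (∀ w : G, IsPt τ w → τ w = τ a → w * e * w⁻¹ = e⁻¹) → e = 1)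
    {z : G} (hz : τ z = 1) : T a z f * β = β * T a z f := by
  have hβ1 : τ β = 1 := hβ.1
  have hf' : T a z f ∈ A τ a :=
    (h1 G τ h a z 1 1 f ha hz (one_mem _) (one_mem _) hf).1
  set f' := T a z f with hf'def
  have hconj : β⁻¹ * f * β = f := by rw [mul_assoc, hc]; group
  -- for all `g` in the kernel the two components agree
  have key : ∀ g : G, τ g = 1 → comp a (g⁻¹ * (β⁻¹ * f' * β) * g) = comp a (g⁻¹ * f' * g) := by
    intro g hg
    have hβg : τ (β * g) = 1 := by rw [map_mul, hβ1, hg, mul_one]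
    have e1 : T a (β * g) f = T a g f := by
      unfold T
      congr 1
      calc (β * g)⁻¹ * f * (β * g) = g⁻¹ * (β⁻¹ * f * β) * g := by group
        _ = g⁻¹ * f * g := by rw [hconj]
    have e2 : T a (β * g) f' = T a g f' := by
      calc T a (β * g) f' = T a z (T a (β * g) f) := h3 G τ h a (β * g) z f ha hβg hz hf
        _ = T a z (T a g f) := by rw [e1]
        _ = T a g f' := (h3 G τ h a g z f ha hg hz hf).symm
    have e3 : T a (β * g) f' = comp a (g⁻¹ * (β⁻¹ * f' * β) * g) := by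
      unfold T
      congr 1
      group
    rw [← e3, e2]
    rfl
  have hcomp : ∀ x : G, IsPt τ x → τ x = τ a → comp x f' = comp x (β⁻¹ * f' * β) := by
    intro x hx hxa
    obtain ⟨g, hg, rfl⟩ := conj_of_tau_eq h ha hx hxa.symm
    have e1 : comp (g * a * g⁻¹) f' = g * comp a (g⁻¹ * f' * g) * g⁻¹ := by
      rw [← comp_conj]
      congr 1
      group
    have e2 : comp (g * a * g⁻¹) (β⁻¹ * f' * β) =
        g * comp a (g⁻¹ * (β⁻¹ * f' * β) * g) * g⁻¹ := by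
      rw [← comp_conj]
      congr 1
      group
    rw [e1, e2, key g hg]
  have hk : τ (β⁻¹ * f' * β) = 1 := by
    rw [map_mul, map_mul, map_inv, hβ1, hf'.1]; simp
  have hsep := h4 G τ h a f' (β⁻¹ * f' * β) ha hf'.1 hk hcomp
  have hone := hE (f'⁻¹ * (β⁻¹ * f' * β))
    (by rw [map_mul, map_inv, hf'.1, hk]; simp) hsep
  have heq : β⁻¹ * f' * β = f' := by
    have := congrArg (fun w => f' * w) hone
    simpa [mul_assoc] using this
  calc f' * β = β * (β⁻¹ * f' * β) := by group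
    _ = β * f' := by rw [heq]

/-- Step 2: `β` commutes with `γ⁻¹ f γ`. -/
private lemma strong_step2 (h1 : S_TOps) (h2 : S_TBase) (h3 : S_TComm) (h4 : S_Sep) (h : Geo τ)
    {a b f β : G} (ha : IsPt τ a) (hb : IsPt τ b) (hp : Perp a b) (hf : f ∈ A τ a)
    (hβ : β ∈ A τ b) (hc : f * β = β * f)
    (hE : ∀ e : G, τ e = 1 → (∀ w : G, IsPt τ w → τ w = τ a → w * e * w⁻¹ = e⁻¹) → e = 1)
    {γ : G} (hγ : γ ∈ A τ (a * b)) : (γ⁻¹ * f * γ) * β = β * (γ⁻¹ * f * γ) := by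
  have hcpt : IsPt τ (a * b) := hp.mul_isPt h ha hb
  have hac : Perp a (a * b) := hp.mul_right h ha hb
  obtain ⟨⟨ε, hε, he, -⟩, -⟩ := h2 G τ h a (a * b) f γ ha hcpt hac hf hγ
  have e1 : a * (a * b) = b := by rw [← mul_assoc, ha.1, one_mul]
  rw [e1] at hε
  have hα₁ : T a γ f ∈ A τ a :=
    (h1 G τ h a γ 1 1 f ha hγ.1 (one_mem _) (one_mem _) hf).1
  have hs1 := strong_step1 h1 h3 h4 h ha hf hβ hc hE hγ.1
  have hpt : IsPt τ (b * T a γ f) := mul_A_isPt h ha hb hp hα₁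
  have hβm : β ∈ A τ (b * T a γ f) := by
    refine ⟨hβ.1, ?_⟩
    calc β * (b * T a γ f) = (β * b) * T a γ f := by group
      _ = b * (β * T a γ f) := by rw [hβ.2]; group
      _ = b * T a γ f * β := by rw [← hs1]; group
  have hcm := A_comm h hpt hε hβm
  rw [he]
  calc T a γ f * ε * β = T a γ f * (ε * β) := by group
    _ = (T a γ f * β) * ε := by rw [hcm]; group
    _ = β * (T a γ f * ε) := by rw [hs1]; group

end strong

theorem strong (h1 : S_TOps) (h2 : S_TBase) (h3 : S_TComm) (h4 : S_Sep) : S_Strong := by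
  intro G _ τ h a b f β ha hb hp hf hβ hc hE n hn
  obtain ⟨φ, hφ, γ, hγ, β₁, hβ₁, rfl⟩ := ker_factor h hb ha hp.symm hn
  rw [← hp.1] at hγ
  have hs2 := strong_step2 h1 h2 h3 h4 h ha hb hp hf hβ hc hE hγ
  have e1 : φ⁻¹ * f * φ = f := by
    rw [mul_assoc, A_comm h ha hf hφ]; group
  have e2 : (φ * γ * β₁)⁻¹ * f * (φ * γ * β₁) = β₁⁻¹ * (γ⁻¹ * f * γ) * β₁ := by
    calc (φ * γ * β₁)⁻¹ * f * (φ * γ * β₁) = β₁⁻¹ * (γ⁻¹ * (φ⁻¹ * f * φ) * γ) * β₁ := by group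
      _ = β₁⁻¹ * (γ⁻¹ * f * γ) * β₁ := by rw [e1]
  have e3 : β₁ * β = β * β₁ := A_comm h hb hβ₁ hβ
  have e4 : β₁⁻¹ * β = β * β₁⁻¹ := by
    calc β₁⁻¹ * β = β₁⁻¹ * (β * β₁) * β₁⁻¹ := by group
      _ = β₁⁻¹ * (β₁ * β) * β₁⁻¹ := by rw [e3]
      _ = β * β₁⁻¹ := by group
  rw [e2]
  calc β₁⁻¹ * (γ⁻¹ * f * γ) * β₁ * β = β₁⁻¹ * (γ⁻¹ * f * γ) * (β₁ * β) := by group
    _ = β₁⁻¹ * ((γ⁻¹ * f * γ) * β) * β₁ := by rw [e3]; group
    _ = (β₁⁻¹ * β) * (γ⁻¹ * f * γ) * β₁ := by rw [hs2]; group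
    _ = β * (β₁⁻¹ * (γ⁻¹ * f * γ) * β₁) := by rw [e4]; group

end Pool.Agent.Klein
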