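import Pool.Agent.Lib.MP_3c9215_al.Spec1

set_option autoImplicit false

/-! The basic formula for the operators `T`. -/

namespace Pool.Agent.Klein

theorem tbase : S_TBase := by
  intro G _ τ h a b α β ha hb hp hα hβ
  have hc : IsPt τ (a * b) := hp.mul_isPt h ha hb
  have hac : Perp a (a * b) := hp.mul_right h ha hb
  have hbc : Perp b (a * b) := hp.mul_right' h ha hb
  set c := a * b with hcdef
  have hcα : IsPt τ (c * α) := mul_A_isPt h ha hc hac hα
  -- the element `g`
  set g := β * (c * α) * β with hg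
  have hτg : τ g = τ c := by
    rw [hg, map_mul, map_mul, map_mul, hβ.1, hα.1, one_mul, mul_one, mul_one]
  have hτg1 : τ g ≠ 1 := by rw [hτg]; exact hc.2
  have hcβ : c * β * c = β⁻¹ := A_inverted' h hb hc hbc hβ
  have hcg : β⁻¹ * α * β = c * g := by
    rw [hg]
    calc β⁻¹ * α * β = (c * β * c) * α * β := by rw [hcβ]
      _ = c * (β * (c * α) * β) := by group
  have haβ : a * β * a⁻¹ = β⁻¹ := A_inverted h hb ha hp.symm hβ
  have hacα : a * (c * α) * a⁻¹ = c * α := by
    have h1 : a * (c * α) = c * α * a := by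
      calc a * (c * α) = (a * c) * α := (mul_assoc _ _ _).symm
        _ = (c * a) * α := by rw [hac.1]
        _ = c * (a * α) := mul_assoc _ _ _
        _ = c * (α * a) := by rw [hα.2]
        _ = c * α * a := (mul_assoc _ _ _).symm
    rw [h1]
    group
  have hag : a * g * a⁻¹ = g⁻¹ := by
    calc a * g * a⁻¹ = (a * β * a⁻¹) * (a * (c * α) * a⁻¹) * (a * β * a⁻¹) := by
          rw [hg]; group
      _ = β⁻¹ * (c * α) * β⁻¹ := by rw [haβ, hacα]
      _ = β⁻¹ * (c * α)⁻¹ * β⁻¹ := by rw [hcα.inv_eq]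
      _ = g⁻¹ := by rw [hg]; group
  have hD : IsPt τ (D g) := D_isPt h hτg1
  have hτD : τ (D g) = τ c := by rw [D_tau h, hτg]
  have haD : Perp a (D g) := by
    apply perp_of_comm_of_tau_ne (τ := τ) (D_comm_of_inverts hag)
    rw [hτD]
    exact hac.tau_ne h ha hc
  have hm : c * D g ∈ A τ a := perp_mul_mem_A hac haD hτD.symm
  have hDe : D g = c * (c * D g) := perp_eq_mul hc.1
  obtain ⟨ε, hε, hgε⟩ := D_factor h hτg1
  have hcg2 : β⁻¹ * α * β = (c * D g) * ε := by
    rw [hcg]
    conv_lhs => rw [hgε]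
    group
  have haε : a * ε * a⁻¹ = ε⁻¹ := A_inverted h hD ha haD.symm hε
  have hT : T a β α = c * D g := by
    rw [T, hcg2]
    exact comp_unique h ha hm hε.1 haε
  refine ⟨⟨ε, ?_, ?_, haε⟩, ?_⟩
  · rw [hT, ← hDe]
    exact hε
  · rw [hT]
    exact hcg2
  · rw [hT]
    exact hDe

end Pool.Agent.Klein
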