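import Pool.Agent.Lib.MP_3c9215_al.Spec1

set_option autoImplicit false

/-!
# MP_3c9215_al: all the operators `T a y` commute
-/

namespace Pool.Agent.Klein

theorem tcomm (h1 : S_TOps) (h2 : S_TMul) (h3 : S_TCommB) : S_TComm := by
  intro G _ τ h a y z α ha hy hz hα
  obtain ⟨b, hb, hp⟩ := exists_perp' h ha
  have hc : IsPt τ (a * b) := hp.mul_isPt h ha hb
  have hac : Perp a (a * b) := hp.mul_right h ha hb
  have hab : a * (a * b) = b := by rw [← mul_assoc, ha.1, one_mul]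
  have one_mem' : (1 : G) ∈ A τ a := (A τ a).one_mem
  -- membership
  have hm : ∀ y : G, τ y = 1 → ∀ δ ∈ A τ a, T a y δ ∈ A τ a := fun y hy δ hδ =>
    (h1 G τ h a y 1 1 δ ha hy one_mem' one_mem' hδ).1
  have hinv : ∀ y : G, τ y = 1 → ∀ δ ∈ A τ a, T a y⁻¹ δ = T a y δ := fun y hy δ hδ =>
    (h1 G τ h a y 1 1 δ ha hy one_mem' one_mem' hδ).2.2
  -- factorization
  have hfac : ∀ y : G, τ y = 1 → ∃ β ∈ A τ b, ∃ γ ∈ A τ (a * b), ∀ δ ∈ A τ a,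
      T a y δ = T a γ (T a β δ) := by
    intro y hy
    obtain ⟨β, hβ, γ, hγ, φ, hφ, rfl⟩ := ker_factor h ha hb hp hy
    refine ⟨β, hβ, γ, hγ, fun δ hδ => ?_⟩
    have e := (h1 G τ h a (β * γ) 1 φ δ ha (by rw [map_mul, hβ.1, hγ.1, one_mul]) one_mem' hφ hδ).2.1
    rw [one_mul] at e
    rw [e, h2 G τ h a b δ β γ ha hb hp hδ hβ hγ]
  -- the three commutation rules
  have hbb : ∀ β ∈ A τ b, ∀ β' ∈ A τ b, ∀ δ ∈ A τ a, T a β (T a β' δ) = T a β' (T a β δ) :=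
    fun β hβ β' hβ' δ hδ => h3 G τ h a b δ β β' ha hb hp hδ hβ hβ'
  have hcc : ∀ γ ∈ A τ (a * b), ∀ γ' ∈ A τ (a * b), ∀ δ ∈ A τ a,
      T a γ (T a γ' δ) = T a γ' (T a γ δ) :=
    fun γ hγ γ' hγ' δ hδ => h3 G τ h a (a * b) δ γ γ' ha hc hac hδ hγ hγ'
  have hbc : ∀ β ∈ A τ b, ∀ γ ∈ A τ (a * b), ∀ δ ∈ A τ a,
      T a γ (T a β δ) = T a β (T a γ δ) := by
    intro β hβ γ hγ δ hδ
    have ht : τ (β * γ) = 1 := by rw [map_mul, hβ.1, hγ.1, one_mul]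
    have hβ' : β⁻¹ ∈ A τ (a * (a * b)) := by rw [hab]; exact (A τ b).inv_mem hβ
    have e1 := h2 G τ h a b δ β γ ha hb hp hδ hβ hγ
    have e2 := hinv (β * γ) ht δ hδ
    have e3 := h2 G τ h a (a * b) δ γ⁻¹ β⁻¹ ha hc hac hδ ((A τ (a * b)).inv_mem hγ) hβ'
    rw [← e1, ← e2, mul_inv_rev, e3, hinv γ hγ.1 δ hδ, hinv β hβ.1 _ (hm γ hγ.1 δ hδ)]
  obtain ⟨β, hβ, γ, hγ, hy'⟩ := hfac y hy
  obtain ⟨β', hβ', γ', hγ', hz'⟩ := hfac z hz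
  have m1 := hm β hβ.1 α hα
  have m2 := hm β' hβ'.1 α hα
  rw [hy' _ (hm z hz α hα), hz' _ hα, hz' _ (hm y hy α hα), hy' _ hα]
  -- T γ (T β (T γ' (T β' α))) = T γ' (T β' (T γ (T β α)))
  rw [← hbc β hβ γ' hγ' _ m2, hbb β hβ β' hβ' α hα, hcc γ hγ γ' hγ' _ (hm β' hβ'.1 _ m1),
    hbc β' hβ' γ hγ _ m1]

end Pool.Agent.Klein
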