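import Pool.Agent.Lib.MP_3c9215_al.Spec1

set_option autoImplicit false

/-!
# MP_3c9215_al: the operators `T a ρ`, `T a σ` commute for `ρ, σ ∈ A b`
-/

namespace Pool.Agent.Klein

/-- the inverse of `u ↦ D (ρ u ρ)` -/
noncomputable def Lk {G : Type} [Group G] (a ρ v : G) : G :=
  ρ * (ρ⁻¹ * a * ρ * D (ρ⁻¹ * a * ρ * v)) * ρ⁻¹

/-- composition of two maps `Lk` -/
lemma Lk_Lk {G : Type} [Group G] (a ρ σ v : G) :
    Lk a σ (Lk a ρ v) = σ * ρ * ((σ * ρ)⁻¹ * a * (σ * ρ) *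
      D ((σ * ρ)⁻¹ * a * (σ * ρ) * (ρ⁻¹ * a * ρ * D (ρ⁻¹ * a * ρ * v)))) * (σ * ρ)⁻¹ := by
  set v₁ := ρ⁻¹ * a * ρ * D (ρ⁻¹ * a * ρ * v) with hv₁
  have h1 : Lk a ρ v = ρ * v₁ * ρ⁻¹ := rfl
  have h2 : σ⁻¹ * a * σ * (ρ * v₁ * ρ⁻¹) = ρ * ((σ * ρ)⁻¹ * a * (σ * ρ) * v₁) * ρ⁻¹ := by
    group
  rw [h1]
  show σ * (σ⁻¹ * a * σ * D (σ⁻¹ * a * σ * (ρ * v₁ * ρ⁻¹))) * σ⁻¹ = _
  rw [h2, ← D_conj]
  group

theorem tcommB (h1 : S_TBase) (h2 : S_Lot) (h3 : S_TLink) : S_TCommB := by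
  intro G _ τ h a b α ρ σ ha hb hab hα hρ hσ
  have hc : IsPt τ (a * b) := hab.mul_isPt h ha hb
  have hac : Perp a (a * b) := hab.mul_right h ha hb
  have hbc : Perp b (a * b) := hab.mul_right' h ha hb
  have hρσ : ρ * σ = σ * ρ := A_comm h hb hρ hσ
  -- the set U
  have hcb : τ (a * b) ≠ τ b := fun e => hbc.tau_ne h hb hc e.symm
  -- commutation of the maps Lk on U
  have hLcomm : ∀ v : G, IsPt τ v → Perp v a → τ v ≠ τ b →
      Lk a σ (Lk a ρ v) = Lk a ρ (Lk a σ v) := by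
    intro v hv hva hvb
    rw [Lk_Lk, Lk_Lk, hρσ]
    have pa1 : IsPt τ (ρ⁻¹ * a * ρ) := by
      have := ha.conj ρ⁻¹
      rwa [inv_inv] at this
    have pa2 : IsPt τ (σ⁻¹ * a * σ) := by
      have := ha.conj σ⁻¹
      rwa [inv_inv] at this
    have fix : ∀ x : G, x ∈ A τ b → Perp (x⁻¹ * a * x) b := by
      intro x hx
      have := hab.conj x⁻¹
      rw [inv_inv] at this
      have e : x⁻¹ * b * x = b := by rw [mul_assoc, ← hx.2]; group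
      rwa [e] at this
    have key := h2 G τ h a (ρ⁻¹ * a * ρ) (σ⁻¹ * a * σ) b v ha pa1 pa2 hb hv hab (fix ρ hρ) (fix σ hσ)
      (tau_conj' ρ a) (tau_conj' σ a) hva hvb
    -- a₃
    have inv : ∀ x : G, x ∈ A τ b → x⁻¹ * a * x = a * (x * x) := by
      intro x hx
      have := pt_mul_A h hb ha hab.symm hx
      calc x⁻¹ * a * x = (a * x) * x := by rw [this]
        _ = a * (x * x) := by group
    have e3 : ρ⁻¹ * a * ρ * a * (σ⁻¹ * a * σ) = (σ * ρ)⁻¹ * a * (σ * ρ) := by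
      rw [inv (σ * ρ) ((A τ b).mul_mem hσ hρ), inv ρ hρ, inv σ hσ]
      calc a * (ρ * ρ) * a * (a * (σ * σ)) = a * (ρ * ρ) * (a * a) * (σ * σ) := by group
        _ = a * (ρ * ρ) * (σ * σ) := by rw [ha.1]; group
        _ = a * (ρ * (ρ * σ) * σ) := by group
        _ = a * (ρ * (σ * ρ) * σ) := by rw [hρσ]
        _ = a * ((ρ * σ) * (ρ * σ)) := by group
        _ = a * ((σ * ρ) * (σ * ρ)) := by rw [hρσ]
    rw [e3] at key
    rw [key]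
  -- S maps
  have hS : ∀ x : G, x ∈ A τ b → ∀ u : G, IsPt τ u → Perp u a → τ u ≠ τ b →
      IsPt τ (D (x * u * x)) ∧ Perp (D (x * u * x)) a ∧ τ (D (x * u * x)) = τ u ∧
        Lk a x (D (x * u * x)) = u := by
    intro x hx u hu hua hub
    exact (h3 G τ h a b x ha hb hab hx).2 u hu hua hub
  have hL : ∀ x : G, x ∈ A τ b → ∀ v : G, IsPt τ v → Perp v a → τ v ≠ τ b →
      IsPt τ (Lk a x v) ∧ Perp (Lk a x v) a ∧ τ (Lk a x v) = τ v ∧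
        D (x * Lk a x v * x) = v := by
    intro x hx v hv hva hvb
    exact (h3 G τ h a b x ha hb hab hx).1 v hv hva hvb
  have hinj : ∀ x : G, x ∈ A τ b → ∀ v w : G, IsPt τ v → Perp v a → τ v ≠ τ b →
      IsPt τ w → Perp w a → τ w ≠ τ b → Lk a x v = Lk a x w → v = w := by
    intro x hx v w hv hva hvb hw hwa hwb e
    rw [← (hL x hx v hv hva hvb).2.2.2, e, (hL x hx w hw hwa hwb).2.2.2]
  -- commutation of the S maps
  have hScomm : ∀ u : G, IsPt τ u → Perp u a → τ u ≠ τ b →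
      D (ρ * D (σ * u * σ) * ρ) = D (σ * D (ρ * u * ρ) * σ) := by
    intro u hu hua hub
    obtain ⟨s1, s2, s3, s4⟩ := hS σ hσ u hu hua hub
    obtain ⟨r1, r2, r3, r4⟩ := hS ρ hρ u hu hua hub
    have s3' : τ (D (σ * u * σ)) ≠ τ b := by rw [s3]; exact hub
    have r3' : τ (D (ρ * u * ρ)) ≠ τ b := by rw [r3]; exact hub
    obtain ⟨v1, v2, v3, v4⟩ := hS ρ hρ _ s1 s2 s3'
    obtain ⟨w1, w2, w3, w4⟩ := hS σ hσ _ r1 r2 r3'
    have v3' : τ (D (ρ * D (σ * u * σ) * ρ)) ≠ τ b := by rw [v3]; exact s3'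
    have w3' : τ (D (σ * D (ρ * u * ρ) * σ)) ≠ τ b := by rw [w3]; exact r3'
    have e1 : Lk a σ (Lk a ρ (D (ρ * D (σ * u * σ) * ρ))) = u := by rw [v4, s4]
    have e2 : Lk a ρ (Lk a σ (D (σ * D (ρ * u * ρ) * σ))) = u := by rw [w4, r4]
    rw [← hLcomm _ w1 w2 w3'] at e2
    have lv := hL ρ hρ _ v1 v2 v3'
    have lw := hL ρ hρ _ w1 w2 w3'
    have e3 : Lk a ρ (D (ρ * D (σ * u * σ) * ρ)) = Lk a ρ (D (σ * D (ρ * u * ρ) * σ)) :=
      hinj σ hσ _ _ lv.1 lv.2.1 (by rw [lv.2.2.1]; exact v3') lw.1 lw.2.1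
        (by rw [lw.2.2.1]; exact w3') (e1.trans e2.symm)
    exact hinj ρ hρ _ _ v1 v2 v3' w1 w2 w3' e3
  -- translate
  have hT : ∀ x : G, x ∈ A τ b → ∀ φ : G, φ ∈ A τ a →
      T a x φ ∈ A τ a ∧ D (x * (a * b * φ) * x) = a * b * T a x φ := by
    intro x hx φ hφ
    refine ⟨?_, (h1 G τ h a b φ x ha hb hab hφ hx).2⟩
    apply comp_mem h ha
    rw [tau_conj', hφ.1]
  have uα : IsPt τ (a * b * α) := mul_A_isPt h ha hc hac hα
  have uα2 : Perp (a * b * α) a := (mul_A_perp h ha hc hac hα).symm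
  have uα3 : τ (a * b * α) ≠ τ b := by rw [map_mul τ (a * b) α, hα.1, mul_one]; exact hcb
  have key := hScomm _ uα uα2 uα3
  obtain ⟨tσ, tσ2⟩ := hT σ hσ α hα
  obtain ⟨tρ, tρ2⟩ := hT ρ hρ α hα
  rw [tσ2, tρ2, (hT ρ hρ _ tσ).2, (hT σ hσ _ tρ).2] at key
  exact mul_left_cancel key

end Pool.Agent.Klein
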