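import Pool.Agent.Lib.MP_3c9215_al.Spec2

set_option autoImplicit false

/-!
# MP_3c9215_al, part 3: the algebraic core of the contradiction

`Core` collects the data used at the end: an additive group `M` (elations with a common axis `O^⊥`), a
group `Λ` acting on `M` and on the set `L` of points of the axis, for each point `p` of the axis the
subgroup `Mp p` of elations with centre `p`, the rotations `r α`, the homologies `s α` with centre `O`,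
and the homology `δ` with centre `c` (axis through `b`).
-/

namespace Pool.Agent.Klein

/-- Chebyshev-type recursion in an additive group: `2 w`, `2 d w`, `2 d u_{k+1} - u_k` -/
def cheb {M : Type} [AddCommGroup M] (d : M → M) : ℕ → M → M
  | 0, w => w + w
  | 1, w => d w + d w
  | (k + 2), w => d (cheb d (k + 1) w) + d (cheb d (k + 1) w) - cheb d k w

/-- the polynomials `2`, `u`, `u D_{k+1} - D_k` (so `D_n (z + z⁻¹) = z^n + z^{-n}`) -/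
def chebF {R : Type} [CommRing R] (u : R) : ℕ → R
  | 0 => 2
  | 1 => u
  | (k + 2) => u * chebF u (k + 1) - chebF u k

/-- the data of the final contradiction -/
structure Core where
  M : Type
  [iM : AddCommGroup M]
  Λ : Type
  [iΛ : Group Λ]
  act : Λ →* AddMonoid.End M
  L : Type
  sm : Λ → L → L
  one_sm : ∀ p, sm 1 p = p
  mul_sm : ∀ k l p, sm (k * l) p = sm k (sm l p)
  ty : L → Prop
  ty_sm : ∀ k p, ty (sm k p) ↔ ty p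
  Mp : L → AddSubgroup M
  mp_sm : ∀ k p m, m ∈ Mp p → act k m ∈ Mp (sm k p)
  disj : ∀ p q m, p ≠ q → m ∈ Mp p → m ∈ Mp q → m = 0
  no2 : ∀ m : M, m + m = 0 → m = 0
  b : L
  c : L
  ty_b : ty b
  ty_c : ¬ ty c
  A : Type
  [iA : CommGroup A]
  A_odd : ∀ α : A, ∃ k : ℕ, Odd k ∧ α ^ k = 1
  r : A →* Λ
  r_b : ∀ α, sm (r α) b = b → α = 1
  r_c : ∀ α, sm (r α) c = c → α = 1
  tr_b : ∀ p, ty p → ∃ α, sm (r α) b = p
  tr_c : ∀ p, ¬ ty p → ∃ α, sm (r α) c = p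
  j : Λ
  j_b : sm j b = b
  j_c : sm j c = c
  jj : j * j = 1
  act_jb : ∀ m, act j m - m ∈ Mp b
  act_jc : ∀ m, act j m + m ∈ Mp c
  j_r : ∀ α, j * r α = (r α)⁻¹ * j
  s : A → Λ
  s_sm : ∀ α p, sm (s α) p = p
  s_r : ∀ α β, s α * r β = r β * s α
  s_j : ∀ α, s α * j = j * s α
  s_rel : ∀ α m, act (s α * r α) m + act (s α * (r α)⁻¹) m = m + m
  δ : Λ
  s_δ : ∀ α, s α * δ = δ * s α
  δ_b : sm δ b = b
  δ_c : sm δ c = c
  δ_j : δ * j = j * δ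
  act_δ : ∀ m, act δ m - m ∈ Mp c
  δ_fix : ∀ p, sm δ p = p → p = b ∨ p = c
  δ_sq : ∀ m ∈ Mp c, act δ (act δ m) = m → m = 0
  lemP : ∀ ρ : A, ρ ≠ 1 →
    (∃ ρ₁, sm (r ρ₁ * δ * r ρ * δ⁻¹) b = b ∧ sm (r ρ₁ * δ * r ρ * δ⁻¹) c ≠ c) ∧
    (∃ ρ₁, sm (r ρ₁ * δ * r ρ * δ⁻¹) c = c ∧ sm (r ρ₁ * δ * r ρ * δ⁻¹) b ≠ b)
  lemT : ∀ ρ : A, ∃ ρ', sm (δ * r ρ) b = sm (r ρ') b ∧ sm (δ⁻¹ * r ρ) c = sm (r ρ') c
  W : AddSubgroup M
  W_le : W ≤ Mp c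
  W_ne : ∃ w ∈ W, w ≠ 0
  W_sm : ∀ k, sm k c = c → ∀ w ∈ W, act k w ∈ W
  W_int : ∃ n : ℕ, 1 ≤ n ∧ ∀ w ∈ W, cheb (fun x => act δ x) n w = w + w

attribute [instance] Core.iM Core.iΛ Core.iA

/-- **CBasic.** Elementary consequences. Write `R α = act (r α)`, `q α := R α + (R α)⁻¹`,
`n α := R α - (R α)⁻¹`.
(1) `act j m = m` for `m ∈ Mp c`; (2) `act j m = -m` for `m ∈ Mp b`; (3) `act j m = -m` implies
`act δ m = m`; (4) `act j m = m` implies `act j (n α m) = -(n α m)`, and `act j m = -m` implies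
`act j (n α m) = n α m`; (5) `act (s α) (q α m) = 2 m`; (6) `q α` commutes with every `act k` such that
`k` commutes with `s α`, in particular with `δ`, `r β`, `j`; (7) if `act j x = x` then
`2 (δ (R α x) - R α x) = q α (δ x - x)`; (8) `n α (n α m) = q α (q α m) - 4 m`;
(9) if `α ≠ 1`, `m ∈ Mp c` and `s α (s α m) = m` then `m = 0`.
Proof. (1) `act j m - m ∈ Mp b` and in `Mp c` (`j c = c`), `disj` (`b ≠ c` by types). (2) similarly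
`act j m + m ∈ Mp c ∩ Mp b`. (3) `2 m = -(act j m - m) ∈ Mp b`, `act δ (2m) - 2m ∈ Mp c ∩ Mp b`
(`δ b = b`), so it is `0`, and `no2`. (4) `j R α = (R α)⁻¹ j`, also `j (R α)⁻¹ = R α j`. (5) is `s_rel`.
(6) `act (s α) (q α (act k m)) = 2 act k m = act k (act (s α) (q α m)) = act (s α) (act k (q α m))`,
`act (s α)` is injective. (7) `n α x` has `j = -1` by (4), so `δ (n α x) = n α x` by (3); `q α` commutes
with `δ`; add (`2 R α = q α + n α`). (8) expand. (9) `q α (q α m) = 4 m` by (5) twice and the hypothesis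
(`s α (s α (q α (q α m))) = 4 m = 4 s α (s α m)`, injectivity), so `n α (n α m) = 0` by (8). `v := n α m`
has `j v = -v` by (1), (4), so `2 v ∈ Mp b`; `n α v = 0` means `R α (R α v) = v`, so
`2 v ∈ Mp b ∩ Mp (r (α²) b)`, `α² ≠ 1` (`A_odd`), so `r (α²) b ≠ b` (`r_b`), `v = 0`. So
`R α (R α m) = m` and `m ∈ Mp c ∩ Mp (r (α²) c)`, `m = 0`. -/
def S_CBasic : Prop := ∀ C : Core,
  (∀ m ∈ C.Mp C.c, C.act C.j m = m) ∧
  (∀ m ∈ C.Mp C.b, C.act C.j m = -m) ∧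
  (∀ m, C.act C.j m = -m → C.act C.δ m = m) ∧
  (∀ α m, C.act C.j m = m →
    C.act C.j (C.act (C.r α) m - C.act (C.r α)⁻¹ m) = -(C.act (C.r α) m - C.act (C.r α)⁻¹ m)) ∧
  (∀ α m, C.act C.j m = -m →
    C.act C.j (C.act (C.r α) m - C.act (C.r α)⁻¹ m) = C.act (C.r α) m - C.act (C.r α)⁻¹ m) ∧
  (∀ α m, C.act (C.s α) (C.act (C.r α) m + C.act (C.r α)⁻¹ m) = m + m) ∧
  (∀ α k m, C.s α * k = k * C.s α →
    C.act (C.r α) (C.act k m) + C.act (C.r α)⁻¹ (C.act k m) =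
      C.act k (C.act (C.r α) m + C.act (C.r α)⁻¹ m)) ∧
  (∀ α x, C.act C.j x = x →
    (2 : ℕ) • (C.act C.δ (C.act (C.r α) x) - C.act (C.r α) x) =
      C.act (C.r α) (C.act C.δ x - x) + C.act (C.r α)⁻¹ (C.act C.δ x - x)) ∧
  (∀ α m, C.act (C.r α) (C.act (C.r α) m - C.act (C.r α)⁻¹ m) -
      C.act (C.r α)⁻¹ (C.act (C.r α) m - C.act (C.r α)⁻¹ m) =
    C.act (C.r α) (C.act (C.r α) m + C.act (C.r α)⁻¹ m) +
      C.act (C.r α)⁻¹ (C.act (C.r α) m + C.act (C.r α)⁻¹ m) - (4 : ℕ) • m) ∧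
  (∀ α, α ≠ 1 → ∀ m ∈ C.Mp C.c, C.act (C.s α) (C.act (C.s α) m) = m → m = 0)

/-- **CFin.** Finite invariant subgroups in the torsion case.
Proof (uses `S_CBasic`). Let `n ≥ 1` be as in `W_int`. By induction on `k ≥ 1`:
`cheb (act δ) k w = 2^k δ^k w + (integer combination of the δ^i w, i < k)`. For `k = n`, `w = w₀` this shows
`2^n δ^n w₀ ∈ X₀ := ` the additive subgroup generated by `δ^i w₀`, `0 ≤ i < n`; `X₀` is killed by the odd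
prime `ℓ`, and so `δ^n w₀ ∈ X₀` (`2^n` is invertible mod `ℓ`, `δ^n w₀` is killed by `ℓ`). So `X₀` is
`δ`-invariant; it is finitely generated and killed by `ℓ`, hence finite; `X₀ ≤ W` (`W_sm`).
`M₀ := ⨆_{α ∈ A₀} R α (X₀)` is finite, killed by `ℓ`, invariant under `R α`, `α ∈ A₀`. For `x ∈ X₀`
(`x ∈ W ≤ Mp c`, `act j x = x`) CBasic (7): `2 (δ (R α x) - R α x) = R α y + (R α)⁻¹ y` with
`y = δ x - x ∈ X₀`, so `δ (R α x) ∈ M₀` (`2` is invertible on `M₀`). Finally `act δ` is injective on the finite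
set `M₀`, hence bijective, so `δ⁻¹` preserves `M₀`. -/
def S_CFin : Prop := ∀ (C : Core) (w₀ : C.M) (ℓ : ℕ), w₀ ∈ C.W → ℓ.Prime → ℓ ≠ 2 → ℓ • w₀ = 0 →
  ∀ A₀ : Subgroup C.A, Finite A₀ → ∃ M₀ : AddSubgroup C.M, Finite M₀ ∧ w₀ ∈ M₀ ∧
    (∀ m ∈ M₀, ℓ • m = 0) ∧ (∀ α ∈ A₀, ∀ m ∈ M₀, C.act (C.r α) m ∈ M₀) ∧
    (∀ m ∈ M₀, C.act C.δ m ∈ M₀) ∧ (∀ m ∈ M₀, C.act C.δ⁻¹ m ∈ M₀)

/-- **CUni.** The commutators `u` are unipotent on `R := {m : ℓ m = 0}`, `ℓ` odd.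
Proof (uses `S_CBasic`). On `R` the multiplication by `2` is bijective; every `m ∈ R` is `m = m_b + m_c`,
`m_b = (m - j m)/2 ∈ Mp b`, `m_c = (m + j m)/2 ∈ Mp c`, both in `R`. An element of `R` with `j = -1` is in
`Mp b`, with `j = 1` in `Mp c`. Put `q α = R α + (R α)⁻¹` (commutes with `δ`, `r β`, `j`; preserves
`R ∩ Mp b`, `R ∩ Mp c`). For `z ∈ R ∩ Mp c`, `2 R α z = q α z + n α z ≡ q α z` mod `Mp b` (CBasic (4)).
Let `x ∈ R ∩ Mp c`, `x₁ := δ⁻¹ x ∈ R ∩ Mp c`. CBasic (7) for `x₁`: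
`2 δ (R ρ x₁) = 2 R ρ x₁ + q ρ (x - x₁)`. Apply `2 R ρ₁`:
`4 P x = 4 R (ρ₁ρ) x₁ + 2 R ρ₁ (q ρ (x - x₁)) ≡ Y x := 2 q (ρ₁ρ) x₁ + q ρ₁ (q ρ (x - x₁))` mod `Mp b`,
and `Y δ = δ Y`, `Y x ∈ Mp c`.
(b) `P b = b`: `P`, `P⁻¹`, `δ` preserve `Mp b`. `D m := P δ m - δ P m` is in `Mp b` for `m ∈ R`, and `0` for
`m ∈ Mp b` (`δ` is trivial on `Mp b` by CBasic (2), (3), and `P m ∈ Mp b`); for `m = x ∈ Mp c`:
`4 P δ x ≡ Y δ x`, `4 δ P x ≡ δ Y x` mod `Mp b`. Now `u m - m = D (P⁻¹ δ⁻¹ m)`.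
(c) `P c = c`: for `x ∈ R ∩ Mp c`, `4 P x - Y x ∈ Mp b ∩ Mp c = 0`, so `P δ x = δ P x`. For
`m ∈ R ∩ Mp b`: `D m = P m - δ P m ∈ Mp c` (`act_δ`). So `D m ∈ Mp c` for `m ∈ R`, `D m = 0` for
`m ∈ R ∩ Mp c`; `u m - m = D (P⁻¹ δ⁻¹ m)` and `P⁻¹ δ⁻¹` preserves `Mp c`. -/
def S_CUni : Prop := ∀ (C : Core) (ρ₁ ρ : C.A) (ℓ : ℕ) (P u : C.Λ), Odd ℓ →
  P = C.r ρ₁ * C.δ * C.r ρ * C.δ⁻¹ → u = P * C.δ * P⁻¹ * C.δ⁻¹ →
  (C.sm P C.b = C.b → ∀ m : C.M, ℓ • m = 0 →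
    C.act u m - m ∈ C.Mp C.b ∧ (m ∈ C.Mp C.b → C.act u m = m)) ∧
  (C.sm P C.c = C.c → ∀ m : C.M, ℓ • m = 0 →
    C.act u m - m ∈ C.Mp C.c ∧ (m ∈ C.Mp C.c → C.act u m = m))

/-- **CTor.** The torsion case is impossible.
Proof (uses `S_CBasic`, `S_CFin`, `S_CUni`). A multiple `w₀ ≠ 0` of `w` is killed by a prime `ℓ`; `ℓ ≠ 2` by
`no2`. Let `ρ ≠ 1`, `P = r ρ₁ δ r ρ δ⁻¹` with `P b = b`, `P c ≠ c`, and `P' = r ρ₁' δ r ρ δ⁻¹` with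
`P' c = c`, `P' b ≠ b` (`lemP`), `u = P δ P⁻¹ δ⁻¹`, `u' = P' δ P'⁻¹ δ⁻¹`. `A₀` := the subgroup generated by
`ρ, ρ₁, ρ₁'`, finite (finitely generated commutative torsion group). `M₀` as in CFin, `Γ₀` := subgroup of `Λ`
generated by the `r α`, `α ∈ A₀`, and `δ`: `M₀` is `Γ₀`-invariant, `u, u' ∈ Γ₀`.
`v := R ρ w₀ - (R ρ)⁻¹ w₀ ∈ M₀`; `j v = -v`, so `2 v = v - j v ∈ Mp b`, so `v ∈ Mp b` (`ℓ` odd); `v ≠ 0`,
otherwise `r (ρ²) w₀ = w₀ ∈ Mp c ∩ Mp (r (ρ²) c)`, `ρ² = 1`, `ρ = 1`.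
`Ω := {γ b : γ ∈ Γ₀}` is finite: `γ v ∈ M₀` is a nonzero element of `Mp (γ b)` and determines `γ b` (`disj`).
Every `p ∈ L` has a nonzero `m ∈ Mp p` with `ℓ m = 0`: `r α v` if `p = r α b`, `r α w₀` if `p = r α c`.
`u^ℓ` acts trivially on `R = {ℓ m = 0}`: by CUni (b) `u^k m = m + k (u m - m)`; hence `u^ℓ p = p` for all
`p ∈ L` (a nonzero `m ∈ R ∩ Mp p` lies in `Mp (u^ℓ p)`). The same for `u'` (CUni (c)).
`u b = b`. `u` fixes no other point of `Ω`: let `p ∈ Ω`, `p ≠ b`, `u p = p`, `0 ≠ m ∈ R ∩ Mp p`.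
`u m - m ∈ Mp b ∩ Mp p = 0`. Write `m = m_b + m_c` (as in CUni); `u m_b = m_b`, so `u m_c = m_c`, and
`m_c ≠ 0` since `m ∉ Mp b`. So `m_c ∈ Mp c ∩ Mp (u c)`, `u c = c`. But `u c = P δ P⁻¹ c` (`δ⁻¹ c = c`), so
`δ` fixes `P⁻¹ c`, so `P⁻¹ c = c` by `δ_fix` and types, `P c = c`, a contradiction.
So (`u` acts on the finite set `Ω` with `u^ℓ = 1`, `ℓ` prime, and exactly one fixed point)
`|Ω| ≡ 1 mod ℓ`. `u'` has no fixed point on `Ω`: all points of `Ω` satisfy `ty`; let `u' p = p`, `p ∈ Ω`,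
`0 ≠ m ∈ R ∩ Mp p`, `p ≠ c`: `u' m - m ∈ Mp c ∩ Mp p = 0`, `u' m_c = m_c`, so `u' m_b = m_b`, `m_b ≠ 0`
since `m ∉ Mp c`; so `u' b = b`, `δ` fixes `P'⁻¹ b`, `P'⁻¹ b = b`, `P' b = b`, a contradiction. So
`|Ω| ≡ 0 mod ℓ`, a contradiction. (Counting: `MulAction.card_modEq_card_fixedPoints` for the p-group
`Subgroup.zpowers` of the permutation of `Ω`, or `Equiv.Perm.card_fixedPoints_modEq`.) -/
def S_CTor : Prop := ∀ C : Core, (∃ ρ : C.A, ρ ≠ 1) →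
  (∃ w ∈ C.W, w ≠ 0 ∧ ∃ n : ℕ, 1 ≤ n ∧ n • w = 0) → False

/-- **CRel.** If `δ r ρ b = r ρ' b` and `δ⁻¹ r ρ c = r ρ' c` then `S_{ρ'}² x - x = δ² (S_ρ² x - x)` on
`Mp c`, where `S_α = act (s α)`.
Proof (uses `S_CBasic`; notation `q α`, `n α`, `R α`; all `S_α`, `q α` commute with `δ`, `R β`, `j`, and with
each other since `S_α (q α m) = 2 m` and `no2`). `2 R ρ = q ρ + n ρ`, `2 (R ρ')⁻¹ = q ρ' - n ρ'`.
(i) For `v` with `j v = -v`: `S_ρ' ... `: precisely `q ρ' (δ (n ρ v)) = n ρ' (q ρ v)`.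
Let first `v ∈ Mp b`. `Q := (R ρ')⁻¹ δ R ρ` fixes `b`, so `Q v ∈ Mp b`, `j (Q v) = -Q v`.
`4 Q v = (q ρ' - n ρ') δ (q ρ v + n ρ v) = (q ρ' - n ρ')(q ρ v + δ n ρ v)` (`δ (q ρ v) = q ρ (δ v) = q ρ v`)
`= [q ρ' q ρ v - n ρ' δ n ρ v] + [q ρ' δ n ρ v - n ρ' q ρ v]`. The first bracket has `j = -1`, the second
`j = +1` (CBasic (4): `n ρ v` has `j = +1`). So the second bracket has `j = -1` too, so it is `0` (`no2`).
For general `v` with `j v = -v`, `2 v = v - j v ∈ Mp b`; use `no2`.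
(ii) For `x ∈ Mp c`: `Q' := (R ρ')⁻¹ δ⁻¹ R ρ` fixes `c`, `4 Q' x = (q ρ' - n ρ')(δ⁻¹ q ρ x + n ρ x)`
(`δ⁻¹ (n ρ x) = n ρ x` by CBasic (3), (4)); the part with `j = -1`, `q ρ' n ρ x - n ρ' δ⁻¹ q ρ x`, vanishes:
`q ρ' (n ρ x) = n ρ' (δ⁻¹ (q ρ x))`.
Let `x ∈ Mp c`. (ii) for `δ x`: `n ρ' (q ρ x) = q ρ' (n ρ (δ x))`. Apply `n ρ'` and (i) with
`v = n ρ (δ x)`, multiplied by `q ρ`:
`n ρ' n ρ' q ρ q ρ x = q ρ' n ρ' q ρ (n ρ δ x) = q ρ' q ρ' δ n ρ n ρ δ x` .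
By CBasic (8) `n α n α = q α q α - 4`; so `(q ρ'² - 4) q ρ² x = q ρ'² (q ρ² - 4) δ² x`. Apply
`S_ρ'² S_ρ²` (`S_α² q α² = 4`): `(4 - 4 S_ρ'²) 4 x = 4 (4 - 4 S_ρ²) δ² x`, and cancel `16` (`no2`). -/
def S_CRel : Prop := ∀ (C : Core) (ρ ρ' : C.A), C.sm (C.δ * C.r ρ) C.b = C.sm (C.r ρ') C.b →
  C.sm (C.δ⁻¹ * C.r ρ) C.c = C.sm (C.r ρ') C.c → ∀ x ∈ C.Mp C.c,
    C.act (C.s ρ') (C.act (C.s ρ') x) - x =
      C.act C.δ (C.act C.δ (C.act (C.s ρ) (C.act (C.s ρ) x) - x))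

/-- **TF.** Field lemma. `K` of characteristic `0`, `t ≠ 0`, `t² ≠ 1`, `x ≠ 0`, `D_m (2t) = 2` for some
`m ≥ 1`, and for every `k` there are `n ≥ 1` and `u` with `u² (1 + t^(2k) x) = 4`, `D_n u = 2`: impossible.
Proof. `D_n` (`chebF`) is a monic integer polynomial of degree `n` (`n ≥ 1`), `D_n (z + z⁻¹) = z^n + z^{-n}`
(`Polynomial.dickson 1 1 n`). `t` and `u` (`k = 0`), hence `x`, are algebraic over `ℚ`; let
`F = ℚ(t, x) ⊆ K`, a number field of degree `d`, and `y_k := 4/(1 + t^(2k) x) = u_k² ∈ F` (the denominator is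
not `0`). `D_n (y_k - 2) = D_n (D_2 u_k) = D_2 (D_n u_k) = D_2 2 = 2`; so `y_k` is an algebraic integer.
Let `φ : F → ℂ` be an embedding. A complex number `w` with `D_n w = 2` is `w = z + z⁻¹` with `z ≠ 0`,
`z^n + z^{-n} = 2`, so `z^n = 1` and `w = 2 Re z ∈ [-2, 2]` is real. So `2 φ(t) ∈ [-2, 2]`, `φ(t)` real,
`φ(t) ≠ 0`, `φ(t)² ≠ 1`, so `0 < φ(t)² < 1`; and `φ(y_k) ∈ [0, 4]` is real and nonzero. `k = 0`:
`φ(x) = 4/φ(y_0) - 1 ≥ 0`, so `φ(x) > 0`. Hence `φ(y_k) = 4/(1 + φ(t)^(2k) φ(x)) < 4` and tends to `4` for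
`k → ∞`. The trace `Tr_{F/ℚ}(y_k) = Σ_φ φ(y_k)` is an integer, `< 4 d`, and tends to `4 d`: contradiction. -/
def S_TF : Prop := ∀ (K : Type) [Field K] [CharZero K] (t x : K), t ≠ 0 → t ^ 2 ≠ 1 → x ≠ 0 →
  (∃ m : ℕ, 1 ≤ m ∧ chebF (2 * t) m = 2) →
  (∀ k : ℕ, ∃ n : ℕ, 1 ≤ n ∧ ∃ u : K, u ^ 2 * (1 + t ^ (2 * k) * x) = 4 ∧ chebF u n = 2) → False

/-- **CNoTor.** The torsion-free case is impossible.
Proof (uses `S_CBasic`, `S_CRel`, `S_TF`). `S_α = act (s α)` and `act δ` and their inverses preserve `W`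
(`W_sm`, `s_sm`, `δ_c`). Let `𝓛` be the subring of `AddMonoid.End W` generated by the restrictions of
`S_α, S_α⁻¹` (`α ∈ A`), `act δ, act δ⁻¹`; it is commutative (the `S_α` commute with each other on `M`:
`S_α⁻¹ · 2 = q α`, `q α` commutes with `s β`-actions by CBasic (6) and `s_r`; `no2`).
`D_n (2 S_α⁻¹) = 2` in `𝓛` when `α^n = 1`, `n ≥ 1`: on `M`, `2 S_α⁻¹ = q α = R α + (R α)⁻¹` and
`D_n (q α) = (R α)^n + (R α)^{-n} = 2`. `D_m (2 δ) = 2` in `𝓛` for some `m ≥ 1` by `W_int` (`cheb` and `chebF`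
satisfy the same recursion). Let `ρ₀ := ρ ≠ 1` and `ρ_{k+1}` := the `ρ'` of `lemT` for `ρ_k`. CRel:
`S_{ρ_k}² - 1 = δ^(2k) (S_ρ² - 1)` in `𝓛`. `z := (δ² - 1)(S_ρ² - 1)` is injective on `W` (`δ_sq`,
CBasic (9)), `W ≠ 0` is torsion-free, so `m z^k ≠ 0` for `m ≥ 1`, `k ≥ 0`. Hence there is a prime ideal `𝔭` of
`𝓛` disjoint from the multiplicative set `{m z^k}` (`Ideal.exists_le_prime_disjoint`). `K` := field of
fractions of `𝓛/𝔭`, of characteristic `0`; `t`, `x` := images of `δ`, `S_ρ² - 1`; `t ≠ 0` (unit), `t² ≠ 1`,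
`x ≠ 0` (as `z ∉ 𝔭`). `u_k` := image of `2 S_{ρ_k}⁻¹`: `u_k² (1 + t^(2k) x) = 4`, `D_n u_k = 2`.
Contradiction to TF. -/
def S_CNoTor : Prop := ∀ C : Core, (∃ ρ : C.A, ρ ≠ 1) →
  (∀ w ∈ C.W, ∀ n : ℕ, 1 ≤ n → n • w = 0 → w = 0) → False

/-- **CoreEx.** The geometry gives a `Core`.
Proof (uses the statements of Spec2). Take a point `O`, a point `b ⊥ O`, `c := O b` (so `b, c, O` is a frame,
`O c = b`, `b c = O`), `1 ≠ σ ∈ A c`, `δ` its homology. `M := Additive (MM O)` (commutative by MBasic (i)),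
`Λ := Stb O` acting by conjugation (EConj), `L := {p : Pt τ // p ⊥ O}`, `sm k p := k.1 p` (EConj (i)),
`ty p := (τ p = τ b)`, `Mp p := {m ∈ MM O : m ∈ E O p}`, `A := A τ O` (commutative by `A_comm`),
`r α := cj α`, `j := cj b`, `s α` := the homology of `α` (HmlEx), `W := Wc O c`.
`mp_sm`: EConj (ii). `disj`: E124 (1). `no2`: `m² = 1` gives `cj O m (cj O)⁻¹ = m⁻¹ = m` (MBasic (iv)), so
`m.1 O` commutes with `O`, `m.1 O = O` by types, `m = 1` (MBasic (iii)). `r_b`, `r_c`: `ker_fix`.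
`tr_b`, `tr_c`: `conj_of_perp`; a point `⊥ O` not of type `τ b` has type `τ c`. `act_jb`:
EComm with `δ := cj b`, `p := b`. `act_jc`: the same for `cj c = cj O * cj b`; `cj O` acts as `-1`, so
`cj c m cj c⁻¹ m⁻¹ = (j m)⁻¹ m⁻¹ ∈ E O c`. `j_r`: `b` inverts `A O`. `s_sm`: HmlBasic (ii).
`s_r`, `s_j`, `δ_j`: HmlBasic (iii), (iv), (i) (`b` inverts `A O` and `A c`). `s_rel`: MRel. `s_δ`: HmlComm
(`O ⊥ c`). `δ ∈ Stb O`, `δ_b`, `δ_c`: HmlBasic (ii) (`O, b ⊥ c`). `act_δ`: EComm (`δ.2` fixes all points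
`⊥ c`). `δ_fix`: HmlFix gives `p = c` or `p ⊥ c`; a point `⊥ c`, `⊥ O` is `b` (unique). `δ_sq`: `δ² m = m δ²`
gives `δ.1 (δ.1 x) = x` for `x := m.1 O` (`δ.1 O = O`), so `x = c` (types: no) or `x ⊥ c`; `b ⊥ c` gives
`m.2 b = b`, so `x ⊥ b`; `O` and `x` are `⊥ b`, `⊥ c`: `x = O`, `m = 1`. `lemP`: LemP with `x := b`, `y := c`.
`lemT`: LemT. `W_le`, `W_ne` (WEx), `W_sm` (EConj (iii)), `W_int`: MInt (`chebG` in `MM O` is `cheb` in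
`Additive (MM O)`). The nontrivial `ρ`: `NT`. -/
def S_CoreEx : Prop := ∀ (G : Type) [Group G] (τ : G →* K4), Geo τ → ND τ → NT τ →
  ∃ C : Core, ∃ ρ : C.A, ρ ≠ 1

/-- **LF.** `Geo τ` implies that the kernel is locally finite, and so is `G` if it is periodic.
Proof (uses `S_NDRed`, `S_JIEx`, `S_CoreEx`, `S_CTor`, `S_CNoTor`). If `H ≤ ker τ` is finitely generated and
infinite, JIEx, NDRed, CoreEx give a `Core` with `ρ ≠ 1`; CTor and CNoTor contradict (the case distinction: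
some `0 ≠ w ∈ W` has finite order, or not). For a finitely generated `H ≤ G`: `H ∩ ker τ` has index `≤ 4` in
`H`, so it is finitely generated (`Subgroup.fg_of_index_ne_zero`), finite, and `H` is finite. -/
def S_LF : Prop := ∀ (G : Type) [Group G] (τ : G →* K4), Geo τ → ∀ H : Subgroup G, H.FG → Finite H

end Pool.Agent.Klein
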