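import Mathlib
import Pool.Agent.Lib.MP_3c9215_al.SpecCore

set_option autoImplicit false

/-! Number field lemma for MP_3c9215_al. -/

namespace Pool.Agent.Klein

namespace TFaux

theorem chebF_map {R S : Type} [CommRing R] [CommRing S] (f : R →+* S) (u : R) :
    ∀ n, f (chebF u n) = chebF (f u) n
  | 0 => by simp [chebF, map_ofNat]
  | 1 => by simp [chebF]
  | (k + 2) => by
    simp only [chebF, map_sub, map_mul, chebF_map f u (k + 1), chebF_map f u k]

theorem chebF_inv {R : Type} [CommRing R] (u : R) (n : ℕ) :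
    (chebF u (n + 1)) ^ 2 + (chebF u n) ^ 2 - u * chebF u n * chebF u (n + 1) = 4 - u ^ 2 := by
  induction n with
  | zero => simp only [chebF]; ring
  | succ n ih =>
    have h : chebF u (n + 1 + 1) = u * chebF u (n + 1) - chebF u n := rfl
    rw [h]
    linear_combination ih

theorem chebF_sq {R : Type} [CommRing R] (u : R) :
    ∀ n, chebF (u ^ 2 - 2) n = (chebF u n) ^ 2 - 2
  | 0 => by simp only [chebF]; ring
  | 1 => by simp only [chebF]
  | (k + 2) => by
    have h : chebF u (k + 2) = u * chebF u (k + 1) - chebF u k := rfl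
    have h' : chebF (u ^ 2 - 2) (k + 2) =
      (u ^ 2 - 2) * chebF (u ^ 2 - 2) (k + 1) - chebF (u ^ 2 - 2) k := rfl
    rw [h', h, chebF_sq u (k + 1), chebF_sq u k]
    linear_combination (-2) * chebF_inv u k

theorem chebF_zinv {K : Type} [Field K] (z : K) (hz : z ≠ 0) :
    ∀ n, chebF (z + z⁻¹) n = z ^ n + (z⁻¹) ^ n
  | 0 => by simp only [chebF, pow_zero]; norm_num
  | 1 => by simp only [chebF, pow_one]
  | (k + 2) => by
    have h' : chebF (z + z⁻¹) (k + 2) =
      (z + z⁻¹) * chebF (z + z⁻¹) (k + 1) - chebF (z + z⁻¹) k := rfl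
    rw [h', chebF_zinv z hz (k + 1), chebF_zinv z hz k]
    have hz' : z * z⁻¹ = 1 := mul_inv_cancel₀ hz
    generalize z⁻¹ = w at hz' ⊢
    linear_combination (z ^ k + w ^ k) * hz'

theorem exists_root {K : Type} [Field K] [CharZero K] [IsAlgClosed K] (w : K) (n : ℕ)
    (h : chebF w n = 2) : ∃ z : K, z ≠ 0 ∧ z ^ n = 1 ∧ w = z + z⁻¹ := by
  obtain ⟨s, hs⟩ := IsAlgClosed.exists_eq_mul_self (discrim 1 (-w) 1)
  obtain ⟨z, hz⟩ := exists_quadratic_eq_zero (one_ne_zero' K) ⟨s, hs⟩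
  have hz0 : z ≠ 0 := by
    rintro rfl
    simp at hz
  have hw : w = z + z⁻¹ := by
    field_simp
    linear_combination -hz
  refine ⟨z, hz0, ?_, hw⟩
  rw [hw, chebF_zinv z hz0] at h
  have h1 : (z ^ n) * (z⁻¹) ^ n = 1 := by rw [← mul_pow, mul_inv_cancel₀ hz0, one_pow]
  have h2 : (z ^ n - 1) ^ 2 = 0 := by
    linear_combination (z ^ n) * h - h1
  have h3 := pow_eq_zero_iff (two_ne_zero) |>.1 h2
  linear_combination h3

theorem integral_of {K : Type} [Field K] [CharZero K] (u : K) (n : ℕ) (hn : 1 ≤ n)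
    (h : chebF u n = 2) : IsIntegral ℤ u := by
  have h1 : chebF (algebraMap K (AlgebraicClosure K) u) n = 2 := by
    rw [← chebF_map, h, map_ofNat]
  obtain ⟨z, hz0, hz, hw⟩ := exists_root _ n h1
  have hi : IsIntegral ℤ z := by
    apply IsIntegral.of_pow (n := n) (by omega)
    rw [hz]; exact isIntegral_one
  have hi' : IsIntegral ℤ z⁻¹ := by
    apply IsIntegral.of_pow (n := n) (by omega)
    rw [inv_pow, hz, inv_one]; exact isIntegral_one
  have hs : IsIntegral ℤ (algebraMap K (AlgebraicClosure K) u) := by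
    rw [hw]; exact hi.add hi'
  exact (isIntegral_algebraMap_iff (algebraMap K (AlgebraicClosure K)).injective).1 hs

theorem real_of (w : ℂ) (n : ℕ) (hn : 1 ≤ n) (h : chebF w n = 2) :
    ∃ r : ℝ, w = r ∧ -2 ≤ r ∧ r ≤ 2 := by
  obtain ⟨z, hz0, hz, hw⟩ := exists_root _ n h
  have hnorm : ‖z‖ = 1 := by
    have : ‖z‖ ^ n = 1 := by rw [← norm_pow, hz, norm_one]
    exact (pow_eq_one_iff_of_nonneg (norm_nonneg z) (by omega)).1 this
  have hinv : z⁻¹ = (starRingEnd ℂ) z := by
    rw [Complex.inv_def, Complex.normSq_eq_norm_sq, hnorm]; simp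
  refine ⟨2 * z.re, ?_, ?_, ?_⟩
  · rw [hw, hinv, Complex.add_conj]
  · have := Complex.abs_re_le_norm z
    rw [hnorm] at this
    have := (abs_le.1 this).1
    linarith
  · have := Complex.abs_re_le_norm z
    rw [hnorm] at this
    have := (abs_le.1 this).2
    linarith

end TFaux

open TFaux

theorem tf : S_TF := by
  intro K _ _ t x ht0 ht1 hx0 ⟨m, hm, hcm⟩ hk
  -- algebraicity
  have ht2 : IsIntegral ℤ (2 * t) := integral_of _ m hm hcm
  have htQ : IsIntegral ℚ t := by
    have h1 : IsIntegral ℚ (2 * t) := ht2.tower_top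
    have h2 : t = algebraMap ℚ K (1 / 2) * (2 * t) := by
      simp
    rw [h2]
    exact isIntegral_algebraMap.mul h1
  have hxQ : IsIntegral ℚ x := by
    obtain ⟨n, hn, u, hu, hun⟩ := hk 0
    have hui : IsIntegral ℤ u := integral_of _ n hn hun
    have hy : IsIntegral ℚ (u ^ 2) := (hui.pow 2).tower_top
    have hu0 : u ^ 2 ≠ 0 := by
      intro h0
      rw [h0] at hu
      norm_num at hu
    have h2 : x = algebraMap ℚ K 4 * (u ^ 2)⁻¹ - 1 := by
      simp only [mul_zero, pow_zero, one_mul] at hu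
      simp only [map_ofNat]
      have h3 : u ^ 2 * (u ^ 2)⁻¹ = 1 := mul_inv_cancel₀ hu0
      linear_combination ((u ^ 2)⁻¹) * hu - (1 + x) * h3
    rw [h2]
    exact (isIntegral_algebraMap.mul hy.inv).sub isIntegral_one
  let F := IntermediateField.adjoin ℚ ({t, x} : Set K)
  have hfin : FiniteDimensional ℚ F := by
    apply IntermediateField.finiteDimensional_adjoin
    intro y hy
    rcases hy with rfl | rfl
    · exact htQ
    · exact hxQ
  let t' : F := ⟨t, IntermediateField.subset_adjoin ℚ _ (by simp)⟩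
  let x' : F := ⟨x, IntermediateField.subset_adjoin ℚ _ (by simp)⟩
  have hinj : Function.Injective (algebraMap F K) := (algebraMap F K).injective
  have htt : algebraMap F K t' = t := rfl
  have hxx : algebraMap F K x' = x := rfl
  -- the elements y k
  have hy : ∀ k : ℕ, ∃ y : F, y * (1 + t' ^ (2 * k) * x') = 4 ∧ IsIntegral ℤ y ∧
      ∃ n, 1 ≤ n ∧ chebF (y - 2) n = 2 := by
    intro k
    obtain ⟨n, hn, u, hu, hun⟩ := hk k
    have hne : (1 + t' ^ (2 * k) * x') ≠ 0 := by
      intro h0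
      have := congrArg (algebraMap F K) h0
      rw [map_add, map_mul, map_pow, map_one, map_zero, htt, hxx] at this
      rw [this] at hu
      norm_num at hu
    refine ⟨4 / (1 + t' ^ (2 * k) * x'), div_mul_cancel₀ _ hne, ?_, n, hn, ?_⟩
    all_goals
      have hyu : algebraMap F K (4 / (1 + t' ^ (2 * k) * x')) = u ^ 2 := by
        rw [map_div₀, map_add, map_mul, map_pow, map_one, map_ofNat, htt, hxx, ← hu]
        have : (1 + t ^ (2 * k) * x) ≠ 0 := by
          intro h0
          rw [h0] at hu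
          norm_num at hu
        rw [mul_div_assoc, div_self this, mul_one]
    · rw [← isIntegral_algebraMap_iff hinj, hyu]
      exact (integral_of _ n hn hun).pow 2
    · apply hinj
      rw [chebF_map, map_sub, hyu, map_ofNat, chebF_sq, hun]
      norm_num
  choose y hy1 hy2 hy3 using hy
  -- embeddings
  have hemb : ∀ φ : F →ₐ[ℚ] ℂ, ∃ s ξ : ℝ, 0 < s ^ 2 ∧ s ^ 2 < 1 ∧ 0 < ξ ∧
      ∀ k, φ (y k) = ((4 / (1 + (s ^ 2) ^ k * ξ) : ℝ) : ℂ) := by
    intro φ
    have e1 : chebF (2 * φ t') m = 2 := by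
      have : chebF (2 * t') m = 2 := by
        apply hinj
        rw [chebF_map, map_mul, map_ofNat, htt, hcm]
      have h2 := congrArg (φ : F →+* ℂ) this
      rw [chebF_map, map_mul, map_ofNat] at h2
      exact h2
    obtain ⟨r, hr, hr1, hr2⟩ := real_of _ m hm e1
    have e2 : ∀ k, ∃ q : ℝ, φ (y k) = q ∧ 0 ≤ q ∧ q ≤ 4 := by
      intro k
      obtain ⟨n, hn, hc⟩ := hy3 k
      have h2 := congrArg (φ : F →+* ℂ) hc
      rw [chebF_map, map_sub, map_ofNat] at h2
      obtain ⟨q, hq, hq1, hq2⟩ := real_of _ n hn h2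
      refine ⟨q + 2, ?_, by linarith, by linarith⟩
      push_cast
      rw [← hq]
      simp
    have hs : φ t' = ((r / 2 : ℝ) : ℂ) := by
      push_cast
      rw [← hr]; ring
    have hφinj : Function.Injective φ := φ.toRingHom.injective
    have hs1 : (r / 2) ^ 2 ≠ 1 := by
      intro h1
      apply ht1
      have h3 : φ (t' ^ 2) = φ 1 := by
        rw [map_pow, hs, map_one]
        exact_mod_cast h1
      have h4 := hφinj h3
      have h5 := congrArg (algebraMap F K) h4
      rw [map_pow, map_one, htt] at h5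
      exact h5
    have hs2 : (r / 2) ^ 2 ≤ 1 := by nlinarith
    obtain ⟨q, hq, hq1, hq2⟩ := e2 0
    have h0 := congrArg φ (hy1 0)
    rw [map_mul, map_add, map_mul, map_one, map_pow, mul_zero, pow_zero, one_mul, map_ofNat, hq] at h0
    have hq0 : (q : ℂ) ≠ 0 := by
      intro h; rw [h] at h0; norm_num at h0
    have hq0' : q ≠ 0 := by exact_mod_cast hq0
    have hqpos : 0 < q := lt_of_le_of_ne hq1 (Ne.symm hq0')
    have hξ : φ x' = ((4 / q - 1 : ℝ) : ℂ) := by
      push_cast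
      field_simp
      linear_combination h0
    have hξ0 : (4 / q - 1) ≠ 0 := by
      intro h
      apply hx0
      rw [h] at hξ
      have h3 : φ x' = φ 0 := by rw [hξ, map_zero]; simp
      have h4 := hφinj h3
      have h5 := congrArg (algebraMap F K) h4
      rw [map_zero, hxx] at h5
      exact h5
    have hξ1 : 0 ≤ 4 / q - 1 := by
      have : 1 ≤ 4 / q := by rw [le_div_iff₀ hqpos]; linarith
      linarith
    have hs3 : (r / 2) ≠ 0 := by
      intro h1
      apply ht0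
      have h3 : φ t' = φ 0 := by rw [hs, h1, map_zero]; simp
      have h4 := hφinj h3
      have h5 := congrArg (algebraMap F K) h4
      rw [map_zero, htt] at h5
      exact h5
    refine ⟨r / 2, 4 / q - 1, by positivity, lt_of_le_of_ne hs2 hs1,
      lt_of_le_of_ne hξ1 (Ne.symm hξ0), ?_⟩
    intro k
    have hk1 := congrArg φ (hy1 k)
    rw [map_mul, map_add, map_mul, map_one, map_pow, map_ofNat, hs, hξ] at hk1
    have hpos : 0 < 1 + ((r / 2) ^ 2) ^ k * (4 / q - 1) := by
      have : 0 ≤ ((r / 2) ^ 2) ^ k := pow_nonneg (sq_nonneg _) _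
      positivity
    rw [Complex.ofReal_div]
    rw [eq_div_iff (by exact_mod_cast hpos.ne')]
    rw [← pow_mul]
    push_cast at hk1 ⊢
    exact hk1
  choose s ξ hs0 hs1 hξ hφ using hemb
  -- trace
  have htr : ∀ k, ∃ T : ℤ, (T : ℝ) = ∑ φ : F →ₐ[ℚ] ℂ, 4 / (1 + (s φ ^ 2) ^ k * ξ φ) := by
    intro k
    have h1 : IsIntegral ℤ (Algebra.trace ℚ F (y k)) := Algebra.isIntegral_trace (hy2 k)
    obtain ⟨T, hT⟩ := IsIntegrallyClosed.isIntegral_iff.1 h1
    refine ⟨T, ?_⟩
    have h2 := trace_eq_sum_embeddings (K := ℚ) (L := F) ℂ (x := y k)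
    rw [← hT] at h2
    have h3 : ((T : ℝ) : ℂ) = ((∑ φ : F →ₐ[ℚ] ℂ, 4 / (1 + (s φ ^ 2) ^ k * ξ φ) : ℝ) : ℂ) := by
      rw [Complex.ofReal_sum]
      rw [Finset.sum_congr rfl (fun φ _ => hφ φ k)] at h2
      rw [← h2]
      simp
    exact_mod_cast h3
  choose T hT using htr
  have hcard : (0 : ℕ) < Fintype.card (F →ₐ[ℚ] ℂ) := by
    apply Fintype.card_pos_iff.2
    exact ⟨IsAlgClosed.lift⟩
  set d := Fintype.card (F →ₐ[ℚ] ℂ) with hd
  have hlt : ∀ k, (T k : ℝ) < 4 * d := by
    intro k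
    rw [hT]
    have hne : (Finset.univ : Finset (F →ₐ[ℚ] ℂ)).Nonempty :=
      Finset.univ_nonempty_iff.2 (Fintype.card_pos_iff.1 hcard)
    have h1 : ∑ φ : F →ₐ[ℚ] ℂ, 4 / (1 + (s φ ^ 2) ^ k * ξ φ) < ∑ φ : F →ₐ[ℚ] ℂ, (4 : ℝ) := by
      apply Finset.sum_lt_sum_of_nonempty hne
      intro φ _
      have : 0 < (s φ ^ 2) ^ k * ξ φ := mul_pos (pow_pos (hs0 φ) _) (hξ φ)
      rw [div_lt_iff₀ (by linarith)]
      linarith
    refine h1.trans_le ?_
    rw [Finset.sum_const, Finset.card_univ, nsmul_eq_mul, ← hd]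
    linarith
  have hlim : Filter.Tendsto (fun k : ℕ => ((T k : ℤ) : ℝ)) Filter.atTop (nhds (4 * d)) := by
    have h1 : Filter.Tendsto (fun k : ℕ => ∑ φ : F →ₐ[ℚ] ℂ, 4 / (1 + (s φ ^ 2) ^ k * ξ φ))
        Filter.atTop (nhds (∑ φ : F →ₐ[ℚ] ℂ, (4 : ℝ))) := by
      apply tendsto_finsetSum
      intro φ _
      have h2 : Filter.Tendsto (fun k : ℕ => (s φ ^ 2) ^ k) Filter.atTop (nhds 0) :=
        tendsto_pow_atTop_nhds_zero_of_lt_one (hs0 φ).le (hs1 φ)
      have h3 : Filter.Tendsto (fun k : ℕ => 1 + (s φ ^ 2) ^ k * ξ φ) Filter.atTop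
          (nhds (1 + 0 * ξ φ)) := (h2.mul_const _).const_add _
      have h4 := Filter.Tendsto.div (tendsto_const_nhds (x := (4 : ℝ))) h3 (by norm_num)
      have h5 : (4 : ℝ) / (1 + 0 * ξ φ) = 4 := by norm_num
      rw [h5] at h4
      exact h4
    have h2 : ∑ φ : F →ₐ[ℚ] ℂ, (4 : ℝ) = 4 * d := by
      rw [Finset.sum_const, Finset.card_univ, nsmul_eq_mul, ← hd]
      ring
    rw [h2] at h1
    exact h1.congr (fun k => (hT k).symm)
  have hev := hlim.eventually (lt_mem_nhds (show (4 * d : ℝ) - 1 < 4 * d by linarith))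
  obtain ⟨k, hk'⟩ := hev.exists
  have h1 := hlt k
  have h2 : T k < 4 * (d : ℤ) := by exact_mod_cast h1
  have h3 : (4 * (d : ℤ)) - 1 < T k := by
    have : ((4 * (d : ℤ) - 1 : ℤ) : ℝ) < (T k : ℝ) := by push_cast; exact hk'
    exact_mod_cast this
  omega

end Pool.Agent.Klein
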