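import Pool.Agent.Lib.MP_3c9215_al.Spec1

set_option autoImplicit false

namespace Pool.Agent.Klein

theorem tlink : S_TLink := by
  intro G _ τ h a b ρ ha hb hab hρ
  have hinv : a * ρ * a⁻¹ = ρ⁻¹ := A_inverted h hb ha hab.symm hρ
  have hρt : τ ρ = 1 := hρ.1
  have hab' : τ a ≠ τ b := hab.tau_ne h ha hb
  obtain ⟨a₁, ha₁⟩ : ∃ a₁, a₁ = ρ⁻¹ * a * ρ := ⟨_, rfl⟩
  have hpa₁ : IsPt τ a₁ := by
    have := ha.conj ρ⁻¹
    rwa [inv_inv, ← ha₁] at this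
  have hta₁ : τ a₁ = τ a := by rw [ha₁]; exact tau_conj' ρ a
  have hρa₁ : ρ * a₁ * ρ⁻¹ = a := by rw [ha₁]; group
  have haρ : a * ρ = ρ⁻¹ * a := by
    calc a * ρ = (a * ρ * a⁻¹) * a := by group
      _ = ρ⁻¹ * a := by rw [hinv]
  have hsq : ρ * ρ = a * a₁ := by
    rw [ha₁, ← haρ]
    calc ρ * ρ = (a * a) * ρ * ρ := by rw [ha.1, one_mul]
      _ = a * (a * ρ * ρ) := by group
  simp only [← ha₁]
  refine ⟨fun v hv hva hvb => ?_, fun u hu hua hub => ?_⟩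
  · have htva : τ v ≠ τ a := hva.tau_ne h hv ha
    have hne : τ a₁ ≠ τ v := by rw [hta₁]; exact htva.symm
    obtain ⟨w₁, hw₁⟩ : ∃ w₁, w₁ = D (a₁ * v) := ⟨_, rfl⟩
    have hpw : IsPt τ w₁ := by rw [hw₁]; exact wedge_isPt h hpa₁ hv hne
    have hwa : Perp w₁ a₁ := by rw [hw₁]; exact wedge_perp_left h hpa₁ hv hne
    have hwv : Perp w₁ v := by rw [hw₁]; exact wedge_perp_right h hpa₁ hv hne
    have htw : τ w₁ = τ a * τ v := by rw [hw₁, wedge_tau h, hta₁]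
    have hpv₁ : IsPt τ (a₁ * w₁) := hwa.symm.mul_isPt h hpa₁ hpw
    have hperp : Perp a₁ (a₁ * w₁) := hwa.symm.mul_right h hpa₁ hpw
    have htv₁ : τ (a₁ * w₁) = τ v := by
      rw [map_mul, hta₁, htw, ← mul_assoc, k4_sq, one_mul]
    have haw : τ a ≠ τ w₁ := by
      rw [htw]
      exact (k4_mul _ _ ha.2 hv.2 htva.symm).2.1.symm
    have hpu : Perp (ρ * (a₁ * w₁) * ρ⁻¹) a := by
      have := hperp.symm.conj ρ
      rwa [hρa₁] at this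
    have hv' : v = D (a * w₁) := wedge_unique h ha hpw hv haw hva hwv.symm
    have hfin : ρ * (ρ * (a₁ * w₁) * ρ⁻¹) * ρ = a * w₁ := by
      calc ρ * (ρ * (a₁ * w₁) * ρ⁻¹) * ρ = (ρ * ρ) * a₁ * w₁ := by group
        _ = a * (a₁ * a₁) * w₁ := by rw [hsq]; group
        _ = a * w₁ := by rw [hpa₁.1, mul_one]
    rw [← hw₁]
    refine ⟨hpv₁.conj ρ, hpu, by rw [tau_conj, htv₁], ?_⟩
    rw [hfin, ← hv']
  · have htua : τ u ≠ τ a := hua.tau_ne h hu ha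
    have htg : τ (ρ * u * ρ) = τ u := by rw [map_mul, map_mul, hρt, one_mul, mul_one]
    obtain ⟨v, hv⟩ : ∃ v, v = D (ρ * u * ρ) := ⟨_, rfl⟩
    have hpv : IsPt τ v := by
      rw [hv]; exact D_isPt h (by rw [htg]; exact hu.2)
    have htv : τ v = τ u := by rw [hv, D_tau h, htg]
    have hau : a * u * a⁻¹ = u := by rw [← hua.1]; group
    have hinvg : a * (ρ * u * ρ) * a⁻¹ = (ρ * u * ρ)⁻¹ := by
      calc a * (ρ * u * ρ) * a⁻¹ = (a * ρ * a⁻¹) * (a * u * a⁻¹) * (a * ρ * a⁻¹) := by group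
        _ = ρ⁻¹ * u * ρ⁻¹ := by rw [hinv, hau]
        _ = ρ⁻¹ * u⁻¹ * ρ⁻¹ := by rw [hu.inv_eq]
        _ = (ρ * u * ρ)⁻¹ := by group
    have hav : a * v = v * a := by rw [hv]; exact D_comm_of_inverts hinvg
    have hva : Perp v a := perp_of_comm_of_tau_ne (τ := τ) hav.symm (by rw [htv]; exact htua)
    -- the auxiliary points
    obtain ⟨v₁, hv₁⟩ : ∃ v₁, v₁ = ρ⁻¹ * u * ρ := ⟨_, rfl⟩
    have hpv₁ : IsPt τ v₁ := by
      have := hu.conj ρ⁻¹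
      rwa [inv_inv, ← hv₁] at this
    have htv₁ : τ v₁ = τ u := by rw [hv₁]; exact tau_conj' ρ u
    have hperp : Perp v₁ a₁ := by
      have := hua.conj ρ⁻¹
      rwa [inv_inv, ← hv₁, ← ha₁] at this
    have hpw : IsPt τ (a₁ * v₁) := hperp.symm.mul_isPt h hpa₁ hpv₁
    have hwa : Perp a₁ (a₁ * v₁) := hperp.symm.mul_right h hpa₁ hpv₁
    have htw : τ (a₁ * v₁) = τ a * τ u := by rw [map_mul, hta₁, htv₁]
    have haw : τ a ≠ τ (a₁ * v₁) := by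
      rw [htw]
      exact (k4_mul _ _ ha.2 hu.2 htua.symm).2.1.symm
    have hfin : ρ * u * ρ = a * (a₁ * v₁) := by
      calc ρ * u * ρ = (ρ * ρ) * (ρ⁻¹ * u * ρ) := by group
        _ = a * a₁ * v₁ := by rw [hsq, ← hv₁]
        _ = a * (a₁ * v₁) := by group
    have hvw : Perp v (a₁ * v₁) := by
      rw [hv, hfin]
      exact wedge_perp_right h ha hpw haw
    have hne : τ a₁ ≠ τ v := by rw [hta₁, htv]; exact htua.symm
    have hw : a₁ * v₁ = D (a₁ * v) := wedge_unique h hpa₁ hpv hpw hne hwa.symm hvw.symm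
    rw [← hv]
    refine ⟨hpv, hva, htv, ?_⟩
    rw [← hw]
    calc ρ * (a₁ * (a₁ * v₁)) * ρ⁻¹ = ρ * ((a₁ * a₁) * v₁) * ρ⁻¹ := by group
      _ = ρ * v₁ * ρ⁻¹ := by rw [hpa₁.1, one_mul]
      _ = u := by rw [hv₁]; group

end Pool.Agent.Klein
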