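import Pool.Agent.Lib.MP_3c9215_al.Spec1

set_option autoImplicit false

/-!
# MP_3c9215_al: multiplicativity of `T` on products of two factors
-/

namespace Pool.Agent.Klein

theorem tmul (h1 : S_TBase) : S_TMul := by
  intro G _ τ h a b α β γ ha hb hp hα hβ hγ
  have hc : IsPt τ (a * b) := hp.mul_isPt h ha hb
  have hac : Perp a (a * b) := hp.mul_right h ha hb
  -- first application
  obtain ⟨⟨ε, hε, he1, -⟩, -⟩ := h1 G τ h a b α β ha hb hp hα hβ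
  have hα₁ : T a β α ∈ A τ a := by
    apply comp_mem h ha
    rw [map_mul, map_mul, map_inv, hβ.1, hα.1]
    simp
  obtain ⟨α₁, hα₁def⟩ : ∃ α₁, α₁ = T a β α := ⟨_, rfl⟩
  rw [← hα₁def] at hε he1 hα₁
  -- second application
  obtain ⟨⟨ε₂, hε₂, he2, hae2⟩, -⟩ := h1 G τ h a (a * b) α₁ γ ha hc hac hα₁ hγ
  have hα₂ : T a γ α₁ ∈ A τ a := by
    apply comp_mem h ha
    rw [map_mul, map_mul, map_inv, hγ.1, hα₁.1]
    simp
  rw [← hα₁def]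
  obtain ⟨α₂, hα₂def⟩ : ∃ α₂, α₂ = T a γ α₁ := ⟨_, rfl⟩
  rw [← hα₂def] at hε₂ he2 hα₂ ⊢
  have hab : a * (a * b) = b := by rw [← mul_assoc, ha.1, one_mul]
  rw [hab] at hε₂
  -- the frame `a`, `b₂`, `c₂`
  have hb₂ : IsPt τ (b * α₂) := mul_A_isPt h ha hb hp hα₂
  have hpb₂ : Perp a (b * α₂) := mul_A_perp h ha hb hp hα₂
  have hc₂ : IsPt τ (a * (b * α₂)) := hpb₂.mul_isPt h ha hb₂
  have hpc₂ : Perp (b * α₂) (a * (b * α₂)) := hpb₂.mul_right' h ha hb₂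
  -- the point `k = c₂ ε₂` and the point `p = a ε₂`
  have hk : IsPt τ (a * (b * α₂) * ε₂) := mul_A_isPt h hb₂ hc₂ hpc₂ hε₂
  have hpt : IsPt τ (a * ε₂) := mul_A_isPt h hb₂ ha hpb₂.symm hε₂
  have hinv : ε₂ * (a * (b * α₂)) = a * (b * α₂) * ε₂⁻¹ := A_mul_pt h hb₂ hc₂ hpc₂ hε₂
  have hpk : a * ε₂ * (a * (b * α₂) * ε₂) = b * α₂ := by
    calc a * ε₂ * (a * (b * α₂) * ε₂) = a * (ε₂ * (a * (b * α₂))) * ε₂ := by group
      _ = a * (a * (b * α₂) * ε₂⁻¹) * ε₂ := by rw [hinv]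
      _ = (a * a) * (b * α₂) := by group
      _ = b * α₂ := by rw [ha.1, one_mul]
  have hkp : a * (b * α₂) * ε₂ * (a * ε₂) = b * α₂ := by
    have h2 : (a * ε₂ * (a * (b * α₂) * ε₂))⁻¹ = a * (b * α₂) * ε₂ * (a * ε₂) := by
      rw [mul_inv_rev, hk.inv_eq, hpt.inv_eq]
    rw [← h2, hpk, hb₂.inv_eq]
  have hperp : Perp (a * (b * α₂) * ε₂) (a * ε₂) := by
    apply perp_of_comm_of_tau_ne (τ := τ)
    · rw [hkp, hpk]
    · have e1 : τ (a * (b * α₂) * ε₂) = τ a * τ b := by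
        rw [map_mul, map_mul, map_mul, hε₂.1, hα₂.1, mul_one, mul_one]
      have e2 : τ (a * ε₂) = τ a := by rw [map_mul, hε₂.1, mul_one]
      rw [e1, e2]
      exact (k4_mul _ _ ha.2 hb.2 (hp.tau_ne h ha hb)).2.1
  -- `κ`
  have hκ : γ⁻¹ * ε * γ ∈ A τ (a * (b * α₂) * ε₂) := by
    have h2 := A_conj hε γ⁻¹
    rw [inv_inv] at h2
    have h3 : γ⁻¹ * (a * b * α₁) * γ = a * (b * α₂) * ε₂ := by
      have h4 : γ⁻¹ * (a * b) = (a * b) * γ⁻¹ := by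
        have := ((A τ (a * b)).inv_mem hγ).2
        exact this
      calc γ⁻¹ * (a * b * α₁) * γ = (γ⁻¹ * (a * b)) * α₁ * γ := by group
        _ = (a * b) * (γ⁻¹ * α₁ * γ) := by rw [h4]; group
        _ = (a * b) * (α₂ * ε₂) := by rw [he2]
        _ = a * (b * α₂) * ε₂ := by group
    rwa [h3] at h2
  have hinvκ := A_inverted h hk hpt hperp hκ
  -- conclusion
  have hfin : a * (ε₂ * (γ⁻¹ * ε * γ)) * a⁻¹ = (ε₂ * (γ⁻¹ * ε * γ))⁻¹ := by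
    calc a * (ε₂ * (γ⁻¹ * ε * γ)) * a⁻¹
        = (a * ε₂ * (γ⁻¹ * ε * γ) * (a * ε₂)⁻¹) * (a * ε₂ * a⁻¹) := by group
      _ = (γ⁻¹ * ε * γ)⁻¹ * ε₂⁻¹ := by rw [hinvκ, hae2]
      _ = (ε₂ * (γ⁻¹ * ε * γ))⁻¹ := (mul_inv_rev _ _).symm
  have hτ : τ (ε₂ * (γ⁻¹ * ε * γ)) = 1 := by rw [map_mul, hε₂.1, hκ.1, one_mul]
  have e : (β * γ)⁻¹ * α * (β * γ) = α₂ * (ε₂ * (γ⁻¹ * ε * γ)) := by
    calc (β * γ)⁻¹ * α * (β * γ) = γ⁻¹ * (β⁻¹ * α * β) * γ := by group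
      _ = γ⁻¹ * (α₁ * ε) * γ := by rw [he1]
      _ = (γ⁻¹ * α₁ * γ) * (γ⁻¹ * ε * γ) := by group
      _ = (α₂ * ε₂) * (γ⁻¹ * ε * γ) := by rw [he2]
      _ = α₂ * (ε₂ * (γ⁻¹ * ε * γ)) := by rw [mul_assoc]
  show comp a ((β * γ)⁻¹ * α * (β * γ)) = α₂
  rw [e]
  exact comp_unique h ha hα₂ hτ hfin

end Pool.Agent.Klein
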