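import Pool.Agent.Lib.MP_3c9215_al.Defs

set_option autoImplicit false

/-!
# MP_3c9215_al: basic facts on points, perpendicularity, `D`, `A x` and components
-/

namespace Pool.Agent.Klein

/-! ### the type group -/

local instance : DecidableEq K4 := inferInstanceAs (DecidableEq (ZMod 2 × ZMod 2))

lemma k4_sq (s : K4) : s * s = 1 := by
  revert s; decide

lemma k4_inv (s : K4) : s⁻¹ = s := by
  revert s; decide

lemma k4_third : ∀ s t u : K4, s ≠ 1 → t ≠ 1 → u ≠ 1 → s ≠ t → u ≠ s → u ≠ t → u = s * t := by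
  decide

lemma k4_mul : ∀ s t : K4, s ≠ 1 → t ≠ 1 → s ≠ t → s * t ≠ 1 ∧ s * t ≠ s ∧ s * t ≠ t := by
  decide

lemma k4_cases : ∀ s t u : K4, s ≠ 1 → t ≠ 1 → s ≠ t → u ≠ 1 → u = s ∨ u = t ∨ u = s * t := by
  decide

lemma k4_pow_odd (s : K4) (k : ℕ) (hk : Odd k) : s ^ k = s := by
  obtain ⟨m, rfl⟩ := hk
  have h2 : s ^ 2 = 1 := by rw [pow_two, k4_sq]
  rw [pow_succ, pow_mul, h2, one_pow, one_mul]

lemma k4_eq_of_mul_eq_one {s t : K4} (h : s * t = 1) : s = t := by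
  revert s t; decide

section
variable {G : Type} [Group G] {τ : G →* K4}

/-! ### elements of the kernel -/

lemma ker_orderOf_odd (h : Geo τ) {n : G} (hn : τ n = 1) : Odd (orderOf n) := by
  obtain ⟨k, hk, hk2⟩ := h.odd n hn
  have := orderOf_dvd_of_pow_eq_one hk2
  exact Odd.of_dvd_nat hk this

lemma ker_eq_one_of_sq (h : Geo τ) {n : G} (hn : τ n = 1) (h2 : n * n = 1) : n = 1 := by
  obtain ⟨k, ⟨m, rfl⟩, hk2⟩ := h.odd n hn
  rw [pow_succ, pow_mul, pow_two, h2, one_pow, one_mul] at hk2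
  exact hk2

lemma sqr_tau {n : G} (hn : τ n = 1) : τ (sqr n) = 1 := by
  simp [sqr, hn]

lemma sqr_sq (h : Geo τ) {n : G} (hn : τ n = 1) : sqr n * sqr n = n := by
  obtain ⟨m, hm⟩ := ker_orderOf_odd h hn
  have e : (orderOf n + 1) / 2 = m + 1 := by omega
  rw [sqr, e, ← pow_add]
  have : m + 1 + (m + 1) = orderOf n + 1 := by omega
  rw [this, pow_succ, pow_orderOf_eq_one, one_mul]

lemma sqr_comm {n g : G} (hg : n * g = g * n) : sqr n * g = g * sqr n := by
  have : Commute n g := hg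
  exact (this.pow_left _)

lemma sqr_conj (x n : G) : x * sqr n * x⁻¹ = sqr (x * n * x⁻¹) := by
  have e : orderOf (x * n * x⁻¹) = orderOf n := by
    have := orderOf_injective (MulAut.conj x).toMonoidHom (MulAut.conj x).injective n
    simpa [MulAut.conj_apply] using this
  rw [sqr, sqr, e, conj_pow]

lemma sqr_inv (n : G) : sqr n⁻¹ = (sqr n)⁻¹ := by
  rw [sqr, sqr, orderOf_inv, inv_pow]

lemma sqr_inverted {x n : G} (hx : x * n * x⁻¹ = n⁻¹) : x * sqr n * x⁻¹ = (sqr n)⁻¹ := by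
  rw [sqr_conj, hx, sqr_inv]

lemma sqr_self (h : Geo τ) {u : G} (hu : τ u = 1) : sqr (u * u) = u := by
  obtain ⟨m, hm⟩ := ker_orderOf_odd h hu
  have hodd : Odd (orderOf u) := ⟨m, hm⟩
  have e1 : orderOf (u * u) = orderOf u := by
    rw [← pow_two]
    exact (Nat.coprime_two_right.mpr hodd).orderOf_pow
  rw [sqr, e1, ← pow_two, ← pow_mul]
  have : 2 * ((orderOf u + 1) / 2) = orderOf u + 1 := by omega
  rw [this, pow_succ, pow_orderOf_eq_one, one_mul]

lemma ker_sq_inj (h : Geo τ) {u v : G} (hu : τ u = 1) (hv : τ v = 1) (e : u * u = v * v) : u = v := by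
  rw [← sqr_self h hu, e, sqr_self h hv]

/-! ### `D` -/

lemma tau_sq (g : G) : τ (g * g) = 1 := by rw [map_mul, k4_sq]

lemma D_sq (g : G) : D g * D g = 1 := by
  rw [D, ← pow_add, ← two_mul, pow_mul, pow_two, pow_orderOf_eq_one]

lemma D_tau (h : Geo τ) (g : G) : τ (D g) = τ g := by
  rw [D, map_pow, k4_pow_odd _ _ (ker_orderOf_odd h (tau_sq g))]

lemma D_comm (g : G) : D g * g = g * D g := by
  rw [D, ← pow_succ, ← pow_succ']

lemma D_comm_of_comm {g k : G} (hk : k * g = g * k) : k * D g = D g * k := by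
  have : Commute k g := hk
  exact (this.pow_right _)

lemma D_isPt (h : Geo τ) {g : G} (hg : τ g ≠ 1) : IsPt τ (D g) :=
  ⟨D_sq g, by rw [D_tau h]; exact hg⟩

lemma D_conj (x g : G) : x * D g * x⁻¹ = D (x * g * x⁻¹) := by
  have e : orderOf (x * g * x⁻¹ * (x * g * x⁻¹)) = orderOf (g * g) := by
    have := orderOf_injective (MulAut.conj x).toMonoidHom (MulAut.conj x).injective (g * g)
    simpa [MulAut.conj_apply, mul_assoc] using this
  rw [D, D, e, conj_pow]

lemma D_inv (g : G) : D g⁻¹ = D g := by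
  have e : orderOf (g⁻¹ * g⁻¹) = orderOf (g * g) := by
    rw [← mul_inv_rev, orderOf_inv]
  have h2 := D_sq g
  rw [D, e, inv_pow]
  rw [D] at h2
  exact inv_eq_of_mul_eq_one_left h2

/-- `k` commutes with `D g` as soon as it inverts `g` -/
lemma D_comm_of_inverts {g k : G} (hk : k * g * k⁻¹ = g⁻¹) : k * D g = D g * k := by
  have : k * D g * k⁻¹ = D g := by rw [D_conj, hk, D_inv]
  calc k * D g = (k * D g * k⁻¹) * k := by group
    _ = D g * k := by rw [this]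

/-- uniqueness: an involution of the type of `g` commuting with `g` is `D g` -/
lemma D_unique (h : Geo τ) {g z : G} (hz : z * z = 1) (hzg : z * g = g * z) (ht : τ z = τ g) :
    z = D g := by
  have h1 : z * D g = D g * z := D_comm_of_comm hzg
  have h2 : τ (z * D g) = 1 := by rw [map_mul, D_tau h, ht, k4_sq]
  have h3 : (z * D g) * (z * D g) = 1 := by
    calc (z * D g) * (z * D g) = z * (D g * z) * D g := by group
      _ = z * (z * D g) * D g := by rw [h1]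
      _ = (z * z) * (D g * D g) := by group
      _ = 1 := by rw [hz, D_sq, one_mul]
  have h4 := ker_eq_one_of_sq h h2 h3
  have h5 := D_sq g
  calc z = z * (D g * D g) := by rw [h5, mul_one]
    _ = (z * D g) * D g := by group
    _ = D g := by rw [h4, one_mul]

/-- if `g = z * n` with `z` a point, `n` in the kernel commuting with `z`, then `D g = z` -/
lemma D_eq (h : Geo τ) {z n : G} (hz : z * z = 1) (hn : τ n = 1) (hc : n * z = z * n) :
    D (z * n) = z := by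
  symm
  apply D_unique h hz
  · rw [mul_assoc, hc]
  · rw [map_mul, hn, mul_one]

lemma D_self (h : Geo τ) {x : G} (hx : x * x = 1) : D x = x := by
  have := D_eq (τ := τ) h (z := x) (n := 1) hx (by simp) (by simp)
  simpa using this

/-- the remaining factor `D g * g` lies in the kernel and commutes with `D g` -/
lemma D_rest (h : Geo τ) {g : G} (hg : τ g ≠ 1) : D g * g ∈ A τ (D g) := by
  refine ⟨by rw [map_mul, D_tau h, k4_sq], ?_⟩
  rw [mul_assoc, ← D_comm g]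

/-- every `g` outside the kernel is `D g * ε` with `ε ∈ A (D g)` -/
lemma D_factor (h : Geo τ) {g : G} (hg : τ g ≠ 1) : ∃ ε ∈ A τ (D g), g = D g * ε :=
  ⟨D g * g, D_rest h hg, by rw [← mul_assoc, D_sq, one_mul]⟩

/-! ### points and perpendicularity -/

lemma IsPt.inv_eq {x : G} (hx : IsPt τ x) : x⁻¹ = x := inv_eq_of_mul_eq_one_left hx.1

lemma IsPt.conj {x : G} (hx : IsPt τ x) (g : G) : IsPt τ (g * x * g⁻¹) := by
  refine ⟨?_, ?_⟩
  · calc g * x * g⁻¹ * (g * x * g⁻¹) = g * (x * x) * g⁻¹ := by group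
      _ = 1 := by rw [hx.1]; group
  · rw [map_mul, map_mul, map_inv, mul_comm (τ g), mul_inv_cancel_right]
    exact hx.2

lemma tau_conj (g x : G) : τ (g * x * g⁻¹) = τ x := by
  rw [map_mul, map_mul, map_inv, mul_comm (τ g), mul_inv_cancel_right]

lemma tau_conj' (g x : G) : τ (g⁻¹ * x * g) = τ x := by
  have := tau_conj (τ := τ) g⁻¹ x
  simpa using this

lemma Perp.symm {x y : G} (h : Perp x y) : Perp y x := ⟨h.1.symm, h.2.symm⟩

lemma Perp.conj {x y : G} (h : Perp x y) (g : G) : Perp (g * x * g⁻¹) (g * y * g⁻¹) := by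
  refine ⟨?_, ?_⟩
  · calc g * x * g⁻¹ * (g * y * g⁻¹) = g * (x * y) * g⁻¹ := by group
      _ = g * (y * x) * g⁻¹ := by rw [h.1]
      _ = g * y * g⁻¹ * (g * x * g⁻¹) := by group
  · intro e
    apply h.2
    have : g⁻¹ * (g * x * g⁻¹) * g = g⁻¹ * (g * y * g⁻¹) * g := by rw [e]
    simpa [mul_assoc] using this

lemma Perp.tau_ne (h : Geo τ) {x y : G} (hx : IsPt τ x) (hy : IsPt τ y) (hp : Perp x y) :
    τ x ≠ τ y := by
  intro e
  apply hp.2
  have h1 : τ (x * y) = 1 := by rw [map_mul, e, k4_sq]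
  have h2 : (x * y) * (x * y) = 1 := by
    calc (x * y) * (x * y) = x * (y * x) * y := by group
      _ = x * (x * y) * y := by rw [hp.1]
      _ = (x * x) * (y * y) := by group
      _ = 1 := by rw [hx.1, hy.1, one_mul]
  have h3 := ker_eq_one_of_sq h h1 h2
  calc x = x * (y * y) := by rw [hy.1, mul_one]
    _ = (x * y) * y := by group
    _ = y := by rw [h3, one_mul]

lemma perp_of_comm_of_tau_ne {x y : G} (hc : x * y = y * x) (ht : τ x ≠ τ y) : Perp x y :=
  ⟨hc, fun e => ht (by rw [e])⟩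

/-- the third point `x * y` of a frame -/
lemma Perp.mul_isPt (h : Geo τ) {x y : G} (hx : IsPt τ x) (hy : IsPt τ y) (hp : Perp x y) :
    IsPt τ (x * y) := by
  refine ⟨?_, ?_⟩
  · calc (x * y) * (x * y) = x * (y * x) * y := by group
      _ = x * (x * y) * y := by rw [hp.1]
      _ = (x * x) * (y * y) := by group
      _ = 1 := by rw [hx.1, hy.1, one_mul]
  · rw [map_mul]
    exact (k4_mul _ _ hx.2 hy.2 (hp.tau_ne h hx hy)).1

lemma Perp.mul_right (h : Geo τ) {x y : G} (hx : IsPt τ x) (hy : IsPt τ y) (hp : Perp x y) :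
    Perp x (x * y) := by
  refine ⟨by rw [mul_assoc, hp.1], ?_⟩
  intro e
  have : y = 1 := by
    have := congrArg (fun z => x⁻¹ * z) e
    simpa using this.symm
  exact hy.2 (by rw [this]; simp)

lemma Perp.mul_right' (h : Geo τ) {x y : G} (hx : IsPt τ x) (hy : IsPt τ y) (hp : Perp x y) :
    Perp y (x * y) := by
  have := hp.symm.mul_right h hy hx
  rwa [← hp.1] at this

/-- the common perpendicular of two points of different types -/
lemma wedge_isPt (h : Geo τ) {x y : G} (hx : IsPt τ x) (hy : IsPt τ y) (ht : τ x ≠ τ y) :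
    IsPt τ (D (x * y)) := by
  apply D_isPt h
  rw [map_mul]
  exact (k4_mul _ _ hx.2 hy.2 ht).1

lemma wedge_tau (h : Geo τ) (x y : G) : τ (D (x * y)) = τ x * τ y := by
  rw [D_tau h, map_mul]

lemma wedge_perp_left (h : Geo τ) {x y : G} (hx : IsPt τ x) (hy : IsPt τ y) (ht : τ x ≠ τ y) :
    Perp (D (x * y)) x := by
  have h1 : x * (x * y) * x⁻¹ = (x * y)⁻¹ := by
    rw [mul_inv_rev, hx.inv_eq, hy.inv_eq, ← mul_assoc, hx.1, one_mul]
  have h2 := D_comm_of_inverts h1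
  apply perp_of_comm_of_tau_ne (τ := τ) h2.symm
  rw [wedge_tau h]
  exact (k4_mul _ _ hx.2 hy.2 ht).2.1

lemma wedge_perp_right (h : Geo τ) {x y : G} (hx : IsPt τ x) (hy : IsPt τ y) (ht : τ x ≠ τ y) :
    Perp (D (x * y)) y := by
  have h1 : y * (x * y) * y⁻¹ = (x * y)⁻¹ := by
    rw [mul_inv_rev, hx.inv_eq, hy.inv_eq]
    simp only [mul_assoc]
    rw [hy.1, mul_one]
  have h2 := D_comm_of_inverts h1
  apply perp_of_comm_of_tau_ne (τ := τ) h2.symm
  rw [wedge_tau h]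
  exact (k4_mul _ _ hx.2 hy.2 ht).2.2

lemma wedge_unique (h : Geo τ) {x y z : G} (hx : IsPt τ x) (hy : IsPt τ y) (hz : IsPt τ z)
    (ht : τ x ≠ τ y) (h1 : Perp z x) (h2 : Perp z y) : z = D (x * y) := by
  have h3 := h1.tau_ne h hz hx
  have h4 := h2.tau_ne h hz hy
  apply D_unique h hz.1
  · rw [← mul_assoc, h1.1, mul_assoc, h2.1, mul_assoc]
  · rw [map_mul]
    exact k4_third _ _ _ hx.2 hy.2 hz.2 ht h3 h4

/-! ### the groups `A x` -/

lemma mem_A {x n : G} : n ∈ A τ x ↔ τ n = 1 ∧ n * x = x * n := Iff.rfl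

lemma A_conj {x n : G} (hn : n ∈ A τ x) (g : G) : g * n * g⁻¹ ∈ A τ (g * x * g⁻¹) := by
  refine ⟨by rw [tau_conj]; exact hn.1, ?_⟩
  calc g * n * g⁻¹ * (g * x * g⁻¹) = g * (n * x) * g⁻¹ := by group
    _ = g * (x * n) * g⁻¹ := by rw [hn.2]
    _ = g * x * g⁻¹ * (g * n * g⁻¹) := by group

/-- two commuting points with trivial ... : the kernel elements commuting with two perpendicular points -/
lemma ker_fix (h : Geo τ) {x y n : G} (hx : IsPt τ x) (hy : IsPt τ y) (hp : Perp x y)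
    (hn : n ∈ A τ x) (hny : n * y = y * n) : n = 1 :=
  h.fix x y n hx.1 hy.1 hp.1 hx.2 hy.2 (hp.tau_ne h hx hy) hn.1 hn.2 hny

/-- a point perpendicular to `x` inverts `A x` -/
lemma A_inverted (h : Geo τ) {x y n : G} (hx : IsPt τ x) (hy : IsPt τ y) (hp : Perp x y)
    (hn : n ∈ A τ x) : y * n * y⁻¹ = n⁻¹ := by
  -- n * y is `D (n*y)`
  have ht : τ (n * y) = τ y := by rw [map_mul, hn.1, one_mul]
  have hty : τ (n * y) ≠ 1 := by rw [ht]; exact hy.2
  set z := D (n * y) with hzdef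
  have hz : IsPt τ z := D_isPt h hty
  have hzt : τ z = τ y := by rw [hzdef, D_tau h, ht]
  have hxg : x * (n * y) = (n * y) * x := by
    rw [← mul_assoc, ← hn.2, mul_assoc, hp.1, mul_assoc]
  have hxz : x * z = z * x := D_comm_of_comm hxg
  have hpz : Perp x z := by
    refine ⟨hxz, fun e => ?_⟩
    apply hp.tau_ne h hx hy
    rw [e, hzt]
  -- the kernel part commutes with x and z
  have hrest : z * (n * y) = 1 := by
    have h1 : z * (n * y) ∈ A τ z := by rw [hzdef]; exact D_rest h hty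
    apply h.fix x z _ hx.1 hz.1 hpz.1 hx.2 hz.2 (hpz.tau_ne h hx hz) h1.1
    · rw [mul_assoc, ← hxg, ← mul_assoc, ← hxz, mul_assoc]
    · exact h1.2
  have hny : n * y = z := by
    have := congrArg (fun w => z * w) hrest
    simpa [← mul_assoc, hz.1] using this
  have h2 : (n * y) * (n * y) = 1 := by rw [hny]; exact hz.1
  rw [hy.inv_eq]
  calc y * n * y = n⁻¹ * ((n * y) * (n * y)) := by group
    _ = n⁻¹ := by rw [h2, mul_one]

lemma A_inverted' (h : Geo τ) {x y n : G} (hx : IsPt τ x) (hy : IsPt τ y) (hp : Perp x y)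
    (hn : n ∈ A τ x) : y * n * y = n⁻¹ := by
  have := A_inverted h hx hy hp hn
  rwa [hy.inv_eq] at this

/-- `n * y = y * n⁻¹` -/
lemma A_mul_pt (h : Geo τ) {x y n : G} (hx : IsPt τ x) (hy : IsPt τ y) (hp : Perp x y)
    (hn : n ∈ A τ x) : n * y = y * n⁻¹ := by
  have := A_inverted h hx hy hp hn
  have h2 : y * n⁻¹ * y⁻¹ = n := by
    have := congrArg (fun w => w⁻¹) this
    simpa [mul_assoc] using this
  calc n * y = (y * n⁻¹ * y⁻¹) * y := by rw [h2]
    _ = y * n⁻¹ := by group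

lemma pt_mul_A (h : Geo τ) {x y n : G} (hx : IsPt τ x) (hy : IsPt τ y) (hp : Perp x y)
    (hn : n ∈ A τ x) : y * n = n⁻¹ * y := by
  have := A_mul_pt h hx hy hp ((A τ x).inv_mem hn)
  rw [inv_inv] at this
  exact this.symm

/-- `y * n` is a point perpendicular to `x` of the type of `y` -/
lemma mul_A_isPt (h : Geo τ) {x y n : G} (hx : IsPt τ x) (hy : IsPt τ y) (hp : Perp x y)
    (hn : n ∈ A τ x) : IsPt τ (y * n) := by
  refine ⟨?_, ?_⟩
  · have := A_inverted' h hx hy hp hn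
    calc (y * n) * (y * n) = (y * n * y) * n := by group
      _ = 1 := by rw [this]; group
  · rw [map_mul, hn.1, mul_one]; exact hy.2

lemma mul_A_perp (h : Geo τ) {x y n : G} (hx : IsPt τ x) (hy : IsPt τ y) (hp : Perp x y)
    (hn : n ∈ A τ x) : Perp x (y * n) := by
  apply perp_of_comm_of_tau_ne (τ := τ)
  · rw [← mul_assoc, hp.1, mul_assoc, ← hn.2, mul_assoc]
  · rw [map_mul, hn.1, mul_one]; exact hp.tau_ne h hx hy

lemma A_mul_isPt (h : Geo τ) {x y n : G} (hx : IsPt τ x) (hy : IsPt τ y) (hp : Perp x y)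
    (hn : n ∈ A τ x) : IsPt τ (n * y) := by
  rw [A_mul_pt h hx hy hp hn]
  exact mul_A_isPt h hx hy hp ((A τ x).inv_mem hn)

lemma A_mul_perp (h : Geo τ) {x y n : G} (hx : IsPt τ x) (hy : IsPt τ y) (hp : Perp x y)
    (hn : n ∈ A τ x) : Perp x (n * y) := by
  rw [A_mul_pt h hx hy hp hn]
  exact mul_A_perp h hx hy hp ((A τ x).inv_mem hn)

/-- two points of the same type perpendicular to `x` differ by an element of `A x` -/
lemma perp_mul_mem_A {x y z : G} (hp : Perp x y) (hq : Perp x z) (ht : τ y = τ z) :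
    y * z ∈ A τ x := by
  refine ⟨by rw [map_mul, ht, k4_sq], ?_⟩
  rw [mul_assoc, ← hq.1, ← mul_assoc, ← hp.1, mul_assoc]

lemma perp_eq_mul {y z : G} (hy : y * y = 1) : z = y * (y * z) := by
  rw [← mul_assoc, hy, one_mul]

/-! ### conjugacy of points and frames -/

/-- two points of the same type are conjugate under the kernel -/
lemma conj_of_tau_eq (h : Geo τ) {x y : G} (hx : IsPt τ x) (hy : IsPt τ y) (ht : τ x = τ y) :
    ∃ n, τ n = 1 ∧ n * x * n⁻¹ = y := by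
  have ht' : τ (y * x) = 1 := by rw [map_mul, ht, k4_sq]
  refine ⟨sqr (y * x), sqr_tau ht', ?_⟩
  have h1 : x * (y * x) * x⁻¹ = (y * x)⁻¹ := by
    rw [mul_inv_rev, hx.inv_eq, hy.inv_eq]
    simp only [mul_assoc]
    rw [hx.1, mul_one]
  have h2 := sqr_inverted h1
  have h3 := sqr_sq h ht'
  have h4 : x * (sqr (y * x))⁻¹ * x⁻¹ = sqr (y * x) := by
    have := congrArg (fun w => w⁻¹) h2
    simpa [mul_assoc] using this
  calc sqr (y * x) * x * (sqr (y * x))⁻¹ = sqr (y * x) * (x * (sqr (y * x))⁻¹ * x⁻¹) * x := by group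
    _ = (sqr (y * x) * sqr (y * x)) * x := by rw [h4]
    _ = y * (x * x) := by rw [h3, mul_assoc]
    _ = y := by rw [hx.1, mul_one]

/-- two points of the same type perpendicular to `x` are conjugate under `A x` -/
lemma conj_of_perp (h : Geo τ) {x y z : G} (hy : IsPt τ y) (hz : IsPt τ z)
    (hp : Perp x y) (hq : Perp x z) (ht : τ y = τ z) : ∃ α ∈ A τ x, α * y * α⁻¹ = z := by
  have ht' : τ (z * y) = 1 := by rw [map_mul, ht, k4_sq]
  have hm : z * y ∈ A τ x := perp_mul_mem_A hq hp ht.symm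
  refine ⟨sqr (z * y), ⟨sqr_tau ht', sqr_comm hm.2⟩, ?_⟩
  have h1 : y * (z * y) * y⁻¹ = (z * y)⁻¹ := by
    rw [mul_inv_rev, hy.inv_eq, hz.inv_eq]
    simp only [mul_assoc]
    rw [hy.1, mul_one]
  have h2 := sqr_inverted h1
  have h3 := sqr_sq h ht'
  have h4 : y * (sqr (z * y))⁻¹ * y⁻¹ = sqr (z * y) := by
    have := congrArg (fun w => w⁻¹) h2
    simpa [mul_assoc] using this
  calc sqr (z * y) * y * (sqr (z * y))⁻¹ = sqr (z * y) * (y * (sqr (z * y))⁻¹ * y⁻¹) * y := by group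
    _ = (sqr (z * y) * sqr (z * y)) * y := by rw [h4]
    _ = z * (y * y) := by rw [h3, mul_assoc]
    _ = z := by rw [hy.1, mul_one]

/-- frames of all types exist -/
lemma exists_frame (h : Geo τ) {s t : K4} (hs : s ≠ 1) (ht : t ≠ 1) (hst : s ≠ t) :
    ∃ x y, IsPt τ x ∧ IsPt τ y ∧ Perp x y ∧ τ x = s ∧ τ y = t := by
  obtain ⟨x, y, hx, hy, hc, h1, h2, h3⟩ := h.ex
  have px : IsPt τ x := ⟨hx, h1⟩
  have py : IsPt τ y := ⟨hy, h2⟩
  have pxy : Perp x y := perp_of_comm_of_tau_ne hc h3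
  have pz : IsPt τ (x * y) := pxy.mul_isPt h px py
  have q1 : Perp x (x * y) := pxy.mul_right h px py
  have q2 : Perp y (x * y) := pxy.mul_right' h px py
  have cs := k4_cases (τ x) (τ y) s h1 h2 h3 hs
  have ct := k4_cases (τ x) (τ y) t h1 h2 h3 ht
  rcases cs with cs | cs | cs <;> rcases ct with ct | ct | ct
  · exact absurd (cs.trans ct.symm) hst
  · exact ⟨x, y, px, py, pxy, cs.symm, ct.symm⟩
  · exact ⟨x, x * y, px, pz, q1, cs.symm, by rw [map_mul, ct]⟩
  · exact ⟨y, x, py, px, pxy.symm, cs.symm, ct.symm⟩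
  · exact absurd (cs.trans ct.symm) hst
  · exact ⟨y, x * y, py, pz, q2, cs.symm, by rw [map_mul, ct]⟩
  · exact ⟨x * y, x, pz, px, q1.symm, by rw [map_mul, cs], ct.symm⟩
  · exact ⟨x * y, y, pz, py, q2.symm, by rw [map_mul, cs], ct.symm⟩
  · exact absurd (cs.trans ct.symm) hst

/-- every point has perpendicular points of each other type -/
lemma exists_perp (h : Geo τ) {x : G} (hx : IsPt τ x) {t : K4} (ht : t ≠ 1) (hxt : τ x ≠ t) :
    ∃ y, IsPt τ y ∧ Perp x y ∧ τ y = t := by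
  obtain ⟨x', y', px, py, pp, e1, e2⟩ := exists_frame h hx.2 ht hxt
  obtain ⟨n, _, hn⟩ := conj_of_tau_eq h px hx e1
  refine ⟨n * y' * n⁻¹, py.conj n, ?_, by rw [tau_conj, e2]⟩
  have := pp.conj n
  rwa [hn] at this

local instance : DecidableEq K4 := inferInstanceAs (DecidableEq (ZMod 2 × ZMod 2)) in
lemma k4_exists_ne : ∀ s : K4, s ≠ 1 → ∃ t : K4, t ≠ 1 ∧ s ≠ t := by
  decide

lemma exists_perp' (h : Geo τ) {x : G} (hx : IsPt τ x) : ∃ y, IsPt τ y ∧ Perp x y := by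
  obtain ⟨t, ht, hxt⟩ := k4_exists_ne _ hx.2
  obtain ⟨y, hy, hp, _⟩ := exists_perp h hx ht hxt
  exact ⟨y, hy, hp⟩

/-- `A x` is commutative -/
lemma A_comm (h : Geo τ) {x m n : G} (hx : IsPt τ x) (hm : m ∈ A τ x) (hn : n ∈ A τ x) :
    m * n = n * m := by
  obtain ⟨y, hy, hp⟩ := exists_perp' h hx
  have h1 := A_inverted h hx hy hp hm
  have h2 := A_inverted h hx hy hp hn
  have h3 := A_inverted h hx hy hp ((A τ x).mul_mem hm hn)
  have h4 : y * (m * n) * y⁻¹ = (y * m * y⁻¹) * (y * n * y⁻¹) := by group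
  rw [h3, h1, h2] at h4
  have := congrArg (fun w => w⁻¹) h4
  simp only [inv_inv, mul_inv_rev] at this
  exact this

/-! ### components -/

lemma comp_spec (h : Geo τ) {x g : G} (hx : IsPt τ x) (hg : τ g = 1) :
    comp x g ∈ A τ x ∧ τ ((comp x g)⁻¹ * g) = 1 ∧
      x * ((comp x g)⁻¹ * g) * x⁻¹ = ((comp x g)⁻¹ * g)⁻¹ := by
  have hw : τ (x * (g⁻¹ * x * g)) = 1 := by rw [map_mul, tau_conj', k4_sq]
  have h1 : x * (x * (g⁻¹ * x * g)) * x⁻¹ = (x * (g⁻¹ * x * g))⁻¹ := by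
    rw [mul_inv_rev, hx.inv_eq, ← mul_assoc, hx.1, one_mul]
    congr 1
    rw [mul_inv_rev, mul_inv_rev, hx.inv_eq, inv_inv, mul_assoc]
  have h2 := sqr_inverted h1
  have h3 := sqr_sq h hw
  set i := sqr (x * (g⁻¹ * x * g)) with hi
  have hc : comp x g = g * i⁻¹ := rfl
  have e1 : (comp x g)⁻¹ * g = i := by rw [hc]; group
  have hti : τ i = 1 := sqr_tau hw
  refine ⟨⟨?_, ?_⟩, ?_, ?_⟩
  · rw [hc, map_mul, map_inv, hg, hti]; simp
  · -- i⁻¹ x i = g⁻¹ x g
    have h4 : i⁻¹ * x * i = g⁻¹ * x * g := by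
      have h5 : x * i = i⁻¹ * x := by
        have := congrArg (fun w => w * x) h2
        simpa [mul_assoc] using this
      calc i⁻¹ * x * i = i⁻¹ * (x * i) := by group
        _ = i⁻¹ * (i⁻¹ * x) := by rw [h5]
        _ = (i * i)⁻¹ * x := by group
        _ = (x * (g⁻¹ * x * g))⁻¹ * x := by rw [h3]
        _ = (g⁻¹ * x * g)⁻¹ := by group
        _ = g⁻¹ * x⁻¹ * g := by group
        _ = g⁻¹ * x * g := by rw [hx.inv_eq]
    rw [hc]
    calc g * i⁻¹ * x = g * (i⁻¹ * x * i) * i⁻¹ := by group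
      _ = g * (g⁻¹ * x * g) * i⁻¹ := by rw [h4]
      _ = x * (g * i⁻¹) := by group
  · rw [e1]; exact hti
  · rw [e1]; exact h2

lemma comp_mem (h : Geo τ) {x g : G} (hx : IsPt τ x) (hg : τ g = 1) : comp x g ∈ A τ x :=
  (comp_spec h hx hg).1

/-- uniqueness of the decomposition -/
lemma comp_unique (h : Geo τ) {x φ i : G} (hx : IsPt τ x) (hφ : φ ∈ A τ x) (hi : τ i = 1)
    (hxi : x * i * x⁻¹ = i⁻¹) : comp x (φ * i) = φ := by
  have h1 : x * ((φ * i)⁻¹ * x * (φ * i)) = i * i := by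
    have h2 : φ⁻¹ * x * φ = x := by rw [mul_assoc, ← hφ.2]; group
    have h3 : x * i⁻¹ * x⁻¹ = i := by
      have := congrArg (fun w => w⁻¹) hxi
      simpa [mul_assoc] using this
    calc x * ((φ * i)⁻¹ * x * (φ * i)) = x * i⁻¹ * (φ⁻¹ * x * φ) * i := by group
      _ = x * i⁻¹ * x * i := by rw [h2]
      _ = x * i⁻¹ * x⁻¹ * i := by rw [hx.inv_eq]
      _ = i * i := by rw [h3]
  rw [comp, h1, sqr_self h hi]
  group

lemma comp_unique' (h : Geo τ) {x φ g : G} (hx : IsPt τ x) (hg : τ g = 1) (hφ : φ ∈ A τ x)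
    (hxi : x * (φ⁻¹ * g) * x⁻¹ = (φ⁻¹ * g)⁻¹) : comp x g = φ := by
  have := comp_unique h hx hφ (i := φ⁻¹ * g) (by rw [map_mul, map_inv, hφ.1, hg]; simp) hxi
  rwa [mul_inv_cancel_left] at this

lemma comp_factor (h : Geo τ) {x g : G} (hx : IsPt τ x) (hg : τ g = 1) :
    ∃ i, τ i = 1 ∧ x * i * x⁻¹ = i⁻¹ ∧ g = comp x g * i :=
  ⟨(comp x g)⁻¹ * g, (comp_spec h hx hg).2.1, (comp_spec h hx hg).2.2, by group⟩

lemma comp_conj (k x g : G) : comp (k * x * k⁻¹) (k * g * k⁻¹) = k * comp x g * k⁻¹ := by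
  have e : k * x * k⁻¹ * ((k * g * k⁻¹)⁻¹ * (k * x * k⁻¹) * (k * g * k⁻¹)) =
      k * (x * (g⁻¹ * x * g)) * k⁻¹ := by group
  rw [comp, comp, e, ← sqr_conj]
  group

lemma comp_of_inverted (h : Geo τ) {x i : G} (hx : IsPt τ x) (hi : τ i = 1)
    (hxi : x * i * x⁻¹ = i⁻¹) : comp x i = 1 := by
  have := comp_unique h hx (one_mem (A τ x)) hi hxi
  rwa [one_mul] at this

lemma comp_of_mem (h : Geo τ) {x φ : G} (hx : IsPt τ x) (hφ : φ ∈ A τ x) : comp x φ = φ := by
  have := comp_unique h hx hφ (i := 1) (by simp) (by simp)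
  rwa [mul_one] at this

lemma comp_mul_left (h : Geo τ) {x φ g : G} (hx : IsPt τ x) (hφ : φ ∈ A τ x) (hg : τ g = 1) :
    comp x (φ * g) = φ * comp x g := by
  obtain ⟨i, hi, hxi, e⟩ := comp_factor h hx hg
  have h1 : φ * g = (φ * comp x g) * i := by rw [mul_assoc, ← e]
  rw [h1, comp_unique h hx ((A τ x).mul_mem hφ (comp_mem h hx hg)) hi hxi]

lemma inverted_conj_A {x φ i : G} (hφ : φ ∈ A τ x) (hxi : x * i * x⁻¹ = i⁻¹) :
    x * (φ * i * φ⁻¹) * x⁻¹ = (φ * i * φ⁻¹)⁻¹ := by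
  have h2 : x * φ = φ * x := hφ.2.symm
  have h3 : φ⁻¹ * x⁻¹ = x⁻¹ * φ⁻¹ := by
    rw [← mul_inv_rev, ← mul_inv_rev, h2]
  calc x * (φ * i * φ⁻¹) * x⁻¹ = (x * φ) * i * (φ⁻¹ * x⁻¹) := by group
    _ = (φ * x) * i * (x⁻¹ * φ⁻¹) := by rw [h2, h3]
    _ = φ * (x * i * x⁻¹) * φ⁻¹ := by group
    _ = φ * i⁻¹ * φ⁻¹ := by rw [hxi]
    _ = (φ * i * φ⁻¹)⁻¹ := by group

lemma comp_mul_right (h : Geo τ) {x φ g : G} (hx : IsPt τ x) (hφ : φ ∈ A τ x) (hg : τ g = 1) :
    comp x (g * φ) = comp x g * φ := by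
  obtain ⟨i, hi, hxi, e⟩ := comp_factor h hx hg
  have h1 : g * φ = (comp x g * φ) * (φ⁻¹ * i * φ⁻¹⁻¹) := by
    conv_lhs => rw [e]
    group
  rw [h1]
  apply comp_unique h hx ((A τ x).mul_mem (comp_mem h hx hg) hφ)
  · rw [tau_conj]; exact hi
  · exact inverted_conj_A ((A τ x).inv_mem hφ) hxi

lemma comp_inv (h : Geo τ) {x g : G} (hx : IsPt τ x) (hg : τ g = 1) :
    comp x g⁻¹ = (comp x g)⁻¹ := by
  obtain ⟨i, hi, hxi, e⟩ := comp_factor h hx hg
  have h1 : g⁻¹ = (comp x g)⁻¹ * (comp x g * i⁻¹ * (comp x g)⁻¹) := by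
    conv_lhs => rw [e]
    group
  conv_lhs => rw [h1]
  apply comp_unique h hx ((A τ x).inv_mem (comp_mem h hx hg))
  · rw [tau_conj, map_inv, hi, inv_one]
  · apply inverted_conj_A (comp_mem h hx hg)
    have := congrArg (fun w => w⁻¹) hxi
    simpa [mul_assoc] using this

lemma comp_perp (h : Geo τ) {x y g : G} (hx : IsPt τ x) (hy : IsPt τ y) (hp : Perp x y)
    (hg : τ g = 1) : comp x (y * g * y⁻¹) = (comp x g)⁻¹ := by
  have h1 : y * x * y⁻¹ = x := by rw [← hp.1]; group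
  have := comp_conj y x g
  rw [h1] at this
  rw [this]
  exact A_inverted h hx hy hp (comp_mem h hx hg)

lemma comp_conj_A (h : Geo τ) {x α g : G} (hx : IsPt τ x) (hα : α ∈ A τ x) (hg : τ g = 1) :
    comp x (α * g * α⁻¹) = comp x g := by
  have h1 : α * x * α⁻¹ = x := by rw [hα.2]; group
  have := comp_conj α x g
  rw [h1] at this
  rw [this, A_comm h hx hα (comp_mem h hx hg)]
  group

lemma comp_conj_self (h : Geo τ) {x g : G} (hx : IsPt τ x) (hg : τ g = 1) :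
    comp x (x * g * x⁻¹) = comp x g := by
  have h1 : x * x * x⁻¹ = x := by group
  have := comp_conj x x g
  rw [h1] at this
  rw [this, ← (comp_mem h hx hg).2]
  group

/-! ### the factorization of the kernel -/

/-- `ker τ = (A b)(A c)(A a)` for a frame `a`, `b`, `c = a * b` -/
lemma ker_factor (h : Geo τ) {a b g : G} (ha : IsPt τ a) (hb : IsPt τ b) (hp : Perp a b)
    (hg : τ g = 1) : ∃ β ∈ A τ b, ∃ γ ∈ A τ (a * b), ∃ α ∈ A τ a, g = β * γ * α := by
  have hc : IsPt τ (a * b) := hp.mul_isPt h ha hb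
  have hac : Perp a (a * b) := hp.mul_right h ha hb
  have hbc : Perp b (a * b) := hp.mul_right' h ha hb
  have hb' : IsPt τ (g⁻¹ * b * g) := by
    have := hb.conj g⁻¹
    rwa [inv_inv] at this
  have htb' : τ (g⁻¹ * b * g) = τ b := tau_conj' g b
  have hab : τ a ≠ τ b := hp.tau_ne h ha hb
  have hab' : τ a ≠ τ (g⁻¹ * b * g) := by rw [htb']; exact hab
  set k := D (a * (g⁻¹ * b * g)) with hk
  have hkpt : IsPt τ k := wedge_isPt h ha hb' hab'
  have hka : Perp k a := wedge_perp_left h ha hb' hab'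
  have hkb' : Perp k (g⁻¹ * b * g) := wedge_perp_right h ha hb' hab'
  have hkt : τ k = τ (a * b) := by rw [hk, wedge_tau h, htb', map_mul]
  obtain ⟨α, hα, hαk⟩ := conj_of_perp h hkpt hc hka.symm hac hkt
  -- conjugate b' by α
  have hq := hkb'.conj α
  rw [hαk] at hq
  have hb'' := hb'.conj α
  have htb'' : τ (α * (g⁻¹ * b * g) * α⁻¹) = τ b := by rw [tau_conj, htb']
  obtain ⟨γ, hγ, hγe⟩ := conj_of_perp h hb'' hb hq hbc.symm htb''
  refine ⟨g * α⁻¹ * γ⁻¹, ⟨?_, ?_⟩, γ, hγ, α, hα, by group⟩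
  · simp [hg, hα.1, hγ.1]
  · calc g * α⁻¹ * γ⁻¹ * b
        = g * α⁻¹ * γ⁻¹ * (γ * (α * (g⁻¹ * b * g) * α⁻¹) * γ⁻¹) := by rw [hγe]
      _ = b * (g * α⁻¹ * γ⁻¹) := by group

end

end Pool.Agent.Klein
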