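import Pool.Agent.Lib.MP_3c9215_al.SpecU

set_option autoImplicit false

/-!
# MP_3c9215_al, U4: the unfused case reduces to `Geo`
-/

namespace Pool.Agent.Klein

namespace UnfusedAux

/-- the hypotheses are symmetric in `a`, `b` -/
lemma UF_symm {G : Type} [Group G] {a b : G} (h : UF a b) : UF b a where
  per := h.per
  aa := h.bb
  bb := h.aa
  ab := h.ab.symm
  a1 := h.b1
  b1 := h.a1
  ne := h.ne.symm
  cent := by
    intro g h1 h2
    rcases h.cent g h2 h1 with e | e | e | e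
    · exact Or.inl e
    · exact Or.inr (Or.inr (Or.inl e))
    · exact Or.inr (Or.inl e)
    · exact Or.inr (Or.inr (Or.inr (by rw [e, h.ab])))
  nab := by
    intro g e
    apply h.nab g⁻¹
    rw [← e]
    group
  nac := by
    intro g e
    apply h.nbc g
    rw [e, h.ab]
  nbc := by
    intro g e
    apply h.nac g
    rw [e, h.ab]

/-- the character of a subgroup of index two -/
lemma char_of_index {G : Type} [Group G] (K : Subgroup G) (hK : K.index = 2) :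
    ∃ χ : G →* Multiplicative (ZMod 2), ∀ g, χ g = 1 ↔ g ∈ K := by
  haveI hn : K.Normal := Subgroup.normal_of_index_eq_two hK
  have hc : Nat.card (G ⧸ K) = 2 := hK
  haveI : Fact (Nat.Prime 2) := ⟨Nat.prime_two⟩
  have hc2 : Nat.card (Multiplicative (ZMod 2)) = 2 := by
    rw [Nat.card_congr Multiplicative.toAdd, Nat.card_zmod]
  let e : (G ⧸ K) ≃* Multiplicative (ZMod 2) := mulEquivOfPrimeCardEq hc hc2
  refine ⟨e.toMonoidHom.comp (QuotientGroup.mk' K), fun g => ?_⟩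
  show e (QuotientGroup.mk' K g) = 1 ↔ g ∈ K
  rw [map_eq_one_iff e e.injective]
  exact QuotientGroup.eq_one_iff g

/-- an involution is conjugate to another one if the product has odd order -/
lemma conj_odd {G : Type} [Group G] {x y : G} (hx : x * x = 1) (hy : y * y = 1) (ho : OddO (y * x)) :
    ∃ n : G, n * x * n⁻¹ = y ∧ ∀ g : G, g * (y * x) = (y * x) * g → g * n = n * g := by
  obtain ⟨k, ⟨m, rfl⟩, hk⟩ := ho
  have hxi : x⁻¹ = x := inv_eq_of_mul_eq_one_left hx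
  have hyi : y⁻¹ = y := inv_eq_of_mul_eq_one_left hy
  refine ⟨(y * x) ^ (m + 1), ?_, ?_⟩
  · have h1 : (y * x) ^ (m + 1) * (y * x) ^ (m + 1) = y * x := by
      rw [← pow_add]
      have : m + 1 + (m + 1) = 2 * m + 1 + 1 := by omega
      rw [this, pow_succ, hk, one_mul]
    have h2 : x * (y * x) * x⁻¹ = (y * x)⁻¹ := by
      rw [mul_inv_rev, hxi, hyi]
      simp only [mul_assoc]
      rw [hx, mul_one]
    have h3 : x * ((y * x) ^ (m + 1))⁻¹ * x⁻¹ = (y * x) ^ (m + 1) := by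
      have h4 : x * ((y * x) ^ (m + 1)) * x⁻¹ = ((y * x) ^ (m + 1))⁻¹ := by
        rw [← conj_pow, h2, inv_pow]
      have := congrArg (fun w => w⁻¹) h4
      simpa [mul_assoc] using this
    calc (y * x) ^ (m + 1) * x * ((y * x) ^ (m + 1))⁻¹
        = (y * x) ^ (m + 1) * (x * ((y * x) ^ (m + 1))⁻¹ * x⁻¹) * x := by group
      _ = (y * x) ^ (m + 1) * (y * x) ^ (m + 1) * x := by rw [h3]
      _ = y * (x * x) := by rw [h1, mul_assoc]
      _ = y := by rw [hx, mul_one]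
  · intro g hg
    have : Commute g (y * x) := hg
    exact this.pow_right _

end UnfusedAux

open UnfusedAux

theorem unfused (h2 : S_U2) (h3 : S_U3) : S_Unfused := by
  intro G _ a b h
  obtain ⟨K, hK, haK, hbK⟩ := h3 G a b h
  obtain ⟨L, hL, hbL, haL⟩ := h3 G b a (UF_symm h)
  obtain ⟨χ, hχ⟩ := char_of_index K hK
  obtain ⟨ψ, hψ⟩ := char_of_index L hL
  obtain ⟨u1, u2, u3, u4⟩ := h2 G a b h
  let τ : G →* K4 := (MulEquiv.prodMultiplicative (ZMod 2) (ZMod 2)).symm.toMonoidHom.comp (χ.prod ψ)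
  have hτ : ∀ g, τ g = 1 ↔ g ∈ K ∧ g ∈ L := by
    intro g
    show (MulEquiv.prodMultiplicative (ZMod 2) (ZMod 2)).symm (χ g, ψ g) = 1 ↔ _
    rw [map_eq_one_iff _ (MulEquiv.injective _)]
    rw [Prod.mk_eq_one, hχ, hψ]
  have ha1 : τ a ≠ 1 := fun e => haL ((hτ a).1 e).2
  have hb1 : τ b ≠ 1 := fun e => hbK ((hτ b).1 e).1
  have hab : τ a ≠ τ b := by
    intro e
    have : τ (a * b) = 1 := by rw [map_mul, e, k4_sq]
    have h4 := ((hτ _).1 this).1
    exact hbK ((K.mul_mem_cancel_left haK).1 h4)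
  have habm : τ (a * b) ≠ 1 := by
    rw [map_mul]
    exact (k4_mul _ _ ha1 hb1 hab).1
  -- odd order
  have hodd : ∀ n : G, τ n = 1 → ∃ k : ℕ, Odd k ∧ n ^ k = 1 := by
    intro n hn
    refine ⟨orderOf n, ?_, pow_orderOf_eq_one n⟩
    by_contra hne
    rw [Nat.not_odd_iff_even] at hne
    obtain ⟨k, hk⟩ := hne
    obtain ⟨m, hm, hnm⟩ := h.per n
    have hpos : 0 < orderOf n := orderOf_pos_iff.2 (isOfFinOrder_iff_pow_eq_one.2 ⟨m, hm, hnm⟩)
    have hz1 : n ^ k ≠ 1 := by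
      intro e
      have := Nat.le_of_dvd (by omega) (orderOf_dvd_of_pow_eq_one e)
      omega
    have hz2 : n ^ k * n ^ k = 1 := by rw [← pow_add, ← hk, pow_orderOf_eq_one]
    obtain ⟨g, hg⟩ := u2 (n ^ k) hz2 hz1
    have hzt : τ (g * n ^ k * g⁻¹) = 1 := by rw [tau_conj, map_pow, hn, one_pow]
    rcases hg with e | e | e
    · rw [e] at hzt; exact ha1 hzt
    · rw [e] at hzt; exact hb1 hzt
    · rw [e] at hzt; exact habm hzt
  have hcc : a * b * (a * b) = 1 := by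
    calc a * b * (a * b) = a * (b * a) * b := by group
      _ = a * (a * b) * b := by rw [h.ab]
      _ = (a * a) * (b * b) := by group
      _ = 1 := by rw [h.aa, h.bb, one_mul]
  -- representatives
  have hrep : ∀ s : K4, s ≠ 1 → ∃ v : G, τ v = s ∧ v * v = 1 ∧ (v = a ∨ v = b ∨ v = a * b) := by
    intro s hs
    rcases k4_cases (τ a) (τ b) s ha1 hb1 hab hs with e | e | e
    · exact ⟨a, e.symm, h.aa, Or.inl rfl⟩
    · exact ⟨b, e.symm, h.bb, Or.inr (Or.inl rfl)⟩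
    · exact ⟨a * b, by rw [map_mul, e], hcc, Or.inr (Or.inr rfl)⟩
  have hcab : Commute a b := h.ab
  have hcomm : ∀ v w : G, (v = a ∨ v = b ∨ v = a * b) → (w = a ∨ w = b ∨ w = a * b) → Commute v w := by
    intro v w hv hw
    have c1 : Commute a (a * b) := (Commute.refl a).mul_right hcab
    have c2 : Commute b (a * b) := hcab.symm.mul_right (Commute.refl b)
    rcases hv with rfl | rfl | rfl <;> rcases hw with rfl | rfl | rfl
    · exact Commute.refl _
    · exact hcab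
    · exact c1
    · exact hcab.symm
    · exact Commute.refl _
    · exact c2
    · exact c1.symm
    · exact c2.symm
    · exact Commute.refl _
  refine ⟨τ, ⟨hodd, ?_, ⟨a, b, h.aa, h.bb, h.ab, ha1, hb1, hab⟩⟩, ha1, hb1, hab⟩
  intro x y n hx hy hxy htx hty hne htn hnx hny
  obtain ⟨v, hv1, hv2, hv3⟩ := hrep (τ x) htx
  obtain ⟨w, hw1, hw2, hw3⟩ := hrep (τ y) hty
  have ho1 : OddO (v * x) := hodd _ (by rw [map_mul, hv1, k4_sq])
  obtain ⟨n₁, hn₁, -⟩ := conj_odd hx hv2 ho1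
  have hy1 : n₁ * y * n₁⁻¹ * (n₁ * y * n₁⁻¹) = 1 := by
    calc n₁ * y * n₁⁻¹ * (n₁ * y * n₁⁻¹) = n₁ * (y * y) * n₁⁻¹ := by group
      _ = 1 := by rw [hy]; group
  have hvy : Commute v (n₁ * y * n₁⁻¹) := by
    show v * (n₁ * y * n₁⁻¹) = (n₁ * y * n₁⁻¹) * v
    rw [← hn₁]
    calc n₁ * x * n₁⁻¹ * (n₁ * y * n₁⁻¹) = n₁ * (x * y) * n₁⁻¹ := by group
      _ = n₁ * (y * x) * n₁⁻¹ := by rw [hxy]
      _ = n₁ * y * n₁⁻¹ * (n₁ * x * n₁⁻¹) := by group
  have ho2 : OddO (w * (n₁ * y * n₁⁻¹)) := hodd _ (by rw [map_mul, hw1, tau_conj, k4_sq])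
  obtain ⟨n₂, hn₂, hn₂'⟩ := conj_odd hy1 hw2 ho2
  have hvn₂ : v * n₂ = n₂ * v := hn₂' v ((hcomm v w hv3 hw3).mul_right hvy)
  -- the conjugated element
  have hkx : Commute (n₂ * n₁ * n * (n₂ * n₁)⁻¹) v := by
    have e : n₂ * n₁ * x * (n₂ * n₁)⁻¹ = v := by
      calc n₂ * n₁ * x * (n₂ * n₁)⁻¹ = n₂ * (n₁ * x * n₁⁻¹) * n₂⁻¹ := by group
        _ = n₂ * v * n₂⁻¹ := by rw [hn₁]
        _ = v * n₂ * n₂⁻¹ := by rw [hvn₂]
        _ = v := by group
    show _ * v = v * _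
    rw [← e]
    calc n₂ * n₁ * n * (n₂ * n₁)⁻¹ * (n₂ * n₁ * x * (n₂ * n₁)⁻¹)
        = n₂ * n₁ * (n * x) * (n₂ * n₁)⁻¹ := by group
      _ = n₂ * n₁ * (x * n) * (n₂ * n₁)⁻¹ := by rw [hnx]
      _ = n₂ * n₁ * x * (n₂ * n₁)⁻¹ * (n₂ * n₁ * n * (n₂ * n₁)⁻¹) := by group
  have hky : Commute (n₂ * n₁ * n * (n₂ * n₁)⁻¹) w := by
    have e : n₂ * n₁ * y * (n₂ * n₁)⁻¹ = w := by
      calc n₂ * n₁ * y * (n₂ * n₁)⁻¹ = n₂ * (n₁ * y * n₁⁻¹) * n₂⁻¹ := by group
        _ = w := by rw [hn₂]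
    show _ * w = w * _
    rw [← e]
    calc n₂ * n₁ * n * (n₂ * n₁)⁻¹ * (n₂ * n₁ * y * (n₂ * n₁)⁻¹)
        = n₂ * n₁ * (n * y) * (n₂ * n₁)⁻¹ := by group
      _ = n₂ * n₁ * (y * n) * (n₂ * n₁)⁻¹ := by rw [hny]
      _ = n₂ * n₁ * y * (n₂ * n₁)⁻¹ * (n₂ * n₁ * n * (n₂ * n₁)⁻¹) := by group
  have hkt : τ (n₂ * n₁ * n * (n₂ * n₁)⁻¹) = 1 := by rw [tau_conj, htn]
  have hvw : v ≠ w := fun e => hne (by rw [← hv1, ← hw1, e])
  generalize hkdef : n₂ * n₁ * n * (n₂ * n₁)⁻¹ = k at hkx hky hkt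
  have key : Commute k a ∧ Commute k b := by
    have d1 : Commute k a → Commute k (a * b) → Commute k b := by
      intro p q
      have := p.inv_right.mul_right q
      simpa using this
    have d2 : Commute k b → Commute k (a * b) → Commute k a := by
      intro p q
      have := q.mul_right p.inv_right
      simpa using this
    rcases hv3 with rfl | rfl | rfl <;> rcases hw3 with rfl | rfl | rfl
    · exact absurd rfl hvw
    · exact ⟨hkx, hky⟩
    · exact ⟨hkx, d1 hkx hky⟩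
    · exact ⟨hky, hkx⟩
    · exact absurd rfl hvw
    · exact ⟨d2 hkx hky, hkx⟩
    · exact ⟨hky, d1 hky hkx⟩
    · exact ⟨d2 hky hkx, hky⟩
    · exact absurd rfl hvw
  have hk1 : k = 1 := by
    rcases h.cent k key.1 key.2 with e | e | e | e
    · exact e
    · rw [e] at hkt; exact absurd hkt ha1
    · rw [e] at hkt; exact absurd hkt hb1
    · rw [e] at hkt; exact absurd hkt habm
  rw [hk1] at hkdef
  have : n = (n₂ * n₁)⁻¹ * (n₂ * n₁ * n * (n₂ * n₁)⁻¹) * (n₂ * n₁) := by group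
  rw [this, hkdef]
  group

end Pool.Agent.Klein
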