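import Pool.Agent.Lib.MP_3c9215_al.Spec2

set_option autoImplicit false

namespace Pool.Agent.Klein

theorem wEx (h1 : S_HmlEx) (h2 : S_HmlBasic) (h3 : S_HmlFix) (h4 : S_EConj) (h5 : S_EComm)
    (h6 : S_E124) (h7 : S_EEx) : S_WEx := by
  intro G _ τ h hnd hnt O p hpO
  have htpO : τ (p : G) ≠ τ (O : G) := hpO.tau_ne h p.2 O.2
  -- the point `p'`
  obtain ⟨α, hα, hα1⟩ := hnt (O : G) O.2
  obtain ⟨p', hp'⟩ : ∃ p' : Pt τ, (p' : G) = α * p * α⁻¹ := ⟨⟨α * p * α⁻¹, p.2.conj α⟩, rfl⟩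
  have hαO : α * (O : G) * α⁻¹ = O := by rw [hα.2]; group
  have hp'O : Perp (p' : G) (O : G) := by
    have := hpO.conj α
    rwa [hαO, ← hp'] at this
  have hp'ne : p ≠ p' := by
    intro e
    apply hα1
    apply ker_fix h O.2 p.2 hpO.symm hα
    have e' : (p : G) = α * p * α⁻¹ := by rw [← hp', ← e]
    calc α * (p : G) = (α * p * α⁻¹) * α := by group
      _ = p * α := by rw [← e']
  have htp' : τ (p' : G) = τ (p : G) := by rw [hp', tau_conj]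
  -- `k`, `σ`, `s`
  obtain ⟨k, hk, hk1⟩ := h7 G τ h hnd hnt O p' hp'O
  obtain ⟨σ, hσ, hσ1⟩ := hnt (p : G) p.2
  obtain ⟨s, hs⟩ := h1 G τ h (p : G) σ p.2 hσ
  obtain ⟨⟨hsp1, hsp2⟩, hsx⟩ := (h2 G τ h).2.1 p σ s hσ hs
  obtain ⟨hsO1, hsO2⟩ := hsx O hpO.symm
  have hsS : s ∈ Stb O := ⟨hs.1, hsO2⟩
  have hkH : k ∈ HH O := ⟨hk.1, hk.2.1⟩
  have hw : s * k * s⁻¹ * k⁻¹ ∈ E O p :=
    h5 G τ h O p s k hpO hsS (fun z hz => (hsx z hz).2) hkH
  obtain ⟨c1, c2, c3, -⟩ := h6 G τ h hnd hnt O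
  have hsp' : Perp ((s : PP τ).1 p' : G) (O : G) := (h4 G τ h O).1 s hsS p' hp'O
  have hsk : s * k * s⁻¹ ∈ E O (s.1 p') := (h4 G τ h O).2.1 s hsS p' k hk
  have hpne : p ≠ s.1 p' := by
    intro e
    apply hp'ne
    apply s.1.injective
    rw [hsp1, ← e]
  refine ⟨s * k * s⁻¹ * k⁻¹, ⟨hw, fun l hl => ?_⟩, fun hw1 => ?_⟩
  · -- central
    have e1 : l * k = k * l := c3 p p' l k hpO hp'O hp'ne hl hk
    have e2 : l * (s * k * s⁻¹) = (s * k * s⁻¹) * l := c3 p (s.1 p') l _ hpO hsp' hpne hl hsk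
    have e3 : l * k⁻¹ = k⁻¹ * l := by
      calc l * k⁻¹ = k⁻¹ * (k * l) * k⁻¹ := by group
        _ = k⁻¹ * (l * k) * k⁻¹ := by rw [e1]
        _ = k⁻¹ * l := by group
    calc s * k * s⁻¹ * k⁻¹ * l = (s * k * s⁻¹) * (k⁻¹ * l) := by group
      _ = (s * k * s⁻¹) * (l * k⁻¹) := by rw [e3]
      _ = ((s * k * s⁻¹) * l) * k⁻¹ := by group
      _ = (l * (s * k * s⁻¹)) * k⁻¹ := by rw [e2]
      _ = l * (s * k * s⁻¹ * k⁻¹) := by group
  · -- nontrivial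
    have hcomm : s * k = k * s := by
      calc s * k = (s * k * s⁻¹ * k⁻¹) * (k * s) := by group
        _ = k * s := by rw [hw1, one_mul]
    have hx : s.1 (k.1 O) = k.1 O := by
      have := congrArg (fun f : PP τ => f.1 O) hcomm
      simp only [Prod.fst_mul, Equiv.Perm.mul_apply, hsO1] at this
      exact this
    have htx : τ ((k.1 O : Pt τ) : G) = τ (O : G) := hk.1.1 O
    rcases h3 G τ h hnd p σ s hσ hσ1 hs (k.1 O) (by rw [hx, hx]) with hxp | hxp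
    · apply htpO
      rw [← htx, hxp]
    · -- the point `q' = O p'`
      obtain ⟨q, hq⟩ : ∃ q : Pt τ, (q : G) = O * p' := ⟨⟨O * p', hp'O.symm.mul_isPt h O.2 p'.2⟩, rfl⟩
      have hOq : Perp (O : G) (q : G) := by rw [hq]; exact hp'O.symm.mul_right h O.2 p'.2
      have hp'q : Perp (p' : G) (q : G) := by rw [hq]; exact hp'O.symm.mul_right' h O.2 p'.2
      have hkq : k.2 q = q := hk.2.2 q hp'q.symm
      have hxq : Perp ((k.1 O : Pt τ) : G) (q : G) := by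
        have := (hk.1.2.2 O q).1 hOq
        rwa [hkq] at this
      have htq : τ (p : G) ≠ τ (q : G) := by
        rw [hq, map_mul, htp']
        exact (k4_mul _ _ O.2.2 p.2.2 htpO.symm).2.2.symm
      have u1 : (O : G) = D ((p : G) * q) := wedge_unique h p.2 q.2 O.2 htq hpO.symm hOq
      have u2 : ((k.1 O : Pt τ) : G) = D ((p : G) * q) :=
        wedge_unique h p.2 q.2 (k.1 O).2 htq hxp hxq
      have hkO : k.1 O = O := Pt.ext (u2.trans u1.symm)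
      exact hk1 (c2 p' k hp'O hk hkO)

end Pool.Agent.Klein
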