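import Pool.Agent.Lib.MP_3c9215_al.TOps
import Pool.Agent.Lib.MP_3c9215_al.TBase
import Pool.Agent.Lib.MP_3c9215_al.TMul
import Pool.Agent.Lib.MP_3c9215_al.Lot
import Pool.Agent.Lib.MP_3c9215_al.TLink
import Pool.Agent.Lib.MP_3c9215_al.TCommB
import Pool.Agent.Lib.MP_3c9215_al.TComm
import Pool.Agent.Lib.MP_3c9215_al.Strong
import Pool.Agent.Lib.MP_3c9215_al.JIAb
import Pool.Agent.Lib.MP_3c9215_al.NDRed
import Pool.Agent.Lib.MP_3c9215_al.JIEx
import Pool.Agent.Lib.MP_3c9215_al.Fix1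
import Pool.Agent.Lib.MP_3c9215_al.HmlEx
import Pool.Agent.Lib.MP_3c9215_al.HmlBasic
import Pool.Agent.Lib.MP_3c9215_al.HmlFix
import Pool.Agent.Lib.MP_3c9215_al.RuleDet
import Pool.Agent.Lib.MP_3c9215_al.HmlComm
import Pool.Agent.Lib.MP_3c9215_al.LemPT
import Pool.Agent.Lib.MP_3c9215_al.EConj
import Pool.Agent.Lib.MP_3c9215_al.E124
import Pool.Agent.Lib.MP_3c9215_al.EEx
import Pool.Agent.Lib.MP_3c9215_al.WEx
import Pool.Agent.Lib.MP_3c9215_al.MBasic
import Pool.Agent.Lib.MP_3c9215_al.MRel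
import Pool.Agent.Lib.MP_3c9215_al.MInt
import Pool.Agent.Lib.MP_3c9215_al.CBasic
import Pool.Agent.Lib.MP_3c9215_al.CFin
import Pool.Agent.Lib.MP_3c9215_al.CUni
import Pool.Agent.Lib.MP_3c9215_al.CRel
import Pool.Agent.Lib.MP_3c9215_al.TF
import Pool.Agent.Lib.MP_3c9215_al.CNoTor
import Pool.Agent.Lib.MP_3c9215_al.CoreEx
import Pool.Agent.Lib.MP_3c9215_al.LF
import Pool.Agent.Lib.MP_3c9215_al.U1
import Pool.Agent.Lib.MP_3c9215_al.Unfused
import Pool.Agent.Lib.MP_3c9215_al.Final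

set_option autoImplicit false

/-!
# MP_3c9215_al: composition of all parts
-/

namespace Pool.Agent.Klein

/-- everything except the pieces passed as hypotheses -/
theorem all_parts (hSep : S_Sep) (hCTor : S_CTor) (hU2 : S_U2) (hU3 : S_U3) :
    S_LF ∧ S_Unfused := by
  have hTOps := tops
  have hTBase := tbase
  have hTMul := tmul hTBase
  have hTCommB := tcommB hTBase lot tlink
  have hTComm := tcomm hTOps hTMul hTCommB
  have hStrong := strong hTOps hTBase hTComm hSep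
  have hND := ndRed jiAb hStrong
  have hHmlFix := hmlFix fix1
  have hRule := rule fix1
  have hDet := det hRule
  have hHmlComm := hmlComm hmlBasic hRule hDet
  have hLemP := lemP hmlBasic hHmlFix
  have hLemT := lemT hmlBasic
  have hE124 := e124 fix1 hRule hDet eConj
  have hEEx := eEx hmlEx hmlBasic hHmlFix hLemP eConj eComm
  have hWEx := wEx hmlEx hmlBasic hHmlFix eConj eComm hE124 hEEx
  have hMBasic := mBasic eConj hE124 hWEx
  have hMRel := mRel hmlBasic eConj hMBasic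
  have hMInt := mInt hmlBasic eConj hMBasic hMRel
  have hCoreEx := coreEx fix1 hmlEx hmlBasic hHmlFix hHmlComm hLemP hLemT eConj eComm hE124 hWEx
    hMBasic hMRel hMInt
  have hCRel := cRel cBasic
  have hCNoTor := cNoTor cBasic hCRel tf
  exact ⟨lf hND jiEx hCoreEx hCTor hCNoTor, unfused hU2 hU3⟩

end Pool.Agent.Klein
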