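import Pool.Agent.Lib.MP_3c9215_al.SpecCore

set_option autoImplicit false

/-!
# MP_3c9215_al: the torsion case is impossible
-/

namespace Pool.Agent.Klein

namespace CTorAux

/-- a nonzero torsion element has a nonzero multiple of prime order -/
lemma prime_order {M : Type} [AddCommGroup M] (W : AddSubgroup M) : ∀ n : ℕ, 1 ≤ n → ∀ w ∈ W,
    w ≠ 0 → n • w = 0 → ∃ w₀ ∈ W, w₀ ≠ 0 ∧ ∃ ℓ : ℕ, ℓ.Prime ∧ ℓ • w₀ = 0 := by
  intro n
  induction n using Nat.strong_induction_on with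
  | _ n ih =>
    intro hn w hw hw0 hnw
    rcases Nat.lt_or_ge 1 n with h1 | h1
    · obtain ⟨m, hm⟩ := Nat.minFac_dvd n
      have hp : (Nat.minFac n).Prime := Nat.minFac_prime (by omega)
      have hm1 : 1 ≤ m := by
        rcases Nat.eq_zero_or_pos m with h | h
        · rw [h, mul_zero] at hm; omega
        · exact h
      by_cases hmw : m • w = 0
      · have hlt : m < n := by
          have := hp.two_le
          calc m < 2 * m := by omega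
            _ ≤ Nat.minFac n * m := Nat.mul_le_mul_right m this
            _ = n := hm.symm
        exact ih m hlt hm1 w hw hw0 hmw
      · refine ⟨m • w, W.nsmul_mem hw m, hmw, Nat.minFac n, hp, ?_⟩
        rw [← mul_nsmul', ← hm, hnw]
    · have : n = 1 := by omega
      rw [this, one_nsmul] at hnw
      exact absurd hnw hw0

section

variable (C : Core)

lemma act_mul (k l : C.Λ) (m : C.M) : C.act (k * l) m = C.act k (C.act l m) := by
  rw [map_mul]; rfl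

lemma act_one (m : C.M) : C.act 1 m = m := by
  rw [map_one]; rfl

lemma act_inv_act (k : C.Λ) (m : C.M) : C.act k⁻¹ (C.act k m) = m := by
  rw [← act_mul, inv_mul_cancel, act_one]

lemma act_ne {k : C.Λ} {m : C.M} (hm : m ≠ 0) : C.act k m ≠ 0 := by
  intro h
  apply hm
  rw [← act_inv_act C k m, h, map_zero]

lemma act_kill {ℓ : ℕ} {m : C.M} (hm : ℓ • m = 0) (k : C.Λ) : ℓ • C.act k m = 0 := by
  rw [← map_nsmul, hm, map_zero]

lemma sm_inv_sm (k : C.Λ) (p : C.L) : C.sm k⁻¹ (C.sm k p) = p := by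
  rw [← C.mul_sm, inv_mul_cancel, C.one_sm]

lemma sm_sm_inv (k : C.Λ) (p : C.L) : C.sm k (C.sm k⁻¹ p) = p := by
  rw [← C.mul_sm, mul_inv_cancel, C.one_sm]

lemma sm_inv_fix {k : C.Λ} {p : C.L} (h : C.sm k p = p) : C.sm k⁻¹ p = p := by
  conv_lhs => rw [← h]
  exact sm_inv_sm C k p

lemma b_ne_c : C.b ≠ C.c := by
  intro h
  apply C.ty_c
  rw [← h]
  exact C.ty_b

/-- halves on the elements killed by an odd number -/
lemma half {ℓ k : ℕ} (hk : ℓ = 2 * k + 1) {x : C.M} (hx : ℓ • x = 0) :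
    (k + 1) • (x + x) = x := by
  rw [← two_nsmul, ← mul_nsmul']
  have : (k + 1) * 2 = ℓ + 1 := by omega
  rw [this, succ_nsmul, hx, zero_add]

lemma mem_of_double {ℓ : ℕ} (hℓ : Odd ℓ) {x : C.M} (hx : ℓ • x = 0) {S : AddSubgroup C.M}
    (h : x + x ∈ S) : x ∈ S := by
  obtain ⟨k, hk⟩ := hℓ
  rw [← half C hk hx]
  exact S.nsmul_mem h _

/-- the decomposition into the two components -/
lemma split {ℓ : ℕ} (hℓ : Odd ℓ) {m : C.M} (hm : ℓ • m = 0) : ∃ mb ∈ C.Mp C.b, ∃ mc ∈ C.Mp C.c,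
    m = mb + mc ∧ ℓ • mb = 0 ∧ ℓ • mc = 0 := by
  obtain ⟨k, hk⟩ := hℓ
  have hj := act_kill C hm C.j
  refine ⟨(k + 1) • (m - C.act C.j m), ?_, (k + 1) • (m + C.act C.j m), ?_, ?_, ?_, ?_⟩
  · apply AddSubgroup.nsmul_mem
    rw [← neg_sub]
    exact AddSubgroup.neg_mem _ (C.act_jb m)
  · apply AddSubgroup.nsmul_mem
    rw [add_comm]
    exact C.act_jc m
  · rw [← nsmul_add]
    have : m - C.act C.j m + (m + C.act C.j m) = m + m := by abel
    rw [this, half C hk hm]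
  · rw [← mul_nsmul', mul_comm, mul_nsmul', nsmul_sub, hm, hj, sub_zero, nsmul_zero]
  · rw [← mul_nsmul', mul_comm, mul_nsmul', nsmul_add, hm, hj, add_zero, nsmul_zero]

/-- a unipotent element has order dividing `ℓ` on the killed elements -/
lemma uni_pow {d : C.L} {ℓ : ℕ} {u : C.Λ}
    (hu : ∀ m : C.M, ℓ • m = 0 → C.act u m - m ∈ C.Mp d ∧ (m ∈ C.Mp d → C.act u m = m))
    {m : C.M} (hm : ℓ • m = 0) (k : ℕ) : C.act (u ^ k) m = m + k • (C.act u m - m) := by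
  induction k with
  | zero => rw [pow_zero, act_one, zero_nsmul, add_zero]
  | succ k ih =>
    have h1 : ℓ • (C.act u m - m) = 0 := by
      rw [nsmul_sub, act_kill C hm u, hm, sub_zero]
    have h2 := (hu _ h1).2 (hu m hm).1
    rw [pow_succ', act_mul, ih, map_add, map_nsmul, h2, succ_nsmul]
    abel

lemma uni_fix {d : C.L} {ℓ : ℕ} {u : C.Λ}
    (hu : ∀ m : C.M, ℓ • m = 0 → C.act u m - m ∈ C.Mp d ∧ (m ∈ C.Mp d → C.act u m = m))
    (hex : ∀ p, ∃ m ∈ C.Mp p, m ≠ 0 ∧ ℓ • m = 0) (p : C.L) : C.sm (u ^ ℓ) p = p := by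
  obtain ⟨m, hmp, hm0, hm⟩ := hex p
  have h1 := uni_pow C hu hm ℓ
  have h2 : ℓ • (C.act u m - m) = 0 := by
    rw [nsmul_sub, act_kill C hm u, hm, sub_zero]
  rw [h2, add_zero] at h1
  by_contra hne
  apply hm0
  apply C.disj _ _ m hne _ hmp
  have := C.mp_sm (u ^ ℓ) p m hmp
  rwa [h1] at this

/-- elements of a fixed point are fixed -/
lemma uni_elt {d : C.L} {ℓ : ℕ} {u : C.Λ}
    (hu : ∀ m : C.M, ℓ • m = 0 → C.act u m - m ∈ C.Mp d ∧ (m ∈ C.Mp d → C.act u m = m))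
    {p : C.L} (hpd : p ≠ d) (hp : C.sm u p = p) {m : C.M} (hmp : m ∈ C.Mp p) (hm : ℓ • m = 0) :
    C.act u m = m := by
  have h1 : C.act u m ∈ C.Mp p := by
    have := C.mp_sm u p m hmp
    rwa [hp] at this
  have h2 := C.disj p d (C.act u m - m) hpd (AddSubgroup.sub_mem _ h1 hmp) (hu m hm).1
  exact sub_eq_zero.mp h2

/-- a nonzero fixed element of `Mp q` shows that `q` is fixed -/
lemma fix_of_elt {u : C.Λ} {q : C.L} {m : C.M} (hm0 : m ≠ 0) (hmq : m ∈ C.Mp q)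
    (hm : C.act u m = m) : C.sm u q = q := by
  by_contra hne
  apply hm0
  apply C.disj _ _ m hne _ hmq
  have := C.mp_sm u q m hmq
  rwa [hm] at this

/-- the action on an invariant finite set: counting of fixed points -/
lemma count {ℓ : ℕ} (hℓ : ℓ.Prime) {u : C.Λ} (hfix : ∀ p, C.sm (u ^ ℓ) p = p)
    (Ω : Set C.L) [Finite Ω] (hinv : ∀ p ∈ Ω, C.sm u p ∈ Ω) :
    Nat.card Ω ≡ Nat.card {p : Ω // C.sm u p = p} [MOD ℓ] := by
  classical
  haveI : Fintype Ω := Fintype.ofFinite Ω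
  haveI : Fact ℓ.Prime := ⟨hℓ⟩
  let f : Function.End Ω := fun p => ⟨C.sm u p, hinv p p.2⟩
  have hpow : ∀ (k : ℕ) (x : Ω), (((f ^ k) x : Ω) : C.L) = C.sm (u ^ k) x := by
    intro k
    induction k with
    | zero =>
      intro x
      rw [pow_zero, pow_zero, C.one_sm]
      rfl
    | succ k ih =>
      intro x
      rw [pow_succ, pow_succ, C.mul_sm]
      have h1 : ((f ^ k * f) x : Ω) = (f ^ k) (f x) := rfl
      rw [h1, ih]
  have hf : f ^ ℓ ^ 1 = 1 := by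
    funext x
    apply Subtype.ext
    rw [pow_one, hpow, hfix]
    rfl
  have h1 := Equiv.Perm.card_fixedPoints_modEq (p := ℓ) (n := 1) hf
  have h2 : Fintype.card (Function.fixedPoints f) = Nat.card {p : Ω // C.sm u p = p} := by
    rw [← Nat.card_eq_fintype_card]
    apply Nat.card_congr
    refine Equiv.subtypeEquivRight fun p => ?_
    constructor
    · intro h
      exact congrArg Subtype.val h
    · intro h
      exact Subtype.ext h
  rw [h2] at h1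
  rwa [Nat.card_eq_fintype_card]

/-- elements of an odd order group with trivial square are trivial -/
lemma sq_one {α : C.A} (h : α * α = 1) : α = 1 := by
  obtain ⟨k, ⟨m, rfl⟩, hk⟩ := C.A_odd α
  rw [pow_succ, pow_mul, pow_two, h, one_pow, one_mul] at hk
  exact hk

lemma finite_closure (S : Set C.A) (hS : S.Finite) : Finite (Subgroup.closure S) := by
  haveI : Finite S := hS
  haveI : Group.FG (Subgroup.closure S) := Group.closure_finite_fg S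
  have ht : Monoid.IsTorsion (Subgroup.closure S) := by
    rintro ⟨α, hα⟩
    obtain ⟨k, hk, hk1⟩ := C.A_odd α
    rw [isOfFinOrder_iff_pow_eq_one]
    refine ⟨k, hk.pos, ?_⟩
    apply Subtype.ext
    exact hk1
  exact CommGroup.finite_of_fg_torsion _ ht

end

end CTorAux

open CTorAux

theorem cTor (h1 : S_CBasic) (h2 : S_CFin) (h3 : S_CUni) : S_CTor := by
  rintro C ⟨ρ, hρ⟩ ⟨w, hw, hw0, n, hn, hnw⟩
  obtain ⟨w₀, hw₀, hw₀0, ℓ, hℓ, hℓw⟩ := prime_order C.W n hn w hw hw0 hnw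
  have hℓ2 : ℓ ≠ 2 := by
    rintro rfl
    apply hw₀0
    apply C.no2
    rw [← two_nsmul]
    exact hℓw
  have hodd : Odd ℓ := hℓ.odd_of_ne_two hℓ2
  obtain ⟨B1, -, -, B4, -⟩ := h1 C
  obtain ⟨⟨ρ₁, hPb, hPc⟩, ⟨ρ₁', hPc', hPb'⟩⟩ := C.lemP ρ hρ
  obtain ⟨P, hP⟩ : ∃ P, P = C.r ρ₁ * C.δ * C.r ρ * C.δ⁻¹ := ⟨_, rfl⟩
  obtain ⟨P', hP'⟩ : ∃ P, P = C.r ρ₁' * C.δ * C.r ρ * C.δ⁻¹ := ⟨_, rfl⟩
  rw [← hP] at hPb hPc
  rw [← hP'] at hPb' hPc'
  obtain ⟨u, hu⟩ : ∃ u, u = P * C.δ * P⁻¹ * C.δ⁻¹ := ⟨_, rfl⟩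
  obtain ⟨u', hu'⟩ : ∃ u, u = P' * C.δ * P'⁻¹ * C.δ⁻¹ := ⟨_, rfl⟩
  have U := (h3 C ρ₁ ρ ℓ P u hodd hP hu).1 hPb
  have U' := (h3 C ρ₁' ρ ℓ P' u' hodd hP' hu').2 hPc'
  -- the finite subgroup of `A`
  haveI hfinA : Finite (Subgroup.closure ({ρ, ρ₁, ρ₁'} : Set C.A)) :=
    finite_closure C _ (Set.toFinite _)
  have hρm : ρ ∈ Subgroup.closure ({ρ, ρ₁, ρ₁'} : Set C.A) := Subgroup.subset_closure (by simp)
  have hρ₁m : ρ₁ ∈ Subgroup.closure ({ρ, ρ₁, ρ₁'} : Set C.A) := Subgroup.subset_closure (by simp)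
  have hρ₁m' : ρ₁' ∈ Subgroup.closure ({ρ, ρ₁, ρ₁'} : Set C.A) :=
    Subgroup.subset_closure (by simp)
  obtain ⟨M₀, hM₀, hwM, hkill, hMr, hMδ, hMδi⟩ :=
    h2 C w₀ ℓ hw₀ hℓ hℓ2 hℓw (Subgroup.closure ({ρ, ρ₁, ρ₁'} : Set C.A)) hfinA
  generalize Subgroup.closure ({ρ, ρ₁, ρ₁'} : Set C.A) = A₀ at hρm hρ₁m hρ₁m' hMr
  -- the group generated by the rotations of `A₀` and `δ`
  obtain ⟨Γ, hΓ⟩ : ∃ Γ : Subgroup C.Λ,
      Γ = Subgroup.closure (insert C.δ (C.r '' (A₀ : Set C.A))) := ⟨_, rfl⟩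
  have hδΓ : C.δ ∈ Γ := by
    rw [hΓ]
    exact Subgroup.subset_closure (Set.mem_insert _ _)
  have hrΓ : ∀ α ∈ A₀, C.r α ∈ Γ := by
    intro α hα
    rw [hΓ]
    exact Subgroup.subset_closure (Set.mem_insert_of_mem _ ⟨α, hα, rfl⟩)
  have hPΓ : P ∈ Γ := by
    rw [hP]
    exact Γ.mul_mem (Γ.mul_mem (Γ.mul_mem (hrΓ _ hρ₁m) hδΓ) (hrΓ _ hρm)) (Γ.inv_mem hδΓ)
  have hPΓ' : P' ∈ Γ := by
    rw [hP']
    exact Γ.mul_mem (Γ.mul_mem (Γ.mul_mem (hrΓ _ hρ₁m') hδΓ) (hrΓ _ hρm)) (Γ.inv_mem hδΓ)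
  have huΓ : u ∈ Γ := by
    rw [hu]
    exact Γ.mul_mem (Γ.mul_mem (Γ.mul_mem hPΓ hδΓ) (Γ.inv_mem hPΓ)) (Γ.inv_mem hδΓ)
  have huΓ' : u' ∈ Γ := by
    rw [hu']
    exact Γ.mul_mem (Γ.mul_mem (Γ.mul_mem hPΓ' hδΓ) (Γ.inv_mem hPΓ')) (Γ.inv_mem hδΓ)
  have hΓM : ∀ γ ∈ Γ, (∀ m ∈ M₀, C.act γ m ∈ M₀) ∧ ∀ m ∈ M₀, C.act γ⁻¹ m ∈ M₀ := by
    intro γ hγ
    rw [hΓ] at hγ
    induction hγ using Subgroup.closure_induction with
    | mem x hx =>
      rcases hx with hx | ⟨α, hα, rfl⟩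
      · rw [hx]
        exact ⟨hMδ, hMδi⟩
      · refine ⟨hMr α hα, ?_⟩
        rw [← map_inv]
        exact hMr α⁻¹ (A₀.inv_mem hα)
    | one =>
      rw [inv_one]
      have : ∀ m ∈ M₀, C.act 1 m ∈ M₀ := by
        intro m hm
        rwa [act_one]
      exact ⟨this, this⟩
    | mul x y _ _ hx hy =>
      refine ⟨fun m hm => ?_, fun m hm => ?_⟩
      · rw [act_mul]
        exact hx.1 _ (hy.1 m hm)
      · rw [mul_inv_rev, act_mul]
        exact hy.2 _ (hx.2 m hm)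
    | inv x _ hx =>
      refine ⟨hx.2, ?_⟩
      rw [inv_inv]
      exact hx.1
  -- the element `v`
  obtain ⟨v, hv⟩ : ∃ v, v = C.act (C.r ρ) w₀ - C.act (C.r ρ)⁻¹ w₀ := ⟨_, rfl⟩
  have hw₀c : w₀ ∈ C.Mp C.c := C.W_le hw₀
  have hjw : C.act C.j w₀ = w₀ := B1 w₀ hw₀c
  have hjv : C.act C.j v = -v := by
    rw [hv]
    exact B4 ρ w₀ hjw
  have hvkill : ℓ • v = 0 := by
    rw [hv, nsmul_sub, act_kill C hℓw, act_kill C hℓw, sub_zero]
  have hvM : v ∈ M₀ := by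
    rw [hv]
    have h5 := hΓM _ (hrΓ ρ hρm)
    exact M₀.sub_mem (h5.1 w₀ hwM) (h5.2 w₀ hwM)
  have hvb : v ∈ C.Mp C.b := by
    apply mem_of_double C hodd hvkill
    have h5 := AddSubgroup.neg_mem _ (C.act_jb v)
    rw [hjv] at h5
    have h6 : -(-v - v) = v + v := by abel
    rwa [h6] at h5
  have hv0 : v ≠ 0 := by
    intro h
    rw [hv, sub_eq_zero] at h
    have h5 : C.act (C.r (ρ * ρ)) w₀ = w₀ := by
      rw [map_mul, act_mul, h, ← act_mul, mul_inv_cancel, act_one]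
    have h6 : C.sm (C.r (ρ * ρ)) C.c = C.c := fix_of_elt C hw₀0 hw₀c h5
    exact hρ (sq_one C (C.r_c _ h6))
  -- nonzero killed elements
  have hex : ∀ p, ∃ m ∈ C.Mp p, m ≠ 0 ∧ ℓ • m = 0 := by
    intro p
    by_cases hp : C.ty p
    · obtain ⟨α, rfl⟩ := C.tr_b p hp
      exact ⟨C.act (C.r α) v, C.mp_sm _ _ _ hvb, act_ne C hv0, act_kill C hvkill _⟩
    · obtain ⟨α, rfl⟩ := C.tr_c p hp
      exact ⟨C.act (C.r α) w₀, C.mp_sm _ _ _ hw₀c, act_ne C hw₀0, act_kill C hℓw _⟩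
  -- the orbit of `b`
  obtain ⟨Ω, hΩ⟩ : ∃ Ω : Set C.L, Ω = {p | ∃ γ ∈ Γ, p = C.sm γ C.b} := ⟨_, rfl⟩
  have hmemΩ : ∀ p, p ∈ Ω ↔ ∃ γ ∈ Γ, p = C.sm γ C.b := by
    intro p
    rw [hΩ]
    rfl
  have hchoice : ∀ p : Ω, ∃ m : M₀, (m : C.M) ∈ C.Mp p ∧ (m : C.M) ≠ 0 := by
    rintro ⟨p, hp⟩
    obtain ⟨γ, hγ, rfl⟩ := (hmemΩ p).mp hp
    exact ⟨⟨C.act γ v, (hΓM γ hγ).1 v hvM⟩, C.mp_sm _ _ _ hvb, act_ne C hv0⟩
  choose f hf1 hf2 using hchoice
  haveI hfinΩ : Finite Ω := by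
    apply Finite.of_injective f
    intro p q hpq
    by_contra hne
    apply hf2 p
    apply C.disj p q (f p) (fun e => hne (Subtype.ext e)) (hf1 p)
    rw [hpq]
    exact hf1 q
  have hinv : ∀ k ∈ Γ, ∀ p ∈ Ω, C.sm k p ∈ Ω := by
    intro k hk p hp
    obtain ⟨γ, hγ, rfl⟩ := (hmemΩ p).mp hp
    rw [hmemΩ]
    exact ⟨k * γ, Γ.mul_mem hk hγ, (C.mul_sm k γ C.b).symm⟩
  have hbΩ : C.b ∈ Ω := (hmemΩ _).mpr ⟨1, Γ.one_mem, (C.one_sm _).symm⟩
  have htyΩ : ∀ p ∈ Ω, C.ty p := by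
    intro p hp
    obtain ⟨γ, hγ, rfl⟩ := (hmemΩ p).mp hp
    rw [C.ty_sm]
    exact C.ty_b
  have c1 := count C hℓ (uni_fix C U hex) Ω (hinv u huΓ)
  have c2 := count C hℓ (uni_fix C U' hex) Ω (hinv u' huΓ')
  -- the fixed points of `u`
  have hub : C.sm u C.b = C.b := by
    rw [hu, C.mul_sm, C.mul_sm, C.mul_sm, sm_inv_fix C C.δ_b, sm_inv_fix C hPb, C.δ_b, hPb]
  have huniq : ∀ p, C.sm u p = p → p = C.b := by
    intro p hp
    by_contra hpb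
    obtain ⟨m, hmp, hm0, hm⟩ := hex p
    have hum := uni_elt C U hpb hp hmp hm
    obtain ⟨mb, hmb, mc, hmc, hsum, hkb, hkc⟩ := split C hodd hm
    have h5 : C.act u mb = mb := (U mb hkb).2 hmb
    have h6 : C.act u mc = mc := by
      have h7 := hum
      rw [hsum, map_add, h5] at h7
      exact add_left_cancel h7
    have h7 : mc ≠ 0 := by
      intro h
      rw [h, add_zero] at hsum
      apply hm0
      apply C.disj p C.b m hpb hmp
      rw [hsum]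
      exact hmb
    have h8 := fix_of_elt C h7 hmc h6
    have h9 : C.sm C.δ (C.sm P⁻¹ C.c) = C.sm P⁻¹ C.c := by
      rw [hu, C.mul_sm, C.mul_sm, C.mul_sm, sm_inv_fix C C.δ_c] at h8
      have h10 := congrArg (C.sm P⁻¹) h8
      rwa [sm_inv_sm] at h10
    rcases C.δ_fix _ h9 with h | h
    · have h10 := C.ty_b
      rw [← h, C.ty_sm] at h10
      exact C.ty_c h10
    · apply hPc
      conv_lhs => rw [← h]
      exact sm_sm_inv C P C.c
  have n1 : Nat.card {p : Ω // C.sm u p = p} = 1 := by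
    rw [Nat.card_eq_one_iff_unique]
    refine ⟨⟨?_⟩, ⟨⟨⟨C.b, hbΩ⟩, hub⟩⟩⟩
    rintro ⟨⟨p, hp⟩, h⟩ ⟨⟨q, hq⟩, h'⟩
    have e1 := huniq p h
    have e2 := huniq q h'
    subst e1
    subst e2
    rfl
  -- the fixed points of `u'`
  have hnone : ∀ p ∈ Ω, C.sm u' p ≠ p := by
    intro p hpΩ hp
    have hpc : p ≠ C.c := by
      intro h
      apply C.ty_c
      rw [← h]
      exact htyΩ p hpΩ
    obtain ⟨m, hmp, hm0, hm⟩ := hex p
    have hum := uni_elt C U' hpc hp hmp hm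
    obtain ⟨mb, hmb, mc, hmc, hsum, hkb, hkc⟩ := split C hodd hm
    have h5 : C.act u' mc = mc := (U' mc hkc).2 hmc
    have h6 : C.act u' mb = mb := by
      have h7 := hum
      rw [hsum, map_add, h5] at h7
      exact add_right_cancel h7
    have h7 : mb ≠ 0 := by
      intro h
      rw [h, zero_add] at hsum
      apply hm0
      apply C.disj p C.c m hpc hmp
      rw [hsum]
      exact hmc
    have h8 := fix_of_elt C h7 hmb h6
    have h9 : C.sm C.δ (C.sm P'⁻¹ C.b) = C.sm P'⁻¹ C.b := by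
      rw [hu', C.mul_sm, C.mul_sm, C.mul_sm, sm_inv_fix C C.δ_b] at h8
      have h10 := congrArg (C.sm P'⁻¹) h8
      rwa [sm_inv_sm] at h10
    rcases C.δ_fix _ h9 with h | h
    · apply hPb'
      conv_lhs => rw [← h]
      exact sm_sm_inv C P' C.b
    · have h10 : C.ty (C.sm P'⁻¹ C.b) := by
        rw [C.ty_sm]
        exact C.ty_b
      rw [h] at h10
      exact C.ty_c h10
  have n2 : Nat.card {p : Ω // C.sm u' p = p} = 0 := by
    haveI : IsEmpty {p : Ω // C.sm u' p = p} := ⟨fun x => hnone x.1 x.1.2 x.2⟩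
    exact Nat.card_of_isEmpty
  rw [n1] at c1
  rw [n2] at c2
  have c3 : 1 ≡ 0 [MOD ℓ] := c1.symm.trans c2
  have c4 := (Nat.modEq_zero_iff_dvd).mp c3
  have c5 := Nat.le_of_dvd one_pos c4
  have := hℓ.two_le
  omega

end Pool.Agent.Klein
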