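import Mathlib

set_option autoImplicit false

/-!
# MP_3c9215_al: basic definitions for the geometry of involutions

`G` is a group with a homomorphism `τ` to the Klein four-group `K4`.  `Geo τ` says that all elements of
the kernel have odd order and that two commuting involutions of different nontrivial types have trivial
common centralizer in the kernel.  Points are the involutions outside the kernel.
-/

namespace Pool.Agent.Klein

/-- the Klein four-group of types -/
abbrev K4 := Multiplicative (ZMod 2 × ZMod 2)

/-- the standing hypothesis -/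
structure Geo {G : Type} [Group G] (τ : G →* K4) : Prop where
  odd : ∀ n : G, τ n = 1 → ∃ k : ℕ, Odd k ∧ n ^ k = 1
  fix : ∀ x y n : G, x * x = 1 → y * y = 1 → x * y = y * x → τ x ≠ 1 → τ y ≠ 1 → τ x ≠ τ y →
    τ n = 1 → n * x = x * n → n * y = y * n → n = 1
  ex : ∃ x y : G, x * x = 1 ∧ y * y = 1 ∧ x * y = y * x ∧ τ x ≠ 1 ∧ τ y ≠ 1 ∧ τ x ≠ τ y

/-- `x` is a point: an involution outside the kernel of `τ` -/
def IsPt {G : Type} [Group G] (τ : G →* K4) (x : G) : Prop := x * x = 1 ∧ τ x ≠ 1

/-- distinct and commuting -/
def Perp {G : Type} [Group G] (x y : G) : Prop := x * y = y * x ∧ x ≠ y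

/-- for `g` outside the kernel: the unique involution of the cyclic group generated by `g` -/
noncomputable def D {G : Type} [Group G] (g : G) : G := g ^ orderOf (g * g)

/-- square root of an element of odd order -/
noncomputable def sqr {G : Type} [Group G] (n : G) : G := n ^ ((orderOf n + 1) / 2)

/-- the centralizer of `x` in the kernel -/
def A {G : Type} [Group G] (τ : G →* K4) (x : G) : Subgroup G where
  carrier := {n | τ n = 1 ∧ n * x = x * n}
  mul_mem' := by
    rintro m n ⟨h1, h2⟩ ⟨h3, h4⟩
    refine ⟨by simp [h1, h3], ?_⟩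
    rw [mul_assoc, h4, ← mul_assoc, h2, mul_assoc]
  one_mem' := by simp
  inv_mem' := by
    rintro m ⟨h1, h2⟩
    refine ⟨by simp [h1], ?_⟩
    have : m⁻¹ * (m * x) * m⁻¹ = m⁻¹ * (x * m) * m⁻¹ := by rw [h2]
    simp only [inv_mul_cancel_left, mul_assoc, mul_inv_cancel, mul_one] at this
    exact this.symm

/-- the `A x`-component of an element of the kernel: `g = comp x g * i` with `x` inverting `i` -/
noncomputable def comp {G : Type} [Group G] (x g : G) : G := g * (sqr (x * (g⁻¹ * x * g)))⁻¹

end Pool.Agent.Klein
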