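import Pool.Agent.Lib.MP_3c9215_al.Spec1

set_option autoImplicit false

/-!
# MP_3c9215_al, part 2: collineations of the involution geometry (definitions)
-/

namespace Pool.Agent.Klein

lemma perm_apply_inv {α : Type*} (e : Equiv.Perm α) (x : α) : e (e⁻¹ x) = x := e.apply_symm_apply x

lemma perm_inv_apply {α : Type*} (e : Equiv.Perm α) (x : α) : e⁻¹ (e x) = x := e.symm_apply_apply x

variable {G : Type} [Group G]

/-- the type of points -/
def Pt (τ : G →* K4) : Type := {x : G // IsPt τ x}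

instance (τ : G →* K4) : CoeOut (Pt τ) G := ⟨Subtype.val⟩

lemma Pt.ext {τ : G →* K4} {x y : Pt τ} (h : (x : G) = y) : x = y := Subtype.ext h

/-- pairs of permutations of the points: the first acts on points, the second on (polars of) lines -/
abbrev PP (τ : G →* K4) : Type := Equiv.Perm (Pt τ) × Equiv.Perm (Pt τ)

/-- collineations: pairs of type preserving permutations with `x ⊥ y ↔ h.1 x ⊥ h.2 y` -/
def Coll (τ : G →* K4) : Subgroup (PP τ) where
  carrier := {h | (∀ x : Pt τ, τ (h.1 x : G) = τ (x : G)) ∧ (∀ x : Pt τ, τ (h.2 x : G) = τ (x : G)) ∧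
    ∀ x y : Pt τ, Perp (x : G) (y : G) ↔ Perp (h.1 x : G) (h.2 y : G)}
  mul_mem' := by
    rintro h k ⟨h1, h2, h3⟩ ⟨k1, k2, k3⟩
    refine ⟨fun x => ?_, fun x => ?_, fun x y => ?_⟩
    · rw [Prod.fst_mul, Equiv.Perm.mul_apply, h1, k1]
    · rw [Prod.snd_mul, Equiv.Perm.mul_apply, h2, k2]
    · rw [Prod.fst_mul, Equiv.Perm.mul_apply, Prod.snd_mul, Equiv.Perm.mul_apply, ← h3, ← k3]
  one_mem' := by
    refine ⟨fun x => rfl, fun x => rfl, fun x y => Iff.rfl⟩
  inv_mem' := by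
    rintro h ⟨h1, h2, h3⟩
    refine ⟨fun x => ?_, fun x => ?_, fun x y => ?_⟩
    · have := h1 (h.1⁻¹ x)
      rw [perm_apply_inv] at this
      exact this.symm
    · have := h2 (h.2⁻¹ x)
      rw [perm_apply_inv] at this
      exact this.symm
    · have := h3 (h.1⁻¹ x) (h.2⁻¹ y)
      rw [perm_apply_inv, perm_apply_inv] at this
      exact this.symm

lemma mem_Coll {τ : G →* K4} {h : PP τ} : h ∈ Coll τ ↔ (∀ x : Pt τ, τ (h.1 x : G) = τ (x : G)) ∧
    (∀ x : Pt τ, τ (h.2 x : G) = τ (x : G)) ∧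
    ∀ x y : Pt τ, Perp (x : G) (y : G) ↔ Perp (h.1 x : G) (h.2 y : G) := Iff.rfl

/-- conjugation by `g` as a permutation of the points -/
def cjPerm (τ : G →* K4) (g : G) : Equiv.Perm (Pt τ) where
  toFun x := ⟨g * x * g⁻¹, x.2.conj g⟩
  invFun x := ⟨g⁻¹ * x * g, by have := x.2.conj g⁻¹; rwa [inv_inv] at this⟩
  left_inv x := by apply Subtype.ext; simp [mul_assoc]
  right_inv x := by apply Subtype.ext; simp [mul_assoc]

/-- the homomorphism `G → PP τ`, `g ↦` (conjugation, conjugation) -/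
def cj (τ : G →* K4) : G →* PP τ where
  toFun g := (cjPerm τ g, cjPerm τ g)
  map_one' := by
    apply Prod.ext <;> apply Equiv.ext <;> intro x <;> apply Subtype.ext <;>
      simp [cjPerm]
  map_mul' g k := by
    apply Prod.ext <;> apply Equiv.ext <;> intro x <;> apply Subtype.ext <;>
      simp [cjPerm, mul_assoc]

lemma cj_fst (τ : G →* K4) (g : G) (x : Pt τ) : (((cj τ g).1 x : Pt τ) : G) = g * x * g⁻¹ := rfl

lemma cj_snd (τ : G →* K4) (g : G) (x : Pt τ) : (((cj τ g).2 x : Pt τ) : G) = g * x * g⁻¹ := rfl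

lemma Perp.conj_iff {x y : G} (g : G) : Perp x y ↔ Perp (g * x * g⁻¹) (g * y * g⁻¹) := by
  constructor
  · intro h; exact h.conj g
  · intro h
    have := h.conj g⁻¹
    simpa [mul_assoc] using this

lemma cj_mem (τ : G →* K4) (g : G) : cj τ g ∈ Coll τ := by
  refine ⟨fun x => ?_, fun x => ?_, fun x y => ?_⟩
  · rw [cj_fst, tau_conj]
  · rw [cj_snd, tau_conj]
  · rw [cj_fst, cj_snd]; exact Perp.conj_iff g

/-- the duality: exchange of the two components -/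
def star {τ : G →* K4} (h : PP τ) : PP τ := (h.2, h.1)

lemma star_mul {τ : G →* K4} (h k : PP τ) : star (h * k) = star h * star k := rfl

lemma star_star {τ : G →* K4} (h : PP τ) : star (star h) = h := rfl

lemma star_inv {τ : G →* K4} (h : PP τ) : star h⁻¹ = (star h)⁻¹ := rfl

lemma star_one {τ : G →* K4} : star (1 : PP τ) = 1 := rfl

lemma star_mem {τ : G →* K4} {h : PP τ} (hh : h ∈ Coll τ) : star h ∈ Coll τ := by
  obtain ⟨h1, h2, h3⟩ := hh
  refine ⟨h2, h1, fun x y => ?_⟩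
  constructor
  · intro hp; exact ((h3 y x).1 hp.symm).symm
  · intro hp; exact ((h3 y x).2 hp.symm).symm

/-- `s` is the homology `x ↦ D (σ x σ)` (used for `σ ∈ A O`; centre `O`, axis `O^⊥`) -/
def IsHml {τ : G →* K4} (σ : G) (s : PP τ) : Prop :=
  s ∈ Coll τ ∧ (∀ x : Pt τ, ((s.1 x : Pt τ) : G) = D (σ * x * σ)) ∧ s.2 = s.1⁻¹

/-- collineations with axis `O^⊥` (they fix all points perpendicular to `O`) -/
def HH {τ : G →* K4} (O : Pt τ) : Subgroup (PP τ) where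
  carrier := {h | h ∈ Coll τ ∧ ∀ x : Pt τ, Perp (x : G) (O : G) → h.1 x = x}
  mul_mem' := by
    rintro h k ⟨h1, h2⟩ ⟨k1, k2⟩
    refine ⟨(Coll τ).mul_mem h1 k1, fun x hx => ?_⟩
    rw [Prod.fst_mul, Equiv.Perm.mul_apply, k2 x hx, h2 x hx]
  one_mem' := ⟨(Coll τ).one_mem, fun x _ => rfl⟩
  inv_mem' := by
    rintro h ⟨h1, h2⟩
    refine ⟨(Coll τ).inv_mem h1, fun x hx => ?_⟩
    rw [Prod.fst_inv, Equiv.Perm.inv_eq_iff_eq, h2 x hx]

/-- elations with axis `O^⊥` and centre `p`: they fix all points perpendicular to `O`, and the second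
component fixes all points perpendicular to `p` (all lines through `p`) -/
def E {τ : G →* K4} (O p : Pt τ) : Subgroup (PP τ) where
  carrier := {h | h ∈ Coll τ ∧ (∀ x : Pt τ, Perp (x : G) (O : G) → h.1 x = x) ∧
    ∀ z : Pt τ, Perp (z : G) (p : G) → h.2 z = z}
  mul_mem' := by
    rintro h k ⟨h1, h2, h3⟩ ⟨k1, k2, k3⟩
    refine ⟨(Coll τ).mul_mem h1 k1, fun x hx => ?_, fun x hx => ?_⟩
    · rw [Prod.fst_mul, Equiv.Perm.mul_apply, k2 x hx, h2 x hx]
    · rw [Prod.snd_mul, Equiv.Perm.mul_apply, k3 x hx, h3 x hx]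
  one_mem' := ⟨(Coll τ).one_mem, fun x _ => rfl, fun x _ => rfl⟩
  inv_mem' := by
    rintro h ⟨h1, h2, h3⟩
    refine ⟨(Coll τ).inv_mem h1, fun x hx => ?_, fun x hx => ?_⟩
    · rw [Prod.fst_inv, Equiv.Perm.inv_eq_iff_eq, h2 x hx]
    · rw [Prod.snd_inv, Equiv.Perm.inv_eq_iff_eq, h3 x hx]

/-- the centre of `E O p` -/
def Wc {τ : G →* K4} (O p : Pt τ) : Subgroup (PP τ) where
  carrier := {h | h ∈ E O p ∧ ∀ k ∈ E O p, h * k = k * h}
  mul_mem' := by
    rintro h k ⟨h1, h2⟩ ⟨k1, k2⟩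
    refine ⟨(E O p).mul_mem h1 k1, fun l hl => ?_⟩
    rw [mul_assoc, k2 l hl, ← mul_assoc, h2 l hl, mul_assoc]
  one_mem' := ⟨(E O p).one_mem, fun k _ => by simp⟩
  inv_mem' := by
    rintro h ⟨h1, h2⟩
    refine ⟨(E O p).inv_mem h1, fun k hk => ?_⟩
    have e := h2 k hk
    calc h⁻¹ * k = h⁻¹ * (k * h) * h⁻¹ := by group
      _ = h⁻¹ * (h * k) * h⁻¹ := by rw [e]
      _ = k * h⁻¹ := by group

/-- the group generated by the centres of all `E O p`, `p ⊥ O` -/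
def MM {τ : G →* K4} (O : Pt τ) : Subgroup (PP τ) :=
  Subgroup.closure {h | ∃ p : Pt τ, Perp (p : G) (O : G) ∧ h ∈ Wc O p}

/-- stabilizer of the line `O^⊥` -/
def Stb {τ : G →* K4} (O : Pt τ) : Subgroup (PP τ) where
  carrier := {k | k ∈ Coll τ ∧ k.2 O = O}
  mul_mem' := by
    rintro h k ⟨h1, h2⟩ ⟨k1, k2⟩
    exact ⟨(Coll τ).mul_mem h1 k1, by rw [Prod.snd_mul, Equiv.Perm.mul_apply, k2, h2]⟩
  one_mem' := ⟨(Coll τ).one_mem, rfl⟩
  inv_mem' := by
    rintro h ⟨h1, h2⟩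
    exact ⟨(Coll τ).inv_mem h1, by rw [Prod.snd_inv, Equiv.Perm.inv_eq_iff_eq, h2]⟩

end Pool.Agent.Klein
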