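import Pool.Agent.Lib.MP_3c9215_al.Spec2

set_option autoImplicit false

/-!
# MP_3c9215_al, part 4: the unfused case reduces to `Geo`
-/

namespace Pool.Agent.Klein

/-- finite odd order -/
def OddO {G : Type} [Group G] (g : G) : Prop := ∃ k : ℕ, Odd k ∧ g ^ k = 1

/-- hypotheses of the unfused case: `G` periodic, `V = {1, a, b, ab}` self-centralizing four-group, its
involutions pairwise non-conjugate.  (Symmetric in the three involutions.) -/
structure UF {G : Type} [Group G] (a b : G) : Prop where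
  per : ∀ g : G, ∃ n : ℕ, 1 ≤ n ∧ g ^ n = 1
  aa : a * a = 1
  bb : b * b = 1
  ab : a * b = b * a
  a1 : a ≠ 1
  b1 : b ≠ 1
  ne : a ≠ b
  cent : ∀ g : G, g * a = a * g → g * b = b * g → g = 1 ∨ g = a ∨ g = b ∨ g = a * b
  nab : ∀ g : G, g * a * g⁻¹ ≠ b
  nac : ∀ g : G, g * a * g⁻¹ ≠ a * b
  nbc : ∀ g : G, g * b * g⁻¹ ≠ a * b

/-- **U1.** Structure of `H := C_G(a)`. Write `c = a b`.
Proof. For `h ∈ H` let `g := b (h⁻¹ b h) ∈ H`, inverted by `b` (it is a product of two involutions). If the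
order of `g` is even let `z ∈ ⟨g⟩` be the involution; it commutes with `a`, `b` and `h⁻¹ b h` (both involutions
invert `g`, so they centralize the unique involution of `⟨g⟩`), so `z ∈ {a, b, c}` (`cent`). `z = b`: then
`b ∈ ⟨g⟩` commutes with `g`, and inverts it, so `g² = 1`, `g = z = b`, `h⁻¹ b h = 1`, impossible. `z = c`:
`c` commutes with `h⁻¹ b h`, so does `a`, so `h⁻¹ b h ∈ {1, a, b, c}`, so `= b` (non-conjugate), `g = 1`,
impossible. So `z = a`. If `4` divides the order of `g` take `g₄ ∈ ⟨g⟩` of order `4`, `g₄² = a`, inverted by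
`b`: `g₄⁻¹ b g₄ = b g₄² = b a = c`, impossible. So the order of `g` is odd, or `g = a g₁` with `g₁ ∈ ⟨g⟩` of odd
order. In the second case let `r ∈ ⟨g₁⟩`, `r² = g₁` (`sqr g₁`), inverted by `b`, centralized by `a`, so inverted
by `c`: `h⁻¹ b h = b g = b a g₁ = c g₁ = r⁻¹ c r`, impossible (`nbc`). So:
(1a) `g = b (h⁻¹ b h)` has odd order for every `h ∈ H`; with `r ∈ ⟨g⟩`, `r² = g`: `h⁻¹ b h = b g = r⁻¹ b r`, so
`h r⁻¹ ∈ C(a) ∩ C(b)`, and
(1b) every `h ∈ H` is `v r`, `v ∈ {1, a, b, c}`, `r ∈ A₀ := {r ∈ H : odd order, b r b⁻¹ = r⁻¹}`.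
(1c) `A₀` is closed under products. `r, s ∈ A₀`: with `r' := sqr r` (`r'² = r`, inverted by `b`)
`r b = r' b r'⁻¹`, and with `s' := sqr s`, `b s = s'⁻¹ b s'`; so `r s = (r b)(b s)` is a product of two
conjugates of `b` under `H`, so it is conjugate to some `b (h⁻¹ b h)` and has odd order by (1a). Write
`r s = v t` by (1b). `v = b`: `b t` is an involution (`(b t)² = t⁻¹ t`), of order `2`; `v = c`: `c` inverts `t`,
`c t` is an involution; `v = a`: `a` commutes with `t`, and `(a t)^k` for odd `k` with `t^k = 1` is `a`, so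
`a t` has even order. All contradict the odd order (an element with an odd power equal to `1` and square `1` is
`1`, ...). So `v = 1`, `r s = t ∈ A₀`. Then `(r s)⁻¹ = b r s b⁻¹ = r⁻¹ s⁻¹` gives `s r = r s`. -/
def S_U1 : Prop := ∀ (G : Type) [Group G] (a b : G), UF a b →
  (∀ h : G, h * a = a * h → OddO (b * (h⁻¹ * b * h))) ∧
  (∀ h : G, h * a = a * h → ∃ v r : G, (v = 1 ∨ v = a ∨ v = b ∨ v = a * b) ∧ OddO r ∧ r * a = a * r ∧
    b * r * b⁻¹ = r⁻¹ ∧ h = v * r) ∧
  (∀ r s : G, OddO r → OddO s → r * a = a * r → s * a = a * s → b * r * b⁻¹ = r⁻¹ → b * s * b⁻¹ = s⁻¹ →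
    OddO (r * s) ∧ b * (r * s) * b⁻¹ = (r * s)⁻¹ ∧ r * s = s * r)

/-- **U2.** (i) Every involution of `C_G(a)` is `a`, or conjugate to `b` or to `a b` under `C_G(a)`.
(ii) every involution of `G` is conjugate to `a`, `b` or `a b`. (iii) if `x` and `y` are conjugate
involutions then `x y` has odd order. (iv) if `x`, `y` are involutions and `x y` has odd order then `x` and
`y` are conjugate.
Proof (uses `S_U1`, also for the pairs `(b, a)`, `(a b, a)`, ... : `UF` is symmetric in the three involutions;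
prove `UF b a`, `UF (a * b) a` etc. first).
(i) Write `h = v r` as in U1. `h² = 1`, `h ≠ 1`. `v = 1`: `r² = 1` and odd order, `r = 1`. `v = a`:
`r² = 1`, `r = 1`, `h = a`. `v = b`: `h = b r = r'⁻¹ b r'`, `r' = sqr r ∈ C(a)`. `v = a b`: the same.
(iv) `n := sqr (y x)` satisfies `n x n⁻¹ = y` as in `conj_of_tau_eq`.
(ii) If `a x` has odd order use (iv). Otherwise let `z` be the involution in `⟨a x⟩`; it commutes with `a` and
`x`. By (i) `z = a` or `z` is conjugate to `b` or `a b`; so after conjugation `x ∈ C(a)`, `C(b)` or `C(ab)` and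
(i) for that pair applies.
(iii) By (ii) we may assume `x ∈ {a, b, ab}`, say `x = a` (symmetry), `y` conjugate to `a`. If `a y` does not
have odd order, let `z` be the involution in `⟨a y⟩`, it commutes with `a` and `y`. If `z = a` then `y ∈ C(a)`,
so `y = a` or `y` is conjugate to `b` or `ab` by (i); by `nab`, `nac` `y = a`, `a y = 1` has odd order. If
`z ≠ a`, by (i) `z` is conjugate to `b` or `a b` under `C(a)`, say to `b` (symmetry); conjugating by this
element of `C(a)` we may assume `z = b`, so `y ∈ C(b)`. By U1 for the pair `(b, a)`: `y = v r`,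
`v ∈ {1, b, a, ba}`, `r` of odd order, centralized by `b` and inverted by `a`. `y² = 1`, `y ≠ 1`: `v = 1` is
impossible; `v = b`: `y = b`, not conjugate to `a`; `v = b a`: `y = (b a) r` is conjugate to `b a` (`b a`
inverts `r`), not to `a`; so `v = a`, `a y = r` has odd order. -/
def S_U2 : Prop := ∀ (G : Type) [Group G] (a b : G), UF a b →
  (∀ h : G, h * a = a * h → h * h = 1 → h ≠ 1 →
    h = a ∨ (∃ k : G, k * a = a * k ∧ k * b * k⁻¹ = h) ∨ (∃ k : G, k * a = a * k ∧ k * (a * b) * k⁻¹ = h)) ∧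
  (∀ x : G, x * x = 1 → x ≠ 1 → ∃ k : G, k * x * k⁻¹ = a ∨ k * x * k⁻¹ = b ∨ k * x * k⁻¹ = a * b) ∧
  (∀ x k : G, x * x = 1 → x ≠ 1 → OddO (x * (k * x * k⁻¹))) ∧
  (∀ x y : G, x * x = 1 → y * y = 1 → OddO (x * y) → ∃ k : G, k * x * k⁻¹ = y)

/-- **U3.** There is a subgroup of index `2` containing `a` and not `b`.
Proof (uses `S_U1`, `S_U2`). Let `A₀ := {r : odd order, r a = a r, b r b⁻¹ = r⁻¹}`, a subgroup (U1), and `I` the
set of elements `i` of odd order with `a i a⁻¹ = i⁻¹`. `C(a) = {1, a, b, ab} A₀` (U1).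
(1) Every `g ∈ G` is `h i` with `h ∈ C(a)`, `i ∈ I`: `x := g⁻¹ a g`; `a x` has odd order (U2 (iii)), inverted by
`a`; `i := sqr (a x)`, `i² = a x`, `i⁻¹ a i = a i² = x`, so `g i⁻¹ ∈ C(a)`. The decomposition is unique
(`g⁻¹ a g = a i²` determines `i`).
(2) Let `K := {α i, a α i : α ∈ A₀, i ∈ I}`. Closed under products: `A₀⟨a⟩` normalizes `I` (it commutes with
`a`), so it is enough that `i i' ∈ K` for `i, i' ∈ I`. `a i` and `i' a` are involutions conjugate to `a`
(`a i = i''⁻¹ a i''` with `i'' = sqr i`), and `i i' = a (a i)(i' a) a⁻¹`, so `i i'` has odd order (U2 (iii):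
both are conjugate). Write `i i' = h k`, `h ∈ C(a)`, `k ∈ I`. If `h = b α` or `h = a b α`, `α ∈ A₀`, then `h a`
is an involution conjugate to `a b` or `b` (`b α a = (a b) α`, ...), `a k` is an involution conjugate to `a`, and
`h k = (h a)(a k)` has odd order, so by U2 (iv) `h a` and `a k` are conjugate, contradicting `nac`, `nab`. So
`h ∈ A₀ ∪ a A₀`, `i i' ∈ K`. Inverses: `(h i)⁻¹ = h⁻¹ (h i⁻¹ h⁻¹)`. `a ∈ K`. `b ∉ K`: `b = h i` with
`h ∈ A₀⟨a⟩` gives `i ∈ C(a)`, inverted by `a`: `i² = 1`, `i = 1`, `b = h ∈ A₀ ∪ a A₀`: `b = α` has odd order,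
impossible; `b = a α`: `α = a b` has order `2`, impossible. `G = K ∪ b K` by (1) (`a b α i = b (a α) i`), so the
index is `2`. -/
def S_U3 : Prop := ∀ (G : Type) [Group G] (a b : G), UF a b →
  ∃ K : Subgroup G, K.index = 2 ∧ a ∈ K ∧ b ∉ K

/-- **Unfused.** `UF a b` gives `τ : G →* K4` with `Geo τ`.
Proof (uses `S_U2`, `S_U3`). By U3 for `(a, b)` and for `(b, a)` there are subgroups `K ∋ a`, `b ∉ K` and
`L ∋ b`, `a ∉ L` of index `2`, so normal; let `χ_K, χ_L : G → ℤ/2` have kernels `K`, `L` and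
`τ := (χ_K, χ_L)`: `τ b = (1, 0)`, `τ a = (0, 1)` (additively). `ker τ = K ∩ L` contains no involution: every
involution is conjugate to `a ∉ L`, `b ∉ K` or `a b ∉ K` (U2 (ii)), `K`, `L` normal. So its elements have odd
order (if the order of `n` is even a power of `n` is an involution). `ex`: `a`, `b`.
`fix`: first, the pair can be conjugated: let `x, y` be commuting involutions, `τ x ≠ 1`, `τ y ≠ 1`,
`τ x ≠ τ y`. As `τ` separates `a, b, ab` and is constant on conjugacy classes, there is `v ∈ {a, b, ab}` with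
`τ v = τ x`, and `x v ∈ ker τ` has odd order, so `x` is conjugate to `v` by `n = sqr (v x)` (as in
`conj_of_tau_eq`, which only needs odd order); so we may assume `x = v`. Then let `w ∈ {a, b, ab}`, `τ w = τ y`,
`w ≠ v`: `w y ∈ ker τ` commutes with `v` and `sqr (w y)` conjugates `y` to `w` and commutes with `v`. So we may
assume `x = v`, `y = w`, two different involutions among `a, b, ab`. If `n ∈ ker τ` commutes with both, it
commutes with `a` and `b`, so `n ∈ {1, a, b, ab} ∩ ker τ = 1` (`cent`). -/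
def S_Unfused : Prop := ∀ (G : Type) [Group G] (a b : G), UF a b →
  ∃ τ : G →* K4, Geo τ ∧ τ a ≠ 1 ∧ τ b ≠ 1 ∧ τ a ≠ τ b

end Pool.Agent.Klein
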