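import Pool.Agent.Lib.MP_3c9215_al.SpecCore
import Pool.Agent.Lib.MP_3c9215_al.SpecU

set_option autoImplicit false

/-!
# MP_3c9215_al: the unfused case, from `S_LF` and `S_Unfused`
-/

namespace Pool.Agent.Klein

/-- the hypotheses of the problem in the unfused case give `UF a b` -/
lemma uf_of_hyp (G : Type) [Group G] (hG : Monoid.IsTorsion G) (V : Subgroup G) (hV : Nat.card V = 4)
    (hc : ¬ IsCyclic V) (hcent : Subgroup.centralizer (V : Set G) = V)
    (hu : ∀ v ∈ V, ∀ w ∈ V, IsConj v w → v = w) : ∃ a b : G, UF a b := by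
  have hfin : Finite V := Nat.finite_of_card_ne_zero (by omega)
  have hexp : ∀ v ∈ V, v * v = 1 := by
    intro v hv
    have h1 : orderOf (⟨v, hv⟩ : V) ∣ 4 := by
      rw [← hV]
      exact orderOf_dvd_natCard _
    have h2 : orderOf (⟨v, hv⟩ : V) ≠ 4 := by
      intro e
      apply hc
      exact isCyclic_of_orderOf_eq_card (⟨v, hv⟩ : V) (by rw [e, hV])
    have h3 : orderOf (⟨v, hv⟩ : V) ∣ 2 := by
      have h4 : orderOf (⟨v, hv⟩ : V) ≤ 4 := Nat.le_of_dvd (by norm_num) h1
      generalize orderOf (⟨v, hv⟩ : V) = n at h1 h2 h4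
      interval_cases n <;> first | omega | (revert h1 h2; decide)
    have h4 := orderOf_dvd_iff_pow_eq_one.1 h3
    have h5 := congrArg Subtype.val h4
    simpa [pow_two] using h5
  obtain ⟨a, ha1⟩ : ∃ a : V, a ≠ 1 := by
    have : Nontrivial V := Finite.one_lt_card_iff_nontrivial.1 (by omega)
    exact exists_ne 1
  have hne : ∃ b : V, b ≠ 1 ∧ b ≠ a := by
    by_contra hcon
    push Not at hcon
    have hs : (Set.univ : Set V) ⊆ {1, a} := by
      intro b _
      by_cases hb : b = 1
      · exact Or.inl hb
      · exact Or.inr (hcon b hb)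
    have h1 : Set.ncard (Set.univ : Set V) ≤ Set.ncard ({1, a} : Set V) :=
      Set.ncard_le_ncard hs (Set.toFinite _)
    rw [Set.ncard_univ, hV] at h1
    have h2 := Set.ncard_insert_le (1 : V) {a}
    rw [Set.ncard_singleton] at h2
    omega
  obtain ⟨b, hb1, hba⟩ := hne
  have haa : (a : G) * a = 1 := hexp _ a.2
  have hbb : (b : G) * b = 1 := hexp _ b.2
  have hab1 : (a : G) * b * (a * b) = 1 := hexp _ (V.mul_mem a.2 b.2)
  have hai : (a : G)⁻¹ = a := inv_eq_of_mul_eq_one_left haa
  have hbi : (b : G)⁻¹ = b := inv_eq_of_mul_eq_one_left hbb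
  have hab : (a : G) * b = b * a := by
    have h1 : ((a : G) * b)⁻¹ = a * b := inv_eq_of_mul_eq_one_left hab1
    rw [← h1, mul_inv_rev, hai, hbi]
  have ha1' : (a : G) ≠ 1 := fun e => ha1 (Subtype.ext e)
  have hb1' : (b : G) ≠ 1 := fun e => hb1 (Subtype.ext e)
  have hba' : (a : G) ≠ b := fun e => hba (Subtype.ext e.symm)
  -- `V` is `1, a, b, ab`
  have hall : ∀ v ∈ V, v = 1 ∨ v = (a : G) ∨ v = (b : G) ∨ v = (a : G) * b := by
    classical
    intro v hv
    by_contra hcon
    push Not at hcon
    obtain ⟨c1, c2, c3, c4⟩ := hcon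
    have hinj : Function.Injective (![1, a, b, a * b, ⟨v, hv⟩] : Fin 5 → V) := by
      intro i j hij
      have hij' := congrArg (Subtype.val) hij
      have e1 : (a : G) * b ≠ 1 := by
        intro e
        apply hba'
        calc (a : G) = a * b * (b : G)⁻¹ := by rw [mul_inv_cancel_right]
          _ = (b : G)⁻¹ := by rw [e, one_mul]
          _ = b := hbi
      have e2 : (a : G) * b ≠ a := by
        intro e
        apply hb1'
        simpa using e
      have e3 : (a : G) * b ≠ b := by
        intro e
        apply ha1'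
        simpa using e
      fin_cases i <;> fin_cases j <;>
        first
        | rfl
        | (exfalso; revert hij'; simp only [Fin.zero_eta, Fin.mk_one, Fin.isValue,
            Matrix.cons_val_zero, Matrix.cons_val_one, Matrix.cons_val, Fin.reduceFinMk]; 
           first
           | exact fun e => ha1' e
           | exact fun e => ha1' e.symm
           | exact fun e => hb1' e
           | exact fun e => hb1' e.symm
           | exact fun e => hba' e
           | exact fun e => hba' e.symm
           | exact fun e => e1 e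
           | exact fun e => e1 e.symm
           | exact fun e => e2 e
           | exact fun e => e2 e.symm
           | exact fun e => e3 e
           | exact fun e => e3 e.symm
           | exact fun e => c1 e
           | exact fun e => c1 e.symm
           | exact fun e => c2 e
           | exact fun e => c2 e.symm
           | exact fun e => c3 e
           | exact fun e => c3 e.symm
           | exact fun e => c4 e
           | exact fun e => c4 e.symm)
    have := Nat.card_le_card_of_injective _ hinj
    rw [hV, Nat.card_eq_fintype_card, Fintype.card_fin] at this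
    omega
  have hcab : ∀ g : G, g * a = a * g → g * b = b * g → g ∈ V := by
    intro g h1 h2
    rw [← hcent, Subgroup.mem_centralizer_iff]
    intro v hv
    rcases hall v hv with e | e | e | e
    · rw [e]; simp
    · rw [e, h1]
    · rw [e, h2]
    · rw [e, mul_assoc, ← h2, ← mul_assoc, ← h1, mul_assoc]
  have hconj : ∀ v w g : G, v ∈ V → w ∈ V → g * v * g⁻¹ = w → v = w := by
    intro v w g hv hw e
    exact hu v hv w hw (isConj_iff.2 ⟨g, e⟩)
  refine ⟨a, b, ?_, haa, hbb, hab, ha1', hb1', hba', ?_, ?_, ?_, ?_⟩
  · intro g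
    obtain ⟨n, hn, hn'⟩ := isOfFinOrder_iff_pow_eq_one.1 (hG g)
    exact ⟨n, hn, hn'⟩
  · intro g h1 h2
    exact hall g (hcab g h1 h2)
  · intro g e
    exact hba' (hconj _ _ g a.2 b.2 e)
  · intro g e
    have := hconj _ _ g a.2 (V.mul_mem a.2 b.2) e
    apply hb1'
    simpa using this.symm
  · intro g e
    have := hconj _ _ g b.2 (V.mul_mem a.2 b.2) e
    apply ha1'
    simpa using this.symm

/-- the unfused case -/
theorem unfused_lf (h1 : S_LF) (h2 : S_Unfused) :
    ∀ (G : Type) [Group G], Monoid.IsTorsion G →
      ∀ V : Subgroup G, Nat.card V = 4 → ¬ IsCyclic V →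
        Subgroup.centralizer (V : Set G) = V →
          (∀ v ∈ V, ∀ w ∈ V, IsConj v w → v = w) →
            ∀ H : Subgroup G, H.FG → Finite H := by
  intro G _ hG V hV hc hcent hu H hH
  obtain ⟨a, b, hab⟩ := uf_of_hyp G hG V hV hc hcent hu
  obtain ⟨τ, hτ, -⟩ := h2 G a b hab
  exact h1 G τ hτ H hH

end Pool.Agent.Klein
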