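import Pool.Agent.Lib.MP_3c9215_al.Spec2

set_option autoImplicit false

/-!
# MP_3c9215_al: consequences of nondegeneracy
-/

namespace Pool.Agent.Klein

private lemma fix1_i {G : Type} [Group G] {τ : G →* K4} (h : Geo τ) (nd : ND τ) {x f n : G}
    (hx : IsPt τ x) (hf : f ∈ A τ x) (hf1 : f ≠ 1) (hn : τ n = 1) (hnf : n * f = f * n) :
    n ∈ A τ x := by
  obtain ⟨y, hy, hxy⟩ := exists_perp' h hx
  have hz : IsPt τ (x * y) := hxy.mul_isPt h hx hy
  have hxz : Perp x (x * y) := hxy.mul_right h hx hy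
  have hyz : Perp y (x * y) := hxy.mul_right' h hx hy
  have hyf : y * f * y⁻¹ = f⁻¹ := A_inverted h hx hy hxy hf
  have hb : IsPt τ (n⁻¹ * y * n) := by
    have := hy.conj n⁻¹
    rwa [inv_inv] at this
  have hbt : τ (n⁻¹ * y * n) = τ y := tau_conj' n y
  have hne : τ x ≠ τ (n⁻¹ * y * n) := by
    rw [hbt]
    exact hxy.tau_ne h hx hy
  have hk : IsPt τ (D (x * (n⁻¹ * y * n))) := wedge_isPt h hx hb hne
  have hkx : Perp (D (x * (n⁻¹ * y * n))) x := wedge_perp_left h hx hb hne
  have hkb : Perp (D (x * (n⁻¹ * y * n))) (n⁻¹ * y * n) := wedge_perp_right h hx hb hne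
  have hkt : τ (D (x * (n⁻¹ * y * n))) = τ (x * y) := by
    rw [wedge_tau h, hbt, map_mul]
  obtain ⟨α, hα, hαk⟩ := conj_of_perp h hk hz hkx.symm hxz hkt
  set b := α * (n⁻¹ * y * n) * α⁻¹ with hbdef
  have hzb : Perp (x * y) b := by
    have := hkb.conj α
    rwa [hαk] at this
  have hbt2 : τ b = τ y := by rw [hbdef, tau_conj, hbt]
  have hαf : α * f = f * α := A_comm h hx hα hf
  -- `b` inverts `f`
  have hαf' : α⁻¹ * f * α = f := by rw [mul_assoc, ← hαf]; group
  have hnf' : n * f * n⁻¹ = f := by rw [hnf]; group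
  have hbf : b * f * b⁻¹ = f⁻¹ := by
    calc b * f * b⁻¹ = α * n⁻¹ * y * (n * (α⁻¹ * f * α) * n⁻¹) * y⁻¹ * n * α⁻¹ := by
          rw [hbdef]; group
      _ = α * n⁻¹ * (y * f * y⁻¹) * n * α⁻¹ := by rw [hαf', hnf']; group
      _ = (α * (n⁻¹ * f * n) * α⁻¹)⁻¹ := by rw [hyf]; group
      _ = f⁻¹ := by
          have e1 : n⁻¹ * f * n = f := by rw [mul_assoc, ← hnf]; group
          have e2 : α * f * α⁻¹ = f := by rw [hαf]; group
          rw [e1, e2]
  have hybf : (y * b) * f = f * (y * b) := by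
    have e1 : b * f = f⁻¹ * b := by
      have := congrArg (fun w => w * b) hbf
      simpa [mul_assoc] using this
    have e2 : y * f⁻¹ = f * y := by
      have := congrArg (fun w => w⁻¹ * y) hyf
      simpa [mul_assoc] using this
    calc (y * b) * f = y * (b * f) := by group
      _ = (y * f⁻¹) * b := by rw [e1]; group
      _ = f * (y * b) := by rw [e2]; group
  have hyb : y * b ∈ A τ (x * y) := perp_mul_mem_A hyz.symm hzb hbt2.symm
  have hγ : sqr (y * b) ∈ A τ (x * y) := ⟨sqr_tau hyb.1, sqr_comm hyb.2⟩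
  have hγf : sqr (y * b) * f = f * sqr (y * b) := sqr_comm hybf
  have hγ1 : sqr (y * b) = 1 := by
    rcases nd x (x * y) f (sqr (y * b)) hx hz hxz hf hγ hγf.symm with h1 | h1
    · exact absurd h1 hf1
    · exact h1
  have hyb1 : y * b = 1 := by
    rw [← sqr_sq h hyb.1, hγ1, one_mul]
  have hby : b = y := by
    have := (eq_inv_of_mul_eq_one_right hyb1)
    rw [this, hy.inv_eq]
  -- `n * α⁻¹` commutes with `y`
  have hm : (n * α⁻¹) * y = y * (n * α⁻¹) := by
    have e : α * (n⁻¹ * y * n) * α⁻¹ = y := by rw [← hbdef]; exact hby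
    calc (n * α⁻¹) * y = (n * α⁻¹) * (α * (n⁻¹ * y * n) * α⁻¹) := by rw [e]
      _ = y * (n * α⁻¹) := by group
  have hmA : n * α⁻¹ ∈ A τ y := ⟨by rw [map_mul, map_inv, hn, hα.1]; simp, hm⟩
  have hmf : f * (n * α⁻¹) = (n * α⁻¹) * f := by
    have e2 : α⁻¹ * f = f * α⁻¹ := by
      calc α⁻¹ * f = α⁻¹ * (f * α) * α⁻¹ := by group
        _ = α⁻¹ * (α * f) * α⁻¹ := by rw [hαf]
        _ = f * α⁻¹ := by group
    calc f * (n * α⁻¹) = (f * n) * α⁻¹ := by group
      _ = n * (f * α⁻¹) := by rw [← hnf]; group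
      _ = (n * α⁻¹) * f := by rw [← e2]; group
  rcases nd x y f (n * α⁻¹) hx hy hxy hf hmA hmf with h1 | h1
  · exact absurd h1 hf1
  · have : n = α := by
      have := congrArg (fun w => w * α) h1
      simpa using this
    rw [this]
    exact hα

private lemma fix1_ii {G : Type} [Group G] {τ : G →* K4} (h : Geo τ) (nd : ND τ) {x f x' : G}
    (hx : IsPt τ x) (hx' : IsPt τ x') (hf : f ∈ A τ x) (hf1 : f ≠ 1) (hxf : x' * f = f * x') :
    x' = x := by
  by_cases ht : τ x = τ x'
  · have hk : τ (x * x') = 1 := by rw [map_mul, ← ht, k4_sq]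
    have hc : (x * x') * f = f * (x * x') := by
      rw [mul_assoc, hxf, ← mul_assoc, ← hf.2, mul_assoc]
    have hA := fix1_i h nd hx hf hf1 hk hc
    have hcomm : x' * x = x * x' := by
      have e := hA.2
      rw [mul_assoc] at e
      exact mul_left_cancel e
    have h2 : (x * x') * (x * x') = 1 := by
      calc (x * x') * (x * x') = x * (x' * x) * x' := by group
        _ = (x * x) * (x' * x') := by rw [hcomm]; group
        _ = 1 := by rw [hx.1, hx'.1, one_mul]
    have h3 := ker_eq_one_of_sq h hk h2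
    have := eq_inv_of_mul_eq_one_right h3
    rw [this, hx.inv_eq]
  · exfalso
    have hw := wedge_isPt h hx hx' ht
    have hwx := wedge_perp_left h hx hx' ht
    have hc : f * (x * x') = (x * x') * f := by
      rw [mul_assoc, hxf, ← mul_assoc, hf.2, mul_assoc]
    have hfw : f * D (x * x') = D (x * x') * f := D_comm_of_comm hc
    have hinv := A_inverted h hx hw hwx.symm hf
    have e : D (x * x') * f * (D (x * x'))⁻¹ = f := by rw [← hfw]; group
    rw [e] at hinv
    apply hf1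
    apply ker_eq_one_of_sq h hf.1
    nth_rewrite 1 [hinv]
    exact inv_mul_cancel f

theorem fix1 : S_Fix1 := by
  intro G _ τ h nd
  refine ⟨fun x f n hx hf hf1 hn hnf => fix1_i h nd hx hf hf1 hn hnf,
    fun x f x' hx hx' hf hf1 hxf => fix1_ii h nd hx hx' hf hf1 hxf, ?_⟩
  intro x x' z z' hx hx' hz hz' hne h1 h2 h3 h4
  by_cases ht : τ x = τ x'
  · have hf1 : x * x' ≠ 1 := by
      intro e
      apply hne
      have := eq_inv_of_mul_eq_one_right e
      rw [this, hx.inv_eq]
    have hfz : x * x' ∈ A τ z := perp_mul_mem_A h1 h2 ht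
    have hfz' : x * x' ∈ A τ z' := perp_mul_mem_A h3 h4 ht
    exact (fix1_ii h nd hz hz' hfz hf1 hfz'.2.symm).symm
  · rw [wedge_unique h hx hx' hz ht h1 h2, wedge_unique h hx hx' hz' ht h3 h4]

end Pool.Agent.Klein
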