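import Pool.Agent.Lib.MP_3c9215_al.Spec2

set_option autoImplicit false

/-!
# MP_3c9215_al: the relation between a homology, a rotation and `MM O`
-/

namespace Pool.Agent.Klein

section
variable {G : Type} [Group G] {τ : G →* K4}

lemma mr_eq_of_comm (h : Geo τ) {x y : Pt τ} (hc : (x : G) * y = y * x)
    (ht : τ (x : G) = τ (y : G)) : x = y := by
  by_contra hne
  have hp : Perp (x : G) (y : G) := ⟨hc, fun e => hne (Pt.ext e)⟩
  exact hp.tau_ne h x.2 y.2 ht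

lemma mr_cj_fix {g : G} {y : Pt τ} (hc : g * (y : G) = y * g) :
    (cj τ g).1 y = y ∧ (cj τ g).2 y = y := by
  have : g * (y : G) * g⁻¹ = y := by rw [hc]; group
  exact ⟨Pt.ext this, Pt.ext this⟩

lemma mr_unique (h : Geo τ) {x y z z' : Pt τ} (ht : τ (x : G) ≠ τ (y : G))
    (h1 : Perp (z : G) (x : G)) (h2 : Perp (z : G) (y : G)) (h3 : Perp (z' : G) (x : G))
    (h4 : Perp (z' : G) (y : G)) : z = z' :=
  Pt.ext ((wedge_unique h x.2 y.2 z.2 ht h1 h2).trans (wedge_unique h x.2 y.2 z'.2 ht h3 h4).symm)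

lemma mr_inv_fst {k : PP τ} {x y : Pt τ} (e : k.1 x = y) : (k⁻¹).1 y = x := by
  rw [Prod.fst_inv, Equiv.Perm.inv_eq_iff_eq, e]

lemma mr_inv_snd {k : PP τ} {x y : Pt τ} (e : k.2 x = y) : (k⁻¹).2 y = x := by
  rw [Prod.snd_inv, Equiv.Perm.inv_eq_iff_eq, e]

lemma mr_step1 (h2 : S_EConj) (h3 : S_MBasic) (h : Geo τ) (hnd : ND τ) (hnt : NT τ)
    (O p q : Pt τ) (hpO : Perp (p : G) (O : G)) (hq : (q : G) = O * p) (H w : PP τ)
    (hH : H ∈ Stb O) (hHO : H.1 O = O) (ρ : G) (hρ : ρ ∈ A τ (O : G))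
    (hHx : ∀ x : Pt τ, ((H.1 x : Pt τ) : G) = D ((x : G) * (ρ * ρ))) (hw : w ∈ MM O)
    (hwq : w * cj τ (q : G) = cj τ (q : G) * w) :
    (w⁻¹ * (H * w * H⁻¹)) * cj τ (p : G) = cj τ (p : G) * (w⁻¹ * (H * w * H⁻¹)) := by
  obtain ⟨_, _, _, e4, _, _⟩ := h2 G τ h O
  obtain ⟨mb1, mb2, mb3, mb4⟩ := h3 G τ h hnd hnt O
  have hOp : Perp (O : G) (p : G) := hpO.symm
  have hOq : Perp (O : G) (q : G) := by rw [hq]; exact hOp.mul_right h O.2 p.2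
  have hpq : Perp (p : G) (q : G) := by rw [hq]; exact hOp.mul_right' h O.2 p.2
  have hwC : w ∈ Coll τ := (mb2 w hw).1
  have hwf : ∀ x : Pt τ, Perp (x : G) (O : G) → w.1 x = x := (mb2 w hw).2
  have hwC' : w⁻¹ ∈ Coll τ := (Coll τ).inv_mem hwC
  obtain ⟨x, hx⟩ : ∃ x, x = w.1 O := ⟨_, rfl⟩
  have hxt : τ (x : G) = τ (O : G) := by rw [hx]; exact hwC.1 O
  have hxq : (cj τ (q : G)).1 x = x := by
    have e := congrArg (fun k : PP τ => k.1 O) hwq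
    have e2 : w.1 ((cj τ (q : G)).1 O) = (cj τ (q : G)).1 (w.1 O) := e
    rw [(mr_cj_fix (τ := τ) (g := (q : G)) (y := O) hOq.1.symm).1, ← hx] at e2
    exact e2.symm
  have hqx0 : (q : G) * x * (q : G)⁻¹ = x := by
    have := congrArg (fun y : Pt τ => (y : G)) hxq
    exact this
  have hqx : (q : G) * x = x * q := by
    calc (q : G) * x = ((q : G) * x * (q : G)⁻¹) * q := by group
      _ = x * q := by rw [hqx0]
  have hqxP : Perp (q : G) (x : G) := by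
    apply perp_of_comm_of_tau_ne (τ := τ) hqx
    rw [hxt]
    exact (hOq.tau_ne h O.2 q.2).symm
  obtain ⟨r, hr⟩ : ∃ r : Pt τ, (r : G) = q * x := ⟨⟨(q : G) * x, hqxP.mul_isPt h q.2 x.2⟩, rfl⟩
  have hqr : Perp (q : G) (r : G) := by rw [hr]; exact hqxP.mul_right h q.2 x.2
  have hxr : Perp (x : G) (r : G) := by rw [hr]; exact hqxP.mul_right' h q.2 x.2
  have hqt : τ (q : G) = τ (O : G) * τ (p : G) := by rw [hq, map_mul]
  have hrt : τ (r : G) = τ (p : G) := by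
    rw [hr, map_mul, hxt, hqt, mul_comm (τ (O : G)) (τ (p : G)), mul_assoc, k4_sq, mul_one]
  -- `r` is perpendicular to `H.1 x`
  have hqρ : (q : G) * ρ * (q : G)⁻¹ = ρ⁻¹ := A_inverted h O.2 q.2 hOq hρ
  have hinv : (r : G) * ((x : G) * (ρ * ρ)) * (r : G)⁻¹ = ((x : G) * (ρ * ρ))⁻¹ := by
    rw [hr]
    have hxx : (x : G)⁻¹ = x := x.2.inv_eq
    calc (q : G) * x * ((x : G) * (ρ * ρ)) * ((q : G) * x)⁻¹
        = (q : G) * ((x : G) * x) * (ρ * ρ) * (x : G)⁻¹ * (q : G)⁻¹ := by group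
      _ = (q : G) * (ρ * ρ) * x * (q : G)⁻¹ := by rw [x.2.1, hxx, mul_one]
      _ = ((q : G) * ρ * (q : G)⁻¹) * ((q : G) * ρ * (q : G)⁻¹) * ((q : G) * x * (q : G)⁻¹) := by
        group
      _ = ρ⁻¹ * ρ⁻¹ * x := by rw [hqρ, hqx0]
      _ = ρ⁻¹ * ρ⁻¹ * (x : G)⁻¹ := by rw [hxx]
      _ = ((x : G) * (ρ * ρ))⁻¹ := by group
  have hrH : Perp (r : G) ((H.1 x : Pt τ) : G) := by
    apply perp_of_comm_of_tau_ne (τ := τ)
    · rw [hHx]; exact D_comm_of_inverts hinv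
    · rw [hrt, hH.1.1 x, hxt]; exact hpO.tau_ne h p.2 O.2
  -- `w⁻¹.2 r = p`
  have hwO : (w⁻¹).1 x = O := mr_inv_fst hx.symm
  have hwq1 : (w⁻¹).1 q = q := mr_inv_fst (hwf q hOq.symm)
  have hwr : (w⁻¹).2 r = p := by
    refine mr_unique h (x := O) (y := q) (hOq.tau_ne h O.2 q.2) ?_ ?_ hpO hpq
    · have := (hwC'.2.2 x r).1 hxr
      rw [hwO] at this
      exact this.symm
    · have := (hwC'.2.2 q r).1 hqr
      rw [hwq1] at this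
      exact this.symm
  obtain ⟨f, hf⟩ : ∃ f, f = w⁻¹ * (H * w * H⁻¹) := ⟨_, rfl⟩
  rw [← hf]
  have hfM : f ∈ MM O := by
    rw [hf]
    exact (MM O).mul_mem ((MM O).inv_mem hw) (e4 H hH w hw)
  have hfC : f ∈ Coll τ := (mb2 f hfM).1
  have hfC' : f⁻¹ ∈ Coll τ := (Coll τ).inv_mem hfC
  have hff : ∀ x : Pt τ, Perp (x : G) (O : G) → f.1 x = x := (mb2 f hfM).2
  have hfO : f.1 O = (w⁻¹).1 (H.1 x) := by
    rw [hf]
    show (w⁻¹).1 (H.1 (w.1 ((H⁻¹).1 O))) = (w⁻¹).1 (H.1 x)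
    rw [mr_inv_fst hHO, ← hx]
  have hfOp : Perp ((f.1 O : Pt τ) : G) (p : G) := by
    rw [hfO]
    have := (hwC'.2.2 (H.1 x) r).1 hrH.symm
    rw [hwr] at this
    exact this
  have hfq : f.1 q = q := hff q hOq.symm
  have hfp : f.2 p = p := by
    refine mr_unique h (x := f.1 O) (y := q) ?_ ?_ ?_ hfOp.symm hpq
    · rw [hfC.1 O]; exact hOq.tau_ne h O.2 q.2
    · exact ((hfC.2.2 O p).1 hOp).symm
    · have := (hfC.2.2 q p).1 hpq.symm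
      rw [hfq] at this
      exact this.symm
  have hfO' : Perp (((f⁻¹).1 O : Pt τ) : G) (p : G) := by
    have := (hfC'.2.2 O p).1 hOp
    rw [mr_inv_snd hfp] at this
    exact this
  have hcp : cj τ (p : G) ∈ Stb O := ⟨cj_mem τ p, (mr_cj_fix (τ := τ) hpO.1).2⟩
  have hg : f * (cj τ (p : G) * f⁻¹ * (cj τ (p : G))⁻¹) = 1 := by
    apply mb3 _ ((MM O).mul_mem hfM (e4 _ hcp _ ((MM O).inv_mem hfM)))
    show f.1 ((cj τ (p : G)).1 ((f⁻¹).1 (((cj τ (p : G))⁻¹).1 O))) = O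
    rw [mr_inv_fst (mr_cj_fix (τ := τ) (y := O) hpO.1).1,
      (mr_cj_fix (τ := τ) (g := (p : G)) (y := (f⁻¹).1 O) hfO'.1.symm).1, Prod.fst_inv,
      perm_apply_inv]
  calc f * cj τ (p : G) = (f * (cj τ (p : G) * f⁻¹ * (cj τ (p : G))⁻¹)) * (cj τ (p : G) * f) := by
        group
    _ = cj τ (p : G) * f := by rw [hg, one_mul]

lemma mr_step2 (h2 : S_EConj) (h3 : S_MBasic) (h : Geo τ) (hnd : ND τ) (hnt : NT τ)
    (O p q : Pt τ) (hpO : Perp (p : G) (O : G)) (hq : (q : G) = O * p) (H w : PP τ)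
    (hH : H ∈ Stb O) (hHO : H.1 O = O) (ρ : G) (hρ : ρ ∈ A τ (O : G))
    (hHx : ∀ x : Pt τ, ((H.1 x : Pt τ) : G) = D ((x : G) * (ρ * ρ))) (hw : w ∈ MM O)
    (hwq : w * cj τ (q : G) = cj τ (q : G) * w) (H' : PP τ)
    (hH' : cj τ (q : G) * H * (cj τ (q : G))⁻¹ = H') :
    (H * w * H⁻¹) * (H' * w * H'⁻¹) = w * w := by
  have hc := mr_step1 h2 h3 h hnd hnt O p q hpO hq H w hH hHO ρ hρ hHx hw hwq
  obtain ⟨_, _, _, e4, _, _⟩ := h2 G τ h O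
  obtain ⟨mb1, mb2, mb3, mb4⟩ := h3 G τ h hnd hnt O
  obtain ⟨f, hf⟩ : ∃ f, f = w⁻¹ * (H * w * H⁻¹) := ⟨_, rfl⟩
  rw [← hf] at hc
  have hfM : f ∈ MM O := by
    rw [hf]
    exact (MM O).mul_mem ((MM O).inv_mem hw) (e4 H hH w hw)
  have e1 : H * w * H⁻¹ = w * f := by rw [hf]; group
  have hcq : cj τ (q : G) = cj τ (O : G) * cj τ (p : G) := by rw [hq, map_mul]
  have e2 : cj τ (q : G) * f * (cj τ (q : G))⁻¹ = f⁻¹ := by
    rw [hcq]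
    calc cj τ (O : G) * cj τ (p : G) * f * (cj τ (O : G) * cj τ (p : G))⁻¹
        = cj τ (O : G) * (cj τ (p : G) * f) * (cj τ (p : G))⁻¹ * (cj τ (O : G))⁻¹ := by group
      _ = cj τ (O : G) * (f * cj τ (p : G)) * (cj τ (p : G))⁻¹ * (cj τ (O : G))⁻¹ := by rw [hc]
      _ = cj τ (O : G) * f * (cj τ (O : G))⁻¹ := by group
      _ = f⁻¹ := mb4 f hfM
  have e3 : H' * w * H'⁻¹ = w * f⁻¹ := by
    rw [← hH']
    calc cj τ (q : G) * H * (cj τ (q : G))⁻¹ * w * (cj τ (q : G) * H * (cj τ (q : G))⁻¹)⁻¹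
        = cj τ (q : G) * H * (cj τ (q : G))⁻¹ * (w * cj τ (q : G)) * H⁻¹ *
            (cj τ (q : G))⁻¹ := by group
      _ = cj τ (q : G) * H * (cj τ (q : G))⁻¹ * (cj τ (q : G) * w) * H⁻¹ *
            (cj τ (q : G))⁻¹ := by rw [hwq]
      _ = cj τ (q : G) * (H * w * H⁻¹) * (cj τ (q : G))⁻¹ := by group
      _ = cj τ (q : G) * (w * f) * (cj τ (q : G))⁻¹ := by rw [e1]
      _ = (cj τ (q : G) * w) * (cj τ (q : G))⁻¹ * (cj τ (q : G) * f * (cj τ (q : G))⁻¹) := by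
        group
      _ = (w * cj τ (q : G)) * (cj τ (q : G))⁻¹ * f⁻¹ := by rw [← hwq, e2]
      _ = w * f⁻¹ := by group
  rw [e1, e3]
  have e5 := mb1 w hw f hfM
  calc w * f * (w * f⁻¹) = w * (f * w) * f⁻¹ := by group
    _ = w * (w * f) * f⁻¹ := by rw [← e5]
    _ = w * w := by group

end

theorem mRel (h1 : S_HmlBasic) (h2 : S_EConj) (h3 : S_MBasic) : S_MRel := by
  intro G _ τ h hnd hnt O ρ s hρ hs m hm
  obtain ⟨b1, b2, b3, b4, b5⟩ := h1 G τ h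
  obtain ⟨_, _, _, e4, _, _⟩ := h2 G τ h O
  obtain ⟨mb1, mb2, mb3, mb4⟩ := h3 G τ h hnd hnt O
  obtain ⟨⟨s1, s2⟩, s3⟩ := b2 O ρ s hρ hs
  -- `cj ρ` commutes with `s`
  have hcs : cj τ ρ * s * (cj τ ρ)⁻¹ = s := by
    have := b3 ρ ρ s hs
    have e : ρ * ρ * ρ⁻¹ = ρ := by group
    rw [e] at this
    exact b1 ρ _ _ this hs
  have hcs2 : cj τ ρ * s = s * cj τ ρ := by
    calc cj τ ρ * s = (cj τ ρ * s * (cj τ ρ)⁻¹) * cj τ ρ := by group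
      _ = s * cj τ ρ := by rw [hcs]
  have hcs3 : s * (cj τ ρ)⁻¹ = (cj τ ρ)⁻¹ * s := by
    calc s * (cj τ ρ)⁻¹ = (cj τ ρ)⁻¹ * (cj τ ρ * s) * (cj τ ρ)⁻¹ := by group
      _ = (cj τ ρ)⁻¹ * (s * cj τ ρ) * (cj τ ρ)⁻¹ := by rw [hcs2]
      _ = (cj τ ρ)⁻¹ * s := by group
  obtain ⟨H, hH⟩ : ∃ H, H = (cj τ ρ)⁻¹ * s := ⟨_, rfl⟩
  obtain ⟨H', hH'⟩ : ∃ H', H' = cj τ ρ * s := ⟨_, rfl⟩
  rw [hcs3, ← hcs2, ← hH, ← hH']
  have hcρO := mr_cj_fix (τ := τ) (g := ρ) (y := O) hρ.2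
  have hHS : H ∈ Stb O := by
    rw [hH]
    refine (Stb O).mul_mem ((Stb O).inv_mem ⟨cj_mem τ ρ, hcρO.2⟩) ⟨hs.1, s2⟩
  have hHS' : H' ∈ Stb O := by
    rw [hH']
    refine (Stb O).mul_mem ⟨cj_mem τ ρ, hcρO.2⟩ ⟨hs.1, s2⟩
  have hHO : H.1 O = O := by
    rw [hH]
    show ((cj τ ρ)⁻¹).1 (s.1 O) = O
    rw [s1]
    exact mr_inv_fst hcρO.1
  have hHx : ∀ x : Pt τ, ((H.1 x : Pt τ) : G) = D ((x : G) * (ρ * ρ)) := by
    intro x
    rw [hH]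
    have e : (cj τ ρ)⁻¹ = cj τ ρ⁻¹ := (map_inv _ _).symm
    rw [e]
    show ρ⁻¹ * ((s.1 x : Pt τ) : G) * ρ⁻¹⁻¹ = _
    rw [hs.2.1 x, D_conj]
    congr 1
    group
  have hconj : ∀ r : Pt τ, Perp (O : G) (r : G) → cj τ (r : G) * H * (cj τ (r : G))⁻¹ = H' := by
    intro r hr
    have hrρ : (r : G) * ρ * (r : G)⁻¹ = ρ⁻¹ := A_inverted h O.2 r.2 hr hρ
    have e1 : cj τ (r : G) * s * (cj τ (r : G))⁻¹ = s := by
      have := b3 (r : G) ρ s hs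
      rw [hrρ] at this
      exact b1 ρ⁻¹ _ _ this (b4 ρ s hs)
    have e2 : cj τ (r : G) * (cj τ ρ)⁻¹ * (cj τ (r : G))⁻¹ = cj τ ρ := by
      rw [← map_inv, ← map_inv, ← map_mul, ← map_mul]
      congr 1
      have := congrArg (fun y => y⁻¹) hrρ
      simp only [mul_inv_rev, inv_inv] at this
      rw [← mul_assoc] at this
      exact this
    rw [hH, hH']
    calc cj τ (r : G) * ((cj τ ρ)⁻¹ * s) * (cj τ (r : G))⁻¹
        = (cj τ (r : G) * (cj τ ρ)⁻¹ * (cj τ (r : G))⁻¹) *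
            (cj τ (r : G) * s * (cj τ (r : G))⁻¹) := by group
      _ = cj τ ρ * s := by rw [e1, e2]
  -- the frame
  obtain ⟨p₀, hp₀, hOp₀⟩ := exists_perp' h O.2
  obtain ⟨p, hp⟩ : ∃ p : Pt τ, (p : G) = p₀ := ⟨⟨p₀, hp₀⟩, rfl⟩
  have hOp : Perp (O : G) (p : G) := by rw [hp]; exact hOp₀
  obtain ⟨q, hq⟩ : ∃ q : Pt τ, (q : G) = O * p := ⟨⟨(O : G) * p, hOp.mul_isPt h O.2 p.2⟩, rfl⟩
  have hOq : Perp (O : G) (q : G) := by rw [hq]; exact hOp.mul_right h O.2 p.2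
  have hp' : (p : G) = O * q := by rw [hq, ← mul_assoc, O.2.1, one_mul]
  have stepq : ∀ w ∈ MM O, w * cj τ (q : G) = cj τ (q : G) * w →
      (H * w * H⁻¹) * (H' * w * H'⁻¹) = w * w := fun w hw hwq =>
    mr_step2 h2 h3 h hnd hnt O p q hOp.symm hq H w hHS hHO ρ hρ hHx hw hwq H' (hconj q hOq)
  have stepp : ∀ w ∈ MM O, w * cj τ (p : G) = cj τ (p : G) * w →
      (H * w * H⁻¹) * (H' * w * H'⁻¹) = w * w := fun w hw hwq =>
    mr_step2 h2 h3 h hnd hnt O q p hOq.symm hp' H w hHS hHO ρ hρ hHx hw hwq H' (hconj p hOp)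
  -- the decomposition
  have hcqS : cj τ (q : G) ∈ Stb O :=
    ⟨cj_mem τ q, (mr_cj_fix (τ := τ) (y := O) hOq.1.symm).2⟩
  obtain ⟨m', hm'⟩ : ∃ m', m' = cj τ (q : G) * m * (cj τ (q : G))⁻¹ := ⟨_, rfl⟩
  have hm'M : m' ∈ MM O := by rw [hm']; exact e4 _ hcqS m hm
  have hcq2 : cj τ (q : G) * cj τ (q : G) = 1 := by rw [← map_mul, q.2.1, map_one]
  have hcqi : (cj τ (q : G))⁻¹ = cj τ (q : G) := inv_eq_of_mul_eq_one_left hcq2
  have hqm' : cj τ (q : G) * m' * (cj τ (q : G))⁻¹ = m := by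
    rw [hm']
    calc cj τ (q : G) * (cj τ (q : G) * m * (cj τ (q : G))⁻¹) * (cj τ (q : G))⁻¹
        = (cj τ (q : G) * cj τ (q : G)) * m * (cj τ (q : G) * cj τ (q : G))⁻¹ := by group
      _ = m := by rw [hcq2]; group
  have cmm' := mb1 m hm m' hm'M
  have hw1 : (m * m') * cj τ (q : G) = cj τ (q : G) * (m * m') := by
    have e : cj τ (q : G) * (m * m') * (cj τ (q : G))⁻¹ = m * m' := by
      calc cj τ (q : G) * (m * m') * (cj τ (q : G))⁻¹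
          = (cj τ (q : G) * m * (cj τ (q : G))⁻¹) * (cj τ (q : G) * m' * (cj τ (q : G))⁻¹) := by
            group
        _ = m' * m := by rw [hqm', ← hm']
        _ = m * m' := cmm'.symm
    calc (m * m') * cj τ (q : G) = (cj τ (q : G) * (m * m') * (cj τ (q : G))⁻¹) * cj τ (q : G) := by
          rw [e]
      _ = cj τ (q : G) * (m * m') := by group
  have hw2q : cj τ (q : G) * (m * m'⁻¹) * (cj τ (q : G))⁻¹ = (m * m'⁻¹)⁻¹ := by
    have e0 : cj τ (q : G) * m'⁻¹ * (cj τ (q : G))⁻¹ = m⁻¹ := by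
      have := congrArg (fun y => y⁻¹) hqm'
      simp only [mul_inv_rev, inv_inv] at this
      rw [← mul_assoc] at this
      exact this
    calc cj τ (q : G) * (m * m'⁻¹) * (cj τ (q : G))⁻¹
        = (cj τ (q : G) * m * (cj τ (q : G))⁻¹) * (cj τ (q : G) * m'⁻¹ * (cj τ (q : G))⁻¹) := by
          group
      _ = m' * m⁻¹ := by rw [e0, ← hm']
      _ = (m * m'⁻¹)⁻¹ := by group
  have hw2M : m * m'⁻¹ ∈ MM O := (MM O).mul_mem hm ((MM O).inv_mem hm'M)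
  have hw2 : (m * m'⁻¹) * cj τ (p : G) = cj τ (p : G) * (m * m'⁻¹) := by
    have hcp : cj τ (p : G) = cj τ (O : G) * cj τ (q : G) := by rw [hp', map_mul]
    have e : cj τ (p : G) * (m * m'⁻¹) * (cj τ (p : G))⁻¹ = m * m'⁻¹ := by
      rw [hcp]
      calc cj τ (O : G) * cj τ (q : G) * (m * m'⁻¹) * (cj τ (O : G) * cj τ (q : G))⁻¹
          = cj τ (O : G) * (cj τ (q : G) * (m * m'⁻¹) * (cj τ (q : G))⁻¹) * (cj τ (O : G))⁻¹ := by
            group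
        _ = cj τ (O : G) * (m * m'⁻¹)⁻¹ * (cj τ (O : G))⁻¹ := by rw [hw2q]
        _ = (m * m'⁻¹)⁻¹⁻¹ := mb4 _ ((MM O).inv_mem hw2M)
        _ = m * m'⁻¹ := inv_inv _
    calc (m * m'⁻¹) * cj τ (p : G)
        = (cj τ (p : G) * (m * m'⁻¹) * (cj τ (p : G))⁻¹) * cj τ (p : G) := by rw [e]
      _ = cj τ (p : G) * (m * m'⁻¹) := by group
  have r1 := stepq _ ((MM O).mul_mem hm hm'M) hw1
  have r2 := stepp _ hw2M hw2
  -- work in the commutative group `MM O`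
  have hHm : ∀ n ∈ MM O, H * n * H⁻¹ ∈ MM O := fun n hn => e4 H hHS n hn
  have hHm' : ∀ n ∈ MM O, H' * n * H'⁻¹ ∈ MM O := fun n hn => e4 H' hHS' n hn
  obtain ⟨Φ, hΦ⟩ : ∃ Φ : PP τ, Φ = (H * m * H⁻¹) * (H' * m * H'⁻¹) := ⟨_, rfl⟩
  have hΦM : Φ ∈ MM O := by
    rw [hΦ]
    exact (MM O).mul_mem (hHm m hm) (hHm' m hm)
  have hΦ2 : Φ * Φ = (m * m) * (m * m) := by
    -- abbreviations
    have ca := mb1 (H' * m * H'⁻¹) (hHm' m hm) (H * m * H⁻¹) (hHm m hm)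
    have e1 : (m * m') * (m * m'⁻¹) = m * m := by
      calc (m * m') * (m * m'⁻¹) = m * (m' * m) * m'⁻¹ := by group
        _ = m * (m * m') * m'⁻¹ := by rw [← cmm']
        _ = m * m := by group
    have e2 : Φ * Φ = (H * (m * m) * H⁻¹) * (H' * (m * m) * H'⁻¹) := by
      rw [hΦ]
      calc (H * m * H⁻¹) * (H' * m * H'⁻¹) * ((H * m * H⁻¹) * (H' * m * H'⁻¹))
          = (H * m * H⁻¹) * ((H' * m * H'⁻¹) * (H * m * H⁻¹)) * (H' * m * H'⁻¹) := by group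
        _ = (H * m * H⁻¹) * ((H * m * H⁻¹) * (H' * m * H'⁻¹)) * (H' * m * H'⁻¹) := by rw [ca]
        _ = (H * (m * m) * H⁻¹) * (H' * (m * m) * H'⁻¹) := by group
    have cb := mb1 (H' * (m * m') * H'⁻¹) (hHm' _ ((MM O).mul_mem hm hm'M))
      (H * (m * m'⁻¹) * H⁻¹) (hHm _ hw2M)
    have e3 : (H * (m * m) * H⁻¹) * (H' * (m * m) * H'⁻¹) =
        ((H * (m * m') * H⁻¹) * (H' * (m * m') * H'⁻¹)) *
          ((H * (m * m'⁻¹) * H⁻¹) * (H' * (m * m'⁻¹) * H'⁻¹)) := by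
      calc (H * (m * m) * H⁻¹) * (H' * (m * m) * H'⁻¹)
          = (H * ((m * m') * (m * m'⁻¹)) * H⁻¹) * (H' * ((m * m') * (m * m'⁻¹)) * H'⁻¹) := by
            rw [e1]
        _ = (H * (m * m') * H⁻¹) * ((H * (m * m'⁻¹) * H⁻¹) * (H' * (m * m') * H'⁻¹)) *
              (H' * (m * m'⁻¹) * H'⁻¹) := by group
        _ = (H * (m * m') * H⁻¹) * ((H' * (m * m') * H'⁻¹) * (H * (m * m'⁻¹) * H⁻¹)) *
              (H' * (m * m'⁻¹) * H'⁻¹) := by rw [cb]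
        _ = _ := by group
    rw [e2, e3, r1, r2]
    have cc := mb1 (m * m') ((MM O).mul_mem hm hm'M) (m * m'⁻¹) hw2M
    calc m * m' * (m * m') * (m * m'⁻¹ * (m * m'⁻¹))
        = (m * m') * ((m * m') * (m * m'⁻¹)) * (m * m'⁻¹) := by group
      _ = (m * m') * ((m * m'⁻¹) * (m * m')) * (m * m'⁻¹) := by rw [cc]
      _ = ((m * m') * (m * m'⁻¹)) * ((m * m') * (m * m'⁻¹)) := by group
      _ = (m * m) * (m * m) := by rw [e1]
  have hmm : m * m ∈ MM O := (MM O).mul_mem hm hm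
  have hvM : Φ * (m * m)⁻¹ ∈ MM O := (MM O).mul_mem hΦM ((MM O).inv_mem hmm)
  have hv2 : (Φ * (m * m)⁻¹) * (Φ * (m * m)⁻¹) = 1 := by
    have c1 := mb1 (m * m)⁻¹ ((MM O).inv_mem hmm) Φ hΦM
    calc (Φ * (m * m)⁻¹) * (Φ * (m * m)⁻¹) = Φ * ((m * m)⁻¹ * Φ) * (m * m)⁻¹ := by group
      _ = Φ * (Φ * (m * m)⁻¹) * (m * m)⁻¹ := by rw [c1]
      _ = (Φ * Φ) * ((m * m) * (m * m))⁻¹ := by group
      _ = 1 := by rw [hΦ2]; group
  have hv : Φ * (m * m)⁻¹ = 1 := by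
    obtain ⟨v, hvdef⟩ : ∃ v, v = Φ * (m * m)⁻¹ := ⟨_, rfl⟩
    rw [← hvdef] at hvM hv2 ⊢
    apply mb3 v hvM
    have hvi : v⁻¹ = v := inv_eq_of_mul_eq_one_left hv2
    have e := mb4 v hvM
    rw [hvi] at e
    have e5 : cj τ (O : G) * v = v * cj τ (O : G) := by
      calc cj τ (O : G) * v = (cj τ (O : G) * v * (cj τ (O : G))⁻¹) * cj τ (O : G) := by group
        _ = v * cj τ (O : G) := by rw [e]
    have e6 : (cj τ (O : G)).1 (v.1 O) = v.1 ((cj τ (O : G)).1 O) :=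
      congrArg (fun k : PP τ => k.1 O) e5
    rw [(mr_cj_fix (τ := τ) (g := (O : G)) (y := O) rfl).1] at e6
    have e7 : (O : G) * ((v.1 O : Pt τ) : G) * (O : G)⁻¹ = ((v.1 O : Pt τ) : G) :=
      congrArg (fun y : Pt τ => (y : G)) e6
    apply mr_eq_of_comm h
    · calc ((v.1 O : Pt τ) : G) * (O : G)
          = ((O : G) * ((v.1 O : Pt τ) : G) * (O : G)⁻¹) * (O : G) := by rw [e7]
        _ = (O : G) * ((v.1 O : Pt τ) : G) := by group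
    · exact (mb2 v hvM).1.1 O
  have hfin : Φ = m * m := mul_inv_eq_one.1 hv
  rw [mb1 _ (hHm' m hm) _ (hHm m hm), ← hΦ, hfin]

end Pool.Agent.Klein
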