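import Pool.Agent.Lib.MP_3c9215_al.Spec1

set_option autoImplicit false

/-!
# MP_3c9215_al: separation of elements of the kernel by their components
-/

namespace Pool.Agent.Klein

theorem sep : S_Sep := by
  intro G _ τ h a g k ha hg hk hcomp w hw htw
  have htgw : τ (g * w) = τ w := by rw [map_mul, hg, one_mul]
  have hgw : τ (g * w) ≠ 1 := by rw [htgw]; exact hw.2
  obtain ⟨φ, hφ, e1⟩ := D_factor h hgw
  have hx : IsPt τ (D (g * w)) := D_isPt h hgw
  have hxt : τ (D (g * w)) = τ a := by rw [D_tau h, htgw, htw]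
  have hc := hcomp _ hx hxt
  generalize D (g * w) = x at hx hxt hc hφ e1
  have hxw : τ (x * w) = 1 := by rw [map_mul, hxt, htw, k4_sq]
  have hxi := hx.inv_eq
  have hwi := hw.inv_eq
  have hg1 : g = φ * (x * w) := by
    calc g = (g * w) * w⁻¹ := by group
      _ = (x * φ) * w⁻¹ := by rw [e1]
      _ = (φ * x) * w := by rw [hφ.2, hwi]
      _ = φ * (x * w) := by group
  have hinv : x * (x * w) * x⁻¹ = (x * w)⁻¹ := by
    rw [mul_inv_rev, hwi, hxi, ← mul_assoc, hx.1, one_mul]
  have hcg : comp x g = φ := by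
    rw [hg1]
    exact comp_unique h hx hφ hxw hinv
  obtain ⟨i, hi, hxi', e2⟩ := comp_factor h hx hk
  rw [← hc, hcg] at e2
  have e3 : g⁻¹ * k = w * x * i := by
    rw [hg1, e2, mul_inv_rev, mul_inv_rev, hwi, hxi]
    group
  have e4 : x * i = i⁻¹ * x := by
    calc x * i = (x * i * x⁻¹) * x := by group
      _ = i⁻¹ * x := by rw [hxi']
  rw [e3, mul_inv_rev, mul_inv_rev, hxi, hwi]
  calc w * (w * x * i) * w = (w * w) * (x * i) * w := by group
    _ = i⁻¹ * (x * w) := by rw [hw.1, one_mul, e4, mul_assoc]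

end Pool.Agent.Klein
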