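import Pool.Agent.Lib.MP_3c9215_al.Basic

set_option autoImplicit false

/-!
# MP_3c9215_al, part 1: the operators `T` and the reduction to the nondegenerate case

Standing notation: `Geo τ`; points = involutions outside `ker τ`; `Perp` = distinct and commuting;
`D g` = the involution in the cyclic group of `g` (`g` outside the kernel); `A τ x` = centralizer of the
point `x` in the kernel (abelian, inverted by all points perpendicular to `x`); `comp x g` = the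
`A x`-component of `g ∈ ker τ`.  `Basic.lean` has all basic facts (`wedge_unique`, `D_unique`, `D_eq`,
`A_inverted`, `comp_unique`, `comp_mul_left`, `ker_factor`, ...).  Read it first.
-/

namespace Pool.Agent.Klein

/-- `T a y α` is the `A a`-component of `y⁻¹ α y` (for `α ∈ A a`, `y ∈ ker τ`) -/
noncomputable def T {G : Type} [Group G] (a y α : G) : G := comp a (y⁻¹ * α * y)

/-- **TOps.** Elementary properties of `T`.
Proof. (1) membership: `comp_mem`. (2) `(φ y ψ)⁻¹ α (φ y ψ) = ψ⁻¹ (y⁻¹ (φ⁻¹ α φ) y) ψ = ψ⁻¹ (y⁻¹ α y) ψ`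
because `A a` is commutative (`A_comm`), and `comp_conj_A` (with `ψ⁻¹`) removes `ψ`.
(3) Write `y = φ i` with `φ = comp a y ∈ A a`, `a i a⁻¹ = i⁻¹` (`comp_factor`). By (2) `T a y = T a i` and
(`y⁻¹ = i⁻¹ φ⁻¹`) `T a y⁻¹ = T a i⁻¹`. Now `a (i⁻¹ α i) a⁻¹ = i α i⁻¹ = (i⁻¹)⁻¹ α i⁻¹`
(as `a` commutes with `α` and inverts `i`), and `comp_conj_self` gives `T a i⁻¹ α = T a i α`. -/
def S_TOps : Prop := ∀ (G : Type) [Group G] (τ : G →* K4), Geo τ → ∀ a y φ ψ α : G, IsPt τ a →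
  τ y = 1 → φ ∈ A τ a → ψ ∈ A τ a → α ∈ A τ a →
    T a y α ∈ A τ a ∧ T a (φ * y * ψ) α = T a y α ∧ T a y⁻¹ α = T a y α

/-- **TBase.** Let `a, b` be perpendicular points, `c = a b`, `α ∈ A a`, `β ∈ A b`, `α₁ = T a β α`.
Then `β⁻¹ α β = α₁ ε` with `ε ∈ A (c α₁)`, `a` inverts `ε`, and `D (β c α β) = c α₁`.
Proof. `c = a b` is a point perpendicular to `a` and `b` (`Perp.mul_isPt`, ...), so `c` inverts `β`:
`c β⁻¹ = β c`, hence `c (β⁻¹ α β) = β c α β =: g`. `τ g = τ c ≠ 1`. `a` commutes with `c`, `α` and inverts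
`β` (`A_inverted`, `b ⊥ a`), and `g⁻¹ = β⁻¹ α⁻¹ c β⁻¹ = β⁻¹ c α β⁻¹` (`c` inverts `α`), so
`a g a⁻¹ = β⁻¹ c α β⁻¹ = g⁻¹`. Hence `a` commutes with `c₁ := D g` (`D_comm_of_inverts`); `τ c₁ = τ c ≠ τ a`,
so `c₁ ⊥ a` and `α₁' := c c₁ ∈ A a` (`perp_mul_mem_A`), `c₁ = c α₁'`. By `D_factor` `g = c₁ ε` with
`ε ∈ A c₁`, so `β⁻¹ α β = c g = α₁' ε`. `a ⊥ c₁` inverts `ε` (`A_inverted`). By `comp_unique`
`T a β α = comp a (α₁' ε) = α₁'`. -/
def S_TBase : Prop := ∀ (G : Type) [Group G] (τ : G →* K4), Geo τ → ∀ a b α β : G, IsPt τ a →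
  IsPt τ b → Perp a b → α ∈ A τ a → β ∈ A τ b →
    (∃ ε ∈ A τ (a * b * T a β α), β⁻¹ * α * β = T a β α * ε ∧ a * ε * a⁻¹ = ε⁻¹) ∧
      D (β * (a * b * α) * β) = a * b * T a β α

/-- **TMul.** `T a (β γ) α = T a γ (T a β α)` for `β ∈ A b`, `γ ∈ A c`, `c = a b`, `a ⊥ b`.
Proof (uses `S_TBase`). By TBase `β⁻¹ α β = α₁ ε`, `α₁ = T a β α`, `ε ∈ A (c α₁)`. By TBase for the
perpendicular pair `a, c` (third point `a c = b`; note `a * (a * b) = b`) `γ⁻¹ α₁ γ = α₂ ε₂` with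
`α₂ = T a γ α₁`, `ε₂ ∈ A b₂`, `b₂ := b α₂` a point perpendicular to `a` (`mul_A_isPt`, `mul_A_perp`).
So `(βγ)⁻¹ α (βγ) = γ⁻¹ α₁ γ · γ⁻¹ ε γ = α₂ (ε₂ κ)`, `κ := γ⁻¹ ε γ ∈ A k`, `k := γ⁻¹ c α₁ γ`.
`γ` commutes with `c`, so `k = c γ⁻¹ α₁ γ = c α₂ ε₂ = c₂ ε₂`, where `c₂ := c α₂ = a b₂` commutes with `b₂`
and inverts `ε₂`. `a ε₂` is a point (`a ⊥ b₂` inverts `ε₂`), and `(a ε₂)(c₂ ε₂) = a c₂ ε₂⁻¹ ε₂ = b₂`, an
involution; hence the involutions `a ε₂` and `k = c₂ ε₂` commute, they are distinct (product `b₂ ≠ 1`), so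
`a ε₂ ⊥ k` inverts `κ`: `a ε₂ κ ε₂⁻¹ a = κ⁻¹`. Therefore `a (ε₂ κ) a = (ε₂ κ)⁻¹`: indeed
`a ε₂ a = ε₂⁻¹` gives `a κ a = ε₂ κ⁻¹ ε₂⁻¹`, so `a ε₂ κ a = ε₂⁻¹ (ε₂ κ⁻¹ ε₂⁻¹) = κ⁻¹ ε₂⁻¹`.
By `comp_unique` the component of `α₂ (ε₂ κ)` is `α₂`. -/
def S_TMul : Prop := ∀ (G : Type) [Group G] (τ : G →* K4), Geo τ → ∀ a b α β γ : G, IsPt τ a →
  IsPt τ b → Perp a b → α ∈ A τ a → β ∈ A τ b → γ ∈ A τ (a * b) →
    T a (β * γ) α = T a γ (T a β α)

/-- **Lot.** (The Lotensatz.) Let `a₀, a₁, a₂` be points of the same type perpendicular to the point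
`b`, `v` a point perpendicular to `a₀` with `τ v ≠ τ b`, and `a₃ := a₁ a₀ a₂`. Then the common
perpendicular of `a₃` and the foot `v₁ = a₁ (a₁ ∧ v)` equals that of `a₃` and `v₂ = a₂ (a₂ ∧ v)`,
where `x ∧ y = D (x y)`.
Proof. `τ v ≠ τ a₀` (`v ⊥ a₀`), so the type of `v` is the third type. `w₁ := D (a₁ v)`, `w₂ := D (a₂ v)`
are points of type `τ b`, `w_i ⊥ a_i`, `w_i ⊥ v` (`wedge_*`). `v₁ := a₁ w₁`, `v₂ := a₂ w₂` are points of
the type of `v`. `a₃ = a₁ a₀ a₂` is an involution: `a₀, a₁, a₂ ⊥ b` have the same type so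
`a₀ a₂ ∈ A b` (`perp_mul_mem_A`) and `a₃ = a₁ (a₀ a₂)` is a point perpendicular to `b` (`mul_A_isPt`), in
particular `a₃ = a₃⁻¹ = a₂ a₀ a₁`. Let `q := w₁ a₀ w₂`: `w₁, a₀, w₂` are all perpendicular to `v`; `w₁, w₂`
have the same type, so `q = w₁ a₀ w₂ = (w₁ w₂) (w₂ a₀ w₂)` and ... simplest: `w₁ w₂ ∈ A v`, `a₀ ⊥ v`,
`w₂ ⊥ v`; `a₀ w₂ ` is a power of `v` times an element of `A v` times ...; concretely write
`w₁ = w₂ μ` with `μ := w₂ w₁ ∈ A v`; then `q = w₂ μ a₀ w₂ = (w₂ μ w₂)(w₂ a₀ w₂)`, `w₂ μ w₂ = μ⁻¹ ∈ A v`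
and `w₂ a₀ w₂` is a point perpendicular to `v` (conjugate of `a₀ ⊥ v` by `w₂` which commutes with `v`), so
`q` is a point perpendicular to `v` (`A_mul_isPt`, `A_mul_perp`); in particular `q² = 1`, `q v = v q`.
Now `a₃ v₁ q = a₂ a₀ a₁ a₁ w₁ w₁ a₀ w₂ = a₂ w₂ = v₂`. Since `v₂² = 1` and `q² = 1`, `q` inverts `a₃ v₁`
(`q (a₃ v₁) q⁻¹ = q (v₂ q) q⁻¹ = q v₂ = (v₂ q)⁻¹ = (a₃ v₁)⁻¹`), so `q` commutes with `m := D (a₃ v₁)`
(`D_comm_of_inverts`). `m` is a point of type `τ b` commuting with `a₃`, `v₁`, `q`, hence with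
`v₂ = a₃ v₁ q`; `τ m = τ a₃ τ v₁` differs from `τ a₃` and `τ v₂ = τ v₁`, so `m ⊥ a₃`, `m ⊥ v₂` and
`m = D (a₃ v₂)` by `wedge_unique`. -/
def S_Lot : Prop := ∀ (G : Type) [Group G] (τ : G →* K4), Geo τ → ∀ a₀ a₁ a₂ b v : G, IsPt τ a₀ →
  IsPt τ a₁ → IsPt τ a₂ → IsPt τ b → IsPt τ v → Perp a₀ b → Perp a₁ b → Perp a₂ b →
  τ a₁ = τ a₀ → τ a₂ = τ a₀ → Perp v a₀ → τ v ≠ τ b →
    D (a₁ * a₀ * a₂ * (a₁ * D (a₁ * v))) = D (a₁ * a₀ * a₂ * (a₂ * D (a₂ * v)))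

/-- **TLink.** Let `a ⊥ b` be points, `ρ ∈ A b`, `a₁ := ρ⁻¹ a ρ`, and let `U` be the set of points `u ⊥ a`
with `τ u ≠ τ b`. The maps `u ↦ D (ρ u ρ)` and `v ↦ ρ (a₁ D (a₁ v)) ρ⁻¹` are inverse bijections of `U`.
Proof. `a` inverts `ρ` (`A_inverted`, `a ⊥ b`), so `a₁ = ρ⁻¹ a ρ = a ρ²` and `ρ² = a a₁`. `a₁` is a point of
the type of `a`. Types: `u ∈ U` has the third type `τ a τ b`.
(ii) `u ∈ U`. `v := D (ρ u ρ)`. `a` commutes with `u` and inverts `ρ`, so `a (ρ u ρ) a⁻¹ = ρ⁻¹ u ρ⁻¹ =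
(ρ u ρ)⁻¹`, so `a` commutes with `v`, `τ v = τ u ≠ τ a`: `v ∈ U`. Put `v₁ := ρ⁻¹ u ρ`, a point
perpendicular to `a₁` (conjugation), `w₁ := a₁ v₁` a point of type `τ b`, `w₁ ⊥ a₁`, `w₁ ⊥ v₁`.
`ρ u ρ = ρ² v₁ = a a₁ v₁ = a w₁`, so `v = D (a w₁)` is perpendicular to `w₁` (`wedge_perp_right`, types
`τ a ≠ τ w₁ = τ b`). `w₁ ⊥ a₁`, `w₁ ⊥ v` and `τ a₁ ≠ τ v` give `w₁ = D (a₁ v)`. Hence
`a₁ D (a₁ v) = a₁ w₁ = v₁` and `ρ (a₁ D (a₁ v)) ρ⁻¹ = u`.
(i) `v ∈ U`. `w₁ := D (a₁ v)` (type `τ b`), `w₁ ⊥ a₁`, `w₁ ⊥ v`; `v₁ := a₁ w₁` is a point perpendicular to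
`a₁`, of the type of `v`; `u := ρ v₁ ρ⁻¹` is a point perpendicular to `ρ a₁ ρ⁻¹ = a`: `u ∈ U`.
`ρ u ρ = ρ² v₁ = a a₁ a₁ w₁ = a w₁` and `v ⊥ a`, `v ⊥ w₁`, so `v = D (a w₁) = D (ρ u ρ)`. -/
def S_TLink : Prop := ∀ (G : Type) [Group G] (τ : G →* K4), Geo τ → ∀ a b ρ : G, IsPt τ a →
  IsPt τ b → Perp a b → ρ ∈ A τ b →
    (∀ v : G, IsPt τ v → Perp v a → τ v ≠ τ b →
      IsPt τ (ρ * (ρ⁻¹ * a * ρ * D (ρ⁻¹ * a * ρ * v)) * ρ⁻¹) ∧
      Perp (ρ * (ρ⁻¹ * a * ρ * D (ρ⁻¹ * a * ρ * v)) * ρ⁻¹) a ∧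
      τ (ρ * (ρ⁻¹ * a * ρ * D (ρ⁻¹ * a * ρ * v)) * ρ⁻¹) = τ v ∧
      D (ρ * (ρ * (ρ⁻¹ * a * ρ * D (ρ⁻¹ * a * ρ * v)) * ρ⁻¹) * ρ) = v) ∧
    (∀ u : G, IsPt τ u → Perp u a → τ u ≠ τ b →
      IsPt τ (D (ρ * u * ρ)) ∧ Perp (D (ρ * u * ρ)) a ∧ τ (D (ρ * u * ρ)) = τ u ∧
      ρ * (ρ⁻¹ * a * ρ * D (ρ⁻¹ * a * ρ * D (ρ * u * ρ))) * ρ⁻¹ = u)

/-- **TCommB.** `T a ρ` and `T a σ` commute on `A a` for `ρ, σ ∈ A b`, `a ⊥ b`.
Proof (uses `S_TBase`, `S_Lot`, `S_TLink`). Let `c = a b`, `U` = points `⊥ a` of type `τ c`;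
`α ↦ c α` is a bijection `A a → U`. By TBase `c (T a ρ α) = S_ρ (c α)`, `S_ρ u := D (ρ u ρ)`, so it is
enough that `S_ρ S_σ = S_σ S_ρ` on `U`. By TLink `S_ρ` is a bijection of `U` with inverse
`L_ρ v := ρ (a₁ D (a₁ v)) ρ⁻¹`, `a₁ = ρ⁻¹ a ρ`. So it is enough that `L_σ L_ρ = L_ρ L_σ` on `U`.
Let `a₁ = ρ⁻¹ a ρ`, `a₁' = σ⁻¹ a σ`, `v₁ = a₁ D (a₁ v)`, `v₁' = a₁' D (a₁' v)`,
`a₃ = (ρσ)⁻¹ a (ρσ)`. As `a` inverts `ρ`, `σ` and these commute: `a₁ = a ρ²`, `a₁' = a σ²`,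
`a₃ = a ρ² σ² = a₁ a a₁'`. Conjugating by `ρ` (`D_conj`): `D (a₁' (ρ v₁ ρ⁻¹)) = ρ D (ρ⁻¹ a₁' ρ v₁) ρ⁻¹ =
ρ D (a₃ v₁) ρ⁻¹`, so `L_σ (L_ρ v) = σ ρ (a₃ D (a₃ v₁)) ρ⁻¹ σ⁻¹`; similarly
`L_ρ (L_σ v) = ρ σ (a₃ D (a₃ v₁')) σ⁻¹ ρ⁻¹`. `S_Lot` with `a₀ = a`, `a₁`, `a₂ = a₁'` gives
`D (a₃ v₁) = D (a₃ v₁')`. -/
def S_TCommB : Prop := ∀ (G : Type) [Group G] (τ : G →* K4), Geo τ → ∀ a b α ρ σ : G, IsPt τ a →
  IsPt τ b → Perp a b → α ∈ A τ a → ρ ∈ A τ b → σ ∈ A τ b →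
    T a ρ (T a σ α) = T a σ (T a ρ α)

/-- **TComm.** All `T a y`, `y ∈ ker τ`, commute on `A a`.
Proof (uses `S_TOps`, `S_TMul`, `S_TCommB`). Take `b ⊥ a` (`exists_perp'`), `c = a b`. By `ker_factor`
`y = β γ φ` with `β ∈ A b`, `γ ∈ A c`, `φ ∈ A a`; by TOps and TMul `T a y = T a γ ∘ T a β` on `A a`;
the same for `z`. `T a β`, `T a β'` commute and `T a γ`, `T a γ'` commute by TCommB (the second for the
pair `a ⊥ c`). `T a β` and `T a γ` commute: TMul for the pair `a, c` (third point `a c = b`) gives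
`T a (γ' β') = T a β' ∘ T a γ'`; with `γ' = γ⁻¹`, `β' = β⁻¹` and TOps (3),
`T a γ ∘ T a β = T a (βγ) = T a ((βγ)⁻¹) = T a (γ⁻¹ β⁻¹) = T a β⁻¹ ∘ T a γ⁻¹ = T a β ∘ T a γ`. -/
def S_TComm : Prop := ∀ (G : Type) [Group G] (τ : G →* K4), Geo τ → ∀ a y z α : G, IsPt τ a →
  τ y = 1 → τ z = 1 → α ∈ A τ a → T a y (T a z α) = T a z (T a y α)

/-- **Sep.** (Separation.) If `g, k ∈ ker τ` have the same `A x`-component for every point `x` of the
type of `a`, then `e := g⁻¹ k` is inverted by every point `w` of the type of `a`.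
Proof. Given `w`, put `x := D (g w)`, a point of the type of `w`, hence of `a` (`τ g = 1`). By `D_factor`
`g w = x φ` with `φ ∈ A x`, so `g = x φ w = φ (x w)` and `x w ∈ ker τ` is inverted by `x`, hence
`comp x g = φ` (`comp_unique`). So also `comp x k = φ`: by `comp_spec`, `x` inverts `φ⁻¹ k`, so
`w' := x φ⁻¹ k` satisfies `w'² = 1`, and `k = φ x w'`. Therefore `e = g⁻¹ k = w⁻¹ x⁻¹ φ⁻¹ φ x w' = w w'`
and `w e w⁻¹ = w' w = e⁻¹`. -/
def S_Sep : Prop := ∀ (G : Type) [Group G] (τ : G →* K4), Geo τ → ∀ a g k : G, IsPt τ a →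
  τ g = 1 → τ k = 1 → (∀ x : G, IsPt τ x → τ x = τ a → comp x g = comp x k) →
    ∀ w : G, IsPt τ w → τ w = τ a → w * (g⁻¹ * k) * w⁻¹ = (g⁻¹ * k)⁻¹

/-- **Strong.** Let `a ⊥ b` be points, `f ∈ A a`, `β ∈ A b`, `f β = β f`, and assume that `1` is the only
element of `ker τ` inverted by all points of the type of `a`. Then `β` commutes with all conjugates of `f`
under `ker τ`.
Proof (uses `S_TOps`, `S_TBase`, `S_TComm`, `S_Sep`).
Step 1: `β` commutes with `f' := T a z f` for every `z ∈ ker τ`. For `g ∈ ker τ`: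
`T a (β g) f = comp a (g⁻¹ (β⁻¹ f β) g) = comp a (g⁻¹ f g) = T a g f`. By TComm
`T a (β g) f' = T a (β g) (T a z f) = T a z (T a (β g) f) = T a z (T a g f) = T a g (T a z f) = T a g f'`,
i.e. `comp a (g⁻¹ h g) = comp a (g⁻¹ f' g)` with `h := β⁻¹ f' β`, for all `g ∈ ker τ`. Conjugating by `g`
(`comp_conj`): `comp x h = comp x f'` for `x = g a g⁻¹`, i.e. (`conj_of_tau_eq`) for all points `x` of the
type of `a`. By Sep and the assumption `f'⁻¹ h = 1`: `β⁻¹ f' β = f'`.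
Step 2: `β` commutes with `γ⁻¹ f γ` for `γ ∈ A c`, `c = a b`: by TBase for the pair `a, c` (third point
`a c = b`) `γ⁻¹ f γ = α₁ ε`, `α₁ = T a γ f`, `ε ∈ A (b α₁)`. `β` commutes with `α₁` by step 1, and with
`b`, so `β ∈ A (b α₁)`, which is commutative (`A_comm`, `b α₁` is a point): `β` commutes with `ε`.
Step 3: let `n ∈ ker τ`. `ker_factor` for the pair `(b, a)` reads: every element is a product
`(A a)(A (b a))(A b)`, where `b a = a b = c`. So `n = φ γ β₁`, `φ ∈ A a`, `γ ∈ A c`, `β₁ ∈ A b`, and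
`n⁻¹ f n = β₁⁻¹ γ⁻¹ (φ⁻¹ f φ) γ β₁ = β₁⁻¹ (γ⁻¹ f γ) β₁` commutes with `β` because `β = β₁⁻¹ β β₁`. -/
def S_Strong : Prop := ∀ (G : Type) [Group G] (τ : G →* K4), Geo τ → ∀ a b f β : G, IsPt τ a →
  IsPt τ b → Perp a b → f ∈ A τ a → β ∈ A τ b → f * β = β * f →
  (∀ e : G, τ e = 1 → (∀ w : G, IsPt τ w → τ w = τ a → w * e * w⁻¹ = e⁻¹) → e = 1) →
    ∀ n : G, τ n = 1 → (n⁻¹ * f * n) * β = β * (n⁻¹ * f * n)

/-- nondegeneracy: nontrivial elements of `A x` and `A y` do not commute for `x ⊥ y` -/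
def ND {G : Type} [Group G] (τ : G →* K4) : Prop :=
  ∀ x y f g : G, IsPt τ x → IsPt τ y → Perp x y → f ∈ A τ x → g ∈ A τ y → f * g = g * f →
    f = 1 ∨ g = 1

/-- all groups `A x` are nontrivial -/
def NT {G : Type} [Group G] (τ : G →* K4) : Prop :=
  ∀ x : G, IsPt τ x → ∃ f ∈ A τ x, f ≠ 1

/-- the kernel is infinite, finitely generated and every nontrivial normal subgroup of `G` inside it
has finite index in it -/
structure JI {G : Type} [Group G] (τ : G →* K4) : Prop where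
  fg : τ.ker.FG
  inf : ¬ Finite τ.ker
  just : ∀ K : Subgroup G, K.Normal → K ≤ τ.ker → K ≠ ⊥ → K.relIndex τ.ker ≠ 0

/-- **JIAb.** In the just infinite case (1) no nontrivial normal subgroup `K ≤ ker τ` of `G` is
commutative; (2) two nontrivial normal subgroups `K, L ≤ ker τ` of `G` do not centralize each other.
Proof. (1) `K` has finite index in the finitely generated group `ker τ`, so `K` is finitely generated
(Schreier: `Subgroup.fg_of_index_ne_zero` in the group `ker τ`), commutative, and all its elements have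
finite order (`Geo.odd`), so `K` is finite, hence `ker τ` is finite, a contradiction.
(2) `K ∩ L` is commutative (an element of `K` and one of `L` commute), normal, contained in `ker τ`. It has
finite index in `ker τ` (intersection of two subgroups of finite index), hence it is nontrivial because
`ker τ` is infinite; contradiction to (1). -/
def S_JIAb : Prop := ∀ (G : Type) [Group G] (τ : G →* K4), Geo τ → JI τ →
  (∀ K : Subgroup G, K.Normal → K ≤ τ.ker → (∀ x ∈ K, ∀ y ∈ K, x * y = y * x) → K = ⊥) ∧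
  (∀ K L : Subgroup G, K.Normal → L.Normal → K ≤ τ.ker → L ≤ τ.ker →
    (∀ x ∈ K, ∀ y ∈ L, x * y = y * x) → K = ⊥ ∨ L = ⊥)

/-- **NDRed.** In the just infinite case `ND τ` and `NT τ` hold.
Proof (uses `S_JIAb`, `S_Strong`).
NT: suppose `A x = 1` for a point `x`. Then `x` inverts `ker τ`: for `g ∈ ker τ`, `comp x g ∈ A x`, so
`comp x g = 1` and `comp_spec` says `x g x⁻¹ = g⁻¹`. Hence `ker τ` is commutative (inversion is
multiplicative), contradiction to JIAb (1) with `K = ker τ` (`ker τ ≠ ⊥` since it is infinite).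
ND: let `a ⊥ b`, `f ∈ A a`, `β ∈ A b`, `f β = β f`, `f ≠ 1`, `β ≠ 1`. First the hypothesis of Strong:
let `Q` be the subgroup generated by all products `w w'` of two points of the type of `a`. It is normal in
`G`, contained in `ker τ`, and nontrivial: `a` and `a β` are points of the type of `a` (`mul_A_isPt` for
`a ⊥ b`) with product `β ≠ 1`. Let `e ∈ ker τ` be inverted by all points of the type of `a`; then `e`
commutes with all `w w'`, so `e ∈ C := centralizer(Q) ∩ ker τ`, normal in `G`. By JIAb (2) `C = ⊥`, so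
`e = 1`. Now Strong: `β` commutes with `n⁻¹ f n` for all `n ∈ ker τ`. Let `K` (`L`) be the subgroup
generated by the `n⁻¹ f n` (the `n⁻¹ β n`), `n ∈ ker τ`. `K`, `L ≤ ker τ` commute elementwise
(`n⁻¹ f n` and `m⁻¹ β m` commute: conjugate by `m`). They are normal in `G`: any `g ∈ G` is `g = v m` with
`m ∈ ker τ` and `v ∈ {1, a, b, a b}` (types!), and `v⁻¹ f v ∈ {f, f⁻¹}` (`a` centralizes `f`, `b` and
`a b` invert it), so `g⁻¹ (n⁻¹ f n) g = (m')⁻¹ f^{±1} m'` with `m' ∈ ker τ`; the same for `β`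
(`b` centralizes, `a`, `a b` invert). JIAb (2) gives `K = ⊥` or `L = ⊥`, a contradiction. -/
def S_NDRed : Prop := ∀ (G : Type) [Group G] (τ : G →* K4), Geo τ → JI τ → ND τ ∧ NT τ

/-- **JIEx.** If `Geo τ` holds and `ker τ` has an infinite finitely generated subgroup `H`, then there is
a group `G'` with `τ'`, `Geo τ'` and `JI τ'`.
Proof. Step 1 (finitely generated kernel). Let `x ⊥ y` be points of `G` (`Geo.ex`), `V = {1, x, y, xy}`,
`N₁` the subgroup generated by the `v h v⁻¹`, `v ∈ V`, `h` in a finite generating set of `H`: finitely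
generated, normalized by `V`, contained in `ker τ`, contains `H`, so infinite. `G₁ := N₁ ⊔ V` (every
element is `n v`), `τ₁ := τ` restricted to `G₁`: `ker τ₁ = N₁` (if `τ (n v) = 1` then `τ v = 1`, so `v = 1`
by the types). `Geo τ₁` is inherited. So we may assume `ker τ` finitely generated and infinite.
Step 2 (Zorn). Consider the normal subgroups `K ≤ ker τ` of `G` with `K.relIndex ker τ = 0` (infinite
index); `⊥` is one. A chain of such `K_i` has the upper bound `K = ⋃ K_i`: otherwise `K` has finite index in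
the finitely generated group `ker τ`, so `K` is finitely generated, so `K = K_i` for some `i`.
Let `K` be maximal, `G' := G/K`, `τ'` induced by `τ` (`QuotientGroup.lift`). `ker τ' = ker τ/K` is
finitely generated and infinite. A nontrivial normal subgroup of `G'` in `ker τ'` has preimage strictly
bigger than `K`, hence of finite index: `JI τ'`.
Step 3 (`Geo τ'`). `odd`: clear. `ex`: images of a frame (types are preserved). `fix`: let `x', y' ∈ G'` be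
commuting involutions of different nontrivial types and `n' ∈ ker τ'` commuting with both. Let `g ∈ G` map to
`x'`; `x := D g` is a point of `G` and maps to `x'^(odd) = x'` (`D g` is an odd power of `g`). Let `y₁` map to
`y'` and be an involution in the same way, `z := D (x y₁)`, a point perpendicular to `x` (`wedge_*`), mapping
to an odd power of `x' y'`, which is an involution, so `z` maps to `x' y'`. Let `n ∈ ker τ` map to `n'`.
`n⁻¹ x n` maps to `x'`, so `x (n⁻¹ x n) ∈ K`; `k := sqr (x (n⁻¹ x n)) ∈ K` (a power), and by definition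
`comp x n = n k⁻¹ =: n₁ ∈ A x` (`comp_mem`), which maps to `n'`. `z n₁ z⁻¹ = n₁⁻¹` (`A_inverted`) and
`z n₁ z⁻¹` maps to `n'` (commutes with `x' y'`), so `n₁² ∈ K`, and `n₁ = sqr (n₁²) ∈ K` (`sqr_self`), so
`n' = 1`. -/
def S_JIEx : Prop := ∀ (G : Type) [Group G] (τ : G →* K4), Geo τ →
  (∃ H : Subgroup G, H ≤ τ.ker ∧ H.FG ∧ ¬ Finite H) →
    ∃ (G' : Type) (_ : Group G') (τ' : G' →* K4), Geo τ' ∧ JI τ'

end Pool.Agent.Klein
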