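import Pool.Agent.Lib.MP_3c9215_al.Defs2

set_option autoImplicit false

/-!
# MP_3c9215_al, part 2: the nondegenerate geometry (statements)

`Pt τ` is the type of points, `Coll τ` the group of collineations `h = (h.1, h.2)`
(`x ⊥ y ↔ h.1 x ⊥ h.2 y`, types preserved), `cj τ g` conjugation by `g`, `IsHml σ s`: `s = (f, f⁻¹)` with
`f x = D (σ x σ)`.  In all proofs below unique (of the common perpendicular of two points of DIFFERENT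
types) refers to `wedge_unique` (no nondegeneracy needed).  If `k.1` fixes two points `x, y` of different
types, both perpendicular to `z`, then `k.2 z = z` for the same reason.  Remember `Perp z x ↔ Perp x z`,
`Perp x y` implies `τ x ≠ τ y` (`Perp.tau_ne`), and for perpendicular points `x, y` the product `x y` is a
point perpendicular to both.  A point commuting with the point `x` and of the same type equals `x`.
-/

namespace Pool.Agent.Klein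

/-- **Fix1.** Consequences of nondegeneracy: for a point `x` and `1 ≠ f ∈ A x`
(i) the centralizer of `f` in `ker τ` is `A x`; (ii) `x` is the only point commuting with `f`;
(iii) two distinct points have at most one common perpendicular.
Proof. (i) Let `n ∈ ker τ`, `n f = f n`. Take `y ⊥ x` (`exists_perp'`), `z = x y` (a point `⊥ x`, `⊥ y`).
`y` and `z` invert `f` (`A_inverted`). Follow the proof of `ker_factor`: `b' := n⁻¹ y n` is a point of type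
`τ y` and inverts `f`; `k := D (x b')` is a point `⊥ x`, `⊥ b'`, of type `τ z`; `x b'` inverts `f`, so its odd
power `k` inverts `f`. (To see this: `D g = g ^ m` with `m = orderOf (g*g)` odd, `ker_orderOf_odd`.)
Choose `α ∈ A x` with `α k α⁻¹ = z` (`conj_of_perp`), `α` commutes with `f` (`A_comm`).
`b'' := α b' α⁻¹` is `⊥ z`, inverts `f`. `γ := sqr (y b'')`: as in the proof of `conj_of_perp`
`γ ∈ A z`, `γ b'' γ⁻¹ = y`, and `γ` commutes with `f` because `y b''` does (`sqr_comm`). By `ND` for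
`x ⊥ z`, `f ≠ 1`: `γ = 1`. So `b'' = y`, i.e. `(n α⁻¹)` commutes with `y` and with `f`: it is in `A y` and
commutes with `f ∈ A x`, `x ⊥ y`, so `n α⁻¹ = 1` by `ND` and `n = α ∈ A x`.
(ii) If `τ x' ≠ τ x`, then `w := D (x x')` commutes with `f` (`D_comm_of_comm`) and `w ⊥ x` inverts `f`, so
`f² = 1`, `f = 1`. If `τ x' = τ x`, then `x x' ∈ ker τ` commutes with `f`, so `x x' ∈ A x` by (i), hence
`x' x = x x'`, and equal types give `x' = x`.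
(iii) If `τ x ≠ τ x'` use `wedge_unique`. If `τ x = τ x'`: `f := x x' ≠ 1` is in `ker τ` and commutes with
`z` and `z'`, so `f ∈ A z` and `z' = z` by (ii). -/
def S_Fix1 : Prop := ∀ (G : Type) [Group G] (τ : G →* K4), Geo τ → ND τ →
  (∀ x f n : G, IsPt τ x → f ∈ A τ x → f ≠ 1 → τ n = 1 → n * f = f * n → n ∈ A τ x) ∧
  (∀ x f x' : G, IsPt τ x → IsPt τ x' → f ∈ A τ x → f ≠ 1 → x' * f = f * x' → x' = x) ∧
  (∀ x x' z z' : G, IsPt τ x → IsPt τ x' → IsPt τ z → IsPt τ z' → x ≠ x' → Perp z x → Perp z x' →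
    Perp z' x → Perp z' x' → z = z')

/-- **HmlEx.** For a point `O` and `σ ∈ A O` the homology exists (no nondegeneracy).
Proof. `f x := D (σ x σ)` is a point of type `τ x`. (Only `τ σ = 1` is used.)
Surjective: given a point `z` let `ε := comp z (σ σ) ∈ A z`, `σ² = ε i` with `z` inverting `i`;
`y := σ⁻¹ z ε σ⁻¹ = σ⁻¹ (z (ε σ⁻²)) σ` and `ε σ⁻² = ε i⁻¹ ε⁻¹` is inverted by `z` (`inverted_conj_A`), so
`y² = 1` and `y` is a point with `σ y σ = z ε`, `f y = z` (`D_eq`).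
Injective: if `f y = z` write `σ y σ = z ε'`, `ε' ∈ A z` (`D_factor`); `y² = 1` says that `z` inverts
`j := ε' σ⁻²` (`y` is conjugate to `z ε' σ⁻²` by `σ`), `σ² = j⁻¹ ε'`, so `ε' = comp z (σ²)` by
`comp_mul_right`, `comp_of_inverted`; hence `y = σ⁻¹ z ε' σ⁻¹` is determined by `z`.
Self-adjoint: `x ⊥ f y ↔ f x ⊥ y`. Both sides imply `τ x ≠ τ y`; assume it. If `x` commutes with
`y' = D (σ y σ)`, `σ y σ = y' ε`, then `x ⊥ y'` inverts `ε` and `(x σ y σ)² = (x y' ε)² = 1`. Conversely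
`(x σ y σ)² = 1` says that `x` inverts `σ y σ`, so `x` commutes with `D (σ y σ)`. So `x ⊥ f y` iff
`(x σ y σ)² = 1`, and `f x ⊥ y` iff `(y σ x σ)² = 1`; `x σ y σ` is conjugate to `y σ x σ`
(`x⁻¹ (x σ y σ) x = σ y σ x`, `σ⁻¹ (σ y σ x) σ = y σ x σ`).
So `s := (f, f⁻¹)` is in `Coll τ`: `f x ⊥ f⁻¹ y ↔ x ⊥ f (f⁻¹ y) = y`. -/
def S_HmlEx : Prop := ∀ (G : Type) [Group G] (τ : G →* K4), Geo τ → ∀ O σ : G, IsPt τ O →
  σ ∈ A τ O → ∃ s : PP τ, IsHml σ s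

/-- **HmlBasic.** (i) uniqueness; (ii) the homology with `σ ∈ A O` fixes `O` and all points `⊥ O` (both
components); (iii) conjugation; (iv) `σ⁻¹` gives the same homology; (v) duality.
Proof. (i) the first components agree pointwise, the second is the inverse of the first.
(ii) `σ O σ = O σ²`, `D_eq`; for `x ⊥ O`, `x` inverts `σ`, so `σ x σ = x` and `D x = x` (`D_self`).
(iii) `D_conj`, `cj_mem`, and `cj g` has equal components. (iv) `σ⁻¹ x σ⁻¹ = (σ x σ)⁻¹`, `D_inv`. (v) clear. -/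
def S_HmlBasic : Prop := ∀ (G : Type) [Group G] (τ : G →* K4), Geo τ →
  (∀ (σ : G) (s s' : PP τ), IsHml σ s → IsHml σ s' → s = s') ∧
  (∀ (O : Pt τ) (σ : G) (s : PP τ), σ ∈ A τ (O : G) → IsHml σ s → (s.1 O = O ∧ s.2 O = O) ∧
    ∀ x : Pt τ, Perp (x : G) (O : G) → s.1 x = x ∧ s.2 x = x) ∧
  (∀ (g σ : G) (s : PP τ), IsHml σ s → IsHml (g * σ * g⁻¹) (cj τ g * s * (cj τ g)⁻¹)) ∧
  (∀ (σ : G) (s : PP τ), IsHml σ s → IsHml σ⁻¹ s) ∧
  (∀ (σ : G) (s : PP τ), IsHml σ s → star s = s⁻¹)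

/-- **HmlFix.** If `1 ≠ σ ∈ A O`, `s` is the homology and `s.1 (s.1 x) = x`, then `x = O` or `x ⊥ O`.
Proof (uses `S_Fix1`). Put `g = x`, `k = s.1 x = D (σ g σ)`, so `D (σ k σ) = g`. By `D_factor`
`σ g σ = k ε`, `ε ∈ A k`, and `σ k σ = g ε'`, `ε' ∈ A g`. Then `σ g σ k = k ε k = ε`, so
`g σ k σ = σ⁻¹ (σ g σ k) σ = σ⁻¹ ε σ`, and `g σ k σ = g g ε' = ε'`. So `ε' = σ⁻¹ ε σ`.
Case `ε ≠ 1`: `ε' ≠ 1` is in `A g` and commutes with the point `σ⁻¹ k σ`, so `σ⁻¹ k σ = g` by Fix1 (ii).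
Then `k = σ g σ⁻¹`, and `k` commutes with `σ g σ = k σ²`, hence with `σ²`; `1 ≠ σ² ∈ A O`
(`ker_eq_one_of_sq`), so `k = O` by Fix1 (ii), and `g = σ⁻¹ O σ = O`.
Case `ε = 1`: `σ g σ = k` is an involution, so `g` inverts `σ²`. The point `g O g⁻¹` commutes with
`g σ² g⁻¹ = σ⁻²`, hence with `σ² ≠ 1`, so `g O g⁻¹ = O` by Fix1 (ii): `g` commutes with `O`. -/
def S_HmlFix : Prop := ∀ (G : Type) [Group G] (τ : G →* K4), Geo τ → ND τ →
  ∀ (O : Pt τ) (σ : G) (s : PP τ), σ ∈ A τ (O : G) → σ ≠ 1 → IsHml σ s →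
    ∀ x : Pt τ, s.1 (s.1 x) = x → x = O ∨ Perp (x : G) (O : G)

/-- **Rule.** Let `h` be a collineation and `x ≠ y` points perpendicular to `z`. If `h.1` fixes `x`, `y`
then `h.2` fixes `z`; if `h.2` fixes `x`, `y` then `h.1` fixes `z`.
Proof (uses `S_Fix1` (iii)). `x ⊥ z` gives `x = h.1 x ⊥ h.2 z`, the same for `y`; `z` and `h.2 z` are common
perpendiculars of `x ≠ y`. The second statement is dual (`star`). -/
def S_Rule : Prop := ∀ (G : Type) [Group G] (τ : G →* K4), Geo τ → ND τ →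
  ∀ (h : PP τ) (x y z : Pt τ), h ∈ Coll τ → x ≠ y → Perp (z : G) (x : G) → Perp (z : G) (y : G) →
    (h.1 x = x → h.1 y = y → h.2 z = z) ∧ (h.2 x = x → h.2 y = y → h.1 z = z)

/-- **Det.** A collineation `h` such that `h.1` fixes all points of one type is the identity.
Proof (uses `S_Rule`). Let `t ≠ 1` be the type, `t', t''` the two others. Every point `z` of type `≠ t` is
perpendicular to at least two points of type `t`: one, `y`, by `exists_perp`, another `y f` with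
`1 ≠ f ∈ A z` (`NT`, `mul_A_isPt`, `mul_A_perp`). By Rule `h.2 z = z` for all `z` of type `≠ t`. Let `x` have
type `t'`: it is perpendicular to two points of type `t''`, both fixed by `h.2`, so `h.1 x = x`; the same for
type `t''`. So `h.1 = 1`, and then `h.2 z = z` for every `z` (two points of the same type `⊥ z`). -/
def S_Det : Prop := ∀ (G : Type) [Group G] (τ : G →* K4), Geo τ → ND τ → NT τ →
  ∀ (h : PP τ) (t : K4), h ∈ Coll τ → t ≠ 1 → (∀ x : Pt τ, τ (x : G) = t → h.1 x = x) → h = 1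

/-- **HmlComm.** Homologies with perpendicular centres commute.
Proof (uses `S_HmlBasic`, `S_Rule`, `S_Det`). `κ := s s' s⁻¹ s'⁻¹`, `t := τ O τ O'` the third type. Let `p`
have type `t`, `z₁ := D (p O)`, `z₂ := D (p O')`: points `⊥ p`, of types `τ O'`, `τ O`, so distinct,
`z₁ ⊥ O`, `z₂ ⊥ O'`. `κ.2 z₁ = z₁`: `s'.1 O = O` (as `O ⊥ O'`), so `s'.2⁻¹ z₁ ⊥ O` (apply the collineation
`s'⁻¹` to `O ⊥ z₁`); `s.2` fixes all points `⊥ O`, so `s.2⁻¹` fixes `s'.2⁻¹ z₁`, `s'.2` maps it back to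
`z₁`, which `s.2` fixes. `κ.2 z₂ = z₂`: `s'.2⁻¹ z₂ = z₂`; `s.2⁻¹ z₂ ⊥ O'` because `s.1 O' = O'`; `s'.2` fixes
it and `s.2` maps it back. By Rule `κ.1 p = p`, by Det `κ = 1`. -/
def S_HmlComm : Prop := ∀ (G : Type) [Group G] (τ : G →* K4), Geo τ → ND τ → NT τ →
  ∀ (O O' : Pt τ) (σ σ' : G) (s s' : PP τ), Perp (O : G) (O' : G) → σ ∈ A τ (O : G) →
    σ' ∈ A τ (O' : G) → IsHml σ s → IsHml σ' s' → s * s' = s' * s

/-- **LemP.** Let `O, x, y = O x` be a frame, `1 ≠ ρ ∈ A O`, `1 ≠ σ ∈ A y`, `s` the homology of `σ`. There are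
`ρ₁, ρ₁' ∈ A O` such that `cj ρ₁ * s * cj ρ * s⁻¹` fixes `x` and moves `y`, and
`cj ρ₁' * s * cj ρ * s⁻¹` fixes `y` and moves `x` (first components).
Proof (uses `S_HmlBasic`, `S_HmlFix`). `s.1` and `s.2` fix `x`, `O` (both `⊥ y`) and `y`.
`x' := ρ x ρ⁻¹`, `y' := ρ y ρ⁻¹` are points `⊥ O`, `x' ⊥ y'`; `X := s.1 x'`, `Y := s.1 y'` are `⊥ O`
(`x' ⊥ O` and `s.2 O = O`). Claim: `X ⊥ Y` is false. Otherwise let `z := s.1 (s.1 y')`, so `s.2 z = Y`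
(`s.2 = s.1⁻¹`) and `s.1 x' = X ⊥ s.2 z` gives `x' ⊥ z`; also `z ⊥ O`. `y'` is also perpendicular to `x'`
and `O`, which have different types: `z = y'` (unique). By HmlFix `y' = y` or `y' ⊥ y`; equal types exclude
the second, and `y' = y` means that `ρ ∈ A O` commutes with `y ⊥ O`, so `ρ = 1` (`ker_fix`).
Choose `ρ₁ ∈ A O` with `ρ₁ X ρ₁⁻¹ = x` (`conj_of_perp`). `P := cj ρ₁ s cj ρ s⁻¹`: `P.1 x = ρ₁ X ρ₁⁻¹ = x` and
`P.1 y = ρ₁ Y ρ₁⁻¹ ≠ y`, otherwise `X = ρ₁⁻¹ x ρ₁ ⊥ ρ₁⁻¹ y ρ₁ = Y`. Choose `ρ₁'` with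
`ρ₁' Y ρ₁'⁻¹ = y` and argue in the same way. -/
def S_LemP : Prop := ∀ (G : Type) [Group G] (τ : G →* K4), Geo τ → ND τ →
  ∀ (O x y : Pt τ) (ρ σ : G) (s : PP τ), Perp (O : G) (x : G) → (y : G) = O * x →
    ρ ∈ A τ (O : G) → ρ ≠ 1 → σ ∈ A τ (y : G) → σ ≠ 1 → IsHml σ s →
    (∃ ρ₁ ∈ A τ (O : G), (cj τ ρ₁ * s * cj τ ρ * s⁻¹).1 x = x ∧
      (cj τ ρ₁ * s * cj τ ρ * s⁻¹).1 y ≠ y) ∧
    (∃ ρ₁ ∈ A τ (O : G), (cj τ ρ₁ * s * cj τ ρ * s⁻¹).1 y = y ∧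
      (cj τ ρ₁ * s * cj τ ρ * s⁻¹).1 x ≠ x)

/-- **LemT.** Same frame, `ρ ∈ A O`, `σ ∈ A y`: there is `ρ' ∈ A O` with `s (ρ x) = ρ' x` and
`s⁻¹ (ρ y) = ρ' y` (actions by conjugation, first components).
Proof (uses `S_HmlBasic`). `x' := ρ x ρ⁻¹ ⊥ y' := ρ y ρ⁻¹`, both `⊥ O`. `X := s.1 x' ⊥ O`, type `τ x`; choose
`ρ' ∈ A O` with `ρ' x ρ'⁻¹ = X`. `Y := s.1⁻¹ y' = s.2 y'`: `x' ⊥ y'` gives `X ⊥ Y`, and `s.1 O = O` gives
`Y ⊥ O`. `ρ' y ρ'⁻¹` is also perpendicular to `O` and to `ρ' x ρ'⁻¹ = X`; unique. -/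
def S_LemT : Prop := ∀ (G : Type) [Group G] (τ : G →* K4), Geo τ →
  ∀ (O x y : Pt τ) (ρ σ : G) (s : PP τ), Perp (O : G) (x : G) → (y : G) = O * x →
    ρ ∈ A τ (O : G) → σ ∈ A τ (y : G) → IsHml σ s →
    ∃ ρ' ∈ A τ (O : G), (s * cj τ ρ).1 x = (cj τ ρ').1 x ∧ (s⁻¹ * cj τ ρ).1 y = (cj τ ρ').1 y

/-- **EConj.** Conjugation by `k ∈ Stb O` (no nondegeneracy).
Proof. `p ⊥ O` gives `k.1 p ⊥ k.2 O = O`, so `k.1` permutes the points `⊥ O` (also `k⁻¹ ∈ Stb O`).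
`(k h k⁻¹).2 = k.2 h.2 k.2⁻¹` fixes `z ⊥ k.1 p`: `k.2⁻¹ z ⊥ p`. The statement for `Wc` follows since
`k⁻¹ (E O (k.1 p)) k ≤ E O p`, for `MM` by closure induction. (vi): for `h ∈ HH O` take `x ⊥ O` and the point
`O x ⊥ O`: `h.2 O` is perpendicular to `h.1 x = x` and `h.1 (O x) = O x`, like `O`; unique. -/
def S_EConj : Prop := ∀ (G : Type) [Group G] (τ : G →* K4), Geo τ → ∀ (O : Pt τ),
  (∀ k ∈ Stb O, ∀ p : Pt τ, Perp (p : G) (O : G) → Perp ((k : PP τ).1 p : G) (O : G)) ∧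
  (∀ k ∈ Stb O, ∀ p : Pt τ, ∀ h ∈ E O p, k * h * k⁻¹ ∈ E O (k.1 p)) ∧
  (∀ k ∈ Stb O, ∀ p : Pt τ, ∀ h ∈ Wc O p, k * h * k⁻¹ ∈ Wc O (k.1 p)) ∧
  (∀ k ∈ Stb O, ∀ h ∈ MM O, k * h * k⁻¹ ∈ MM O) ∧
  (∀ k ∈ Stb O, ∀ h ∈ HH O, k * h * k⁻¹ ∈ HH O) ∧
  (∀ h ∈ HH O, h ∈ Stb O)

/-- **EComm.** If `δ ∈ Stb O`, `p ⊥ O` and `δ.2` fixes all points `⊥ p`, then `δ k δ⁻¹ k⁻¹ ∈ E O p` for every
`k ∈ HH O` (no nondegeneracy).
Proof. Let `x ⊥ O`. `k.1⁻¹ x = x`, `δ.1⁻¹ x ⊥ O` is fixed by `k.1`, so the product maps `x` to `x`. Let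
`z ⊥ p`. `k.1 p = p` since `p ⊥ O`, so `k.2⁻¹ z ⊥ p` (apply `k⁻¹` to `p ⊥ z`); `δ.2` and `δ.2⁻¹` fix it;
`k.2` maps it back to `z`, fixed by `δ.2`. -/
def S_EComm : Prop := ∀ (G : Type) [Group G] (τ : G →* K4), Geo τ → ∀ (O p : Pt τ) (δ k : PP τ),
  Perp (p : G) (O : G) → δ ∈ Stb O → (∀ z : Pt τ, Perp (z : G) (p : G) → δ.2 z = z) → k ∈ HH O →
    δ * k * δ⁻¹ * k⁻¹ ∈ E O p

/-- **E124.** Let `p, p' ⊥ O`. (1) `E O p ∩ E O p' = 1` for `p ≠ p'`. (2) `h ∈ E O p`, `h.1 O = O` imply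
`h = 1`. (3) elements of `E O p` and `E O p'` commute for `p ≠ p'`. (4) If `h ∈ HH O` fixes `O` and a point
`g ≠ O` of type `τ O` such that `O` and `g` have a common perpendicular `q`, then `h = 1`.
Proof (uses `S_Fix1`, `S_Rule`, `S_Det`, `S_EConj`).
(1) Let `g` have type `τ O`. `z := D (g p)`, `z' := D (g p')` are `⊥ g` and fixed by `h.2` (they are `⊥ p`,
`⊥ p'`). If `z = z'` then `z` and `O` are common perpendiculars of `p ≠ p'`, so `z = O` (Fix1 (iii)), but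
`z ⊥ g` has type `≠ τ g = τ O`. So `z ≠ z'` and `h.1 g = g` (Rule). Det.
(2) `h.2` fixes every `z ⊥ O` (Rule with `O` and the point `O z ⊥ O`, both fixed by `h.1`, both `⊥ z`) and
every `z ⊥ p`. Let `g` have the third type (`≠ τ O`, `≠ τ p`): `z₁ := D (g O)`, `z₂ := D (g p)` are `⊥ g`,
of types `τ p`, `τ O`, fixed by `h.2`; Rule: `h.1 g = g`. Det.
(3) EConj (ii): `h'` is in `HH O ≤ Stb O` and `h'.1 p = p` (`p ⊥ O`), so `h' h⁻¹ h'⁻¹ ∈ E O p` and the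
commutator `h h' h⁻¹ h'⁻¹` is in `E O p`, by symmetry also in `E O p'`; (1).
(4) `h.2` fixes all `z ⊥ O` as in (2). Let `p` have type `τ q`. `z₁ := D (p O) ⊥ O` and
`z₂ := D (p g)` are `⊥ p`, of type `τ q τ O`. `y := D (z₂ O)` is `⊥ z₂`, `⊥ O`, of type `τ q`; `h.1` fixes `y`
(`y ⊥ O`) and `g`, `y ≠ g` by types, both `⊥ z₂`: `h.2 z₂ = z₂`. `z₁ ≠ z₂`: otherwise it is a common
perpendicular of `O ≠ g` like `q`, so `z₁ = q`, but the types differ. Rule: `h.1 p = p`. Det with type `τ q`. -/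
def S_E124 : Prop := ∀ (G : Type) [Group G] (τ : G →* K4), Geo τ → ND τ → NT τ → ∀ (O : Pt τ),
  (∀ (p p' : Pt τ) (h : PP τ), Perp (p : G) (O : G) → Perp (p' : G) (O : G) → p ≠ p' → h ∈ E O p →
    h ∈ E O p' → h = 1) ∧
  (∀ (p : Pt τ) (h : PP τ), Perp (p : G) (O : G) → h ∈ E O p → h.1 O = O → h = 1) ∧
  (∀ (p p' : Pt τ) (h h' : PP τ), Perp (p : G) (O : G) → Perp (p' : G) (O : G) → p ≠ p' →
    h ∈ E O p → h' ∈ E O p' → h * h' = h' * h) ∧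
  (∀ (g q : Pt τ) (h : PP τ), h ∈ HH O → h.1 O = O → τ (g : G) = τ (O : G) → g ≠ O → h.1 g = g →
    Perp (q : G) (O : G) → Perp (q : G) (g : G) → h = 1)

/-- **EEx.** `E O p ≠ 1` for all `p ⊥ O`.
Proof (uses `S_HmlEx`, `S_HmlBasic`, `S_HmlFix`, `S_LemP`, `S_EConj`, `S_EComm`). `q := O p`, a point `⊥ O`,
`⊥ p`, and `p = q O`. Take `1 ≠ σ ∈ A p`, `s` its homology (centre `p`), `1 ≠ ρ ∈ A q`. LemP for the frame
`(q, O, p)` (second part): there is `ρ₁ ∈ A q` such that `P := cj ρ₁ s cj ρ s⁻¹` has `P.1 p = p`,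
`P.1 O ≠ O`. Both components of `P` fix `q` (`ρ, ρ₁` commute with `q`, `q ⊥ p`). `P.2 O` is perpendicular to
`P.1 p = p` and `P.1 q = q`, like `O`, so `P.2 O = O` (unique), `P ∈ Stb O`. `O ⊥ q` gives
`x₀ := P.1 O ⊥ P.2 q = q`. Let `1 ≠ ρ₀ ∈ A O`, `u` its homology, `u ∈ HH O`, `k := P u P⁻¹ ∈ HH O` (EConj).
`e := s k s⁻¹ k⁻¹ ∈ E O p` (EComm; `s.2 O = O`, `s.2` fixes all points `⊥ p`). `e ≠ 1`: otherwise
`s k = k s`; `k.1 x₀ = P.1 (u.1 O) = x₀`, so `k.1` fixes `s.1 x₀`, i.e. `u.1` fixes `P.1⁻¹ (s.1 x₀)`, a point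
of type `τ O`, hence (HmlFix) `P.1⁻¹ (s.1 x₀) = O`, `s.1 x₀ = x₀`, and HmlFix for `s` gives `x₀ = p` or
`x₀ ⊥ p`, so `x₀ ⊥ p` by types. `x₀` and `O` are both `⊥ p`, `⊥ q`: `x₀ = O` (unique), a contradiction. -/
def S_EEx : Prop := ∀ (G : Type) [Group G] (τ : G →* K4), Geo τ → ND τ → NT τ → ∀ (O p : Pt τ),
  Perp (p : G) (O : G) → ∃ h ∈ E O p, h ≠ 1

/-- **WEx.** `Wc O p ≠ 1` for all `p ⊥ O`.
Proof (uses `S_HmlEx`, `S_HmlBasic`, `S_HmlFix`, `S_EConj`, `S_EComm`, `S_E124`, `S_EEx`).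
`1 ≠ α ∈ A O`, `p' := α p α⁻¹ ≠ p` (`ker_fix`), `p' ⊥ O`, `τ p' = τ p`. `1 ≠ k ∈ E O p'` (EEx), `1 ≠ σ ∈ A p`,
`s` its homology. `w := s k s⁻¹ k⁻¹ ∈ E O p` (EComm; `E O p' ≤ HH O`). Central: `h ∈ E O p` commutes with
`k` (E124 (3)) and with `s k s⁻¹ ∈ E O (s.1 p')` (`s ∈ Stb O`, EConj), `s.1 p' ≠ p = s.1 p`. `w ≠ 1`:
otherwise `s k = k s`, `s.1 O = O`, so `s.1` fixes `x := k.1 O`, so `x = p` or `x ⊥ p` (HmlFix), by types
`x ⊥ p`. `q' := O p'` is a point `⊥ O`, `⊥ p'`, `k.2 q' = q'`, so `x = k.1 O ⊥ q'`. `O` and `x` are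
perpendicular to `p` and `q'`, of different types (`τ q' = τ O τ p`), so `x = O` (unique), and `k = 1` by
E124 (2), a contradiction. -/
def S_WEx : Prop := ∀ (G : Type) [Group G] (τ : G →* K4), Geo τ → ND τ → NT τ → ∀ (O p : Pt τ),
  Perp (p : G) (O : G) → ∃ h ∈ Wc O p, h ≠ 1

/-- **MBasic.** (i) `MM O` is commutative; (ii) `MM O ≤ HH O`; (iii) only the identity of `MM O` fixes `O`;
(iv) `cj O` inverts `MM O`.
Proof (uses `S_EConj`, `S_E124`, `S_WEx`). (i) generators commute: for `p = p'` by definition of `Wc`, for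
`p ≠ p'` by E124 (3) (`Subgroup.closure_induction₂` or centralizer arguments). (ii) clear.
(iii) Let `m ∈ MM O`, `m.1 O = O`. Take a point `p ⊥ O`, `1 ≠ w ∈ Wc O p` (WEx), `g := w.1 O ≠ O`
(E124 (2)), `q := O p ⊥ O`, `q ⊥ p`: `w.2 q = q`, so `g = w.1 O ⊥ q`. `m w = w m` gives `m.1 g = g`;
E124 (4) gives `m = 1`.
(iv) Let `w ∈ Wc O p`, `j := cj O`, `j² = 1`, `j ∈ Stb O`, `j.1 p = p`; `w' := j w j⁻¹ ∈ Wc O p` (EConj) and
`x := w' w` commutes with `j`. Hence `j.1` fixes `x.1 O` (`j.1 O = O`), i.e. the point `x.1 O` commutes with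
`O`; equal types: `x.1 O = O`, `x = 1` by (iii), `w' = w⁻¹`. Closure induction with (i). -/
def S_MBasic : Prop := ∀ (G : Type) [Group G] (τ : G →* K4), Geo τ → ND τ → NT τ → ∀ (O : Pt τ),
  (∀ m ∈ MM O, ∀ n ∈ MM O, m * n = n * m) ∧ (∀ m ∈ MM O, m ∈ HH O) ∧
  (∀ m ∈ MM O, (m : PP τ).1 O = O → m = 1) ∧
  (∀ m ∈ MM O, cj τ (O : G) * m * (cj τ (O : G))⁻¹ = m⁻¹)

/-- **MRel.** For `ρ ∈ A O`, `s` its homology, `m ∈ MM O`: the product of the conjugates of `m` by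
`s * cj ρ` and by `s * (cj ρ)⁻¹` is `m²`.
Proof (uses `S_HmlBasic`, `S_EConj`, `S_MBasic`). Choose `p ⊥ O`, `q := O p` (so `O q = p`). `cj ρ` commutes
with `s` (HmlBasic (iii), (i)). Put `H := (cj ρ)⁻¹ s`, `H' := cj ρ s`; both are in `Stb O` and fix `O`;
`H.1 x = D (x ρ²)` as group elements (`ρ⁻¹ (ρ x ρ) ρ = x ρ²`, `D_conj`). `q` inverts `ρ`, so
`cj q H (cj q)⁻¹ = H'` (HmlBasic (iii), (iv)).
Step 1. Let `w ∈ MM O` commute with `cj q`. Then `f := w⁻¹ (H w H⁻¹) ∈ MM O` commutes with `cj p`.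
`x := w.1 O` commutes with `q` (`(cj q).1 O = O`), so `x ⊥ q`; `q x` is a point of type `τ p`, `⊥ x`, `⊥ q`.
`q x` inverts `x ρ²`: `(q x)(x ρ²)(q x)⁻¹ = q ρ² x q = (q ρ² q)(q x q) = ρ⁻² x = (x ρ²)⁻¹`; so `q x` commutes
with `H.1 x = D (x ρ²)`, and `q x ⊥ H.1 x` by types. `w⁻¹.2 (q x)` is perpendicular to `w⁻¹.1 x = O` and
`w⁻¹.1 q = q` (`q ⊥ O`), so it is `O q = p` (unique). Hence `f.1 O = w⁻¹.1 (H.1 x) ⊥ w⁻¹.2 (q x) = p`.
`f.2 p` is perpendicular to `f.1 O` and `f.1 q = q`, like `p`: `f.2 p = p` (types of `f.1 O` and `q`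
differ; unique). `O ⊥ p` gives `f⁻¹.1 O ⊥ p`. `g := f (cj p) f⁻¹ (cj p)⁻¹ ∈ MM O` maps `O` to
`f.1 ((cj p).1 (f⁻¹.1 O)) = f.1 (f⁻¹.1 O) = O` (`(cj p)⁻¹` fixes `O`, `cj p` fixes points `⊥ p`), so `g = 1`.
Step 2. `cj q = cj O cj p`, so by MBasic (iv) `cj q f (cj q)⁻¹ = f⁻¹`. Conjugating `H w H⁻¹ = w f` by `cj q`:
`H' w H'⁻¹ = w f⁻¹`. So `Φ w := (H w H⁻¹)(H' w H'⁻¹) = w²`.
Step 3. By symmetry (`p ↔ q`) `Φ w = w²` for `w` commuting with `cj p`. For `m ∈ MM O` let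
`m' := cj q m (cj q)⁻¹ ∈ MM O`. `w₁ := m m'` commutes with `cj q`; `w₂ := m m'⁻¹` is inverted by `cj q`, hence
commutes with `cj p = cj O cj q` (MBasic (iv)). `m² = w₁ w₂`, `Φ` is multiplicative on `MM O`, so
`Φ(m)² = Φ(m²) = m⁴`, `v := Φ(m) m⁻²` satisfies `v² = 1`; `cj O v (cj O)⁻¹ = v⁻¹ = v`, so `v.1 O` commutes
with `O`, `v.1 O = O`, `v = 1`. -/
def S_MRel : Prop := ∀ (G : Type) [Group G] (τ : G →* K4), Geo τ → ND τ → NT τ →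
  ∀ (O : Pt τ) (ρ : G) (s : PP τ), ρ ∈ A τ (O : G) → IsHml ρ s → ∀ m ∈ MM O,
    (s * cj τ ρ) * m * (s * cj τ ρ)⁻¹ * ((s * (cj τ ρ)⁻¹) * m * (s * (cj τ ρ)⁻¹)⁻¹) = m * m

/-- Chebyshev-type recursion in a group: `w²`, `(d w)²`, `(d u_{k+1})² u_k⁻¹` -/
def chebG {X : Type} [Group X] (d : X → X) : ℕ → X → X
  | 0, w => w * w
  | 1, w => d w * d w
  | (k + 2), w => d (chebG d (k + 1) w) * d (chebG d (k + 1) w) * (chebG d k w)⁻¹

/-- **MInt.** Let `p ⊥ O`, `σ ∈ A p`, `s` the homology of `σ` (centre `p`). There is `n ≥ 1` with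
`chebG (x ↦ s x s⁻¹) n w = w²` for all `w ∈ Wc O p`.
Proof (uses `S_HmlBasic`, `S_EConj`, `S_MBasic`, `S_MRel`). `star` maps `E O p` onto `E p O` and `Wc O p` onto
`Wc p O ≤ MM p` (`O ⊥ p`). Let `n ≥ 1`, `σ^n = 1`, `ζ^k(m) := (cj σ)^k m (cj σ)^(-k)` (integer `k`),
`d' m := s⁻¹ m s`. `cj σ` commutes with `s`. MRel with centre `p`, conjugated by `s⁻¹`:
`ζ(m) ζ^(-1)(m) = (d' m)²` for `m ∈ MM p`. By induction `chebG d' k m = ζ^k(m) ζ^(-k)(m)` for `m ∈ MM p`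
(all elements are in the commutative group `MM p`, EConj; `d'` is multiplicative):
`(d' (ζ^(k+1) m · ζ^(-k-1) m))² = ζ^(k+2) m · ζ^k m · ζ^(-k) m · ζ^(-k-2) m`. So `chebG d' n m = m²`.
`star (s w s⁻¹) = s⁻¹ (star w) s` (HmlBasic (v)), so `star (chebG d n w) = chebG d' n (star w) = star (w²)`. -/
def S_MInt : Prop := ∀ (G : Type) [Group G] (τ : G →* K4), Geo τ → ND τ → NT τ →
  ∀ (O p : Pt τ) (σ : G) (s : PP τ), Perp (p : G) (O : G) → σ ∈ A τ (p : G) → IsHml σ s →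
    ∃ n : ℕ, 1 ≤ n ∧ ∀ w ∈ Wc O p, chebG (fun x => s * x * s⁻¹) n w = w * w

end Pool.Agent.Klein
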