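import Pool.Agent.Lib.MP_3c9215_al.Spec1

set_option autoImplicit false

/-!
# MP_3c9215_al: elementary properties of the operators `T`
-/

namespace Pool.Agent.Klein

theorem tops : S_TOps := by
  intro G _ τ h a y φ ψ α ha hy hφ hψ hα
  have hmem : ∀ {z β : G}, τ z = 1 → τ β = 1 → τ (z⁻¹ * β * z) = 1 := by
    intro z β hz hβ
    rw [tau_conj', hβ]
  have hconj : ∀ {z χ β : G}, τ z = 1 → τ β = 1 → χ ∈ A τ a → β ∈ A τ a →
      T a (z * χ) β = T a z β := by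
    intro z χ β hz hβ hχ hβA
    have h1 : (z * χ)⁻¹ * β * (z * χ) = χ⁻¹ * (z⁻¹ * β * z) * (χ⁻¹)⁻¹ := by group
    have h2 := comp_conj_A h ha ((A τ a).inv_mem hχ) (hmem hz hβ)
    unfold T
    rw [h1, h2]
  have hleft : ∀ {z χ β : G}, χ ∈ A τ a → β ∈ A τ a → T a (χ * z) β = T a z β := by
    intro z χ β hχ hβA
    have h1 : χ⁻¹ * β * χ = β := by
      rw [mul_assoc, A_comm h ha hβA hχ]; group
    have h2 : (χ * z)⁻¹ * β * (χ * z) = z⁻¹ * (χ⁻¹ * β * χ) * z := by group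
    unfold T
    rw [h2, h1]
  refine ⟨comp_mem h ha (hmem hy hα.1), ?_, ?_⟩
  · rw [hconj (by rw [map_mul, hφ.1, hy, one_mul]) hα.1 hψ hα, hleft hφ hα]
  · obtain ⟨i, hi, hai, e⟩ := comp_factor h ha hy
    have hc := comp_mem h ha hy
    have e1 : T a y α = T a i α := by
      conv_lhs => rw [e]
      exact hleft hc hα
    have e2 : T a y⁻¹ α = T a i⁻¹ α := by
      have e3 : y⁻¹ = i⁻¹ * (comp a y)⁻¹ := by
        conv_lhs => rw [e]
        rw [mul_inv_rev]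
      rw [e3]
      exact hconj (by rw [map_inv, hi, inv_one]) hα.1 ((A τ a).inv_mem hc) hα
    rw [e1, e2]
    have h3 : a * (i⁻¹ * α * i) * a⁻¹ = (i⁻¹)⁻¹ * α * i⁻¹ := by
      have h4 : a * i⁻¹ * a⁻¹ = i := by
        have := congrArg (fun w => w⁻¹) hai
        simpa [mul_assoc] using this
      have h5 : a * α * a⁻¹ = α := by rw [← hα.2]; group
      calc a * (i⁻¹ * α * i) * a⁻¹ = (a * i⁻¹ * a⁻¹) * (a * α * a⁻¹) * (a * i * a⁻¹) := by group
        _ = (i⁻¹)⁻¹ * α * i⁻¹ := by rw [h4, h5, hai, inv_inv]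
    unfold T
    rw [← h3]
    exact comp_conj_self h ha (hmem hi hα.1)

end Pool.Agent.Klein
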