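import Pool.Agent.Lib.MP_3c9215_al.U1
import Pool.Agent.Lib.MP_3c9215_al.Unfused

set_option autoImplicit false

/-!
# MP_3c9215_al: U2, involutions and their conjugacy in the unfused case
-/

namespace Pool.Agent.Klein

open UnfusedAux

section
variable {G : Type} [Group G]

/-- the pair `(a b, a)` -/
lemma U2_third {a b : G} (u : UF a b) : UF (a * b) a where
  per := u.per
  aa := by
    calc a * b * (a * b) = a * (b * a) * b := by group
      _ = a * (a * b) * b := by rw [u.ab]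
      _ = (a * a) * (b * b) := by group
      _ = 1 := by rw [u.aa, u.bb, one_mul]
  bb := u.aa
  ab := by
    calc a * b * a = a * (b * a) := by group
      _ = a * (a * b) := by rw [u.ab]
  a1 := by
    intro e
    apply u.ne
    calc a = (a * b) * b⁻¹ := by group
      _ = b⁻¹ := by rw [e, one_mul]
      _ = b := inv_eq_of_mul_eq_one_left u.bb
  b1 := u.a1
  ne := by
    intro e
    exact u.b1 (mul_left_cancel (e.trans (mul_one a).symm))
  cent := by
    intro g h1 h2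
    have h3 : g * b = b * g := by
      have h4 : a * (g * b) = a * (b * g) := by
        calc a * (g * b) = (a * g) * b := by group
          _ = (g * a) * b := by rw [h2]
          _ = g * (a * b) := by group
          _ = (a * b) * g := h1
          _ = a * (b * g) := by group
      exact mul_left_cancel h4
    have h5 : a * b * a = b := by
      calc a * b * a = a * (b * a) := by group
        _ = a * (a * b) := by rw [u.ab]
        _ = (a * a) * b := by group
        _ = b := by rw [u.aa, one_mul]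
    rcases u.cent g h2 h3 with e | e | e | e
    · exact Or.inl e
    · exact Or.inr (Or.inr (Or.inl e))
    · exact Or.inr (Or.inr (Or.inr (by rw [e, h5])))
    · exact Or.inr (Or.inl e)
  nab := by
    intro g e
    apply u.nac g⁻¹
    calc g⁻¹ * a * g⁻¹⁻¹ = g⁻¹ * (g * (a * b) * g⁻¹) * g := by rw [e]; group
      _ = a * b := by group
  nac := by
    intro g e
    have h5 : a * b * a = b := by
      calc a * b * a = a * (b * a) := by group
        _ = a * (a * b) := by rw [u.ab]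
        _ = (a * a) * b := by group
        _ = b := by rw [u.aa, one_mul]
    rw [h5] at e
    apply u.nbc g⁻¹
    calc g⁻¹ * b * g⁻¹⁻¹ = g⁻¹ * (g * (a * b) * g⁻¹) * g := by rw [e]; group
      _ = a * b := by group
  nbc := by
    intro g e
    have h5 : a * b * a = b := by
      calc a * b * a = a * (b * a) := by group
        _ = a * (a * b) := by rw [u.ab]
        _ = (a * a) * b := by group
        _ = b := by rw [u.aa, one_mul]
    rw [h5] at e
    exact u.nab g e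

/-- odd order, or a power is an involution -/
lemma U2_even_or_odd {g : G} (hg : ∃ n : ℕ, 1 ≤ n ∧ g ^ n = 1) :
    OddO g ∨ ∃ n : ℕ, g ^ n * g ^ n = 1 ∧ g ^ n ≠ 1 := by
  obtain ⟨n, hn1, hn⟩ := hg
  have hpos : 0 < orderOf g := orderOf_pos_iff.mpr (isOfFinOrder_iff_pow_eq_one.mpr ⟨n, hn1, hn⟩)
  rcases Nat.even_or_odd (orderOf g) with he | ho
  · right
    obtain ⟨m, hm⟩ := he
    refine ⟨m, ?_, ?_⟩
    · rw [← pow_add, ← hm, pow_orderOf_eq_one]
    · intro e
      have h2 := Nat.le_of_dvd (by omega) (orderOf_dvd_of_pow_eq_one e)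
      omega
  · exact Or.inl ⟨_, ho, pow_orderOf_eq_one g⟩

/-- for two involutions: the product has odd order, or some involution in the group it generates commutes
with both -/
lemma U2_prod {x y : G} (per : ∀ g : G, ∃ n : ℕ, 1 ≤ n ∧ g ^ n = 1) (hx : x * x = 1) (hy : y * y = 1) :
    OddO (x * y) ∨ ∃ z : G, z * z = 1 ∧ z ≠ 1 ∧ z * x = x * z ∧ z * y = y * z := by
  rcases U2_even_or_odd (per (x * y)) with h | ⟨n, h1, h2⟩
  · exact Or.inl h
  right
  have xinv : x⁻¹ = x := inv_eq_of_mul_eq_one_left hx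
  have yinv : y⁻¹ = y := inv_eq_of_mul_eq_one_left hy
  have hxg : x * (x * y) * x⁻¹ = (x * y)⁻¹ := by
    rw [mul_inv_rev, xinv, yinv, ← mul_assoc, hx, one_mul]
  have hyg : y * (x * y) * y⁻¹ = (x * y)⁻¹ := by
    rw [mul_inv_rev, xinv, yinv]
    calc y * (x * y) * y = y * x * (y * y) := by group
      _ = y * x := by rw [hy, mul_one]
  have zinv : ((x * y) ^ n)⁻¹ = (x * y) ^ n := inv_eq_of_mul_eq_one_left h1
  refine ⟨(x * y) ^ n, h1, h2, ?_, ?_⟩
  · have h3 := U1_inverts_pow hxg n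
    rw [zinv] at h3
    calc (x * y) ^ n * x = (x * (x * y) ^ n * x⁻¹) * x := by rw [h3]
      _ = x * (x * y) ^ n := by group
  · have h3 := U1_inverts_pow hyg n
    rw [zinv] at h3
    calc (x * y) ^ n * y = (y * (x * y) ^ n * y⁻¹) * y := by rw [h3]
      _ = y * (x * y) ^ n := by group

/-- (i) -/
lemma U2_i (h1 : S_U1) {a b : G} (u : UF a b) (h : G) (ha : h * a = a * h) (hh : h * h = 1)
    (hne : h ≠ 1) :
    h = a ∨ (∃ k : G, k * a = a * k ∧ k * b * k⁻¹ = h) ∨
      (∃ k : G, k * a = a * k ∧ k * (a * b) * k⁻¹ = h) := by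
  obtain ⟨-, dec, -⟩ := h1 G a b u
  obtain ⟨v, r, hv, hr, hra, hbr, he⟩ := dec h ha
  have hsa : sqr r * a = a * sqr r := sqr_comm hra
  have hsa' : (sqr r)⁻¹ * a = a * (sqr r)⁻¹ := by
    have : Commute (sqr r) a := hsa
    exact this.inv_left
  rcases hv with rfl | rfl | rfl | rfl
  · exfalso
    rw [one_mul] at he
    subst he
    exact hne (hr.eq_one hh)
  · left
    have h2 : r * r = 1 := by
      calc r * r = (v * v) * (r * r) := by rw [u.aa, one_mul]
        _ = v * (v * r) * r := by group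
        _ = v * (r * v) * r := by rw [hra]
        _ = (v * r) * (v * r) := by group
        _ = 1 := by rw [← he, hh]
    rw [he, hr.eq_one h2, mul_one]
  · right; left
    refine ⟨(sqr r)⁻¹, hsa', ?_⟩
    have h3 := U1_conj (sqr_inverted hbr)
    rw [hr.sqr_sq] at h3
    rw [inv_inv, h3, he]
  · right; right
    have hcr : (a * b) * r * (a * b)⁻¹ = r⁻¹ := by
      calc (a * b) * r * (a * b)⁻¹ = a * (b * r * b⁻¹) * a⁻¹ := by group
        _ = a * r⁻¹ * a⁻¹ := by rw [hbr]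
        _ = (a * r * a⁻¹)⁻¹ := by group
        _ = (r * a * a⁻¹)⁻¹ := by rw [hra]
        _ = r⁻¹ := by group
    refine ⟨(sqr r)⁻¹, hsa', ?_⟩
    have h3 := U1_conj (sqr_inverted hcr)
    rw [hr.sqr_sq] at h3
    rw [inv_inv, h3, he]

/-- the main case of (iii) -/
lemma U2_case (h1 : S_U1) {w a : G} (u : UF w a) (y g : G) (hyw : y * w = w * y)
    (hy : y = g * a * g⁻¹) : OddO (a * y) := by
  obtain ⟨-, dec, -⟩ := h1 G w a u
  have hyy : y * y = 1 := by
    calc y * y = g * (a * a) * g⁻¹ := by rw [hy]; group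
      _ = 1 := by rw [u.bb]; group
  obtain ⟨v, r, hv, hr, hrw, har, he⟩ := dec y hyw
  rcases hv with rfl | rfl | rfl | rfl
  · exfalso
    rw [one_mul] at he
    rw [← he] at hr
    have h2 := hr.eq_one hyy
    apply u.b1
    calc a = g⁻¹ * (g * a * g⁻¹) * g := by group
      _ = 1 := by rw [← hy, h2]; group
  · exfalso
    have h2 : r * r = 1 := by
      calc r * r = (v * v) * (r * r) := by rw [u.aa, one_mul]
        _ = v * (v * r) * r := by group
        _ = v * (r * v) * r := by rw [hrw]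
        _ = (v * r) * (v * r) := by group
        _ = 1 := by rw [← he, hyy]
    have h3 := hr.eq_one h2
    rw [h3, mul_one] at he
    apply u.nab g⁻¹
    rw [← he, hy]
    group
  · have h2 : v * y = r := by
      rw [he, ← mul_assoc, u.bb, one_mul]
    rw [h2]
    exact hr
  · exfalso
    have hcr : (w * a) * r * (w * a)⁻¹ = r⁻¹ := by
      calc (w * a) * r * (w * a)⁻¹ = w * (a * r * a⁻¹) * w⁻¹ := by group
        _ = w * r⁻¹ * w⁻¹ := by rw [har]
        _ = (w * r * w⁻¹)⁻¹ := by group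
        _ = (r * w * w⁻¹)⁻¹ := by rw [hrw]
        _ = r⁻¹ := by group
    have h3 := U1_conj (sqr_inverted hcr)
    rw [hr.sqr_sq, ← he, hy] at h3
    apply u.nbc (sqr r * g)
    calc sqr r * g * a * (sqr r * g)⁻¹ = sqr r * (g * a * g⁻¹) * (sqr r)⁻¹ := by group
      _ = sqr r * ((sqr r)⁻¹ * (w * a) * sqr r) * (sqr r)⁻¹ := by rw [h3]
      _ = w * a := by group

/-- (iii) for `a` -/
lemma U2_iii (h1 : S_U1) {a b : G} (u : UF a b) (k : G) : OddO (a * (k * a * k⁻¹)) := by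
  have hyy : (k * a * k⁻¹) * (k * a * k⁻¹) = 1 := by
    calc (k * a * k⁻¹) * (k * a * k⁻¹) = k * (a * a) * k⁻¹ := by group
      _ = 1 := by rw [u.aa]; group
  have hy1 : k * a * k⁻¹ ≠ 1 := by
    intro e
    apply u.a1
    calc a = k⁻¹ * (k * a * k⁻¹) * k := by group
      _ = 1 := by rw [e]; group
  rcases U2_prod u.per u.aa hyy with h | ⟨z, hzz, hz1, hza, hzy⟩
  · exact h
  have main : ∀ w l : G, UF w a → l * a = a * l → l * w * l⁻¹ = z → OddO (a * (k * a * k⁻¹)) := by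
    intro w l uw hl hlz
    have h2 : OddO (a * (l⁻¹ * k * a * (l⁻¹ * k)⁻¹)) := by
      apply U2_case h1 uw _ (l⁻¹ * k) _ rfl
      have h3 : w = l⁻¹ * z * l := by rw [← hlz]; group
      calc l⁻¹ * k * a * (l⁻¹ * k)⁻¹ * w = l⁻¹ * ((k * a * k⁻¹) * z) * l := by rw [h3]; group
        _ = l⁻¹ * (z * (k * a * k⁻¹)) * l := by rw [hzy]
        _ = w * (l⁻¹ * k * a * (l⁻¹ * k)⁻¹) := by rw [h3]; group
    have h4 := h2.conj l
    have h5 : l * (a * (l⁻¹ * k * a * (l⁻¹ * k)⁻¹)) * l⁻¹ = a * (k * a * k⁻¹) := by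
      calc l * (a * (l⁻¹ * k * a * (l⁻¹ * k)⁻¹)) * l⁻¹ = (l * a) * l⁻¹ * (k * a * k⁻¹) := by group
        _ = (a * l) * l⁻¹ * (k * a * k⁻¹) := by rw [hl]
        _ = a * (k * a * k⁻¹) := by group
    rwa [h5] at h4
  rcases U2_i h1 u z hza hzz hz1 with h2 | ⟨l, hl, hlz⟩ | ⟨l, hl, hlz⟩
  · rw [h2] at hzy
    rcases U2_i h1 u _ hzy.symm hyy hy1 with h3 | ⟨m, -, hm⟩ | ⟨m, -, hm⟩
    · rw [h3, u.aa]
      exact OddO.one
    · exfalso
      apply u.nab (m⁻¹ * k)
      calc m⁻¹ * k * a * (m⁻¹ * k)⁻¹ = m⁻¹ * (k * a * k⁻¹) * m := by group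
        _ = m⁻¹ * (m * b * m⁻¹) * m := by rw [hm]
        _ = b := by group
    · exfalso
      apply u.nac (m⁻¹ * k)
      calc m⁻¹ * k * a * (m⁻¹ * k)⁻¹ = m⁻¹ * (k * a * k⁻¹) * m := by group
        _ = m⁻¹ * (m * (a * b) * m⁻¹) * m := by rw [hm]
        _ = a * b := by group
  · exact main b l (UF_symm u) hl hlz
  · exact main (a * b) l (U2_third u) hl hlz

/-- (ii) -/
lemma U2_ii (h1 : S_U1) {a b : G} (u : UF a b) (x : G) (hx : x * x = 1) (hx1 : x ≠ 1) :
    ∃ k : G, k * x * k⁻¹ = a ∨ k * x * k⁻¹ = b ∨ k * x * k⁻¹ = a * b := by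
  have inv' : ∀ k w : G, k * w * k⁻¹ = x → k⁻¹ * x * k⁻¹⁻¹ = w := by
    intro k w e
    rw [← e]
    group
  rcases U2_prod u.per u.aa hx with h | ⟨z, hzz, hz1, hza, hzx⟩
  · obtain ⟨n, hn, -⟩ := conj_odd hx u.aa h
    exact ⟨n, Or.inl hn⟩
  have main : ∀ w w' l : G, UF w w' → l * w * l⁻¹ = z → ∃ k : G, k * x * k⁻¹ = w ∨ k * x * k⁻¹ = w' ∨
      k * x * k⁻¹ = w * w' := by
    intro w w' l uw hlz
    have h3 : w = l⁻¹ * z * l := by rw [← hlz]; group
    have h4 : (l⁻¹ * x * l) * w = w * (l⁻¹ * x * l) := by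
      calc (l⁻¹ * x * l) * w = l⁻¹ * (x * z) * l := by rw [h3]; group
        _ = l⁻¹ * (z * x) * l := by rw [hzx]
        _ = w * (l⁻¹ * x * l) := by rw [h3]; group
    have h5 : (l⁻¹ * x * l) * (l⁻¹ * x * l) = 1 := by
      calc (l⁻¹ * x * l) * (l⁻¹ * x * l) = l⁻¹ * (x * x) * l := by group
        _ = 1 := by rw [hx]; group
    have h6 : l⁻¹ * x * l ≠ 1 := by
      intro e
      apply hx1
      calc x = l * (l⁻¹ * x * l) * l⁻¹ := by group
        _ = 1 := by rw [e]; group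
    rcases U2_i h1 uw _ h4 h5 h6 with h7 | ⟨m, -, hm⟩ | ⟨m, -, hm⟩
    · refine ⟨l⁻¹, Or.inl ?_⟩
      rw [inv_inv, h7]
    · refine ⟨m⁻¹ * l⁻¹, Or.inr (Or.inl ?_)⟩
      calc m⁻¹ * l⁻¹ * x * (m⁻¹ * l⁻¹)⁻¹ = m⁻¹ * (l⁻¹ * x * l) * m := by group
        _ = m⁻¹ * (m * w' * m⁻¹) * m := by rw [hm]
        _ = w' := by group
    · refine ⟨m⁻¹ * l⁻¹, Or.inr (Or.inr ?_)⟩
      calc m⁻¹ * l⁻¹ * x * (m⁻¹ * l⁻¹)⁻¹ = m⁻¹ * (l⁻¹ * x * l) * m := by group
        _ = m⁻¹ * (m * (w * w') * m⁻¹) * m := by rw [hm]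
        _ = w * w' := by group
  rcases U2_i h1 u z hza hzz hz1 with h2 | ⟨l, -, hlz⟩ | ⟨l, -, hlz⟩
  · have h3 : (1 : G) * a * (1 : G)⁻¹ = z := by rw [h2]; group
    exact main a b 1 u h3
  · obtain ⟨k, hk | hk | hk⟩ := main b a l (UF_symm u) hlz
    · exact ⟨k, Or.inr (Or.inl hk)⟩
    · exact ⟨k, Or.inl hk⟩
    · exact ⟨k, Or.inr (Or.inr (by rw [hk, u.ab]))⟩
  · obtain ⟨k, hk | hk | hk⟩ := main (a * b) a l (U2_third u) hlz
    · exact ⟨k, Or.inr (Or.inr hk)⟩
    · exact ⟨k, Or.inl hk⟩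
    · refine ⟨k, Or.inr (Or.inl ?_)⟩
      rw [hk]
      calc a * b * a = a * (b * a) := by group
        _ = a * (a * b) := by rw [u.ab]
        _ = (a * a) * b := by group
        _ = b := by rw [u.aa, one_mul]

end

theorem u2 (h1 : S_U1) : S_U2 := by
  intro G _ a b u
  refine ⟨fun h ha hh hne => U2_i h1 u h ha hh hne, fun x hx hx1 => U2_ii h1 u x hx hx1, ?_, ?_⟩
  · intro x k hx hx1
    have main : ∀ w w' g : G, UF w w' → g * x * g⁻¹ = w → OddO (x * (k * x * k⁻¹)) := by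
      intro w w' g uw hg
      have h2 := (U2_iii h1 uw (g * k * g⁻¹)).conj g⁻¹
      have h3 : g⁻¹ * (w * (g * k * g⁻¹ * w * (g * k * g⁻¹)⁻¹)) * g⁻¹⁻¹ = x * (k * x * k⁻¹) := by
        rw [← hg]
        group
      rwa [h3] at h2
    obtain ⟨g, hg | hg | hg⟩ := U2_ii h1 u x hx hx1
    · exact main a b g u hg
    · exact main b a g (UF_symm u) hg
    · exact main (a * b) a g (U2_third u) hg
  · intro x y hx hy ho
    have xinv : x⁻¹ = x := inv_eq_of_mul_eq_one_left hx
    have yinv : y⁻¹ = y := inv_eq_of_mul_eq_one_left hy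
    have h2 : OddO (y * x) := by
      obtain ⟨k, hk, hk2⟩ := ho
      refine ⟨k, hk, ?_⟩
      have h3 : y * x = (x * y)⁻¹ := by rw [mul_inv_rev, xinv, yinv]
      rw [h3, inv_pow, hk2, inv_one]
    obtain ⟨n, hn, -⟩ := conj_odd hx hy h2
    exact ⟨n, hn⟩

end Pool.Agent.Klein
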