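import Pool.Agent.Lib.MP_3c9215_al.U1

set_option autoImplicit false

/-!
# MP_3c9215_al: U3, a subgroup of index two in the unfused case
-/

namespace Pool.Agent.Klein

section
variable {G : Type} [Group G]

/-- elements of odd order centralized by `a` and inverted by `b` -/
def U3P (a b r : G) : Prop := OddO r ∧ r * a = a * r ∧ b * r * b⁻¹ = r⁻¹

/-- elements of odd order inverted by `a` -/
def U3Q (a i : G) : Prop := OddO i ∧ a * i * a⁻¹ = i⁻¹

lemma U3Q.conj {a i h : G} (hi : U3Q a i) (hh : h * a = a * h) : U3Q a (h * i * h⁻¹) := by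
  refine ⟨hi.1.conj h, ?_⟩
  have e : h⁻¹ * a⁻¹ = a⁻¹ * h⁻¹ := by rw [← mul_inv_rev, ← mul_inv_rev, hh]
  calc a * (h * i * h⁻¹) * a⁻¹ = (a * h) * i * (h⁻¹ * a⁻¹) := by group
    _ = (h * a) * i * (a⁻¹ * h⁻¹) := by rw [hh, e]
    _ = h * (a * i * a⁻¹) * h⁻¹ := by group
    _ = (h * i * h⁻¹)⁻¹ := by rw [hi.2]; group

lemma OddO.inv {g : G} (h : OddO g) : OddO g⁻¹ := by
  obtain ⟨k, hk, hk2⟩ := h
  exact ⟨k, hk, by rw [inv_pow, hk2, inv_one]⟩

lemma U3Q.inv {a i : G} (hi : U3Q a i) : U3Q a i⁻¹ := by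
  refine ⟨hi.1.inv, ?_⟩
  have := congrArg (fun w => w⁻¹) hi.2
  simpa [mul_assoc] using this

/-- `h` is `r` or `a r` -/
def U3B (a b h : G) : Prop := ∃ r, U3P a b r ∧ (h = r ∨ h = a * r)

lemma U3B.comm {a b h : G} (hh : U3B a b h) : h * a = a * h := by
  obtain ⟨r, hr, rfl | rfl⟩ := hh
  · exact hr.2.1
  · rw [mul_assoc, hr.2.1]

lemma comm_inv_of {g a : G} (h : g * a = a * g) : g⁻¹ * a = a * g⁻¹ := by
  have : Commute g a := h
  exact this.inv_left

lemma U3P.inv {a b r : G} (hr : U3P a b r) : U3P a b r⁻¹ := by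
  refine ⟨hr.1.inv, comm_inv_of hr.2.1, ?_⟩
  have := congrArg (fun w => w⁻¹) hr.2.2
  simpa [mul_assoc] using this

end

theorem u3 (h1 : S_U1) (h2 : S_U2) : S_U3 := by
  intro G _ a b u
  obtain ⟨-, dec, mul⟩ := h1 G a b u
  obtain ⟨-, -, i3, i4⟩ := h2 G a b u
  have ainv : a⁻¹ = a := inv_eq_of_mul_eq_one_left u.aa
  have binv : b⁻¹ = b := inv_eq_of_mul_eq_one_left u.bb
  have Pmul : ∀ r s, U3P a b r → U3P a b s → U3P a b (r * s) := by
    intro r s hr hs
    obtain ⟨m1, m2, -⟩ := mul r s hr.1 hs.1 hr.2.1 hs.2.1 hr.2.2 hs.2.2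
    refine ⟨m1, ?_, m2⟩
    have c1 : Commute r a := hr.2.1
    have c2 : Commute s a := hs.2.1
    exact c1.mul_left c2
  have Pone : U3P a b 1 := ⟨OddO.one, by simp, by simp⟩
  -- `B` is closed
  have Bmul : ∀ h k, U3B a b h → U3B a b k → U3B a b (h * k) := by
    rintro h k ⟨r, hr, hh⟩ ⟨s, hs, hk⟩
    refine ⟨r * s, Pmul r s hr hs, ?_⟩
    rcases hh with rfl | rfl <;> rcases hk with rfl | rfl
    · exact Or.inl rfl
    · right
      rw [← mul_assoc, hr.2.1, mul_assoc]
    · right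
      rw [mul_assoc]
    · left
      calc a * r * (a * s) = a * (r * a) * s := by group
        _ = a * (a * r) * s := by rw [hr.2.1]
        _ = (a * a) * r * s := by group
        _ = r * s := by rw [u.aa, one_mul]
  have Binv : ∀ h, U3B a b h → U3B a b h⁻¹ := by
    rintro h ⟨r, hr, hh⟩
    refine ⟨r⁻¹, hr.inv, ?_⟩
    rcases hh with rfl | rfl
    · exact Or.inl rfl
    · right
      rw [mul_inv_rev, ainv, comm_inv_of hr.2.1]
  -- (1) decomposition
  have dec1 : ∀ g : G, ∃ h i : G, h * a = a * h ∧ U3Q a i ∧ g = h * i := by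
    intro g
    have ho := i3 a g⁻¹ u.aa u.a1
    rw [inv_inv] at ho
    have hi := ho.sqr
    have hsq := ho.sqr_sq
    have hinv : a * (a * (g⁻¹ * a * g)) * a⁻¹ = (a * (g⁻¹ * a * g))⁻¹ := by
      have e : (g⁻¹ * a * g)⁻¹ = g⁻¹ * a * g := by
        rw [mul_inv_rev, mul_inv_rev, ainv, inv_inv, mul_assoc]
      rw [mul_inv_rev, e, ← mul_assoc, u.aa, one_mul]
    have hinv2 := sqr_inverted hinv
    set i := sqr (a * (g⁻¹ * a * g)) with hidef
    have e1 : i⁻¹ * a * i = g⁻¹ * a * g := by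
      rw [U1_conj hinv2, hsq, ← mul_assoc, u.aa, one_mul]
    refine ⟨g * i⁻¹, i, ?_, ⟨hi, hinv2⟩, by group⟩
    calc g * i⁻¹ * a = g * (i⁻¹ * a * i) * i⁻¹ := by group
      _ = g * (g⁻¹ * a * g) * i⁻¹ := by rw [e1]
      _ = a * (g * i⁻¹) := by group
  -- (2)
  have dec2 : ∀ h : G, h * a = a * h → U3B a b h ∨ ∃ r, U3P a b r ∧ (h = b * r ∨ h = a * b * r) := by
    intro h hh
    obtain ⟨v, r, hv, r1, r2, r3, e⟩ := dec h hh
    rcases hv with rfl | rfl | rfl | rfl
    · left; exact ⟨r, ⟨r1, r2, r3⟩, Or.inl (by rw [e, one_mul])⟩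
    · left; exact ⟨r, ⟨r1, r2, r3⟩, Or.inr e⟩
    · right; exact ⟨r, ⟨r1, r2, r3⟩, Or.inl e⟩
    · right; exact ⟨r, ⟨r1, r2, r3⟩, Or.inr e⟩
  -- an inverting element times the inverted one is a conjugate
  have conjinv : ∀ x i : G, OddO i → x * i * x⁻¹ = i⁻¹ → x * i = (sqr i)⁻¹ * x * sqr i := by
    intro x i hi hx
    rw [U1_conj (sqr_inverted hx), hi.sqr_sq]
  -- (3)
  have II : ∀ i i' : G, U3Q a i → U3Q a i' → ∃ h k, U3B a b h ∧ U3Q a k ∧ i * i' = h * k := by
    intro i i' hi hi'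
    have hodd : OddO (i * i') := by
      have e1 := conjinv a i hi.1 hi.2
      have e2 : i' * a = sqr i' * a * (sqr i')⁻¹ := by
        rw [U1_conj' (sqr_inverted hi'.2), hi'.1.sqr_sq]
      have e3 : i * i' = a * ((sqr i)⁻¹ * (a * ((sqr i * sqr i') * a * (sqr i * sqr i')⁻¹)) *
          (sqr i)⁻¹⁻¹) * a⁻¹ := by
        calc i * i' = a⁻¹ * (a * i) * (i' * a) * a⁻¹ := by group
          _ = a * (a * i) * (i' * a) * a⁻¹ := by rw [ainv]
          _ = a * ((sqr i)⁻¹ * a * sqr i) * (sqr i' * a * (sqr i')⁻¹) * a⁻¹ := by rw [e1, e2]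
          _ = _ := by group
      rw [e3]
      exact ((i3 a _ u.aa u.a1).conj _).conj _
    obtain ⟨h, k, hh, hk, e⟩ := dec1 (i * i')
    rcases dec2 h hh with hB | ⟨r, hr, hr2⟩
    · exact ⟨h, k, hB, hk, e⟩
    exfalso
    -- the involutions `h a` and `a k`
    have hak : a * k = (sqr k)⁻¹ * a * sqr k := conjinv a k hk.1 hk.2
    have hakk : a * k * (a * k) = 1 := by
      calc a * k * (a * k) = (a * k * a⁻¹) * (a * a) * k := by group
        _ = 1 := by rw [hk.2, u.aa]; group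
    have hprod : i * i' = (h * a) * (a * k) := by
      rw [e]
      calc h * k = h * 1 * k := by group
        _ = h * (a * a) * k := by rw [u.aa]
        _ = (h * a) * (a * k) := by group
    have key : ∀ x : G, x * x = 1 → x * r * x⁻¹ = r⁻¹ → h * a = x * r → ∃ g : G, g * a * g⁻¹ = x := by
      intro x hxx hxr hx
      have e5 := conjinv x r hr.1 hxr
      have hha : h * a * (h * a) = 1 := by
        rw [hx]
        calc x * r * (x * r) = (x * r * x⁻¹) * (x * x) * r := by group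
          _ = 1 := by rw [hxr, hxx]; group
      obtain ⟨c, hc⟩ := i4 (h * a) (a * k) hha hakk (by rw [← hprod]; exact hodd)
      refine ⟨sqr r * c⁻¹ * (sqr k)⁻¹, ?_⟩
      calc sqr r * c⁻¹ * (sqr k)⁻¹ * a * (sqr r * c⁻¹ * (sqr k)⁻¹)⁻¹
          = sqr r * c⁻¹ * ((sqr k)⁻¹ * a * sqr k) * c * (sqr r)⁻¹ := by group
        _ = sqr r * c⁻¹ * (a * k) * c * (sqr r)⁻¹ := by rw [← hak]
        _ = sqr r * c⁻¹ * (c * (h * a) * c⁻¹) * c * (sqr r)⁻¹ := by rw [hc]
        _ = sqr r * (h * a) * (sqr r)⁻¹ := by group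
        _ = sqr r * (x * r) * (sqr r)⁻¹ := by rw [hx]
        _ = sqr r * ((sqr r)⁻¹ * x * sqr r) * (sqr r)⁻¹ := by rw [← e5]
        _ = x := by group
    rcases hr2 with rfl | rfl
    · -- `h a = (a b) r`
      obtain ⟨g, hg⟩ := key (a * b) (by
          calc a * b * (a * b) = a * (b * a) * b := by group
            _ = a * (a * b) * b := by rw [u.ab]
            _ = (a * a) * (b * b) := by group
            _ = 1 := by rw [u.aa, u.bb, one_mul]) (by
          have e6 : a * r⁻¹ = r⁻¹ * a := (comm_inv_of hr.2.1).symm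
          calc a * b * r * (a * b)⁻¹ = a * (b * r * b⁻¹) * a⁻¹ := by group
            _ = a * r⁻¹ * a⁻¹ := by rw [hr.2.2]
            _ = r⁻¹ * a * a⁻¹ := by rw [e6]
            _ = r⁻¹ := by group) (by
          calc b * r * a = b * (r * a) := by group
            _ = b * (a * r) := by rw [hr.2.1]
            _ = (b * a) * r := by group
            _ = a * b * r := by rw [u.ab])
      exact u.nac g hg
    · obtain ⟨g, hg⟩ := key b u.bb hr.2.2 (by
          calc a * b * r * a = a * b * (r * a) := by group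
            _ = a * b * (a * r) := by rw [hr.2.1]
            _ = a * (b * a) * r := by group
            _ = a * (a * b) * r := by rw [u.ab]
            _ = (a * a) * b * r := by group
            _ = b * r := by rw [u.aa, one_mul])
      exact u.nab g hg
  -- the subgroup
  let K : Subgroup G :=
    { carrier := {g | ∃ h i, U3B a b h ∧ U3Q a i ∧ g = h * i}
      mul_mem' := by
        rintro g g' ⟨h, i, hh, hi, rfl⟩ ⟨h', i', hh', hi', rfl⟩
        have hc : h'⁻¹ * a = a * h'⁻¹ := comm_inv_of hh'.comm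
        have hi2 : U3Q a (h'⁻¹ * i * h'⁻¹⁻¹) := hi.conj hc
        obtain ⟨k, l, hk, hl, e⟩ := II _ _ hi2 hi'
        refine ⟨h * h' * k, l, Bmul _ _ (Bmul _ _ hh hh') hk, hl, ?_⟩
        calc h * i * (h' * i') = h * h' * (h'⁻¹ * i * h'⁻¹⁻¹ * i') := by group
          _ = h * h' * (k * l) := by rw [e]
          _ = h * h' * k * l := by group
      one_mem' := ⟨1, 1, ⟨1, Pone, Or.inl rfl⟩, ⟨OddO.one, by simp⟩, by simp⟩
      inv_mem' := by
        rintro g ⟨h, i, hh, hi, rfl⟩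
        refine ⟨h⁻¹, h * i⁻¹ * h⁻¹, Binv _ hh, hi.inv.conj hh.comm, by group⟩ }
  have hK : ∀ g, g ∈ K ↔ ∃ h i, U3B a b h ∧ U3Q a i ∧ g = h * i := fun g => Iff.rfl
  have haK : a ∈ K := (hK a).2 ⟨a, 1, ⟨1, Pone, Or.inr (by simp)⟩, ⟨OddO.one, by simp⟩, by simp⟩
  have hbK : b ∉ K := by
    intro hb
    obtain ⟨h, i, hh, hi, e⟩ := (hK b).1 hb
    have hi1 : i = 1 := by
      apply hi.1.eq_one
      have e1 : i * a = a * i := by
        have e2 : i = h⁻¹ * b := by rw [e]; group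
        have c1 : Commute h a := hh.comm
        have c2 : Commute b a := u.ab.symm
        rw [e2]
        exact c1.inv_left.mul_left c2
      have e3 : i = i⁻¹ := by
        calc i = i * a * a⁻¹ := by group
          _ = a * i * a⁻¹ := by rw [e1]
          _ = i⁻¹ := hi.2
      calc i * i = i * i⁻¹ := by rw [← e3]
        _ = 1 := by group
    rw [hi1, mul_one] at e
    obtain ⟨r, hr, hr2 | hr2⟩ := hh
    · have : r = 1 := by
        apply hr.1.eq_one
        rw [← hr2, ← e, u.bb]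
      exact u.b1 (by rw [e, hr2, this])
    · have e4 : r = a * b := by
        rw [e, hr2, ← mul_assoc, u.aa, one_mul]
      have : r = 1 := by
        apply hr.1.eq_one
        rw [e4]
        calc a * b * (a * b) = a * (b * a) * b := by group
          _ = a * (a * b) * b := by rw [u.ab]
          _ = (a * a) * (b * b) := by group
          _ = 1 := by rw [u.aa, u.bb, one_mul]
      apply u.ne
      calc a = a * b * b⁻¹ := by group
        _ = b⁻¹ := by rw [← e4, this, one_mul]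
        _ = b := binv
  refine ⟨K, ?_, haK, hbK⟩
  rw [Subgroup.index_eq_two_iff']
  refine ⟨b, fun g => ?_⟩
  by_cases hg : g ∈ K
  · right
    refine ⟨hg, fun hbg => hbK ?_⟩
    exact (K.mul_mem_cancel_right hg).1 hbg
  · left
    refine ⟨?_, hg⟩
    obtain ⟨h, i, hh, hi, rfl⟩ := dec1 g
    rcases dec2 h hh with hB | ⟨r, hr, rfl | rfl⟩
    · exact absurd ((hK _).2 ⟨h, i, hB, hi, rfl⟩) hg
    · refine (hK _).2 ⟨r, i, ⟨r, hr, Or.inl rfl⟩, hi, ?_⟩
      calc b * (b * r * i) = (b * b) * r * i := by group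
        _ = r * i := by rw [u.bb, one_mul]
    · refine (hK _).2 ⟨a * r, i, ⟨r, hr, Or.inr rfl⟩, hi, ?_⟩
      calc b * (a * b * r * i) = (b * a) * b * r * i := by group
        _ = (a * b) * b * r * i := by rw [u.ab]
        _ = a * (b * b) * r * i := by group
        _ = a * r * i := by rw [u.bb, mul_one]

end Pool.Agent.Klein
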